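import Mathlib

/-! Linear algebra in the span of finitely many eigenvectors with distinct eigenvalues. -/

set_option autoImplicit false

namespace Pool.Agent.Lib.MP_bb8441_an

variable {X : Type*} [NormedAddCommGroup X] [NormedSpace ℂ X]

/-- The equation `(S - b) h = w` can be solved in the span when `b` is not one of the
eigenvalues. -/
theorem solve_span (S : X →L[ℂ] X) (u : ℂ → X) (A : Finset ℂ) (h : ∀ c ∈ A, S (u c) = c • u c)
    (b : ℂ) (hb : b ∉ A) (w : X) (hw : w ∈ Submodule.span ℂ (u '' (A : Set ℂ))) :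
    ∃ v ∈ Submodule.span ℂ (u '' (A : Set ℂ)), S v - b • v = w := by
  induction hw using Submodule.span_induction with
  | mem x hx =>
    obtain ⟨c, hc, rfl⟩ := hx
    have hc' : c ∈ A := hc
    have hcb : c - b ≠ 0 := by
      intro h0
      apply hb
      rw [← sub_eq_zero.mp h0]
      exact hc'
    refine ⟨(c - b)⁻¹ • u c, Submodule.smul_mem _ _ (Submodule.subset_span ⟨c, hc, rfl⟩), ?_⟩
    rw [map_smul, h c hc', smul_smul, smul_smul, ← sub_smul]
    have : (c - b)⁻¹ * c - b * (c - b)⁻¹ = 1 := by
      field_simp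
    rw [this, one_smul]
  | zero => exact ⟨0, Submodule.zero_mem _, by simp⟩
  | add x y _ _ hx hy =>
    obtain ⟨v, hv, hv'⟩ := hx
    obtain ⟨v₂, hv₂, hv₂'⟩ := hy
    refine ⟨v + v₂, Submodule.add_mem _ hv hv₂, ?_⟩
    rw [map_add, smul_add, ← hv', ← hv₂']
    abel
  | smul a x _ hx =>
    obtain ⟨v, hv, hv'⟩ := hx
    refine ⟨a • v, Submodule.smul_mem _ _ hv, ?_⟩
    rw [map_smul, ← hv', smul_sub, smul_comm b a v]

/-- The span is invariant. -/
theorem span_invariant (S : X →L[ℂ] X) (u : ℂ → X) (A : Finset ℂ)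
    (h : ∀ c ∈ A, S (u c) = c • u c) (w : X)
    (hw : w ∈ Submodule.span ℂ (u '' (A : Set ℂ))) :
    S w ∈ Submodule.span ℂ (u '' (A : Set ℂ)) := by
  induction hw using Submodule.span_induction with
  | mem x hx =>
    obtain ⟨c, hc, rfl⟩ := hx
    rw [h c hc]
    exact Submodule.smul_mem _ _ (Submodule.subset_span ⟨c, hc, rfl⟩)
  | zero => simp
  | add x y _ _ hx hy =>
    rw [map_add]
    exact Submodule.add_mem _ hx hy
  | smul a x _ hx =>
    rw [map_smul]
    exact Submodule.smul_mem _ _ hx

/-- The only eigenvector for `b` in the span is zero when `b` is not one of the eigenvalues. -/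
theorem eig_zero (S : X →L[ℂ] X) (u : ℂ → X) (A : Finset ℂ) (h : ∀ c ∈ A, S (u c) = c • u c)
    (b : ℂ) (hb : b ∉ A) (w : X) (hw : w ∈ Submodule.span ℂ (u '' (A : Set ℂ)))
    (hS : S w = b • w) : w = 0 := by
  classical
  induction A using Finset.induction_on generalizing b w with
  | empty => simpa using hw
  | insert a A ha ih =>
    have hA : ∀ c ∈ A, S (u c) = c • u c := fun c hc => h c (Finset.mem_insert_of_mem hc)
    rw [Finset.coe_insert, Set.image_insert_eq, Submodule.mem_span_insert] at hw
    obtain ⟨t, w', hw', rfl⟩ := hw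
    have hab : a ≠ b := fun h0 => hb (h0 ▸ Finset.mem_insert_self a A)
    have hbA : b ∉ A := fun h0 => hb (Finset.mem_insert_of_mem h0)
    have hua : S (u a) = a • u a := h a (Finset.mem_insert_self a A)
    have h1 : S w' - b • w' = -((t * (a - b)) • u a) := by
      rw [map_add, map_smul, hua, smul_add, smul_smul, smul_smul] at hS
      have h2 : S w' - b • w' = (b * t) • u a - (t * a) • u a := by
        have h3 : S w' = (b * t) • u a + b • w' - (t * a) • u a := by
          rw [← hS]; abel
        rw [h3]; abel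
      rw [h2, ← sub_smul, ← neg_smul]
      congr 1
      ring
    have hz : S w' - b • w' ∈ Submodule.span ℂ (u '' (A : Set ℂ)) :=
      Submodule.sub_mem _ (span_invariant S u A hA w' hw') (Submodule.smul_mem _ _ hw')
    have h4 : S w' - b • w' = 0 := by
      refine ih hA a ha _ hz ?_
      rw [h1, map_neg, map_smul, hua, smul_neg, smul_comm a]
    have h5 : w' = 0 := ih hA b hbA w' hw' (sub_eq_zero.mp h4)
    have h6 : (t * (a - b)) • u a = 0 := by
      rw [h4] at h1
      exact neg_eq_zero.mp h1.symm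
    have h7 : t • u a = 0 := by
      rw [mul_comm, ← smul_smul] at h6
      exact (smul_eq_zero.mp h6).resolve_left (sub_ne_zero.mpr hab)
    rw [h5, h7, add_zero]

/-- The eigenvectors for `b ∈ A` in the span are the multiples of `u b`. -/
theorem eig_multiple (S : X →L[ℂ] X) (u : ℂ → X) (A : Finset ℂ) (h : ∀ c ∈ A, S (u c) = c • u c)
    (b : ℂ) (hb : b ∈ A) (w : X) (hw : w ∈ Submodule.span ℂ (u '' (A : Set ℂ)))
    (hS : S w = b • w) : ∃ t : ℂ, w = t • u b := by
  classical
  have e : (A : Set ℂ) = insert b ((A.erase b : Finset ℂ) : Set ℂ) := by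
    rw [← Finset.coe_insert, Finset.insert_erase hb]
  rw [e, Set.image_insert_eq, Submodule.mem_span_insert] at hw
  obtain ⟨t, w', hw', rfl⟩ := hw
  refine ⟨t, ?_⟩
  have h1 : S w' = b • w' := by
    rw [map_add, map_smul, h b hb, smul_add, smul_comm t b] at hS
    exact add_left_cancel hS
  have h2 : w' = 0 :=
    eig_zero S u (A.erase b) (fun c hc => h c (Finset.mem_of_mem_erase hc)) b
      (Finset.notMem_erase b A) w' hw' h1
  rw [h2, add_zero]

/-- Nonzero eigenvectors for infinitely many distinct eigenvalues do not all lie in a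
finite-dimensional subspace. -/
theorem eig_escape (T : X →L[ℂ] X) (e : ℕ → X) (c : ℕ → ℂ) (hc : Function.Injective c)
    (he : ∀ n, e n ≠ 0 ∧ T (e n) = c n • e n) (W : Submodule ℂ X) [FiniteDimensional ℂ W] :
    ∃ N : ℕ, ∀ n, N ≤ n → e n ∉ W := by
  have hli : LinearIndependent ℂ e :=
    Module.End.eigenvectors_linearIndependent' (T : X →ₗ[ℂ] X) c hc e fun n =>
      ⟨Module.End.mem_eigenspace_iff.mpr (he n).2, (he n).1⟩
  set I : Set ℕ := {n | e n ∈ W} with hI
  have hli2 : LinearIndependent ℂ (fun i : I => (⟨e i, i.2⟩ : W)) := by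
    have h1 : LinearIndependent ℂ (fun i : I => e i) :=
      hli.comp (fun i : I => (i : ℕ)) Subtype.val_injective
    exact LinearIndependent.of_comp W.subtype h1
  have hfin : Finite I := hli2.finite
  obtain ⟨M, hM⟩ := (Set.toFinite I).bddAbove
  refine ⟨M + 1, fun n hn hnW => ?_⟩
  have := hM (show n ∈ I from hnW)
  omega

end Pool.Agent.Lib.MP_bb8441_an
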