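import Pool.Agent.Lib.MP_bb8441_an.Defs
import Pool.Agent.Lib.MP_bb8441_an.SolveSpan

/-! Adding one node or one pending child to a stage. -/

set_option autoImplicit false

namespace Pool.Agent.Lib.MP_bb8441_an

variable {X : Type*} [NormedAddCommGroup X] [NormedSpace ℂ X]

theorem NodeExt.refl (s : State X) : State.NodeExt s s :=
  { S_eq := rfl, B_eq := rfl, P_eq := rfl, A_sub := subset_rfl, u_eq := fun _ _ => rfl }

theorem NodeExt.trans (s s' s'' : State X) (h : State.NodeExt s s') (h' : State.NodeExt s' s'') :
    State.NodeExt s s'' := by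
  refine { S_eq := h'.S_eq.trans h.S_eq, B_eq := h'.B_eq.trans h.B_eq,
           P_eq := h'.P_eq.trans h.P_eq, A_sub := h.A_sub.trans h'.A_sub, u_eq := ?_ }
  intro c hc
  rw [h'.u_eq c ?_, h.u_eq c hc]
  rw [h.B_eq, h.P_eq]
  simp only [Finset.mem_union] at hc ⊢
  rcases hc with (hc | hc) | hc
  · exact Or.inl (Or.inl (h.A_sub hc))
  · exact Or.inl (Or.inr hc)
  · exact Or.inr hc

/-- One eigenvector of `T`, for a new eigenvalue, is brought into the span of the nodes. -/
theorem add_node (T : X →L[ℂ] X) (Λ R : Set ℂ) (s : State X) (hs : State.Inv T Λ R s)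
    (c : ℂ) (hcΛ : c ∈ Λ) (hc : c ∉ s.A ∪ s.B ∪ s.P) (e : X) (he : T e = c • e) :
    ∃ s' : State X, State.Inv T Λ R s' ∧ State.NodeExt s s' ∧ s'.A ⊆ insert c s.A ∧
      e ∈ Submodule.span ℂ (s'.u '' (s'.A : Set ℂ)) := by
  classical
  by_cases hmem : e ∈ Submodule.span ℂ (s.u '' (s.A : Set ℂ))
  · exact ⟨s, hs, NodeExt.refl s, Finset.subset_insert _ _, hmem⟩
  · have hcA : c ∉ s.A := fun h => hc (by simp only [Finset.mem_union]; tauto)
    have hcB : c ∉ s.B := fun h => hc (by simp only [Finset.mem_union]; tauto)
    have hcP : c ∉ s.P := fun h => hc (by simp only [Finset.mem_union]; tauto)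
    have heigA : ∀ b ∈ s.A, s.S (s.u b) = b • s.u b := fun b hb =>
      hs.eig b (Finset.mem_union_left _ hb)
    obtain ⟨h, hhW, hh⟩ := solve_span s.S s.u s.A heigA c hcA _
      (Submodule.neg_mem _ (hs.range e))
    have hS : s.S (e + h) = c • (e + h) := by
      have h3 : s.S h = c • h - (s.S e - T e) := by
        rw [sub_eq_iff_eq_add] at hh
        rw [hh]; abel
      rw [map_add, h3, he, smul_add]
      abel
    have hne0 : e + h ≠ 0 := by
      intro h0
      apply hmem
      have : e = -h := eq_neg_of_add_eq_zero_left h0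
      rw [this]
      exact Submodule.neg_mem _ hhW
    have hu : ∀ b ∈ s.A ∪ s.B ∪ s.P, Function.update s.u c (e + h) b = s.u b := by
      intro b hb
      have : b ≠ c := by
        rintro rfl
        exact hc hb
      rw [Function.update_of_ne this]
    have hsub : Submodule.span ℂ (s.u '' (s.A : Set ℂ)) ≤
        Submodule.span ℂ (Function.update s.u c (e + h) '' ((insert c s.A : Finset ℂ) : Set ℂ)) := by
      apply Submodule.span_mono
      rintro _ ⟨b, hb, rfl⟩
      refine ⟨b, ?_, hu b ?_⟩
      · simp only [Finset.coe_insert, Set.mem_insert_iff]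
        exact Or.inr hb
      · simp only [Finset.mem_union]
        exact Or.inl (Or.inl hb)
    refine ⟨⟨s.S, Function.update s.u c (e + h), insert c s.A, s.B, s.P⟩, ?_, ?_,
      subset_rfl, ?_⟩
    · refine { A_mem := ?_, B_mem := hs.B_mem, P_mem := hs.P_mem, AB := ?_, AP := ?_,
               BP := hs.BP, eig := ?_, ne := ?_, range := ?_, P_not := hs.P_not }
      · intro b hb
        rcases Finset.mem_insert.1 hb with rfl | hb
        · exact hcΛ
        · exact hs.A_mem b hb
      · simp only [Finset.disjoint_insert_left]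
        exact ⟨hcB, hs.AB⟩
      · simp only [Finset.disjoint_insert_left]
        exact ⟨hcP, hs.AP⟩
      · intro b hb
        by_cases hbc : b = c
        · subst hbc
          simpa using hS
        · have hb' : b ∈ s.A ∪ s.B := by
            simp only [Finset.mem_union, Finset.mem_insert] at hb ⊢
            tauto
          simp only [Function.update_of_ne hbc]
          exact hs.eig b hb'
      · intro b hb
        by_cases hbc : b = c
        · subst hbc
          simpa using hne0
        · have hb' : b ∈ s.A ∪ s.B := by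
            simp only [Finset.mem_union, Finset.mem_insert] at hb ⊢
            tauto
          simp only [Function.update_of_ne hbc]
          exact hs.ne b hb'
      · intro x
        exact hsub (hs.range x)
    · exact { S_eq := rfl, B_eq := rfl, P_eq := rfl, A_sub := Finset.subset_insert _ _,
              u_eq := hu }
    · have h1 : (e + h) - h ∈ Submodule.span ℂ
          (Function.update s.u c (e + h) '' ((insert c s.A : Finset ℂ) : Set ℂ)) := by
        refine Submodule.sub_mem _ ?_ (hsub hhW)
        apply Submodule.subset_span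
        exact ⟨c, by simp, by simp⟩
      rwa [add_sub_cancel_right] at h1

/-- A child of the node `a` is added, as a pending child, when `a` is a limit of points of `R`
which are not eigenvalues of `T`. -/
theorem pending_child (T : X →L[ℂ] X) (Λ R : Set ℂ) (s : State X) (hs : State.Inv T Λ R s)
    (a : ℂ) (ha : a ∈ s.A)
    (hacc : ∀ δ > 0, ∃ c ∈ R, c ≠ a ∧ ‖c - a‖ < δ ∧ ∀ x, T x = c • x → x = 0)
    (ε : ℝ) (hε : 0 < ε) (η : ℝ) (hη : 0 < η) (hE : State.Err s η) :
    ∃ (s' : State X) (c : ℂ), State.Inv T Λ R s' ∧ State.ChildExt s s' ε ∧ State.Err s' η ∧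
      s'.P.card ≤ s.P.card + 1 ∧ c ∈ s'.B ∪ s'.P ∧ c ≠ a ∧ ‖s'.u c - s'.u a‖ < ε := by
  classical
  set F : Finset ℂ := s.A ∪ s.B ∪ s.P with hF
  obtain ⟨ρ, hρ, hρF⟩ : ∃ ρ > 0, ∀ b ∈ F, b ≠ a → ρ ≤ ‖b - a‖ := by
    by_cases hne : (F.filter (fun b => b ≠ a)).Nonempty
    · obtain ⟨b₀, hb₀, hmin⟩ := Finset.exists_min_image (F.filter (fun b => b ≠ a))
        (fun b => ‖b - a‖) hne
      refine ⟨‖b₀ - a‖, norm_pos_iff.2 (sub_ne_zero.2 (Finset.mem_filter.1 hb₀).2), ?_⟩
      intro b hb hba
      exact hmin b (Finset.mem_filter.2 ⟨hb, hba⟩)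
    · refine ⟨1, one_pos, ?_⟩
      intro b hb hba
      exact absurd ⟨b, Finset.mem_filter.2 ⟨hb, hba⟩⟩ hne
  have hδ : 0 < min ρ (η / (‖s.u a‖ + 1)) := lt_min hρ (by positivity)
  obtain ⟨c, hcR, hca, hcδ, hcT⟩ := hacc _ hδ
  have hcF : c ∉ F := by
    intro h
    exact absurd (hρF c h hca) (not_le.2 (hcδ.trans_le (min_le_left _ _)))
  have hcA : c ∉ s.A := fun h => hcF (by rw [hF]; simp only [Finset.mem_union]; tauto)
  have hcB : c ∉ s.B := fun h => hcF (by rw [hF]; simp only [Finset.mem_union]; tauto)
  have hcP : c ∉ s.P := fun h => hcF (by rw [hF]; simp only [Finset.mem_union]; tauto)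
  have hu : ∀ b ∈ F, Function.update s.u c (s.u a) b = s.u b := by
    intro b hb
    have : b ≠ c := by
      rintro rfl
      exact hcF hb
    rw [Function.update_of_ne this]
  have hac : a ≠ c := fun h => hca h.symm
  have hua : s.S (s.u a) = a • s.u a := hs.eig a (Finset.mem_union_left _ ha)
  have himg : Function.update s.u c (s.u a) '' (s.A : Set ℂ) = s.u '' (s.A : Set ℂ) := by
    apply Set.image_congr
    intro b hb
    apply hu
    rw [hF]; simp only [Finset.mem_union]
    exact Or.inl (Or.inl hb)
  refine ⟨⟨s.S, Function.update s.u c (s.u a), s.A, s.B, insert c s.P⟩, c, ?_, ?_, ?_, ?_, ?_,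
    hca, ?_⟩
  · refine { A_mem := hs.A_mem, B_mem := hs.B_mem, P_mem := ?_, AB := hs.AB, AP := ?_,
             BP := ?_, eig := ?_, ne := ?_, range := ?_, P_not := ?_ }
    · intro b hb
      rcases Finset.mem_insert.1 hb with rfl | hb
      · exact hcR
      · exact hs.P_mem b hb
    · simp only [Finset.disjoint_insert_right]
      exact ⟨hcA, hs.AP⟩
    · simp only [Finset.disjoint_insert_right]
      exact ⟨hcB, hs.BP⟩
    · intro b hb
      have h1 := hu b (by rw [hF]; exact Finset.mem_union_left _ hb)
      simp only [h1]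
      exact hs.eig b hb
    · intro b hb
      have h1 := hu b (by rw [hF]; exact Finset.mem_union_left _ hb)
      simp only [h1]
      exact hs.ne b hb
    · intro x
      simp only [himg]
      exact hs.range x
    · intro b hb
      rcases Finset.mem_insert.1 hb with rfl | hb
      · exact hcT
      · exact hs.P_not b hb
  · refine { A_eq := rfl, B_sub := subset_rfl, P_sub := Finset.subset_insert _ _, u_eq := hu,
             S_near := ?_ }
    simpa using hε.le
  · intro b hb
    rcases Finset.mem_insert.1 hb with rfl | hb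
    · simp only [Function.update_self]
      rw [hua, ← sub_smul, norm_smul]
      have h1 : ‖a - b‖ < η / (‖s.u a‖ + 1) := by
        rw [norm_sub_rev]
        exact hcδ.trans_le (min_le_right _ _)
      rw [lt_div_iff₀ (by positivity)] at h1
      have h2 : 0 ≤ ‖a - b‖ := norm_nonneg _
      nlinarith
    · have h1 := hu b (by rw [hF]; exact Finset.mem_union_right _ hb)
      simp only [h1]
      exact hE b hb
  · simp only
    exact Finset.card_insert_le _ _
  · simp
  · simp only [Function.update_self, Function.update_of_ne hac]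
    simpa using hε

end Pool.Agent.Lib.MP_bb8441_an
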