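import Mathlib

/-! Finitely many eigenvalues can be left out. -/

set_option autoImplicit false

namespace Pool.Agent.Lib.MP_bb8441_an

variable {X : Type*} [NormedAddCommGroup X] [NormedSpace ℂ X]

/-- (T17) One eigenvalue can be left out. -/
theorem dense_remove_one' (T : X →L[ℂ] X) (Λ : Set ℂ) (f : ℂ)
    (hf : DenseRange fun x => T x - f • x)
    (hd : Dense (Submodule.span ℂ {x : X | ∃ c ∈ Λ, T x = c • x} : Set X)) :
    Dense (Submodule.span ℂ {x : X | ∃ c ∈ Λ, c ≠ f ∧ T x = c • x} : Set X) := by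
  set M := Submodule.span ℂ {x : X | ∃ c ∈ Λ, c ≠ f ∧ T x = c • x} with hM
  set D := Submodule.span ℂ {x : X | ∃ c ∈ Λ, T x = c • x} with hD
  have hcont : Continuous fun x => T x - f • x := T.continuous.sub (continuous_const_smul f)
  have h1 := hf.dense_image hcont hd
  apply h1.mono
  rintro _ ⟨x, hx, rfl⟩
  have h2 : D ≤ M.comap ((T : X →ₗ[ℂ] X) - f • LinearMap.id) := by
    rw [hD, Submodule.span_le]
    rintro x ⟨c, hc, hx⟩
    show T x - f • x ∈ M
    rw [hx, ← sub_smul]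
    by_cases hcf : c = f
    · rw [hcf, sub_self, zero_smul]; exact M.zero_mem
    · exact M.smul_mem _ (Submodule.subset_span ⟨c, hc, hcf, hx⟩)
  exact h2 hx

theorem dense_remove (T : X →L[ℂ] X) (Λ : Set ℂ) (F : Finset ℂ)
    (hF : ∀ c ∈ F, DenseRange fun x => T x - c • x)
    (hd : Dense (Submodule.span ℂ {x : X | ∃ c ∈ Λ, T x = c • x} : Set X)) :
    Dense (Submodule.span ℂ {x : X | ∃ c ∈ Λ, c ∉ F ∧ T x = c • x} : Set X) := by
  classical
  induction F using Finset.induction_on with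
  | empty =>
    have h1 : {x : X | ∃ c ∈ Λ, c ∉ (∅ : Finset ℂ) ∧ T x = c • x} =
        {x : X | ∃ c ∈ Λ, T x = c • x} := by
      ext x; simp
    rw [h1]; exact hd
  | insert f F _ ih =>
    have h1 := ih fun c hc => hF c (Finset.mem_insert_of_mem hc)
    have h2 : {x : X | ∃ c ∈ Λ, c ∉ F ∧ T x = c • x} =
        {x : X | ∃ c ∈ {c | c ∈ Λ ∧ c ∉ F}, T x = c • x} := by
      ext x
      simp only [Set.mem_setOf_eq, and_assoc]
    rw [h2] at h1
    have h3 := dense_remove_one' T {c | c ∈ Λ ∧ c ∉ F} f (hF f (Finset.mem_insert_self _ _)) h1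
    have h4 : {x : X | ∃ c ∈ Λ, c ∉ insert f F ∧ T x = c • x} =
        {x : X | ∃ c ∈ {c | c ∈ Λ ∧ c ∉ F}, c ≠ f ∧ T x = c • x} := by
      ext x
      simp only [Set.mem_setOf_eq, Finset.mem_insert, not_or]
      constructor
      · rintro ⟨c, h1, ⟨h2, h3⟩, h4⟩
        exact ⟨c, ⟨h1, h3⟩, h2, h4⟩
      · rintro ⟨c, ⟨h1, h3⟩, h2, h4⟩
        exact ⟨c, h1, ⟨h2, h3⟩, h4⟩
    rw [h4]; exact h3

/-- A vector in the span of eigenvectors is a finite sum of eigenvectors for distinct
eigenvalues. -/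
theorem span_eig_sum (T : X →L[ℂ] X) (Λ : Set ℂ) (x : X)
    (hx : x ∈ Submodule.span ℂ {x : X | ∃ c ∈ Λ, T x = c • x}) :
    ∃ (F : Finset ℂ) (e : ℂ → X), (∀ c ∈ F, c ∈ Λ ∧ T (e c) = c • e c) ∧
      x = ∑ c ∈ F, e c := by
  classical
  induction hx using Submodule.span_induction with
  | mem x hx =>
    obtain ⟨c, hc, hx⟩ := hx
    refine ⟨{c}, fun _ => x, ?_, ?_⟩
    · intro c' hc'
      rw [Finset.mem_singleton.1 hc']
      exact ⟨hc, hx⟩
    · simp
  | zero => exact ⟨∅, fun _ => 0, by simp, by simp⟩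
  | add x y _ _ ihx ihy =>
    obtain ⟨F1, e1, h1, rfl⟩ := ihx
    obtain ⟨F2, e2, h2, rfl⟩ := ihy
    refine ⟨F1 ∪ F2, fun c => (if c ∈ F1 then e1 c else 0) + (if c ∈ F2 then e2 c else 0), ?_, ?_⟩
    · intro c hc
      refine ⟨?_, ?_⟩
      · rcases Finset.mem_union.1 hc with h | h
        · exact (h1 c h).1
        · exact (h2 c h).1
      · have ha : T (if c ∈ F1 then e1 c else 0) = c • (if c ∈ F1 then e1 c else 0) := by
          split_ifs with h
          · exact (h1 c h).2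
          · simp
        have hb : T (if c ∈ F2 then e2 c else 0) = c • (if c ∈ F2 then e2 c else 0) := by
          split_ifs with h
          · exact (h2 c h).2
          · simp
        rw [map_add, smul_add, ha, hb]
    · rw [Finset.sum_add_distrib]
      congr 1
      · rw [Finset.sum_ite_mem, Finset.union_inter_cancel_left]
      · rw [Finset.sum_ite_mem, Finset.union_inter_cancel_right]
  | smul a x _ ih =>
    obtain ⟨F, e, h, rfl⟩ := ih
    refine ⟨F, fun c => a • e c, ?_, ?_⟩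
    · intro c hc
      refine ⟨(h c hc).1, ?_⟩
      rw [map_smul, (h c hc).2, smul_comm]
    · rw [Finset.smul_sum]

end Pool.Agent.Lib.MP_bb8441_an
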