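import Pool.Agent.Lib.MP_bb8441_an.Defs
import Pool.Agent.Lib.MP_bb8441_an.SolveSpan
import Pool.Agent.Lib.MP_bb8441_an.DenseRemove
import Pool.Agent.Lib.MP_bb8441_an.AddNode1

set_option autoImplicit false

namespace Pool.Agent.Lib.MP_bb8441_an

variable {X : Type*} [NormedAddCommGroup X] [NormedSpace ℂ X]

theorem NodeExt.span_le (s s' : State X) (h : State.NodeExt s s') :
    Submodule.span ℂ (s.u '' (s.A : Set ℂ)) ≤ Submodule.span ℂ (s'.u '' (s'.A : Set ℂ)) := by
  apply Submodule.span_mono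
  rintro _ ⟨c, hc, rfl⟩
  refine ⟨c, h.A_sub hc, ?_⟩
  apply h.u_eq
  simp only [Finset.mem_union]
  exact Or.inl (Or.inl hc)

/-- Every vector is approximated by the span of the nodes of a later stage. -/
theorem add_nodes (T : X →L[ℂ] X) (Λ R : Set ℂ)
    (H1 : ∀ c : ℂ, DenseRange fun x => T x - c • x)
    (H2 : Dense (Submodule.span ℂ {x : X | ∃ c ∈ Λ, T x = c • x} : Set X))
    (s : State X) (hs : State.Inv T Λ R s) (x : X) (ε : ℝ) (hε : 0 < ε) :
    ∃ s' : State X, State.Inv T Λ R s' ∧ State.NodeExt s s' ∧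
      ∃ y ∈ Submodule.span ℂ (s'.u '' (s'.A : Set ℂ)), ‖x - y‖ < ε := by
  have hd := dense_remove T Λ (s.A ∪ s.B ∪ s.P) (fun c _ => H1 c) H2
  obtain ⟨y, hy, hxy⟩ := Metric.dense_iff.1 hd x ε hε
  rw [Metric.mem_ball, dist_comm, dist_eq_norm] at hy
  set Λ' : Set ℂ := {c | c ∈ Λ ∧ c ∉ s.A ∪ s.B ∪ s.P} with hΛ'
  have hset : {x : X | ∃ c ∈ Λ, c ∉ s.A ∪ s.B ∪ s.P ∧ T x = c • x} =
      {x : X | ∃ c ∈ Λ', T x = c • x} := by
    ext z
    constructor
    · rintro ⟨c, h1, h2, h3⟩
      exact ⟨c, ⟨h1, h2⟩, h3⟩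
    · rintro ⟨c, ⟨h1, h2⟩, h3⟩
      exact ⟨c, h1, h2, h3⟩
  rw [hset] at hxy
  obtain ⟨G, e, hGe, hsum⟩ := span_eig_sum T Λ' y hxy
  have key : ∀ G' : Finset ℂ, G' ⊆ G → ∃ s' : State X, State.Inv T Λ R s' ∧ State.NodeExt s s' ∧
      s'.A ⊆ s.A ∪ G' ∧ ∀ c ∈ G', e c ∈ Submodule.span ℂ (s'.u '' (s'.A : Set ℂ)) := by
    intro G'
    induction G' using Finset.induction_on with
    | empty =>
      intro _
      refine ⟨s, hs, NodeExt.refl s, by simp, by simp⟩
    | insert c G' hc ih =>
      intro hsub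
      obtain ⟨s', h1, h2, h3, h4⟩ := ih (fun d hd => hsub (Finset.mem_insert_of_mem hd))
      have hcG : c ∈ G := hsub (Finset.mem_insert_self c G')
      obtain ⟨⟨hcΛ, hcF⟩, hce⟩ := hGe c hcG
      have hc' : c ∉ s'.A ∪ s'.B ∪ s'.P := by
        rw [h2.B_eq, h2.P_eq]
        intro hmem
        simp only [Finset.mem_union] at hmem hcF
        rcases hmem with (hmem | hmem) | hmem
        · have := h3 hmem
          simp only [Finset.mem_union] at this
          rcases this with this | this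
          · exact hcF (Or.inl (Or.inl this))
          · exact hc this
        · exact hcF (Or.inl (Or.inr hmem))
        · exact hcF (Or.inr hmem)
      obtain ⟨s'', k1, k2, k3, k4⟩ := add_node T Λ R s' h1 c hcΛ hc' (e c) hce
      refine ⟨s'', k1, NodeExt.trans _ _ _ h2 k2, ?_, ?_⟩
      · intro d hd
        have := k3 hd
        simp only [Finset.mem_insert, Finset.mem_union] at this ⊢
        rcases this with this | this
        · exact Or.inr (Or.inl this)
        · have := h3 this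
          simp only [Finset.mem_union] at this
          rcases this with this | this
          · exact Or.inl this
          · exact Or.inr (Or.inr this)
      · intro d hd
        rcases Finset.mem_insert.1 hd with rfl | hd
        · exact k4
        · exact NodeExt.span_le _ _ k2 (h4 d hd)
  obtain ⟨s', h1, h2, _, h4⟩ := key G (le_refl _)
  refine ⟨s', h1, h2, y, ?_, hy⟩
  rw [hsum]
  exact Submodule.sum_mem _ (fun c hc => h4 c hc)

end Pool.Agent.Lib.MP_bb8441_an
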