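import Mathlib

/-! Almost eigenvectors in subspaces of finite codimension. -/

set_option autoImplicit false

namespace Pool.Agent.Lib.MP_bb8441_an

variable {X : Type*} [NormedAddCommGroup X] [NormedSpace ℂ X]

/-- If `c` is in the spectrum, `T - c` is injective and has dense range, then every subspace of
finite codimension contains almost eigenvectors for `c`. -/
theorem exists_almost_eigen [CompleteSpace X] (T : X →L[ℂ] X) (c : ℂ) (hc : c ∈ spectrum ℂ T)
    (hinj : ∀ x, T x = c • x → x = 0) (hd : DenseRange fun x => T x - c • x)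
    (Z : Type*) [NormedAddCommGroup Z] [NormedSpace ℂ Z] [FiniteDimensional ℂ Z]
    (Φ : X →L[ℂ] Z) (η : ℝ) (hη : 0 < η) :
    ∃ v : X, ‖v‖ = 1 ∧ Φ v = 0 ∧ ‖T v - c • v‖ < η := by
  by_contra hcon
  push Not at hcon
  set S : X →L[ℂ] X := T - c • ContinuousLinearMap.id ℂ X with hS
  have hSx : ∀ x, S x = T x - c • x := by
    intro x; simp [hS]
  -- bounded below on the kernel of `Φ`
  have hb : ∀ x, Φ x = 0 → η * ‖x‖ ≤ ‖S x‖ := by
    intro x hx
    by_cases h0 : x = 0
    · simp [h0]
    have hn : ‖x‖ ≠ 0 := norm_ne_zero_iff.mpr h0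
    have hnpos : 0 < ‖x‖ := norm_pos_iff.mpr h0
    have h1 := hcon (((‖x‖⁻¹ : ℝ) : ℂ) • x) (by
      rw [norm_smul, Complex.norm_real, norm_inv, norm_norm, inv_mul_cancel₀ hn]) (by
      rw [map_smul, hx, smul_zero])
    rw [← hSx, map_smul, norm_smul, Complex.norm_real, norm_inv, norm_norm] at h1
    rw [inv_mul_eq_div, le_div_iff₀ hnpos] at h1
    exact h1
  have hclosed : IsClosed ((Φ.ker.map (S : X →ₗ[ℂ] X) : Submodule ℂ X) : Set X) := by
    have hK : IsClosed (Φ.ker : Set X) := Φ.isClosed_ker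
    have : CompleteSpace Φ.ker := hK.completeSpace_coe
    let S' : Φ.ker →L[ℂ] X := S.comp Φ.ker.subtypeL
    have hanti : AntilipschitzWith (Real.toNNReal η⁻¹) S' := by
      apply ContinuousLinearMap.antilipschitz_of_bound
      intro x
      have h2 := hb x.1 x.2
      have h3 : S' x = S x.1 := rfl
      rw [h3, Real.coe_toNNReal _ (inv_nonneg.mpr hη.le), inv_mul_eq_div, le_div_iff₀ hη, mul_comm]
      exact h2
    have h4 := hanti.isClosed_range S'.uniformContinuous
    convert h4 using 1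
    ext y
    constructor
    · rintro ⟨x, hx, rfl⟩
      exact ⟨⟨x, hx⟩, rfl⟩
    · rintro ⟨x, rfl⟩
      exact ⟨x.1, x.2, rfl⟩
  have : (Φ.ker : Submodule ℂ X).CoFG :=
    Module.Finite.equiv (Φ : X →ₗ[ℂ] Z).quotKerEquivRange.symm
  have hr : IsClosed ((S : X →ₗ[ℂ] X).range : Set X) :=
    LinearMap.isClosed_range_of_isClosed_map_of_finiteDimensional_quotient (s := Φ.ker) hclosed
  have hsurj : Function.Surjective S := by
    intro y
    have hy : y ∈ closure (Set.range fun x => T x - c • x) := hd y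
    have h5 : (Set.range fun x => T x - c • x) = ((S : X →ₗ[ℂ] X).range : Set X) := by
      ext z
      constructor
      · rintro ⟨x, rfl⟩
        exact ⟨x, hSx x⟩
      · rintro ⟨x, rfl⟩
        exact ⟨x, (hSx x).symm⟩
    rw [h5, hr.closure_eq] at hy
    obtain ⟨x, hx⟩ := hy
    exact ⟨x, hx⟩
  have hinjS : Function.Injective S := by
    rw [injective_iff_map_eq_zero]
    intro x hx
    rw [hSx, sub_eq_zero] at hx
    exact hinj x hx
  have hu : IsUnit S := by
    exact ContinuousLinearMap.isUnit_iff_bijective.mpr ⟨hinjS, hsurj⟩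
  rw [spectrum.mem_iff] at hc
  apply hc
  have h6 : algebraMap ℂ (X →L[ℂ] X) c - T = -S := by
    rw [hS]
    ext x
    simp [Algebra.algebraMap_eq_smul_one]
  rw [h6]
  exact hu.neg

end Pool.Agent.Lib.MP_bb8441_an
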