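import Pool.Agent.Lib.MP_bb8441_an.Defs

/-! Vectors in the span of the unimodular eigenvectors are almost periodic. -/

set_option autoImplicit false

namespace Pool.Agent.Lib.MP_bb8441_an

variable {X : Type*} [NormedAddCommGroup X] [NormedSpace ℂ X]

theorem ap_rec (S : X →L[ℂ] X) (y : X) (hy : y ∈ AP S) (ε : ℝ) (hε : 0 < ε) :
    ∃ Ω : Finset ℂ, (∀ c ∈ Ω, ‖c‖ = 1) ∧ ∃ τ > 0, ∀ n : ℕ,
      (∀ c ∈ Ω, ‖c ^ n - 1‖ < τ) → ∀ t : ℕ, ‖(S ^ (n + t)) y - (S ^ t) y‖ < ε := by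
  classical
  induction hy using Submodule.span_induction generalizing ε with
  | mem x hx =>
    obtain ⟨c, hc, hx⟩ := hx
    have hpow : ∀ k : ℕ, (S ^ k) x = c ^ k • x := by
      intro k
      induction k with
      | zero => simp
      | succ k ih =>
        rw [pow_succ', mul_apply_eq_comp, ih, map_smul, hx, smul_smul, pow_succ]
    refine ⟨{c}, by simpa using hc, ε / (‖x‖ + 1), by positivity, fun n hn t => ?_⟩
    have h1 := hn c (Finset.mem_singleton_self c)
    rw [hpow, hpow, ← sub_smul, norm_smul]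
    have h2 : c ^ (n + t) - c ^ t = (c ^ n - 1) * c ^ t := by ring
    rw [h2, norm_mul, norm_pow, hc, one_pow, mul_one]
    have h3 : 0 ≤ ‖x‖ := norm_nonneg x
    have h4 : 0 < ‖x‖ + 1 := by linarith
    rw [lt_div_iff₀ h4] at h1
    have h5 : 0 ≤ ‖c ^ n - 1‖ := norm_nonneg _
    rcases h5.eq_or_lt with h6 | h6
    · rw [← h6, zero_mul]; exact hε
    · nlinarith
  | zero => exact ⟨∅, by simp, 1, one_pos, fun n _ t => by simpa using hε⟩
  | add a b _ _ iha ihb =>
    obtain ⟨Ω1, h1, τ1, ht1, H1⟩ := iha (ε / 2) (by positivity)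
    obtain ⟨Ω2, h2, τ2, ht2, H2⟩ := ihb (ε / 2) (by positivity)
    refine ⟨Ω1 ∪ Ω2, ?_, min τ1 τ2, lt_min ht1 ht2, fun n hn t => ?_⟩
    · intro c hc
      rcases Finset.mem_union.1 hc with h | h
      · exact h1 c h
      · exact h2 c h
    · have e1 := H1 n (fun c hc => (hn c (Finset.mem_union_left _ hc)).trans_le (min_le_left _ _)) t
      have e2 := H2 n (fun c hc => (hn c (Finset.mem_union_right _ hc)).trans_le (min_le_right _ _)) t
      rw [map_add, map_add]
      have h3 : (S ^ (n + t)) a + (S ^ (n + t)) b - ((S ^ t) a + (S ^ t) b) =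
          ((S ^ (n + t)) a - (S ^ t) a) + ((S ^ (n + t)) b - (S ^ t) b) := by abel
      rw [h3]
      exact (norm_add_le _ _).trans_lt (by linarith)
  | smul b a _ iha =>
    obtain ⟨Ω1, h1, τ1, ht1, H1⟩ := iha (ε / (‖b‖ + 1)) (by positivity)
    refine ⟨Ω1, h1, τ1, ht1, fun n hn t => ?_⟩
    have e1 := H1 n hn t
    rw [map_smul, map_smul, ← smul_sub, norm_smul]
    have h4 : 0 < ‖b‖ + 1 := by positivity
    rw [lt_div_iff₀ h4] at e1
    have h5 : 0 ≤ ‖(S ^ (n + t)) a - (S ^ t) a‖ := norm_nonneg _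
    nlinarith

end Pool.Agent.Lib.MP_bb8441_an
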