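import Pool.Agent.Lib.MP_bb8441_an.Defs

/-! Facts on lower densities. -/

set_option autoImplicit false

namespace Pool.Agent.Lib.MP_bb8441_an

open Filter

theorem lowerDensity_empty : lowerDensity ∅ = 0 := by
  simp [lowerDensity]

theorem lowerDensity_pos (A : Set ℕ) (c : ℝ) (hc : 0 < c)
    (h : ∀ᶠ N : ℕ in atTop, c * N ≤ ((A ∩ Set.Icc 1 N).ncard : ℝ)) : 0 < lowerDensity A := by
  have hle : ∀ N : ℕ, ((A ∩ Set.Icc 1 N).ncard : ℝ) / N ≤ 1 := by
    intro N
    have h1 : (A ∩ Set.Icc 1 N).ncard ≤ N := by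
      calc (A ∩ Set.Icc 1 N).ncard ≤ (Set.Icc 1 N).ncard :=
            Set.ncard_le_ncard Set.inter_subset_right (Set.finite_Icc 1 N)
        _ = N := by
            rw [Set.ncard_eq_toFinset_card']
            simp
    exact div_le_one_of_le₀ (by exact_mod_cast h1) (by positivity)
  have hb : IsBoundedUnder (· ≤ ·) atTop
      (fun N : ℕ => ((A ∩ Set.Icc 1 N).ncard : ℝ) / N) := isBoundedUnder_of ⟨1, hle⟩
  have key : c ≤ lowerDensity A := by
    refine le_liminf_of_le hb.isCoboundedUnder_ge ?_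
    filter_upwards [h, eventually_gt_atTop 0] with N hN hN0
    rw [le_div_iff₀ (by exact_mod_cast hN0)]
    exact hN
  exact lt_of_lt_of_le hc key

/-- A set which meets every interval of length `g`, except for a set of small density, has positive
lower density. -/
theorem density_syndetic (G B A : Set ℕ) (g : ℕ) (hG : ∀ m : ℕ, ∃ t ∈ G, m ≤ t ∧ t ≤ m + g)
    (b : ℝ) (hb : b ≤ 1 / (4 * ((g : ℝ) + 1)))
    (hB : ∀ N : ℕ, ((B ∩ Set.Ico 0 N).ncard : ℝ) ≤ b * N)
    (hA : G \ B ⊆ A) : 0 < lowerDensity A := by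
  have hg : (0 : ℝ) < (g : ℝ) + 1 := by positivity
  refine lowerDensity_pos A (1 / (4 * ((g : ℝ) + 1))) (by positivity) ?_
  filter_upwards [eventually_ge_atTop (8 * (g + 1))] with N hN
  -- count of G
  choose t htG ht1 ht2 using hG
  set K := N / (g + 1) with hK
  have hfin : ∀ S : Set ℕ, (S ∩ Set.Icc 1 N).Finite := fun S =>
    (Set.finite_Icc 1 N).subset Set.inter_subset_right
  have hKg : K * (g + 1) ≤ N := Nat.div_mul_le_self N (g + 1)
  have hKN : N < (K + 1) * (g + 1) := by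
    have h1 := Nat.div_add_mod N (g + 1)
    have h2 : N % (g + 1) < g + 1 := Nat.mod_lt N (Nat.succ_pos g)
    have h3 : (K + 1) * (g + 1) = (g + 1) * (N / (g + 1)) + (g + 1) := by rw [hK]; ring
    omega
  have hcG : K ≤ (G ∩ Set.Icc 1 N).ncard := by
    let f : ℕ → ℕ := fun j => t (1 + j * (g + 1))
    have hinj : Set.InjOn f (Finset.range K : Set ℕ) := by
      intro i _ j _ hij
      have h1 := ht1 (1 + i * (g + 1))
      have h2 := ht2 (1 + i * (g + 1))
      have h3 := ht1 (1 + j * (g + 1))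
      have h4 := ht2 (1 + j * (g + 1))
      have hij' : t (1 + i * (g + 1)) = t (1 + j * (g + 1)) := hij
      rcases lt_trichotomy i j with h | h | h
      · exfalso
        have : (i + 1) * (g + 1) ≤ j * (g + 1) := Nat.mul_le_mul_right _ h
        rw [Nat.succ_mul] at this
        omega
      · exact h
      · exfalso
        have : (j + 1) * (g + 1) ≤ i * (g + 1) := Nat.mul_le_mul_right _ h
        rw [Nat.succ_mul] at this
        omega
    have hmap : f '' (Finset.range K : Set ℕ) ⊆ G ∩ Set.Icc 1 N := by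
      rintro _ ⟨j, hj, rfl⟩
      have hj' : j < K := by simpa using hj
      refine ⟨htG _, ?_, ?_⟩
      · have := ht1 (1 + j * (g + 1))
        show 1 ≤ t (1 + j * (g + 1))
        omega
      · have h2 := ht2 (1 + j * (g + 1))
        have : (j + 1) * (g + 1) ≤ K * (g + 1) := Nat.mul_le_mul_right _ hj'
        rw [Nat.succ_mul] at this
        show t (1 + j * (g + 1)) ≤ N
        omega
    calc K = (Finset.range K : Set ℕ).ncard := by
          rw [Set.ncard_coe_finset, Finset.card_range]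
      _ = (f '' (Finset.range K : Set ℕ)).ncard := hinj.ncard_image.symm
      _ ≤ (G ∩ Set.Icc 1 N).ncard := Set.ncard_le_ncard hmap (hfin G)
  have hcB : ((B ∩ Set.Icc 1 N).ncard : ℝ) ≤ b * (N + 1) := by
    have h1 : (B ∩ Set.Icc 1 N).ncard ≤ (B ∩ Set.Ico 0 (N + 1)).ncard := by
      refine Set.ncard_le_ncard ?_ ((Set.finite_Ico 0 (N + 1)).subset Set.inter_subset_right)
      rintro x ⟨hx, hx1, hx2⟩
      exact ⟨hx, Nat.zero_le _, by omega⟩
    have h2 := hB (N + 1)
    push_cast at h2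
    exact le_trans (by exact_mod_cast h1) h2
  have hcA : (G ∩ Set.Icc 1 N).ncard ≤ (A ∩ Set.Icc 1 N).ncard + (B ∩ Set.Icc 1 N).ncard := by
    refine le_trans (Set.ncard_le_ncard ?_ ((hfin A).union (hfin B))) (Set.ncard_union_le _ _)
    rintro x ⟨hx, hx'⟩
    by_cases hxB : x ∈ B
    · exact Or.inr ⟨hxB, hx'⟩
    · exact Or.inl ⟨hA ⟨hx, hxB⟩, hx'⟩
  have h1 : (K : ℝ) ≤ ((A ∩ Set.Icc 1 N).ncard : ℝ) + b * (N + 1) := by
    have : (K : ℝ) ≤ ((A ∩ Set.Icc 1 N).ncard : ℝ) + ((B ∩ Set.Icc 1 N).ncard : ℝ) := by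
      exact_mod_cast hcG.trans hcA
    linarith
  have h2 : (N : ℝ) < (K + 1) * ((g : ℝ) + 1) := by exact_mod_cast hKN
  have h3 : (8 : ℝ) * ((g : ℝ) + 1) ≤ N := by exact_mod_cast hN
  have h4 : b * ((N : ℝ) + 1) ≤ 1 / (4 * ((g : ℝ) + 1)) * (N + 1) :=
    mul_le_mul_of_nonneg_right hb (by positivity)
  have h5 : (N : ℝ) / (g + 1) - 1 < K := by
    rw [sub_lt_iff_lt_add, div_lt_iff₀ hg]
    exact h2
  have h6 : 1 / (4 * ((g : ℝ) + 1)) * (N + 1) = (N / (g + 1)) / 4 + 1 / (4 * (g + 1)) := by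
    field_simp
  have h7 : 1 / (4 * ((g : ℝ) + 1)) * N = (N / (g + 1)) / 4 := by
    field_simp
  have h8 : (8 : ℝ) ≤ N / (g + 1) := by
    rw [le_div_iff₀ hg]
    exact h3
  have h9 : 1 / (4 * ((g : ℝ) + 1)) ≤ 1 / 4 := by
    apply one_div_le_one_div_of_le (by norm_num)
    have : (0 : ℝ) ≤ g := by positivity
    linarith
  rw [h7]
  linarith

end Pool.Agent.Lib.MP_bb8441_an
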