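import Pool.Agent.Lib.MP_bb8441_an.LemmaF
import Pool.Agent.Lib.MP_bb8441_an.Density

/-! Assembly of a frequently hypercyclic vector. -/

set_option autoImplicit false

namespace Pool.Agent.Lib.MP_bb8441_an

variable {X : Type*} [NormedAddCommGroup X] [NormedSpace ℂ X]

/-- The series: `w k` is the partial sum, `z k` the new term, `b k` the bound for the new term and
`g k` the gap for the target `q k`. -/
theorem assemble_sequence (S : X →L[ℂ] X) (hR : ∀ p : X, Reach S p) (q : ℕ → X) :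
    ∃ (z : ℕ → X) (b : ℕ → ℝ) (g : ℕ → ℕ),
      (∀ k, 0 < b k) ∧ b 0 ≤ 1 ∧ (∀ k, b (k + 1) ≤ b k / 2) ∧
      (∀ k, b (k + 1) ≤ 1 / (8 * ((g k : ℝ) + 1))) ∧ (∀ k, ‖z k‖ < b k) ∧
      (∀ k, ∀ N : ℕ, (((Finset.range N).filter fun t => b k ≤ ‖(S ^ t) (z k)‖).card : ℝ) ≤
        b k * N) ∧
      ∀ k, ∀ m : ℕ, ∃ t, m ≤ t ∧ t ≤ m + g k ∧
        ‖(S ^ t) (∑ j ∈ Finset.range (k + 1), z j) - q k‖ < b k := by
  choose Z hZ hZn hZc G hG using fun (w : AP S) (p : X) (b : {b : ℝ // 0 < b}) =>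
    lemma_F S hR w w.2 p b b.2
  let st : ℕ → (AP S) × {b : ℝ // 0 < b} := fun k => Nat.rec
    ((0 : AP S), (⟨1, one_pos⟩ : {b : ℝ // 0 < b}))
    (fun k s => (s.1 + ⟨Z s.1 (q k) s.2, hZ s.1 (q k) s.2⟩,
      ⟨min ((s.2 : ℝ) / 2) (1 / (8 * ((G s.1 (q k) s.2 : ℝ) + 1))),
        lt_min (half_pos s.2.2) (by positivity)⟩)) k
  have hst : ∀ k, st (k + 1) = ((st k).1 + ⟨Z (st k).1 (q k) (st k).2, hZ (st k).1 (q k) (st k).2⟩,
      ⟨min (((st k).2 : ℝ) / 2) (1 / (8 * ((G (st k).1 (q k) (st k).2 : ℝ) + 1))),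
        lt_min (half_pos (st k).2.2) (by positivity)⟩) := fun k => rfl
  have hw : ∀ k, (((st k).1 : AP S) : X) =
      ∑ j ∈ Finset.range k, Z (st j).1 (q j) (st j).2 := by
    intro k
    induction k with
    | zero => rfl
    | succ k ih =>
      rw [Finset.sum_range_succ, ← ih, hst k]
      rfl
  refine ⟨fun k => Z (st k).1 (q k) (st k).2, fun k => ((st k).2 : ℝ),
    fun k => G (st k).1 (q k) (st k).2, fun k => (st k).2.2, le_of_eq rfl, ?_, ?_, ?_, ?_, ?_⟩
  · intro k
    beta_reduce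
    rw [hst k]
    exact min_le_left _ _
  · intro k
    beta_reduce
    rw [hst k]
    exact min_le_right _ _
  · intro k
    exact hZn _ _ _
  · intro k N
    exact hZc _ _ _ N
  · intro k m
    obtain ⟨t, h1, h2, h3⟩ := hG (st k).1 (q k) (st k).2 m
    refine ⟨t, h1, h2, ?_⟩
    beta_reduce
    rw [Finset.sum_range_succ, ← hw k]
    exact h3

theorem fhc_of_reach [CompleteSpace X] [TopologicalSpace.SeparableSpace X] (S : X →L[ℂ] X)
    (hR : ∀ p : X, Reach S p) : FrequentlyHypercyclic S := by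
  classical
  let d : ℕ → X := TopologicalSpace.denseSeq X
  have hd : DenseRange d := TopologicalSpace.denseRange_denseSeq X
  obtain ⟨z, b, g, hb, hb0, hbh, hbg, hz, hc, hq⟩ :=
    assemble_sequence S hR (fun k => d (Nat.unpair k).1)
  have hbj : ∀ k j, b (k + j) ≤ b k * (1 / 2) ^ j := by
    intro k j
    induction j with
    | zero => simp
    | succ j ih =>
      calc b (k + (j + 1)) ≤ b (k + j) / 2 := hbh (k + j)
        _ ≤ (b k * (1 / 2) ^ j) / 2 := by linarith
        _ = b k * (1 / 2) ^ (j + 1) := by ring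
  have hbpow : ∀ k, b k ≤ (1 / 2) ^ k := by
    intro k
    have h := hbj 0 k
    rw [zero_add] at h
    calc b k ≤ b 0 * (1 / 2) ^ k := h
      _ ≤ 1 * (1 / 2) ^ k := by gcongr
      _ = (1 / 2) ^ k := one_mul _
  have hgeo : ∀ k, Summable fun j : ℕ => b k * (1 / 2 : ℝ) ^ j := fun k =>
    (summable_geometric_two).mul_left _
  have hbs : ∀ k, Summable fun j => b (k + j) := fun k =>
    Summable.of_nonneg_of_le (fun j => (hb _).le) (hbj k) (hgeo k)
  have hbsum : ∀ k, ∑' j, b (k + j) ≤ 2 * b k := by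
    intro k
    calc ∑' j, b (k + j) ≤ ∑' j : ℕ, b k * (1 / 2 : ℝ) ^ j :=
          Summable.tsum_le_tsum (hbj k) (hbs k) (hgeo k)
      _ = 2 * b k := by rw [tsum_mul_left, tsum_geometric_two]; ring
  have hbs0 : Summable b := by simpa using hbs 0
  have hzn : Summable fun k => ‖z k‖ :=
    Summable.of_nonneg_of_le (fun k => norm_nonneg _) (fun k => (hz k).le) hbs0
  have hzs : Summable z := hzn.of_norm
  refine ⟨∑' k, z k, ?_⟩
  intro U hU hUne
  obtain ⟨i, hi⟩ := hd.exists_mem_open hU hUne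
  obtain ⟨r, hr, hball⟩ := Metric.isOpen_iff.mp hU _ hi
  -- choose k
  obtain ⟨m, hm⟩ : ∃ m : ℕ, 2 * (1 / 2 : ℝ) ^ m < r := by
    obtain ⟨m, hm⟩ := exists_pow_lt_of_lt_one (half_pos hr) (by norm_num : (1 / 2 : ℝ) < 1)
    exact ⟨m, by linarith⟩
  set k : ℕ := Nat.pair i m with hk
  have hki : (Nat.unpair k).1 = i := by rw [hk, Nat.unpair_pair]
  have hkm : m ≤ k := Nat.right_le_pair i m
  have hbk : 2 * b k < r := by
    have h1 := hbpow k
    have h2 : (1 / 2 : ℝ) ^ k ≤ (1 / 2) ^ m :=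
      pow_le_pow_of_le_one (by norm_num) (by norm_num) hkm
    linarith
  let F : ℕ → Set ℕ := fun j => {t : ℕ | b j ≤ ‖(S ^ t) (z j)‖}
  let B : Set ℕ := {t | ∃ j, k < j ∧ t ∈ F j}
  let G : Set ℕ := {t | ‖(S ^ t) (∑ j ∈ Finset.range (k + 1), z j) - d i‖ < b k}
  refine density_syndetic G B {n : ℕ | (S ^ n) (∑' k, z k) ∈ U} (g k) ?_
    (1 / (4 * ((g k : ℝ) + 1))) le_rfl ?_ ?_
  · intro m
    obtain ⟨t, h1, h2, h3⟩ := hq k m
    refine ⟨t, ?_, h1, h2⟩
    rw [hki] at h3
    exact h3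
  · intro N
    -- for `j` large the sets `F j ∩ [0, N)` are empty
    obtain ⟨J, hJ⟩ : ∃ J : ℕ, ∀ j, J ≤ j → b j * N < 1 := by
      obtain ⟨J, hJ⟩ := exists_pow_lt_of_lt_one
        (show (0 : ℝ) < 1 / ((N : ℝ) + 1) by positivity) (by norm_num : (1 / 2 : ℝ) < 1)
      refine ⟨J, fun j hj => ?_⟩
      have h1 : b j ≤ (1 / 2) ^ J :=
        (hbpow j).trans (pow_le_pow_of_le_one (by norm_num) (by norm_num) hj)
      have hN : (0 : ℝ) ≤ N := Nat.cast_nonneg N
      calc b j * N ≤ b j * (N + 1) := by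
            apply mul_le_mul_of_nonneg_left _ (hb j).le; linarith
        _ < (1 / ((N : ℝ) + 1)) * (N + 1) := by
            apply mul_lt_mul_of_pos_right (lt_of_le_of_lt h1 hJ); linarith
        _ = 1 := by field_simp
    have hFcard : ∀ j, (((Finset.range N).filter fun t => b j ≤ ‖(S ^ t) (z j)‖).card : ℝ) ≤
        b j * N := fun j => hc j N
    have hsub : B ∩ Set.Ico 0 N ⊆
        (((Finset.range J).filter fun j => k < j).biUnion fun j =>
          (Finset.range N).filter fun t => b j ≤ ‖(S ^ t) (z j)‖ : Finset ℕ) := by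
      rintro t ⟨⟨j, hkj, htj⟩, -, htN⟩
      rw [Finset.mem_coe, Finset.mem_biUnion]
      have hmem : t ∈ (Finset.range N).filter fun t => b j ≤ ‖(S ^ t) (z j)‖ := by
        rw [Finset.mem_filter]
        exact ⟨Finset.mem_range.mpr htN, htj⟩
      refine ⟨j, ?_, hmem⟩
      rw [Finset.mem_filter, Finset.mem_range]
      refine ⟨?_, hkj⟩
      by_contra hcon
      push Not at hcon
      have h1 : (1 : ℝ) ≤ (((Finset.range N).filter fun t => b j ≤ ‖(S ^ t) (z j)‖).card : ℝ) := by
        exact_mod_cast Finset.card_pos.mpr ⟨t, hmem⟩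
      linarith [hFcard j, hJ j hcon]
    have hle : ((B ∩ Set.Ico 0 N).ncard : ℝ) ≤
        ∑ j ∈ (Finset.range J).filter (fun j => k < j), b j * N := by
      calc ((B ∩ Set.Ico 0 N).ncard : ℝ)
          ≤ ((((Finset.range J).filter fun j => k < j).biUnion fun j =>
          (Finset.range N).filter fun t => b j ≤ ‖(S ^ t) (z j)‖).card : ℝ) := by
            rw [← Set.ncard_coe_finset]
            exact_mod_cast Set.ncard_le_ncard hsub (Finset.finite_toSet _)
        _ ≤ ((∑ j ∈ (Finset.range J).filter (fun j => k < j),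
            ((Finset.range N).filter fun t => b j ≤ ‖(S ^ t) (z j)‖).card : ℕ) : ℝ) := by
            exact_mod_cast Finset.card_biUnion_le
        _ ≤ _ := by
            rw [Nat.cast_sum]
            exact Finset.sum_le_sum fun j _ => hFcard j
    have hsum : ∑ j ∈ (Finset.range J).filter (fun j => k < j), b j ≤ 2 * b (k + 1) := by
      have h1 : ∑ j ∈ (Finset.range J).filter (fun j => k < j), b j ≤
          ∑ j ∈ Finset.range J, b (k + 1 + j) := by
        have himg : (Finset.range J).filter (fun j => k < j) ⊆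
            (Finset.range J).image (fun j => k + 1 + j) := by
          intro j hj
          rw [Finset.mem_filter, Finset.mem_range] at hj
          rw [Finset.mem_image]
          exact ⟨j - (k + 1), Finset.mem_range.mpr (by omega), by omega⟩
        calc ∑ j ∈ (Finset.range J).filter (fun j => k < j), b j
            ≤ ∑ j ∈ (Finset.range J).image (fun j => k + 1 + j), b j :=
              Finset.sum_le_sum_of_subset_of_nonneg himg fun j _ _ => (hb j).le
          _ = ∑ j ∈ Finset.range J, b (k + 1 + j) := by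
              rw [Finset.sum_image]
              intro a _ c _ hac
              simpa using hac
      exact h1.trans (((hbs (k + 1)).sum_le_tsum _ fun j _ => (hb _).le).trans (hbsum (k + 1)))
    calc ((B ∩ Set.Ico 0 N).ncard : ℝ)
        ≤ ∑ j ∈ (Finset.range J).filter (fun j => k < j), b j * N := hle
      _ = (∑ j ∈ (Finset.range J).filter (fun j => k < j), b j) * N := by
          rw [Finset.sum_mul]
      _ ≤ (2 * b (k + 1)) * N := by
          exact mul_le_mul_of_nonneg_right hsum (Nat.cast_nonneg N)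
      _ ≤ 1 / (4 * ((g k : ℝ) + 1)) * N := by
          apply mul_le_mul_of_nonneg_right _ (Nat.cast_nonneg N)
          have h2 := hbg k
          have h3 : 1 / (4 * ((g k : ℝ) + 1)) = 2 * (1 / (8 * ((g k : ℝ) + 1))) := by
            have : (0 : ℝ) < (g k : ℝ) + 1 := by positivity
            field_simp
            norm_num
          rw [h3]
          linarith
  · rintro t ⟨htG, htB⟩
    change (S ^ t) (∑' k, z k) ∈ U
    apply hball
    rw [Metric.mem_ball, dist_eq_norm]
    have hsplit : ∑' j, z j = ∑ j ∈ Finset.range (k + 1), z j + ∑' j, z (j + (k + 1)) :=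
      (hzs.sum_add_tsum_nat_add (k + 1)).symm
    have hzs' : Summable fun j => z (j + (k + 1)) := (summable_nat_add_iff (k + 1)).mpr hzs
    have hmap : (S ^ t) (∑' j, z (j + (k + 1))) = ∑' j, (S ^ t) (z (j + (k + 1))) :=
      (S ^ t).map_tsum hzs'
    have hlt : ∀ j, ‖(S ^ t) (z (j + (k + 1)))‖ ≤ b (k + 1 + j) := by
      intro j
      have hnot : ¬ (b (j + (k + 1)) ≤ ‖(S ^ t) (z (j + (k + 1)))‖) := by
        intro hcon
        exact htB ⟨j + (k + 1), by omega, hcon⟩
      push Not at hnot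
      rw [show k + 1 + j = j + (k + 1) by ring]
      exact hnot.le
    have hns : Summable fun j => ‖(S ^ t) (z (j + (k + 1)))‖ :=
      Summable.of_nonneg_of_le (fun j => norm_nonneg _) hlt (hbs (k + 1))
    have htail : ‖(S ^ t) (∑' j, z (j + (k + 1)))‖ ≤ 2 * b (k + 1) := by
      rw [hmap]
      calc ‖∑' j, (S ^ t) (z (j + (k + 1)))‖ ≤ ∑' j, ‖(S ^ t) (z (j + (k + 1)))‖ :=
            norm_tsum_le_tsum_norm hns
        _ ≤ ∑' j, b (k + 1 + j) := Summable.tsum_le_tsum hlt hns (hbs (k + 1))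
        _ ≤ 2 * b (k + 1) := hbsum (k + 1)
    have hG' : ‖(S ^ t) (∑ j ∈ Finset.range (k + 1), z j) - d i‖ < b k := htG
    have h4 := hbh k
    calc ‖(S ^ t) (∑' j, z j) - d i‖
        = ‖((S ^ t) (∑ j ∈ Finset.range (k + 1), z j) - d i) +
            (S ^ t) (∑' j, z (j + (k + 1)))‖ := by
          rw [hsplit, map_add]
          congr 1
          abel
      _ ≤ ‖(S ^ t) (∑ j ∈ Finset.range (k + 1), z j) - d i‖ +
            ‖(S ^ t) (∑' j, z (j + (k + 1)))‖ := norm_add_le _ _
      _ < r := by linarith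

end Pool.Agent.Lib.MP_bb8441_an
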