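import Mathlib

/-! Choice of the coefficients of a perturbation of the identity which moves a sequence of real
numbers into a dense set. -/

set_option autoImplicit false

namespace Pool.Agent.Lib.MP_bb8441_an

/-- The values of the perturbed function at the points `h j`. -/
def rotVal (h e : ℕ → ℝ) (j : ℕ) : ℝ :=
  h j + ∑ k ∈ Finset.range (j + 1), e k * ∏ i ∈ Finset.range k, (h j - h i)

theorem v2_exists_seq (P : ℕ → (ℕ → ℝ) → Prop)
    (hP : ∀ n e e', (∀ i ≤ n, e i = e' i) → P n e → P n e')
    (step : ∀ n e, (∀ m < n, P m e) → ∃ v, P n (Function.update e n v)) :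
    ∃ e, ∀ n, P n e := by
  classical
  let next : ℕ → (ℕ → ℝ) → (ℕ → ℝ) := fun n e =>
    if H : ∀ m < n, P m e then Function.update e n (step n e H).choose else e
  let E : ℕ → (ℕ → ℝ) := fun n => Nat.rec (fun _ => 0) (fun n e => next n e) n
  have E1 : ∀ n, E (n + 1) = next n (E n) := fun n => rfl
  have hne : ∀ n i, i ≠ n → next n (E n) i = E n i := by
    intro n i hi
    simp only [next]
    split_ifs with H
    · exact Function.update_of_ne hi _ _
    · rfl
  have inv : ∀ n, ∀ m < n, P m (E n) := by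
    intro n
    induction n with
    | zero => intro m hm; exact absurd hm (Nat.not_lt_zero _)
    | succ n ih =>
      intro m hm
      rw [E1]
      rcases Nat.lt_succ_iff_lt_or_eq.1 hm with h1 | rfl
      · apply hP m (E n) _ _ (ih m h1)
        intro i hi
        rw [hne n i (by omega)]
      · simp only [next]
        rw [dif_pos ih]
        exact (step m (E m) ih).choose_spec
  have stab : ∀ n m, n + 1 ≤ m → E m n = E (n + 1) n := by
    intro n m hm
    induction m, hm using Nat.le_induction with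
    | base => rfl
    | succ m hm ih => rw [E1, hne m n (by omega), ih]
  refine ⟨fun n => E (n + 1) n, fun n => ?_⟩
  apply hP n (E (n + 1)) _ _ (inv (n + 1) n (Nat.lt_succ_self n))
  intro i hi
  exact stab i (n + 1) (by omega)

theorem v2_rotVal_congr (h e e' : ℕ → ℝ) (j : ℕ) (H : ∀ i ≤ j, e i = e' i) :
    rotVal h e j = rotVal h e' j := by
  unfold rotVal
  congr 1
  apply Finset.sum_congr rfl
  intro k hk
  rw [H k (by simpa [Nat.lt_succ_iff] using hk)]

theorem v2_rotVal_eq (h e : ℕ → ℝ) (i j : ℕ) (hij : i < j) (hh : h j = h i) :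
    rotVal h e j = rotVal h e i := by
  unfold rotVal
  rw [hh]
  congr 1
  symm
  apply Finset.sum_subset
  · intro k hk
    simp only [Finset.mem_range] at hk ⊢
    omega
  · intro k _ hk2
    simp only [Finset.mem_range, not_lt] at hk2
    have : ∏ i' ∈ Finset.range k, (h i - h i') = 0 := by
      apply Finset.prod_eq_zero (i := i)
      · simp only [Finset.mem_range]; omega
      · simp
    rw [this, mul_zero]

/-- (V2) Choice of the coefficients. -/
theorem rot_seq (h : ℕ → ℝ) (w : ℕ → ℝ) (hw : ∀ k, 0 < w k) (Q : Set ℝ) (hQ : Dense Q) :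
    ∃ e : ℕ → ℝ, (∀ k, |e k| ≤ w k) ∧ (∀ j, rotVal h e j ∈ Q) ∧
      ∀ i j, h i ≠ h j → rotVal h e i ≠ rotVal h e j := by
  have v2a : ∀ n e e', (∀ i ≤ n, e i = e' i) → (fun (n : ℕ) (e : ℕ → ℝ) => |e n| ≤ w n ∧ rotVal h e n ∈ Q ∧ ∀ i < n, h i ≠ h n → rotVal h e i ≠ rotVal h e n) n e → (fun (n : ℕ) (e : ℕ → ℝ) => |e n| ≤ w n ∧ rotVal h e n ∈ Q ∧ ∀ i < n, h i ≠ h n → rotVal h e i ≠ rotVal h e n) n e' := by
    rintro n e e' H ⟨h1, h2, h3⟩
    have hc : ∀ i ≤ n, rotVal h e i = rotVal h e' i := fun i hi =>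
      v2_rotVal_congr h e e' i (fun i' hi' => H i' (le_trans hi' hi))
    refine ⟨by rw [← H n le_rfl]; exact h1, by rw [← hc n le_rfl]; exact h2, ?_⟩
    intro i hi hne
    rw [← hc n le_rfl, ← hc i hi.le]
    exact h3 i hi hne
  have v2b : ∀ n e, (∀ m < n, (fun (n : ℕ) (e : ℕ → ℝ) => |e n| ≤ w n ∧ rotVal h e n ∈ Q ∧ ∀ i < n, h i ≠ h n → rotVal h e i ≠ rotVal h e n) m e) → ∃ v, (fun (n : ℕ) (e : ℕ → ℝ) => |e n| ≤ w n ∧ rotVal h e n ∈ Q ∧ ∀ i < n, h i ≠ h n → rotVal h e i ≠ rotVal h e n) n (Function.update e n v) := by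
    intro n e IH
    by_cases hp : ∏ i ∈ Finset.range n, (h n - h i) = 0
    · refine ⟨0, ?_⟩
      obtain ⟨i, hi, hi0⟩ := Finset.prod_eq_zero_iff.1 hp
      simp only [Finset.mem_range] at hi
      have hh : h n = h i := sub_eq_zero.1 hi0
      have e1 : rotVal h (Function.update e n 0) n = rotVal h e i := by
        rw [v2_rotVal_eq h _ i n hi hh]
        apply v2_rotVal_congr
        intro k hk
        rw [Function.update_of_ne (by omega)]
      refine ⟨by simp [(hw n).le], ?_, ?_⟩
      · rw [e1]; exact (IH i hi).2.1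
      · intro k hk hne
        rw [e1, v2_rotVal_congr h _ e k (fun i' hi' => Function.update_of_ne (by omega) _ _)]
        rw [hh] at hne
        rcases lt_trichotomy k i with h1 | rfl | h1
        · exact (IH i hi).2.2 k h1 hne
        · exact absurd rfl hne
        · exact fun h2 => (IH k hk).2.2 i h1 hne.symm h2.symm
    · have hd : Dense (Q \ ((fun i => rotVal h e i) '' (Finset.range n : Set ℕ))) :=
        hQ.sdiff_finite ((Finset.finite_toSet _).image _)
      set p := ∏ i ∈ Finset.range n, (h n - h i) with hpdef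
      set b := h n + ∑ k ∈ Finset.range n, e k * ∏ i ∈ Finset.range k, (h n - h i) with hb
      obtain ⟨q, hq, hqb⟩ := hd.exists_dist_lt b (mul_pos (hw n) (abs_pos.2 hp))
      refine ⟨(q - b) / p, ?_⟩
      have e1 : rotVal h (Function.update e n ((q - b) / p)) n = q := by
        unfold rotVal
        rw [Finset.sum_range_succ, Function.update_self, ← hpdef, div_mul_cancel₀ _ hp]
        have : ∑ k ∈ Finset.range n, (Function.update e n ((q - b) / p)) k *
            ∏ i ∈ Finset.range k, (h n - h i) =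
            ∑ k ∈ Finset.range n, e k * ∏ i ∈ Finset.range k, (h n - h i) := by
          apply Finset.sum_congr rfl
          intro k hk
          simp only [Finset.mem_range] at hk
          rw [Function.update_of_ne (by omega)]
        rw [this, ← add_assoc, ← hb]
        ring
      refine ⟨?_, ?_, ?_⟩
      · rw [Function.update_self, abs_div, div_le_iff₀ (abs_pos.2 hp)]
        rw [Real.dist_eq, abs_sub_comm] at hqb
        exact hqb.le
      · rw [e1]; exact hq.1
      · intro k hk _
        rw [e1, v2_rotVal_congr h _ e k (fun i' hi' => Function.update_of_ne (by omega) _ _)]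
        intro h2
        apply hq.2
        exact ⟨k, by simpa using hk, h2⟩
  have key : ∃ e : ℕ → ℝ, ∀ n, (fun (n : ℕ) (e : ℕ → ℝ) => |e n| ≤ w n ∧ rotVal h e n ∈ Q ∧
      ∀ i < n, h i ≠ h n → rotVal h e i ≠ rotVal h e n) n e := by
    refine v2_exists_seq _ v2a v2b
  obtain ⟨e, he⟩ := key
  refine ⟨e, fun k => (he k).1, fun j => (he j).2.1, ?_⟩
  intro i j hij
  rcases lt_trichotomy i j with h1 | rfl | h1
  · exact (he j).2.2 i h1 hij
  · exact absurd rfl hij
  · exact fun h2 => (he i).2.2 j h1 hij.symm h2.symm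

end Pool.Agent.Lib.MP_bb8441_an
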