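import Pool.Agent.Lib.MP_bb8441_an.Hyp
import Pool.Agent.Lib.MP_bb8441_an.RotSeq

/-! Cayley transform of an operator and rotation of its unimodular eigenvalues. -/

set_option autoImplicit false

namespace Pool.Agent.Lib.MP_bb8441_an

open Polynomial

variable {X : Type*} [NormedAddCommGroup X] [NormedSpace ℂ X]

/-- (V3) The real parameters of the roots of unity are dense. -/
theorem roots_real_dense (ζ : ℂ) (hζ : ‖ζ‖ = 1) :
    Dense {t : ℝ | ∃ m : ℕ, 1 ≤ m ∧ (ζ * ((t : ℂ) - Complex.I) / ((t : ℂ) + Complex.I)) ^ m = 1} := by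
  have hζ0 : ζ ≠ 0 := by
    rintro rfl
    simp at hζ
  rw [Metric.dense_iff]
  intro t₀ r hr
  have hti : ∀ t : ℝ, (t : ℂ) + Complex.I ≠ 0 := by
    intro t h
    have h1 := congrArg Complex.im h
    simp at h1
  set c₀ : ℂ := ζ * ((t₀ : ℂ) - Complex.I) / ((t₀ : ℂ) + Complex.I) with hc₀
  have hc₀n : ‖c₀‖ = 1 := by
    have h1 : ‖(t₀ : ℂ) - Complex.I‖ = ‖(t₀ : ℂ) + Complex.I‖ := by
      have h2 : (t₀ : ℂ) - Complex.I = (starRingEnd ℂ) ((t₀ : ℂ) + Complex.I) := by
        simp [sub_eq_add_neg]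
      rw [h2, Complex.norm_conj]
    rw [hc₀, norm_div, norm_mul, hζ, one_mul, h1, div_self (norm_ne_zero_iff.mpr (hti t₀))]
  have hne : c₀ ≠ ζ := by
    intro h
    rw [hc₀, div_eq_iff (hti t₀)] at h
    have h2 := mul_left_cancel₀ hζ0 h
    have h3 := congrArg Complex.im h2
    norm_num at h3
  have hsub : ζ - c₀ ≠ 0 := sub_ne_zero.mpr (Ne.symm hne)
  have hψ0 : Complex.I * (ζ + c₀) / (ζ - c₀) = t₀ := by
    rw [div_eq_iff hsub, hc₀]
    have h1 := hti t₀
    field_simp
    ring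
  have hcont : ContinuousAt (fun c : ℂ => Complex.I * (ζ + c) / (ζ - c)) c₀ := by
    refine ContinuousAt.div ?_ ?_ hsub
    · fun_prop
    · fun_prop
  rw [Metric.continuousAt_iff] at hcont
  obtain ⟨δ, hδ, hδ'⟩ := hcont r hr
  obtain ⟨b, ⟨m, hm, hbm⟩, -, hb⟩ := roots_accumulate c₀ hc₀n (min δ ‖ζ - c₀‖)
    (lt_min hδ (norm_pos_iff.mpr hsub))
  have hbn : ‖b‖ = 1 := Complex.norm_eq_one_of_pow_eq_one hbm (by omega)
  have hbζ : ζ - b ≠ 0 := by
    intro h
    have h1 : b = ζ := (sub_eq_zero.mp h).symm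
    rw [h1] at hb
    exact absurd hb (not_lt.mpr (min_le_right _ _))
  set w : ℂ := Complex.I * (ζ + b) / (ζ - b) with hw
  have hwr : (starRingEnd ℂ) w = w := by
    have hb0 : b ≠ 0 := by
      rintro rfl
      simp at hbn
    have h1 : (starRingEnd ℂ) ζ = ζ⁻¹ := (Complex.inv_eq_conj hζ).symm
    have h2 : (starRingEnd ℂ) b = b⁻¹ := (Complex.inv_eq_conj hbn).symm
    have h4 : ζ⁻¹ - b⁻¹ ≠ 0 := by
      intro h
      exact hbζ (sub_eq_zero.mpr (inv_injective (sub_eq_zero.mp h)))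
    rw [hw, map_div₀, map_mul, map_add, map_sub, h1, h2, Complex.conj_I, div_eq_div_iff h4 hbζ]
    field_simp
    ring
  obtain ⟨t, ht⟩ := Complex.conj_eq_iff_real.mp hwr
  refine ⟨t, ?_, m, hm, ?_⟩
  · have h1 := hδ' (show dist b c₀ < δ by
      rw [dist_eq_norm]
      exact lt_of_lt_of_le hb (min_le_left _ _))
    rw [hψ0, ← hw, ht] at h1
    rw [Complex.dist_eq, ← Complex.ofReal_sub, Complex.norm_real] at h1
    rwa [Metric.mem_ball, dist_eq_norm]
  · rw [← hbm]
    congr 1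
    rw [div_eq_iff (hti t), ← ht, hw]
    field_simp
    ring

theorem v4_real (ζ c : ℂ) (hζ : ‖ζ‖ = 1) (hc : ‖c‖ = 1) (hne : ζ ≠ c) :
    ∃ h : ℝ, (h : ℂ) = Complex.I * (ζ + c) / (ζ - c) := by
  have hz0 : ζ ≠ 0 := by
    rintro rfl; simp at hζ
  have hc0 : c ≠ 0 := by
    rintro rfl; simp at hc
  have hz1 : (starRingEnd ℂ) ζ = ζ⁻¹ := by
    rw [Complex.inv_def, Complex.normSq_eq_norm_sq, hζ]; simp
  have hc1 : (starRingEnd ℂ) c = c⁻¹ := by
    rw [Complex.inv_def, Complex.normSq_eq_norm_sq, hc]; simp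
  have hsub : ζ - c ≠ 0 := sub_ne_zero.mpr hne
  have hconj : (starRingEnd ℂ) (Complex.I * (ζ + c) / (ζ - c)) = Complex.I * (ζ + c) / (ζ - c) := by
    rw [map_div₀, map_mul, map_add, map_sub, hz1, hc1, Complex.conj_I]
    have h2 : ζ⁻¹ - c⁻¹ ≠ 0 := by
      intro h
      apply hne
      have := sub_eq_zero.mp h
      exact inv_injective this
    rw [div_eq_div_iff h2 hsub]
    field_simp
    ring
  obtain ⟨r, hr⟩ := Complex.conj_eq_iff_real.mp hconj
  exact ⟨r, hr.symm⟩

/-- (V4) The Cayley transform. -/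
theorem cayley [CompleteSpace X] (T : X →L[ℂ] X) (ζ : ℂ) (hζ : ‖ζ‖ = 1)
    (hσ : ζ ∉ spectrum ℂ T) :
    ∃ H : X →L[ℂ] X,
      (∀ (c : ℂ) (x : X), ‖c‖ = 1 → x ≠ 0 → T x = c • x →
        ∃ h : ℝ, H x = (h : ℂ) • x ∧ c = ζ * ((h : ℂ) - Complex.I) / ((h : ℂ) + Complex.I)) ∧
      ∀ ε > 0, ∃ δ > 0, ∀ H' : X →L[ℂ] X, ‖H' - H‖ < δ →
        ∃ T' : X →L[ℂ] X, ‖T' - T‖ < ε ∧ ∀ (t : ℝ) (x : X), H' x = (t : ℂ) • x →
          T' x = (ζ * ((t : ℂ) - Complex.I) / ((t : ℂ) + Complex.I)) • x := by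
  have hz0 : ζ ≠ 0 := by
    rintro rfl; simp at hζ
  have hI := Complex.I_ne_zero
  rw [spectrum.notMem_iff] at hσ
  obtain ⟨u, hu⟩ := hσ
  set R : X →L[ℂ] X := ((u⁻¹ : (X →L[ℂ] X)ˣ) : X →L[ℂ] X) with hR
  have hRu : R * ((algebraMap ℂ (X →L[ℂ] X)) ζ - T) = 1 := by
    rw [← hu, hR]; exact u.inv_mul
  have huR : ((algebraMap ℂ (X →L[ℂ] X)) ζ - T) * R = 1 := by
    rw [← hu, hR]; exact u.mul_inv
  have hRu' : ∀ x, R (ζ • x - T x) = x := by
    intro x
    have := congrArg (fun A : X →L[ℂ] X => A x) hRu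
    simpa [Algebra.algebraMap_eq_smul_one] using this
  have huR' : ∀ x, ζ • R x - T (R x) = x := by
    intro x
    have := congrArg (fun A : X →L[ℂ] X => A x) huR
    simpa [Algebra.algebraMap_eq_smul_one] using this
  have hTR : ∀ x, T (R x) = ζ • R x - x := by
    intro x
    have := huR' x
    rw [eq_sub_iff_add_eq]
    nth_rewrite 2 [← this]
    abel
  set H : X →L[ℂ] X := Complex.I • ((ζ • (1 : X →L[ℂ] X) + T) * R) with hH
  have hHx : ∀ x, H x = Complex.I • (ζ • R x + T (R x)) := by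
    intro x; simp [hH]
  set U : X →L[ℂ] X := H + Complex.I • (1 : X →L[ℂ] X) with hU
  set K : X →L[ℂ] X := (2 * Complex.I * ζ)⁻¹ • (ζ • (1 : X →L[ℂ] X) - T) with hK
  have hUx : ∀ x, U x = (2 * Complex.I * ζ) • R x := by
    intro x
    have : U x = H x + Complex.I • x := by simp [hU]
    rw [this, hHx, hTR]
    module
  have hKx : ∀ x, K x = (2 * Complex.I * ζ)⁻¹ • (ζ • x - T x) := by
    intro x; simp [hK]
  have h2 : (2 * Complex.I * ζ) ≠ 0 := by
    simp [hI, hz0]
  have hUK : U * K = 1 := by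
    ext x
    change U (K x) = x
    rw [hUx, hKx, map_smul, hRu', smul_smul, mul_inv_cancel₀ h2, one_smul]
  have hKU : K * U = 1 := by
    ext x
    change K (U x) = x
    rw [hUx, hKx, map_smul, smul_comm ζ, ← smul_sub, huR', smul_smul, inv_mul_cancel₀ h2, one_smul]
  let v : (X →L[ℂ] X)ˣ := ⟨U, K, hUK, hKU⟩
  refine ⟨H, ?_, ?_⟩
  · intro c x hc hx hTx
    have hne : ζ ≠ c := by
      rintro rfl
      apply hx
      have := hRu' x
      rw [hTx, sub_self, map_zero] at this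
      exact this.symm
    have hsub : ζ - c ≠ 0 := sub_ne_zero.mpr hne
    obtain ⟨h, hh⟩ := v4_real ζ c hζ hc hne
    have hRx : R x = (ζ - c)⁻¹ • x := by
      have := hRu' x
      rw [hTx, ← sub_smul, map_smul] at this
      nth_rewrite 2 [← this]
      rw [smul_smul, inv_mul_cancel₀ hsub, one_smul]
    refine ⟨h, ?_, ?_⟩
    · rw [hHx, hRx, map_smul, hTx, hh]
      simp only [smul_smul, ← add_smul]
      congr 1
      field_simp
    · rw [hh]
      have h3 : Complex.I * (ζ + c) / (ζ - c) + Complex.I = (2 * Complex.I * ζ) / (ζ - c) := by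
        field_simp; ring
      have h4 : Complex.I * (ζ + c) / (ζ - c) - Complex.I = (2 * Complex.I * c) / (ζ - c) := by
        field_simp; ring
      rw [h3, h4]
      field_simp
  · intro ε hε
    set F : (X →L[ℂ] X) → (X →L[ℂ] X) := fun G =>
      ζ • ((G - Complex.I • (1 : X →L[ℂ] X)) * Ring.inverse (G + Complex.I • (1 : X →L[ℂ] X))) with hF
    have hcont : ContinuousAt F H := by
      have h1 : ContinuousAt (fun G : X →L[ℂ] X => Ring.inverse (G + Complex.I • (1 : X →L[ℂ] X))) H := by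
        have h5 : ContinuousAt (Ring.inverse : (X →L[ℂ] X) → (X →L[ℂ] X)) (v : X →L[ℂ] X) :=
          NormedRing.inverse_continuousAt v
        have h6 : ContinuousAt (fun G : X →L[ℂ] X => G + Complex.I • (1 : X →L[ℂ] X)) H := by
          fun_prop
        exact ContinuousAt.comp (f := fun G : X →L[ℂ] X => G + Complex.I • (1 : X →L[ℂ] X))
          (g := Ring.inverse) h5 h6
      have h2 : ContinuousAt (fun G : X →L[ℂ] X => G - Complex.I • (1 : X →L[ℂ] X)) H := by
        fun_prop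
      exact (h2.mul h1).const_smul ζ
    have hFH : F H = T := by
      have h1 : Ring.inverse (H + Complex.I • (1 : X →L[ℂ] X)) = K := by
        have : (H + Complex.I • (1 : X →L[ℂ] X)) = (v : X →L[ℂ] X) := rfl
        rw [this, Ring.inverse_unit]
        rfl
      have h2 : F H = ζ • ((H - Complex.I • (1 : X →L[ℂ] X)) * K) := by
        simp only [hF, h1]
      rw [h2]
      ext x
      change ζ • (H (K x) - Complex.I • K x) = T x
      rw [hHx, hKx, map_smul, hRu', map_smul]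
      simp only [smul_sub, smul_add, smul_smul]
      have h5 : (ζ * (Complex.I * (2 * Complex.I * ζ)⁻¹)) = 2⁻¹ := by
        field_simp
      have h6 : ζ * (Complex.I * (ζ * (2 * Complex.I * ζ)⁻¹)) = ζ * 2⁻¹ := by
        field_simp
      have h7 : ζ * (Complex.I * ((2 * Complex.I * ζ)⁻¹ * ζ)) = ζ * 2⁻¹ := by
        field_simp
      rw [h5, h6, h7]
      module
    have hopen : ∀ᶠ G in nhds H, IsUnit (G + Complex.I • (1 : X →L[ℂ] X)) := by
      have h6 : ContinuousAt (fun G : X →L[ℂ] X => G + Complex.I • (1 : X →L[ℂ] X)) H := by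
        fun_prop
      exact h6.eventually (Units.isOpen.mem_nhds ⟨v, rfl⟩)
    have hclose : ∀ᶠ G in nhds H, ‖F G - T‖ < ε := by
      have := hcont.eventually (Metric.ball_mem_nhds (F H) hε)
      filter_upwards [this] with G hG
      rw [← hFH, ← dist_eq_norm]
      exact hG
    obtain ⟨δ, hδ, hball⟩ := Metric.eventually_nhds_iff.mp (hopen.and hclose)
    refine ⟨δ, hδ, ?_⟩
    intro H' hH'
    obtain ⟨hunit, hlt⟩ := hball (y := H') (by rw [dist_eq_norm]; exact hH')
    refine ⟨F H', hlt, ?_⟩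
    intro t x hx
    have hti : ((t : ℂ) + Complex.I) ≠ 0 := by
      intro h
      have := congrArg Complex.im h
      simp at this
    have hinv : Ring.inverse (H' + Complex.I • (1 : X →L[ℂ] X)) x = ((t : ℂ) + Complex.I)⁻¹ • x := by
      have h1 := Ring.inverse_mul_cancel _ hunit
      have h2 := congrArg (fun A : X →L[ℂ] X => A x) h1
      have h3 : Ring.inverse (H' + Complex.I • (1 : X →L[ℂ] X)) (H' x + Complex.I • x) = x := by
        simpa using h2
      rw [hx, ← add_smul, map_smul] at h3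
      nth_rewrite 2 [← h3]
      rw [smul_smul, inv_mul_cancel₀ hti, one_smul]
    change ζ • ((H' - Complex.I • (1 : X →L[ℂ] X)) (Ring.inverse (H' + Complex.I • (1 : X →L[ℂ] X)) x)) = _
    rw [hinv]
    have h8 : (H' - Complex.I • (1 : X →L[ℂ] X)) (((t : ℂ) + Complex.I)⁻¹ • x)
        = ((t : ℂ) + Complex.I)⁻¹ • ((t : ℂ) • x - Complex.I • x) := by
      rw [map_smul]
      congr 1
      simp [hx]
    rw [h8, ← sub_smul, smul_smul, smul_smul]
    congr 1
    field_simp

/-- The polynomial with the zeros `h i`, `i < k`. -/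
noncomputable def rotPoly (h : ℕ → ℝ) (k : ℕ) : ℂ[X] :=
  ∏ i ∈ Finset.range k, (Polynomial.X - Polynomial.C ((h i : ℝ) : ℂ))

theorem v5_pow_apply (H : X →L[ℂ] X) (c : ℂ) (x : X) (hx : H x = c • x) (n : ℕ) :
    (H ^ n) x = c ^ n • x := by
  induction n with
  | zero => simp
  | succ n ih =>
    rw [pow_succ', ContinuousLinearMap.mul_apply, ih, map_smul, hx, smul_smul, pow_succ]

theorem v5_aeval_apply (H : X →L[ℂ] X) (c : ℂ) (x : X) (hx : H x = c • x) (p : ℂ[X]) :
    (Polynomial.aeval H p) x = (p.eval c) • x := by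
  induction p using Polynomial.induction_on' with
  | add p q hp hq =>
    rw [map_add, ContinuousLinearMap.add_apply, hp, hq, Polynomial.eval_add, add_smul]
  | monomial n a =>
    rw [Polynomial.aeval_monomial, Polynomial.eval_monomial, ContinuousLinearMap.mul_apply,
      v5_pow_apply H c x hx n, mul_smul]
    simp only [Algebra.algebraMap_eq_smul_one, map_smul]
    exact smul_comm _ _ _

/-- (V5) The perturbed operator. -/
theorem series_op [CompleteSpace X] (H : X →L[ℂ] X) (h e : ℕ → ℝ) (δ : ℝ) (hδ : 0 < δ)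
    (hw : ∀ k, |e k| ≤ δ / 2 ^ (k + 2) / (‖Polynomial.aeval H (rotPoly h k)‖ + 1)) :
    ∃ H' : X →L[ℂ] X, ‖H' - H‖ < δ ∧ ∀ (j : ℕ) (x : X), H x = ((h j : ℝ) : ℂ) • x →
      H' x = ((rotVal h e j : ℝ) : ℂ) • x := by
  set u : ℕ → (X →L[ℂ] X) := fun k => ((e k : ℝ) : ℂ) • Polynomial.aeval H (rotPoly h k) with hu
  have hun : ∀ k, ‖u k‖ ≤ δ / 4 * (1 / 2) ^ k := by
    intro k
    have h1 : ‖u k‖ = |e k| * ‖Polynomial.aeval H (rotPoly h k)‖ := by
      rw [hu]; simp [norm_smul]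
    rw [h1]
    have h0 : (0 : ℝ) ≤ ‖Polynomial.aeval H (rotPoly h k)‖ := norm_nonneg _
    calc |e k| * ‖Polynomial.aeval H (rotPoly h k)‖
        ≤ δ / 2 ^ (k + 2) / (‖Polynomial.aeval H (rotPoly h k)‖ + 1)
            * (‖Polynomial.aeval H (rotPoly h k)‖ + 1) := by
          apply mul_le_mul (hw k) (by linarith) h0 (by positivity)
      _ = δ / 2 ^ (k + 2) := by field_simp
      _ = δ / 4 * (1 / 2) ^ k := by
          rw [pow_add, one_div, inv_pow]; field_simp; norm_num
  have hgs : Summable (fun k : ℕ => δ / 4 * (1 / 2 : ℝ) ^ k) :=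
    (summable_geometric_of_lt_one (by norm_num) (by norm_num)).mul_left _
  have hs : Summable u := Summable.of_norm_bounded hgs hun
  refine ⟨H + ∑' k, u k, ?_, ?_⟩
  · rw [add_sub_cancel_left]
    calc ‖∑' k, u k‖ ≤ ∑' k, δ / 4 * (1 / 2 : ℝ) ^ k := tsum_of_norm_bounded hgs.hasSum hun
      _ = δ / 2 := by
          rw [tsum_mul_left, tsum_geometric_of_lt_one (by norm_num) (by norm_num)]; ring
      _ < δ := by linarith
  · intro j x hx
    have h1 : (∑' k, u k) x = ∑' k, (u k) x := by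
      have := (ContinuousLinearMap.apply ℂ X x).map_tsum hs
      simpa using this
    have h2 : ∀ k, (u k) x = ((e k : ℝ) : ℂ) • ((((∏ i ∈ Finset.range k, (h j - h i)) : ℝ) : ℂ) • x) := by
      intro k
      rw [hu]
      simp only [ContinuousLinearMap.smul_apply]
      rw [v5_aeval_apply H _ x hx]
      congr 2
      simp [rotPoly, Polynomial.eval_prod]
    rw [ContinuousLinearMap.add_apply, h1, hx, tsum_eq_sum (s := Finset.range (j + 1))]
    · rw [Finset.sum_congr rfl (fun k _ => h2 k)]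
      simp only [smul_smul]
      rw [← Finset.sum_smul, ← add_smul]
      congr 1
      simp [rotVal]
    · intro k hk
      rw [h2 k]
      have : (∏ i ∈ Finset.range k, (h j - h i)) = 0 := by
        apply Finset.prod_eq_zero (i := j)
        · rw [Finset.mem_range] at hk ⊢; omega
        · ring
      rw [this]; simp

end Pool.Agent.Lib.MP_bb8441_an
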