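import Mathlib

/-! Functionals vanishing on a finite-dimensional subspace with controlled norm. -/

set_option autoImplicit false

namespace Pool.Agent.Lib.MP_bb8441_an

variable {X : Type*} [NormedAddCommGroup X] [NormedSpace ℂ X]

/-- Sharp form of `exists_functional_dist`. -/
theorem exists_functional_dist' (W : Submodule ℂ X) (d : ℝ) (hd : 0 < d) (v : X)
    (hv : ∀ w ∈ W, d ≤ ‖v - w‖) :
    ∃ φ : X →L[ℂ] ℂ, φ v = 1 ∧ (∀ w ∈ W, φ w = 0) ∧ ‖φ‖ ≤ 1 / d := by
  have hn : d ≤ ‖(Submodule.Quotient.mk v : X ⧸ W)‖ := by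
    refine le_of_forall_pos_le_add fun ε hε => ?_
    obtain ⟨m, hm, hm'⟩ := Submodule.Quotient.norm_mk_lt (S := W) (Submodule.Quotient.mk v) hε
    have h1 : v - m ∈ W := by
      have := (Submodule.Quotient.eq W).1 hm.symm
      exact this
    have h2 := hv _ h1
    rw [sub_sub_cancel] at h2
    exact h2.trans hm'.le
  have hn0 : 0 < ‖(Submodule.Quotient.mk v : X ⧸ W)‖ := hd.trans_le hn
  obtain ⟨g, hg1, hg2⟩ := exists_dual_vector (𝕜 := ℂ) (Submodule.Quotient.mk v : X ⧸ W) hn0.ne'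
  have hq : ‖W.mkQL‖ ≤ 1 := by
    refine ContinuousLinearMap.opNorm_le_bound _ zero_le_one fun x => ?_
    rw [one_mul]
    exact Submodule.Quotient.norm_mk_le W x
  refine ⟨((‖(Submodule.Quotient.mk v : X ⧸ W)‖ : ℂ)⁻¹) • (g.comp W.mkQL), ?_, ?_, ?_⟩
  · have : g (W.mkQL v) = (‖(Submodule.Quotient.mk v : X ⧸ W)‖ : ℂ) := by
      rw [Submodule.mkQL_apply]
      simpa using hg2
    simp only [ContinuousLinearMap.smul_apply, ContinuousLinearMap.comp_apply, this, smul_eq_mul]
    exact inv_mul_cancel₀ (by exact_mod_cast hn0.ne')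
  · intro w hw
    have : W.mkQL w = 0 := by
      rw [Submodule.mkQL_apply]
      simpa using hw
    simp [this]
  · rw [norm_smul, norm_inv, Complex.norm_real, norm_norm]
    have h1 : ‖g.comp W.mkQL‖ ≤ 1 := by
      refine (ContinuousLinearMap.opNorm_comp_le _ _).trans ?_
      rw [hg1, one_mul]
      exact hq
    calc (‖(Submodule.Quotient.mk v : X ⧸ W)‖)⁻¹ * ‖g.comp W.mkQL‖
        ≤ (‖(Submodule.Quotient.mk v : X ⧸ W)‖)⁻¹ * 1 := by gcongr
      _ ≤ 1 / d := by
        rw [mul_one, one_div]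
        exact inv_anti₀ hd hn

/-- Finitely many functionals control the distance to a finite-dimensional subspace. -/
theorem exists_functional (W : Submodule ℂ X) [FiniteDimensional ℂ W] :
    ∃ (n : ℕ) (Ψ : X →L[ℂ] (Fin n → ℂ)), ∀ v : X, ‖v‖ = 1 → Ψ v = 0 →
      ∃ φ : X →L[ℂ] ℂ, φ v = 1 ∧ (∀ w ∈ W, φ w = 0) ∧ ‖φ‖ ≤ 3 := by
  classical
  -- a finite net of the unit sphere of `W`
  have hcomp : IsCompact (Metric.sphere (0 : W) 1) := isCompact_sphere _ _
  obtain ⟨t, hts, htf, htc⟩ := hcomp.finite_cover_balls (e := 1 / 2) (by norm_num)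
  -- enumerate the net
  obtain ⟨n, f, hf⟩ : ∃ (n : ℕ) (f : Fin n → W), Set.range f = t := by
    haveI := htf.to_subtype
    obtain ⟨n, ⟨e⟩⟩ := Finite.exists_equiv_fin t
    refine ⟨n, fun i => (e.symm i : W), ?_⟩
    ext x
    constructor
    · rintro ⟨i, rfl⟩
      exact (e.symm i).2
    · intro hx
      exact ⟨e ⟨x, hx⟩, by simp⟩
  choose g hg1 hg2 using fun i : Fin n => exists_dual_vector'' (𝕜 := ℂ) ((f i : W) : X)
  refine ⟨n, ContinuousLinearMap.pi g, fun v hv hΨ => ?_⟩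
  have hΨ' : ∀ i, g i v = 0 := fun i => by
    have := congrFun hΨ i
    simpa using this
  have key : ∀ w ∈ W, (1 / 3 : ℝ) ≤ ‖v - w‖ := by
    intro w hw
    by_cases hw0 : ‖w‖ < 2 / 3
    · have := norm_sub_norm_le v w
      rw [hv] at this
      linarith
    · push Not at hw0
      have hwpos : 0 < ‖w‖ := by linarith
      set w' : W := (‖w‖⁻¹ : ℂ) • (⟨w, hw⟩ : W) with hw'
      have hw'n : ‖w'‖ = 1 := by
        rw [hw', norm_smul, norm_inv, Complex.norm_real, norm_norm]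
        exact inv_mul_cancel₀ hwpos.ne'
      have hmem : w' ∈ Metric.sphere (0 : W) 1 := by simpa using hw'n
      have := htc hmem
      simp only [Set.mem_iUnion] at this
      obtain ⟨p, hp, hpb⟩ := this
      rw [← hf] at hp
      obtain ⟨i, rfl⟩ := hp
      rw [Metric.mem_ball, dist_eq_norm] at hpb
      have hfi : ‖(f i : X)‖ = 1 := by
        have : f i ∈ Metric.sphere (0 : W) 1 := hts (by rw [← hf]; exact ⟨i, rfl⟩)
        simpa using this
      have h1 : ‖g i ((w' : X) - (f i : X))‖ ≤ 1 / 2 := by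
        calc ‖g i ((w' : X) - (f i : X))‖ ≤ ‖g i‖ * ‖(w' : X) - (f i : X)‖ := (g i).le_opNorm _
          _ ≤ 1 * (1 / 2) := by
            gcongr
            · exact hg1 i
            · exact hpb.le
          _ = 1 / 2 := by norm_num
      have h2 : (1 / 2 : ℝ) ≤ ‖g i (w' : X)‖ := by
        have h3 : g i (f i : X) = 1 := by rw [hg2 i, hfi]; simp
        have h4 : g i (w' : X) = 1 + g i ((w' : X) - (f i : X)) := by
          rw [map_sub, h3]; ring
        have h5 : ‖(1 : ℂ)‖ ≤ ‖g i (w' : X)‖ + ‖g i ((w' : X) - (f i : X))‖ := by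
          calc ‖(1 : ℂ)‖ = ‖g i (w' : X) - g i ((w' : X) - (f i : X))‖ := by rw [h4]; ring_nf
            _ ≤ _ := norm_sub_le _ _
        rw [norm_one] at h5
        linarith
      have h6 : g i w = (‖w‖ : ℂ) * g i (w' : X) := by
        rw [hw']
        simp only [Submodule.coe_smul, map_smul, smul_eq_mul]
        rw [← mul_assoc, mul_inv_cancel₀ (by exact_mod_cast hwpos.ne'), one_mul]
      have h7 : ‖g i w‖ ≤ ‖v - w‖ := by
        have : g i w = - g i (v - w) := by rw [map_sub, hΨ' i]; ring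
        rw [this, norm_neg]
        calc ‖g i (v - w)‖ ≤ ‖g i‖ * ‖v - w‖ := (g i).le_opNorm _
          _ ≤ 1 * ‖v - w‖ := by gcongr; exact hg1 i
          _ = _ := one_mul _
      have h8 : ‖g i w‖ = ‖w‖ * ‖g i (w' : X)‖ := by
        rw [h6, norm_mul, Complex.norm_real, norm_norm]
      nlinarith
  obtain ⟨φ, h1, h2, h3⟩ := exists_functional_dist' W (1 / 3) (by norm_num) v key
  exact ⟨φ, h1, h2, h3.trans (by norm_num)⟩

/-- A vector at distance at least `d` from a subspace is separated from it by a functional of norm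
at most `2 / d`. -/
theorem exists_functional_dist (W : Submodule ℂ X) (d : ℝ) (hd : 0 < d) (v : X)
    (hv : ∀ w ∈ W, d ≤ ‖v - w‖) :
    ∃ φ : X →L[ℂ] ℂ, φ v = 1 ∧ (∀ w ∈ W, φ w = 0) ∧ ‖φ‖ ≤ 2 / d := by
  obtain ⟨φ, h1, h2, h3⟩ := exists_functional_dist' W d hd v hv
  exact ⟨φ, h1, h2, h3.trans (by gcongr; norm_num)⟩

end Pool.Agent.Lib.MP_bb8441_an
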