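import Pool.Agent.Lib.MP_bb8441_an.JDefs
import Pool.Agent.Lib.MP_bb8441_an.Functional

/-! Functionals for a pair of conjugate vectors. -/

set_option autoImplicit false

namespace Pool.Agent.Lib.MP_bb8441_an

variable {X : Type*} [NormedAddCommGroup X] [NormedSpace ℂ X]

/-- Hint: `exists_functional W`; if `Ψ v = Ψ (J v) = 0` then `‖v + α J v + w‖ ≥ ‖v + α J v‖ / 3`, and
`‖v + α J v‖ ≥ ‖c - conj c‖ / (2 (‖T‖ + 1))` (for `|α| > 2` by the triangle inequality, for
`|α| ≤ 2` apply `T - conj c`, `(T - conj c) J v = J (T v - c v)`); then `exists_functional_dist`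
for the subspace spanned by `W` and `J v` with `d = ‖c - conj c‖ / (6 (‖T‖ + 1))`. -/
theorem exists_functional_pair (J : X ≃ₗᵢ⋆[ℂ] X) (hJ : ∀ x, J (J x) = x) (T : X →L[ℂ] X)
    (hT : ∀ x, T (J x) = J (T x)) (W : Submodule ℂ X) [FiniteDimensional ℂ W] :
    ∃ (n : ℕ) (Ψ : X →L[ℂ] (Fin n → ℂ)), ∀ (v : X) (c : ℂ), ‖v‖ = 1 → Ψ v = 0 → Ψ (J v) = 0 →
      ‖c‖ = 1 → (starRingEnd ℂ) c ≠ c → ‖T v - c • v‖ ≤ ‖c - (starRingEnd ℂ) c‖ / 6 →
      ∃ φ : X →L[ℂ] ℂ, φ v = 1 ∧ φ (J v) = 0 ∧ (∀ w ∈ W, φ w = 0) ∧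
        ‖φ‖ ≤ 12 * (‖T‖ + 1) / ‖c - (starRingEnd ℂ) c‖ := by
  obtain ⟨n, Ψ, hΨ⟩ := exists_functional W
  refine ⟨n, Ψ, fun v c hv hΨv hΨJ hc hcc hTv => ?_⟩
  set g := ‖c - (starRingEnd ℂ) c‖ with hg
  have hg0 : 0 < g := norm_pos_iff.2 (sub_ne_zero.2 (Ne.symm hcc))
  have hg2 : g ≤ 2 := by
    calc g ≤ ‖c‖ + ‖(starRingEnd ℂ) c‖ := norm_sub_le _ _
      _ = 2 := by rw [Complex.norm_conj, hc]; norm_num
  have hT0 : 0 ≤ ‖T‖ := norm_nonneg _
  have hJv : ‖J v‖ = 1 := by rw [LinearIsometryEquiv.norm_map, hv]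
  -- distance to `W`
  have h3 : ∀ u : X, Ψ u = 0 → ∀ w ∈ W, ‖u‖ / 3 ≤ ‖u - w‖ := by
    intro u hu w hw
    by_cases hu0 : u = 0
    · rw [hu0, norm_zero, zero_div]; exact norm_nonneg _
    · have hun : 0 < ‖u‖ := norm_pos_iff.2 hu0
      obtain ⟨φ, h1, h2, h4⟩ := hΨ ((‖u‖⁻¹ : ℂ) • u)
        (by rw [norm_smul, norm_inv, Complex.norm_real, norm_norm]
            exact inv_mul_cancel₀ hun.ne')
        (by rw [map_smul, hu, smul_zero])
      rw [map_smul, smul_eq_mul] at h1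
      have h5 : φ u = (‖u‖ : ℂ) := by
        have hne : (‖u‖ : ℂ) ≠ 0 := by exact_mod_cast hun.ne'
        calc φ u = (‖u‖ : ℂ) * ((‖u‖ : ℂ)⁻¹ * φ u) := by
              rw [← mul_assoc, mul_inv_cancel₀ hne, one_mul]
          _ = _ := by rw [h1, mul_one]
      have h6 : ‖φ (u - w)‖ = ‖u‖ := by
        rw [map_sub, h2 w hw, sub_zero, h5, Complex.norm_real, norm_norm]
      have h7 : ‖φ (u - w)‖ ≤ 3 * ‖u - w‖ := by
        refine (φ.le_opNorm _).trans ?_
        exact mul_le_mul_of_nonneg_right h4 (norm_nonneg _)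
      rw [h6] at h7
      linarith
  -- distance of `v` to the multiples of `J v`
  have h4 : ∀ α : ℂ, g / (2 * (‖T‖ + 1)) ≤ ‖v - α • J v‖ := by
    intro α
    rcases le_or_gt 2 ‖α‖ with hα | hα
    · have h5 : ‖α • J v‖ - ‖v‖ ≤ ‖v - α • J v‖ := by
        rw [← norm_sub_rev]
        exact norm_sub_norm_le _ _
      rw [norm_smul, hJv, mul_one, hv] at h5
      have h6 : g / (2 * (‖T‖ + 1)) ≤ 1 := by
        rw [div_le_one (by positivity)]
        linarith
      linarith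
    · have h5 : T (v - α • J v) - (starRingEnd ℂ) c • (v - α • J v)
          = (c - (starRingEnd ℂ) c) • v + ((T v - c • v) - α • J (T v - c • v)) := by
        have : J (T v - c • v) = T (J v) - (starRingEnd ℂ) c • J v := by
          rw [map_sub, map_smulₛₗ, hT]
        rw [this, map_sub, map_smul]
        simp only [sub_smul, smul_sub]
        rw [smul_comm ((starRingEnd ℂ) c) α (J v)]
        abel
      have h6 : ‖T (v - α • J v) - (starRingEnd ℂ) c • (v - α • J v)‖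
          ≤ (‖T‖ + 1) * ‖v - α • J v‖ := by
        refine (norm_sub_le _ _).trans ?_
        rw [norm_smul, Complex.norm_conj, hc, one_mul, add_mul, one_mul]
        exact add_le_add (T.le_opNorm _) le_rfl
      have h7 : ‖(T v - c • v) - α • J (T v - c • v)‖ ≤ 3 * (g / 6) := by
        refine (norm_sub_le _ _).trans ?_
        rw [norm_smul, LinearIsometryEquiv.norm_map]
        have h8 : 0 ≤ ‖T v - c • v‖ := norm_nonneg _
        nlinarith
      have h8 : g - 3 * (g / 6) ≤ ‖(c - (starRingEnd ℂ) c) • v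
          + ((T v - c • v) - α • J (T v - c • v))‖ := by
        have h9 : ‖(c - (starRingEnd ℂ) c) • v‖ = g := by rw [norm_smul, hv, mul_one]
        have h10 := norm_sub_le ((c - (starRingEnd ℂ) c) • v
          + ((T v - c • v) - α • J (T v - c • v))) ((T v - c • v) - α • J (T v - c • v))
        rw [add_sub_cancel_right, h9] at h10
        linarith
      rw [h5] at h6
      rw [div_le_iff₀ (by positivity)]
      have h11 := h8.trans h6
      linarith
  -- the functional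
  have hd : 0 < g / (6 * (‖T‖ + 1)) := by positivity
  obtain ⟨φ, h5, h6, h7⟩ := exists_functional_dist' (W ⊔ Submodule.span ℂ {J v})
    (g / (6 * (‖T‖ + 1))) hd v (by
      intro w hw
      obtain ⟨y, hy, z, hz, rfl⟩ := Submodule.mem_sup.1 hw
      obtain ⟨α, rfl⟩ := Submodule.mem_span_singleton.1 hz
      have h8 := h3 (v - α • J v) (by rw [map_sub, map_smul, hΨv, hΨJ, smul_zero, sub_zero]) y hy
      have h9 := h4 α
      have h10 : v - (y + α • J v) = v - α • J v - y := by abel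
      rw [h10]
      refine le_trans ?_ h8
      have h11 : g / (6 * (‖T‖ + 1)) = g / (2 * (‖T‖ + 1)) / 3 := by
        rw [div_div]; ring_nf
      rw [h11]
      linarith)
  refine ⟨φ, h5, h6 _ (Submodule.mem_sup_right (Submodule.mem_span_singleton_self _)),
    fun w hw => h6 w (Submodule.mem_sup_left hw), h7.trans ?_⟩
  rw [one_div, inv_div]
  have : 0 ≤ (‖T‖ + 1) / g := by positivity
  rw [mul_div_assoc, mul_div_assoc]
  linarith

end Pool.Agent.Lib.MP_bb8441_an
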