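import Pool.Agent.Lib.MP_bb8441_an.JNodes
import Pool.Agent.Lib.MP_bb8441_an.JFunctional
import Pool.Agent.Lib.MP_bb8441_an.AlmostEigen

/-! Correction of a pair of pending children. -/

set_option autoImplicit false

namespace Pool.Agent.Lib.MP_bb8441_an

variable {X : Type*} [NormedAddCommGroup X] [NormedSpace ℂ X]

/-- The linear map `x ↦ conj (Ψ (J x))`. -/
theorem exists_conj_functional (J : X ≃ₗᵢ⋆[ℂ] X) (n : ℕ) (Ψ : X →L[ℂ] (Fin n → ℂ)) :
    ∃ Ψ' : X →L[ℂ] (Fin n → ℂ), ∀ x, Ψ' x = 0 → Ψ (J x) = 0 := by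
  refine ⟨LinearMap.mkContinuous
    { toFun := fun x i => (starRingEnd ℂ) (Ψ (J x) i)
      map_add' := fun x y => by
        funext i
        simp
      map_smul' := fun a x => by
        funext i
        rw [map_smulₛₗ, map_smul]
        simp }
    ‖Ψ‖ (fun x => ?_), fun x hx => ?_⟩
  · rw [pi_norm_le_iff_of_nonneg (by positivity)]
    intro i
    change ‖(starRingEnd ℂ) (Ψ (J x) i)‖ ≤ _
    rw [RCLike.norm_conj]
    refine (norm_le_pi_norm (Ψ (J x)) i).trans ((Ψ.le_opNorm _).trans ?_)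
    rw [LinearIsometryEquiv.norm_map]
  · funext i
    have h1 := congrFun hx i
    change (starRingEnd ℂ) (Ψ (J x) i) = 0 at h1
    have h2 := congrArg (starRingEnd ℂ) h1
    rw [Complex.conj_conj, map_zero] at h2
    simpa using h2

/-- Correction of the pending children `c` and `conj c`. -/
theorem correct_one_J [CompleteSpace X] (J : X ≃ₗᵢ⋆[ℂ] X) (hJ : ∀ x, J (J x) = x)
    (T : X →L[ℂ] X) (hT : ∀ x, T (J x) = J (T x)) (Λ R : Set ℂ)
    (H1 : ∀ c : ℂ, ‖c‖ = 1 → DenseRange fun x => T x - c • x)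
    (hΛ : ∀ c ∈ Λ, ‖c‖ = 1 ∧ (starRingEnd ℂ) c ∈ Λ ∧ (starRingEnd ℂ) c ≠ c)
    (hR : ∀ c ∈ R, ‖c‖ = 1 ∧ c ∈ spectrum ℂ T)
    (H2 : Dense (Submodule.span ℂ {x : X | ∃ c ∈ Λ, T x = c • x} : Set X))
    (s : State X) (hs : State.InvJ J T Λ R s) (c : ℂ) (hc : c ∈ s.P)
    (η : ℝ) (hη : ‖s.S (s.u c) - c • s.u c‖ < η) (δ : ℝ) (hδ : 0 < δ) (η' : ℝ) (hη' : 0 < η') :
    ∃ s' : State X, State.InvJ J T Λ R s' ∧ s.A ⊆ s'.A ∧ s'.B = s.B ∧ s'.P = s.P ∧
      (∀ b ∈ s.A ∪ s.B ∪ s.P, b ≠ c → b ≠ (starRingEnd ℂ) c → s'.u b = s.u b) ∧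
      (∀ b ∈ s.A ∪ s.B ∪ s.P, b ≠ c → b ≠ (starRingEnd ℂ) c → s'.S (s'.u b) = s.S (s.u b)) ∧
      ‖s'.S - s.S‖ ≤ δ ∧
      ‖s'.u c - s.u c‖ ≤ 48 * (‖T‖ + 1) / ‖c - (starRingEnd ℂ) c‖ * η / δ ∧
      ‖s'.S (s'.u c) - c • s'.u c‖ < η' := by
  classical
  have hη0 : 0 < η := lt_of_le_of_lt (norm_nonneg _) hη
  have hT1 : 0 < ‖T‖ + 1 := by positivity
  have hcc : (starRingEnd ℂ) c ≠ c := hs.nr c (by simp [hc])
  have hd0 : 0 < ‖c - (starRingEnd ℂ) c‖ := norm_pos_iff.mpr (sub_ne_zero.mpr (Ne.symm hcc))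
  by_cases hr : s.S (s.u c) - c • s.u c = 0
  · refine ⟨s, hs, Finset.Subset.refl _, rfl, rfl, fun _ _ _ _ => rfl, fun _ _ _ _ => rfl,
      ?_, ?_, ?_⟩
    · simpa using hδ.le
    · rw [sub_self, norm_zero]; positivity
    · rw [hr, norm_zero]; exact hη'
  set r : X := s.S (s.u c) - c • s.u c with hrdef
  have hr0 : 0 < ‖r‖ := norm_pos_iff.mpr hr
  obtain ⟨s₁, hs₁, hN, y, hy, hry⟩ := add_nodes_J J hJ T hT Λ R H1 hΛ (fun c hc => (hR c hc).1)
    H2 s hs r (min (η' / 2) (‖r‖ / 2)) (lt_min (by linarith) (by linarith))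
  have hry1 : ‖r - y‖ < η' / 2 := lt_of_lt_of_le hry (min_le_left _ _)
  have hry2 : ‖r - y‖ < ‖r‖ / 2 := lt_of_lt_of_le hry (min_le_right _ _)
  have hy0 : y ≠ 0 := by
    rintro rfl
    rw [sub_zero] at hry2
    linarith
  have hyn : 0 < ‖y‖ := norm_pos_iff.mpr hy0
  have hy2 : ‖y‖ ≤ 2 * η := by
    have h1 : ‖y‖ ≤ ‖r‖ + ‖r - y‖ := by
      have : y = r - (r - y) := by abel
      calc ‖y‖ = ‖r - (r - y)‖ := by rw [← this]
        _ ≤ ‖r‖ + ‖r - y‖ := norm_sub_le _ _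
    linarith
  have hi₁ := hs₁.inv
  have hcP : c ∈ s₁.P := by rw [hN.P_eq]; exact hc
  have hcP' : (starRingEnd ℂ) c ∈ s₁.P := hs₁.P_J c hcP
  have hnAB : ∀ d ∈ s₁.P, d ∉ s₁.A ∪ s₁.B := by
    intro d hd h
    rcases Finset.mem_union.mp h with h | h
    · exact (Finset.disjoint_left.mp hi₁.AP h) hd
    · exact (Finset.disjoint_left.mp hi₁.BP h) hd
  have huc : s₁.u c = s.u c := hN.u_eq c (by simp [hc])
  have hcR := hR c (hi₁.P_mem c hcP)
  -- the finite-dimensional spaces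
  set W : Submodule ℂ X := Submodule.span ℂ (s₁.u '' ((s₁.A ∪ s₁.B ∪ s₁.P : Finset ℂ) : Set ℂ))
    with hW
  set V : Submodule ℂ X := Submodule.span ℂ (s₁.u '' (s₁.A : Set ℂ)) with hV
  haveI : FiniteDimensional ℂ W :=
    FiniteDimensional.span_of_finite ℂ (Set.Finite.image _ (Finset.finite_toSet _))
  haveI : FiniteDimensional ℂ V :=
    FiniteDimensional.span_of_finite ℂ (Set.Finite.image _ (Finset.finite_toSet _))
  obtain ⟨n, Ψ, hΨ⟩ := exists_functional_pair J hJ T hT W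
  obtain ⟨Ψ', hΨ'⟩ := exists_conj_functional J n Ψ
  set D : X →L[ℂ] V := (s₁.S - T).codRestrict V (fun x => by
    have := hi₁.range x
    simpa using this) with hD
  set Φ : X →L[ℂ] ((Fin n → ℂ) × (Fin n → ℂ)) × V := (Ψ.prod Ψ').prod D with hΦ
  set M : ℝ := 12 * (‖T‖ + 1) / ‖c - (starRingEnd ℂ) c‖ with hM
  have hM0 : 0 < M := by positivity
  set q : ℝ := 2 * M * ‖y‖ / δ with hq
  have hq0 : 0 < q := by positivity
  obtain ⟨v, hv1, hv2, hv3'⟩ := exists_almost_eigen T c hcR.2 (hi₁.P_not c hcP) (H1 c hcR.1)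
    (((Fin n → ℂ) × (Fin n → ℂ)) × V) Φ (min (η' / (2 * q)) (‖c - (starRingEnd ℂ) c‖ / 6))
    (lt_min (by positivity) (by positivity))
  have hv3 : ‖T v - c • v‖ < η' / (2 * q) := lt_of_lt_of_le hv3' (min_le_left _ _)
  have hv6 : ‖T v - c • v‖ ≤ ‖c - (starRingEnd ℂ) c‖ / 6 :=
    (lt_of_lt_of_le hv3' (min_le_right _ _)).le
  have hv4 : Ψ v = 0 := by
    have := congrArg (fun z => z.1.1) hv2
    simpa [hΦ] using this
  have hv4' : Ψ (J v) = 0 := by
    apply hΨ'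
    have := congrArg (fun z => z.1.2) hv2
    simpa [hΦ] using this
  have hv5 : s₁.S v = T v := by
    have h1 : D v = 0 := by
      have := congrArg Prod.snd hv2
      simpa [hΦ] using this
    have h2 : ((D v : V) : X) = 0 := by rw [h1]; rfl
    have h3 : ((D v : V) : X) = s₁.S v - T v := rfl
    rw [h3] at h2
    exact sub_eq_zero.mp h2
  obtain ⟨φ, hφ1, hφJ, hφ2, hφ3⟩ := hΨ v c hv1 hv4 hv4' hcR.1 hcc hv6
  set K₀ : X →L[ℂ] X := φ.smulRight y with hK₀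
  have hK₀x : ∀ x, K₀ x = φ x • y := fun x => by
    rw [hK₀, ContinuousLinearMap.smulRight_apply]
  set K : X →L[ℂ] X := (-((q : ℂ)⁻¹)) • (K₀ + conjOp J K₀) with hK
  have hKx : ∀ x, K x = (-((q : ℂ)⁻¹)) • (K₀ x + J (K₀ (J x))) := fun x => rfl
  have hqc : (q : ℂ) ≠ 0 := by exact_mod_cast hq0.ne'
  have hK₀n : ‖K₀‖ ≤ M * ‖y‖ := by
    rw [hK₀, ContinuousLinearMap.norm_smulRight_apply]
    exact mul_le_mul_of_nonneg_right hφ3 hyn.le
  have hKn : ‖K‖ ≤ δ := by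
    rw [hK, norm_smul, norm_neg, norm_inv, Complex.norm_real, Real.norm_eq_abs, abs_of_pos hq0]
    have h1 : ‖K₀ + conjOp J K₀‖ ≤ 2 * (M * ‖y‖) := by
      refine (norm_add_le _ _).trans ?_
      have := norm_conjOp_le J K₀
      linarith
    calc q⁻¹ * ‖K₀ + conjOp J K₀‖ ≤ q⁻¹ * (2 * (M * ‖y‖)) :=
          mul_le_mul_of_nonneg_left h1 (by positivity)
      _ = δ := by rw [hq]; field_simp
      _ ≤ δ := le_refl _
  have hKJ : ∀ x, K (J x) = J (K x) := fun x => by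
    rw [hKx, hKx, hJ, map_smulₛₗ, map_add, hJ, add_comm (K₀ (J x))]
    congr 1
    simp
  have hmemW : ∀ b ∈ s₁.A ∪ s₁.B ∪ s₁.P, s₁.u b ∈ W := fun b hb =>
    Submodule.subset_span ⟨b, by exact_mod_cast hb, rfl⟩
  have hstar : ∀ b ∈ s₁.A ∪ s₁.B ∪ s₁.P, (starRingEnd ℂ) b ∈ s₁.A ∪ s₁.B ∪ s₁.P := by
    intro b hb
    simp only [Finset.mem_union] at hb ⊢
    rcases hb with (hb | hb) | hb
    · exact Or.inl (Or.inl (hs₁.A_J b hb))
    · exact Or.inl (Or.inr (hs₁.B_J b hb))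
    · exact Or.inr (hs₁.P_J b hb)
  have hKu : ∀ b ∈ s₁.A ∪ s₁.B ∪ s₁.P, K (s₁.u b) = 0 := fun b hb => by
    rw [hKx, hK₀x, hφ2 _ (hmemW b hb), ← hs₁.u_J b hb, hK₀x, hφ2 _ (hmemW _ (hstar b hb))]
    simp
  have hKV : ∀ x, K x ∈ V := fun x => by
    rw [hKx]
    refine V.smul_mem _ (V.add_mem ?_ ?_)
    · rw [hK₀x]
      exact V.smul_mem _ hy
    · apply span_J J T Λ R s₁ hs₁
      rw [hK₀x]
      exact V.smul_mem _ hy
  -- the new state
  set w : X := s₁.u c + (q : ℂ) • v with hw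
  set u' : ℂ → X := Function.update (Function.update s₁.u c w) ((starRingEnd ℂ) c) (J w) with hu'
  have hu1 : u' c = w := by
    rw [hu', Function.update_of_ne (Ne.symm hcc), Function.update_self]
  have hu1' : u' ((starRingEnd ℂ) c) = J w := by rw [hu', Function.update_self]
  have hu2 : ∀ b, b ≠ c → b ≠ (starRingEnd ℂ) c → u' b = s₁.u b := fun b hb hb' => by
    rw [hu', Function.update_of_ne hb', Function.update_of_ne hb]
  have hABne : ∀ b ∈ s₁.A ∪ s₁.B, b ≠ c ∧ b ≠ (starRingEnd ℂ) c := by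
    intro b hb
    refine ⟨?_, ?_⟩
    · rintro rfl
      exact hnAB _ hcP hb
    · rintro rfl
      exact hnAB _ hcP' hb
  have hu3 : ∀ b ∈ s₁.A ∪ s₁.B, u' b = s₁.u b := fun b hb =>
    hu2 b (hABne b hb).1 (hABne b hb).2
  have himg : u' '' (s₁.A : Set ℂ) = s₁.u '' (s₁.A : Set ℂ) := by
    apply Set.image_congr
    intro b hb
    exact hu3 b (Finset.mem_union_left _ (by exact_mod_cast hb))
  have hsub : ∀ b ∈ s.A ∪ s.B ∪ s.P, b ∈ s₁.A ∪ s₁.B ∪ s₁.P := by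
    intro b hb
    simp only [Finset.mem_union] at hb ⊢
    rw [hN.B_eq, hN.P_eq]
    rcases hb with (hb | hb) | hb
    · exact Or.inl (Or.inl (hN.A_sub hb))
    · exact Or.inl (Or.inr hb)
    · exact Or.inr hb
  refine ⟨⟨s₁.S + K, u', s₁.A, s₁.B, s₁.P⟩, ?_, hN.A_sub, hN.B_eq, hN.P_eq, ?_, ?_, ?_, ?_, ?_⟩
  · refine ⟨⟨hi₁.A_mem, hi₁.B_mem, hi₁.P_mem, hi₁.AB, hi₁.AP, hi₁.BP, ?_, ?_, ?_, hi₁.P_not⟩,
      ?_, hs₁.A_J, hs₁.B_J, hs₁.P_J, ?_, hs₁.nr⟩
    · intro b hb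
      show (s₁.S + K) (u' b) = b • u' b
      rw [hu3 b hb, add_apply, hi₁.eig b hb, hKu b (Finset.mem_union_left _ hb), add_zero]
    · intro b hb
      show u' b ≠ 0
      rw [hu3 b hb]
      exact hi₁.ne b hb
    · intro x
      show (s₁.S + K) x - T x ∈ Submodule.span ℂ (u' '' (s₁.A : Set ℂ))
      rw [himg, add_apply]
      have : s₁.S x + K x - T x = (s₁.S x - T x) + K x := by abel
      rw [this]
      exact Submodule.add_mem _ (hi₁.range x) (hKV x)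
    · intro x
      show (s₁.S + K) (J x) = J ((s₁.S + K) x)
      rw [add_apply, add_apply, hs₁.S_J, hKJ, map_add]
    · intro b hb
      show u' ((starRingEnd ℂ) b) = J (u' b)
      by_cases hbc : b = c
      · rw [hbc, hu1, hu1']
      · by_cases hbc' : b = (starRingEnd ℂ) c
        · rw [hbc', Complex.conj_conj, hu1, hu1', hJ]
        · have h1 : (starRingEnd ℂ) b ≠ c := by
            intro h
            apply hbc'
            rw [← h, Complex.conj_conj]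
          have h2 : (starRingEnd ℂ) b ≠ (starRingEnd ℂ) c := by
            intro h
            apply hbc
            have := congrArg (starRingEnd ℂ) h
            rwa [Complex.conj_conj, Complex.conj_conj] at this
          rw [hu2 _ h1 h2, hu2 b hbc hbc', hs₁.u_J b hb]
  · intro b hb hbc hbc'
    show u' b = s.u b
    rw [hu2 b hbc hbc', hN.u_eq b hb]
  · intro b hb hbc hbc'
    show (s₁.S + K) (u' b) = s.S (s.u b)
    rw [hu2 b hbc hbc', add_apply, hKu b (hsub b hb), add_zero, hN.u_eq b hb, hN.S_eq]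
  · show ‖(s₁.S + K) - s.S‖ ≤ δ
    rw [hN.S_eq, add_sub_cancel_left]
    exact hKn
  · show ‖u' c - s.u c‖ ≤ 48 * (‖T‖ + 1) / ‖c - (starRingEnd ℂ) c‖ * η / δ
    rw [hu1, hw, huc, add_sub_cancel_left, norm_smul, hv1, mul_one, Complex.norm_real,
      Real.norm_eq_abs, abs_of_pos hq0, hq]
    apply div_le_div_of_nonneg_right _ hδ.le
    have h4 : 48 * (‖T‖ + 1) / ‖c - (starRingEnd ℂ) c‖ = 4 * M := by
      rw [hM]; ring
    rw [h4]
    nlinarith
  · show ‖(s₁.S + K) (u' c) - c • u' c‖ < η'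
    have hkey : (s₁.S + K) (u' c) - c • u' c = (r - y) + (q : ℂ) • (T v - c • v) := by
      have h1 : s₁.S (s₁.u c) - c • s₁.u c = r := by
        rw [hrdef, hN.S_eq, huc]
      have h2 : K (s₁.u c) = 0 := hKu c (by simp [hcP])
      have h3 : K ((q : ℂ) • v) = -y := by
        rw [map_smul, hKx, hK₀x, hK₀x, hφ1, hφJ, one_smul, zero_smul, map_zero, add_zero,
          smul_smul, mul_neg, mul_inv_cancel₀ hqc, neg_smul, one_smul]
      rw [hu1, hw, add_apply, map_add, map_add, h2, h3, map_smul, hv5, ← h1,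
        smul_add, smul_sub, smul_comm c (q : ℂ) v]
      abel
    rw [hkey]
    calc ‖(r - y) + (q : ℂ) • (T v - c • v)‖ ≤ ‖r - y‖ + ‖(q : ℂ) • (T v - c • v)‖ :=
          norm_add_le _ _
      _ = ‖r - y‖ + q * ‖T v - c • v‖ := by
          rw [norm_smul, Complex.norm_real, Real.norm_eq_abs, abs_of_pos hq0]
      _ < η' / 2 + q * (η' / (2 * q)) := by
          have := mul_lt_mul_of_pos_left hv3 hq0
          linarith
      _ = η' := by field_simp; ring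

end Pool.Agent.Lib.MP_bb8441_an
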