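import Mathlib

/-! A quotient of two Blaschke factors of an operator, whose spectrum contains an arc of the unit
circle. -/

set_option autoImplicit false

namespace Pool.Agent.Lib.MP_bb8441_an

open Filter Topology Complex

/-- The numerator. -/
noncomputable def mobN (a a' z : ℂ) : ℂ := (z - a) * (1 - (starRingEnd ℂ) a' * z)

/-- The denominator. -/
noncomputable def mobD (a a' z : ℂ) : ℂ := (1 - (starRingEnd ℂ) a * z) * (z - a')

theorem norm_one_sub_conj_mul (a c : ℂ) (hc : ‖c‖ = 1) :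
    ‖1 - (starRingEnd ℂ) a * c‖ = ‖c - a‖ := by
  have h1 : (1 : ℂ) - (starRingEnd ℂ) a * c = c * (starRingEnd ℂ) (c - a) := by
    rw [map_sub, mul_sub]
    have h2 : c * (starRingEnd ℂ) c = 1 := by
      rw [Complex.mul_conj, Complex.normSq_eq_norm_sq, hc]; norm_num
    rw [h2]; ring
  rw [h1, norm_mul, hc, one_mul, Complex.norm_conj]

theorem norm_mob (a a' c : ℂ) (hc : ‖c‖ = 1) (ha : ‖a‖ < 1) (ha' : ‖a'‖ < 1) :
    mobD a a' c ≠ 0 ∧ ‖mobN a a' c / mobD a a' c‖ = 1 := by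
  have h1 : ‖c - a‖ ≠ 0 := by
    intro h
    rw [norm_eq_zero, sub_eq_zero] at h
    rw [h] at hc; linarith
  have h2 : ‖c - a'‖ ≠ 0 := by
    intro h
    rw [norm_eq_zero, sub_eq_zero] at h
    rw [h] at hc; linarith
  have hN : ‖mobN a a' c‖ = ‖c - a‖ * ‖c - a'‖ := by
    rw [mobN, norm_mul, norm_one_sub_conj_mul a' c hc]
  have hD : ‖mobD a a' c‖ = ‖c - a‖ * ‖c - a'‖ := by
    rw [mobD, norm_mul, norm_one_sub_conj_mul a c hc]
  constructor
  · rw [← norm_ne_zero_iff, hD]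
    exact mul_ne_zero h1 h2
  · rw [norm_div, hN, hD, div_self (mul_ne_zero h1 h2)]

/-- The factorisation behind the spectral inclusion. -/
theorem mob_factor (a a' g z : ℂ) (hg : mobN a a' z - g * mobD a a' z = 0) (w : ℂ) :
    mobN a a' w - g * mobD a a' w = (w - z) *
      ((-(starRingEnd ℂ) a' + g * (starRingEnd ℂ) a) * w +
        ((1 + a * (starRingEnd ℂ) a' - g * (1 + (starRingEnd ℂ) a * a')) +
          (-(starRingEnd ℂ) a' + g * (starRingEnd ℂ) a) * z)) := by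
  have : mobN a a' w - g * mobD a a' w = (mobN a a' w - g * mobD a a' w) -
      (mobN a a' z - g * mobD a a' z) := by rw [hg, sub_zero]
  rw [this]
  simp only [mobN, mobD]
  ring

/-- The choice of the two zeros: antipodal points of a small circle. -/
theorem exists_pair (ζ : ℂ) (hζ : ‖ζ‖ = 1) (r : ℝ) (hr : 0 < r) (z₀ : ℂ)
    (hz₀ : r ≤ ‖z₀ - ζ‖) :
    ∃ a a' : ℂ, a ≠ a' ∧ ‖a‖ < 1 ∧ ‖a'‖ < 1 ∧ ‖a' - ζ‖ < r ∧
      (a ≠ 0 → ‖((starRingEnd ℂ) a)⁻¹ - ζ‖ < r) ∧ a ≠ 0 ∧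
      ‖mobN a a' z₀ / mobD a a' z₀‖ = 1 ∧ mobD a a' z₀ ≠ 0 := by
  obtain ⟨s, hs0, hs1, hsr⟩ : ∃ s : ℝ, 0 < s ∧ s ≤ 1 / 6 ∧ 6 * s < r := by
    refine ⟨min (1 / 6) (r / 12), by positivity, min_le_left _ _, ?_⟩
    have := min_le_right (1 / 6 : ℝ) (r / 12)
    linarith
  set b : ℝ → ℂ := fun θ => 1 - 2 * s + s * Complex.exp (θ * Complex.I) with hb
  have hexp : ∀ θ : ℝ, ‖Complex.exp (θ * Complex.I)‖ = 1 := Complex.norm_exp_ofReal_mul_I
  have hb1 : ∀ θ, ‖b θ - 1‖ ≤ 3 * s := by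
    intro θ
    have : b θ - 1 = -(2 * s) + s * Complex.exp (θ * Complex.I) := by simp only [hb]; ring
    rw [this]
    refine (norm_add_le _ _).trans ?_
    rw [norm_neg, norm_mul, norm_mul, hexp, Complex.norm_real, Real.norm_of_nonneg hs0.le]
    norm_num
    linarith
  have hb2 : ∀ θ, ‖b θ‖ ≤ 1 - s := by
    intro θ
    simp only [hb]
    refine (norm_add_le _ _).trans ?_
    rw [norm_mul, hexp, Complex.norm_real, Real.norm_of_nonneg hs0.le]
    have : ‖(1 : ℂ) - 2 * s‖ = 1 - 2 * s := by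
      have h : (1 : ℂ) - 2 * s = ((1 - 2 * s : ℝ) : ℂ) := by push_cast; ring
      rw [h, Complex.norm_real, Real.norm_of_nonneg (by linarith)]
    rw [this]; linarith
  have hb3 : ∀ θ, 1 / 2 ≤ ‖b θ‖ := by
    intro θ
    have h1 : ‖(1 : ℂ)‖ ≤ ‖b θ‖ + ‖b θ - 1‖ := by
      have : (1 : ℂ) = b θ - (b θ - 1) := by ring
      calc ‖(1 : ℂ)‖ = ‖b θ - (b θ - 1)‖ := by rw [← this]
        _ ≤ _ := norm_sub_le _ _
    rw [norm_one] at h1
    have := hb1 θ
    linarith
  set A : ℝ → ℂ := fun θ => ζ * b θ with hA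
  have hA1 : ∀ θ, ‖A θ‖ < 1 := by
    intro θ
    simp only [hA]
    rw [norm_mul, hζ, one_mul]
    have := hb2 θ
    linarith
  have hA2 : ∀ θ, ‖A θ - ζ‖ < r := by
    intro θ
    have : A θ - ζ = ζ * (b θ - 1) := by simp only [hA]; ring
    rw [this, norm_mul, hζ, one_mul]
    have := hb1 θ
    linarith
  have hA0 : ∀ θ, A θ ≠ 0 := by
    intro θ h
    have h1 : ‖A θ‖ = 0 := by rw [h, norm_zero]
    simp only [hA] at h1
    rw [norm_mul, hζ, one_mul] at h1
    have := hb3 θ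
    linarith
  have hζζ : (starRingEnd ℂ) ζ * ζ = 1 := by
    rw [mul_comm, Complex.mul_conj, Complex.normSq_eq_norm_sq, hζ]; norm_num
  have hA3 : ∀ θ, ‖((starRingEnd ℂ) (A θ))⁻¹ - ζ‖ < r := by
    intro θ
    have hcA : (starRingEnd ℂ) (A θ) ≠ 0 := by
      rw [Ne, map_eq_zero]; exact hA0 θ
    have h1 : ((starRingEnd ℂ) (A θ))⁻¹ - ζ = ((starRingEnd ℂ) (A θ))⁻¹ *
        (1 - (starRingEnd ℂ) (A θ) * ζ) := by
      field_simp
    have h2 : (1 : ℂ) - (starRingEnd ℂ) (A θ) * ζ = -(starRingEnd ℂ) (b θ - 1) := by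
      simp only [hA]
      rw [map_mul, map_sub, map_one]
      linear_combination (-(starRingEnd ℂ) (b θ)) * hζζ
    rw [h1, h2, norm_mul, norm_inv, norm_neg, Complex.norm_conj, Complex.norm_conj]
    have h3 : ‖A θ‖ = ‖b θ‖ := by simp only [hA]; rw [norm_mul, hζ, one_mul]
    rw [h3]
    have h4 := hb3 θ
    have h5 := hb1 θ
    have h6 : ‖b θ‖⁻¹ ≤ 2 := by
      rw [inv_le_comm₀ (by linarith) (by norm_num)]
      linarith
    have h7 : ‖b θ‖⁻¹ * ‖b θ - 1‖ ≤ 2 * (3 * s) :=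
      mul_le_mul h6 h5 (norm_nonneg _) (by norm_num)
    linarith
  -- the two quantities are nonzero
  have hz1 : ∀ θ, z₀ - A θ ≠ 0 := by
    intro θ h
    have : z₀ = A θ := sub_eq_zero.1 h
    rw [this] at hz₀
    exact absurd (hA2 θ) (not_lt.2 hz₀)
  have hz2 : ∀ θ, 1 - (starRingEnd ℂ) (A θ) * z₀ ≠ 0 := by
    intro θ h
    have hcA : (starRingEnd ℂ) (A θ) ≠ 0 := by
      rw [Ne, map_eq_zero]; exact hA0 θ
    have h1 : z₀ = ((starRingEnd ℂ) (A θ))⁻¹ := by
      field_simp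
      linear_combination -h
    rw [h1] at hz₀
    exact absurd (hA3 θ) (not_lt.2 hz₀)
  set F : ℝ → ℝ := fun θ => ‖z₀ - A θ‖ / ‖1 - (starRingEnd ℂ) (A θ) * z₀‖ with hF
  have hbcont : Continuous b := by
    simp only [hb]; fun_prop
  have hAcont : Continuous A := by
    simp only [hA]; fun_prop
  have hFcont : Continuous F := by
    apply Continuous.div
    · fun_prop
    · have : Continuous fun θ => (starRingEnd ℂ) (A θ) := Complex.continuous_conj.comp hAcont
      fun_prop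
    · intro θ
      exact norm_ne_zero_iff.2 (hz2 θ)
  have hper : ∀ θ : ℝ, A (θ + 2 * Real.pi) = A θ := by
    intro θ
    simp only [hA, hb]
    congr 3
    push_cast
    rw [add_mul, Complex.exp_add, Complex.exp_two_pi_mul_I, mul_one]
  obtain ⟨θ, -, hθ⟩ : ∃ θ ∈ Set.Icc (0 : ℝ) Real.pi, F θ - F (θ + Real.pi) = 0 := by
    have hcont : ContinuousOn (fun θ => F θ - F (θ + Real.pi)) (Set.Icc 0 Real.pi) := by
      apply Continuous.continuousOn
      exact hFcont.sub (hFcont.comp (by fun_prop))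
    have h1 : F (Real.pi + Real.pi) = F 0 := by
      have h2 : Real.pi + Real.pi = 0 + 2 * Real.pi := by ring
      rw [h2]
      simp only [hF]
      rw [hper 0]
    by_cases h0 : F 0 - F Real.pi ≤ 0
    · have h3 : (0 : ℝ) ∈ Set.Icc (F 0 - F (0 + Real.pi)) (F Real.pi - F (Real.pi + Real.pi)) := by
        rw [zero_add, h1]
        constructor <;> linarith
      obtain ⟨θ, hθ, h4⟩ := intermediate_value_Icc Real.pi_pos.le hcont h3
      exact ⟨θ, hθ, h4⟩
    · push Not at h0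
      have h3 : (0 : ℝ) ∈ Set.Icc (F Real.pi - F (Real.pi + Real.pi)) (F 0 - F (0 + Real.pi)) := by
        rw [zero_add, h1]
        constructor <;> linarith
      obtain ⟨θ, hθ, h4⟩ := intermediate_value_Icc' Real.pi_pos.le hcont h3
      exact ⟨θ, hθ, h4⟩
  have hFF : F θ = F (θ + Real.pi) := by linarith
  have hD : mobD (A θ) (A (θ + Real.pi)) z₀ ≠ 0 := mul_ne_zero (hz2 θ) (hz1 _)
  refine ⟨A θ, A (θ + Real.pi), ?_, hA1 _, hA1 _, hA2 _, fun _ => hA3 _, hA0 _, ?_, hD⟩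
  · intro h
    have h1 : A θ - A (θ + Real.pi) = ζ * (2 * s * Complex.exp (θ * Complex.I)) := by
      simp only [hA, hb]
      have h2 : Complex.exp (((θ + Real.pi : ℝ) : ℂ) * Complex.I) =
          -Complex.exp (θ * Complex.I) := by
        push_cast
        rw [add_mul, Complex.exp_add, Complex.exp_pi_mul_I]; ring
      rw [h2]; ring
    rw [h, sub_self] at h1
    have h3 : ‖ζ * (2 * s * Complex.exp (θ * Complex.I))‖ = 2 * s := by
      rw [norm_mul, hζ, one_mul, norm_mul, hexp, mul_one, norm_mul, Complex.norm_real,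
        Real.norm_of_nonneg hs0.le]
      norm_num
    rw [← h1, norm_zero] at h3
    linarith
  · simp only [hF] at hFF
    rw [norm_div, mobN, mobD, norm_mul, norm_mul]
    have p1 := norm_ne_zero_iff.2 (hz1 θ)
    have p2 := norm_ne_zero_iff.2 (hz1 (θ + Real.pi))
    have p3 := norm_ne_zero_iff.2 (hz2 θ)
    have p4 := norm_ne_zero_iff.2 (hz2 (θ + Real.pi))
    rw [div_eq_div_iff p3 p4] at hFF
    rw [div_eq_one_iff_eq (mul_ne_zero p3 p2)]
    linarith

end Pool.Agent.Lib.MP_bb8441_an
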