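import Pool.Agent.Lib.MP_bb8441_an.Main
import Pool.Agent.Lib.MP_bb8441_an.Mobius

/-! Operators whose spectrum has interior points. -/

set_option autoImplicit false

namespace Pool.Agent.Lib.MP_bb8441_an

open Filter Topology

variable {X : Type*} [NormedAddCommGroup X] [NormedSpace ℂ X]

/-- Composition of dense range maps. -/
theorem denseRange_comp_clm (f g : X →L[ℂ] X) (hf : DenseRange f) (hg : DenseRange g) :
    DenseRange (f * g : X →L[ℂ] X) := by
  have : (⇑(f * g : X →L[ℂ] X)) = f ∘ g := rfl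
  rw [this]
  exact hf.comp hg f.continuous

theorem denseRange_sub (T : X →L[ℂ] X) (hT : ∀ c : ℂ, DenseRange fun x => T x - c • x) (c : ℂ) :
    DenseRange (T - c • (1 : X →L[ℂ] X)) := by
  have : (⇑(T - c • (1 : X →L[ℂ] X))) = fun x => T x - c • x := by
    funext x; simp
  rw [this]
  exact hT c

theorem denseRange_smul (f : X →L[ℂ] X) (hf : DenseRange f) (c : ℂ) (hc : c ≠ 0) :
    DenseRange (c • f : X →L[ℂ] X) := by
  have h1 : (⇑(c • f : X →L[ℂ] X)) = (fun x => c • x) ∘ f := rfl
  rw [h1]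
  refine DenseRange.comp ?_ hf (continuous_const_smul c)
  exact (Homeomorph.smulOfNeZero c hc).surjective.denseRange

/-- A polynomial of degree at most two, not zero. -/
theorem denseRange_quadratic (T : X →L[ℂ] X) (hT : ∀ c : ℂ, DenseRange fun x => T x - c • x)
    (p q r : ℂ) (hne : p ≠ 0 ∨ q ≠ 0 ∨ r ≠ 0) :
    DenseRange (p • (T * T) + q • T + r • (1 : X →L[ℂ] X)) := by
  by_cases hp : p = 0
  · by_cases hq : q = 0
    · have hr : r ≠ 0 := by tauto
      have : p • (T * T) + q • T + r • (1 : X →L[ℂ] X) = r • (1 : X →L[ℂ] X) := by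
        rw [hp, hq]; simp
      rw [this]
      apply denseRange_smul _ _ r hr
      exact Function.surjective_id.denseRange
    · have : p • (T * T) + q • T + r • (1 : X →L[ℂ] X) =
          q • (T - (-(r / q)) • (1 : X →L[ℂ] X)) := by
        rw [hp, zero_smul, zero_add, smul_sub, smul_smul]
        have : q * -(r / q) = -r := by field_simp
        rw [this, neg_smul, sub_neg_eq_add]
      rw [this]
      exact denseRange_smul _ (denseRange_sub T hT _) q hq
  · -- roots
    obtain ⟨w, hw⟩ : ∃ w : ℂ, w ^ 2 = q ^ 2 - 4 * p * r := IsAlgClosed.exists_pow_nat_eq _ (by norm_num)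
    have : p • (T * T) + q • T + r • (1 : X →L[ℂ] X) =
        p • ((T - ((-q + w) / (2 * p)) • (1 : X →L[ℂ] X)) *
          (T - ((-q - w) / (2 * p)) • (1 : X →L[ℂ] X))) := by
      have h1 : (T - ((-q + w) / (2 * p)) • (1 : X →L[ℂ] X)) *
          (T - ((-q - w) / (2 * p)) • (1 : X →L[ℂ] X)) =
          T * T - ((-q + w) / (2 * p) + (-q - w) / (2 * p)) • T +
          ((-q + w) / (2 * p) * ((-q - w) / (2 * p))) • (1 : X →L[ℂ] X) := by
        rw [sub_mul, mul_sub, mul_sub]
        simp only [smul_mul_assoc, mul_smul_comm, mul_one, one_mul]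
        module
      rw [h1, smul_add, smul_sub, smul_smul, smul_smul]
      have h2 : p * ((-q + w) / (2 * p) + (-q - w) / (2 * p)) = -q := by
        field_simp; ring
      have h3 : p * ((-q + w) / (2 * p) * ((-q - w) / (2 * p))) = r := by
        have : p * ((-q + w) / (2 * p) * ((-q - w) / (2 * p))) = (q ^ 2 - w ^ 2) / (4 * p) := by
          field_simp; ring
        rw [this, hw]; field_simp; ring
      rw [h2, h3, neg_smul, sub_neg_eq_add]
    rw [this]
    exact denseRange_smul _ (denseRange_comp_clm _ _ (denseRange_sub T hT _)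
      (denseRange_sub T hT _)) p hp

/-- The numerator of the quotient. -/
noncomputable def opN (T : X →L[ℂ] X) (a a' : ℂ) : X →L[ℂ] X :=
  (T - a • (1 : X →L[ℂ] X)) * ((1 : X →L[ℂ] X) - (starRingEnd ℂ) a' • T)

/-- The denominator of the quotient. -/
noncomputable def opD (T : X →L[ℂ] X) (a a' : ℂ) : X →L[ℂ] X :=
  ((1 : X →L[ℂ] X) - (starRingEnd ℂ) a • T) * (T - a' • (1 : X →L[ℂ] X))

theorem isUnit_sub (T : X →L[ℂ] X) (c : ℂ) (hc : c ∉ spectrum ℂ T) :
    IsUnit (T - c • (1 : X →L[ℂ] X)) := by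
  rw [spectrum.notMem_iff, Algebra.algebraMap_eq_smul_one] at hc
  have : T - c • (1 : X →L[ℂ] X) = -(c • (1 : X →L[ℂ] X) - T) := by abel
  rw [this]
  exact hc.neg

theorem isUnit_opD (T : X →L[ℂ] X) (a a' : ℂ) (ha0 : a ≠ 0)
    (ha : ((starRingEnd ℂ) a)⁻¹ ∉ spectrum ℂ T) (ha' : a' ∉ spectrum ℂ T) :
    IsUnit (opD T a a') := by
  have hca : (starRingEnd ℂ) a ≠ 0 := by rw [Ne, map_eq_zero]; exact ha0
  apply IsUnit.mul _ (isUnit_sub T a' ha')
  have h1 := isUnit_sub T _ ha
  have h2 : (1 : X →L[ℂ] X) - (starRingEnd ℂ) a • T =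
      (-(starRingEnd ℂ) a) • (T - ((starRingEnd ℂ) a)⁻¹ • (1 : X →L[ℂ] X)) := by
    rw [smul_sub, smul_smul, neg_mul, mul_inv_cancel₀ hca]
    module
  rw [h2]
  have h3 : (-(starRingEnd ℂ) a) • (T - ((starRingEnd ℂ) a)⁻¹ • (1 : X →L[ℂ] X)) =
      algebraMap ℂ (X →L[ℂ] X) (-(starRingEnd ℂ) a) *
        (T - ((starRingEnd ℂ) a)⁻¹ • (1 : X →L[ℂ] X)) := by
    rw [Algebra.smul_def]
  rw [h3]
  exact ((neg_ne_zero.2 hca).isUnit.map (algebraMap ℂ (X →L[ℂ] X))).mul h1

theorem opN_sub_opD (T : X →L[ℂ] X) (a a' g : ℂ) :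
    opN T a a' - g • opD T a a' =
      (-(starRingEnd ℂ) a' + g * (starRingEnd ℂ) a) • (T * T) +
      (1 + a * (starRingEnd ℂ) a' - g * (1 + (starRingEnd ℂ) a * a')) • T +
      (-a + g * a') • (1 : X →L[ℂ] X) := by
  simp only [opN, opD, sub_mul, mul_sub, smul_mul_assoc, mul_smul_comm, mul_one, one_mul]
  module

/-- A quotient of Blaschke factors of `T` whose spectrum contains an arc of the circle. -/
theorem exists_quotient (T : X →L[ℂ] X) (hT : ∀ c : ℂ, DenseRange fun x => T x - c • x)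
    (ζ : ℂ) (hζ : ‖ζ‖ = 1) (r : ℝ) (hr : 0 < r) (hζr : ∀ z ∈ spectrum ℂ T, r ≤ ‖z - ζ‖)
    (hint : (interior (spectrum ℂ T)).Nonempty) :
    ∃ (V : X →L[ℂ] X), (∀ c : ℂ, DenseRange fun x => V x - c • x) ∧
      (∀ c : ℂ, ‖c‖ = 1 → ∀ x, T x = c • x → ∃ d : ℂ, ‖d‖ = 1 ∧ V x = d • x) ∧
      ∃ α β : ℝ, α < β ∧ ∀ t : ℝ, α ≤ t → t ≤ β → Complex.exp (t * Complex.I) ∈ spectrum ℂ V := by
  obtain ⟨z₀, hz₀⟩ := hint
  obtain ⟨a, a', haa', ha1, ha'1, ha'r, har, ha0, hone, hD0⟩ :=
    exists_pair ζ hζ r hr z₀ (hζr z₀ (interior_subset hz₀))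
  have haσ : ((starRingEnd ℂ) a)⁻¹ ∉ spectrum ℂ T := fun h =>
    absurd (har ha0) (not_lt.2 (hζr _ h))
  have ha'σ : a' ∉ spectrum ℂ T := fun h => absurd ha'r (not_lt.2 (hζr _ h))
  obtain ⟨D, hD⟩ := isUnit_opD T a a' ha0 haσ ha'σ
  -- coefficient lemma
  have hcoef : ∀ g : ℂ, (-(starRingEnd ℂ) a' + g * (starRingEnd ℂ) a) ≠ 0 ∨
      (1 + a * (starRingEnd ℂ) a' - g * (1 + (starRingEnd ℂ) a * a')) ≠ 0 ∨
      (-a + g * a') ≠ 0 := by
    intro g
    by_contra hcon
    push Not at hcon
    obtain ⟨h1, h2, h3⟩ := hcon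
    have hp : ∀ w : ℂ, mobN a a' w = g * mobD a a' w := by
      intro w
      have : mobN a a' w - g * mobD a a' w =
          (-(starRingEnd ℂ) a' + g * (starRingEnd ℂ) a) * w ^ 2 +
          (1 + a * (starRingEnd ℂ) a' - g * (1 + (starRingEnd ℂ) a * a')) * w +
          (-a + g * a') := by
        simp only [mobN, mobD]; ring
      rw [h1, h2, h3] at this
      have h4 : mobN a a' w - g * mobD a a' w = 0 := by rw [this]; ring
      exact sub_eq_zero.1 h4
    have h5 := hp a
    have h6 : mobN a a' a = 0 := by simp [mobN]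
    rw [h6] at h5
    have h7 : (1 : ℂ) - (starRingEnd ℂ) a * a ≠ 0 := by
      rw [mul_comm, Complex.mul_conj, Complex.normSq_eq_norm_sq]
      intro h
      have h8 : ((1 - ‖a‖ ^ 2 : ℝ) : ℂ) = 0 := by push_cast; exact_mod_cast h
      have h9 : (1 - ‖a‖ ^ 2 : ℝ) = 0 := by exact_mod_cast h8
      nlinarith [norm_nonneg a]
    have h8 : g = 0 := by
      by_contra hg
      have : mobD a a' a ≠ 0 := mul_ne_zero h7 (sub_ne_zero.2 haa')
      exact (mul_ne_zero hg this) h5.symm
    rw [h8] at hp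
    have h9 := (norm_mob a a' 1 (by simp) ha1 ha'1).2
    rw [hp 1, zero_mul, zero_div, norm_zero] at h9
    exact zero_ne_one h9
  set V : X →L[ℂ] X := opN T a a' * ((D⁻¹ : (X →L[ℂ] X)ˣ) : X →L[ℂ] X) with hV
  have hDinv : (D : X →L[ℂ] X) * ((D⁻¹ : (X →L[ℂ] X)ˣ) : X →L[ℂ] X) = 1 := by
    rw [← Units.val_mul, mul_inv_cancel, Units.val_one]
  have hDinv' : ((D⁻¹ : (X →L[ℂ] X)ˣ) : X →L[ℂ] X) * (D : X →L[ℂ] X) = 1 := by
    rw [← Units.val_mul, inv_mul_cancel, Units.val_one]
  have hVc : ∀ c : ℂ, V - c • (1 : X →L[ℂ] X) =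
      (opN T a a' - c • opD T a a') * ((D⁻¹ : (X →L[ℂ] X)ˣ) : X →L[ℂ] X) := by
    intro c
    rw [sub_mul, smul_mul_assoc, ← hD, hDinv]
  refine ⟨V, ?_, ?_, ?_⟩
  · intro c
    have h1 : DenseRange (V - c • (1 : X →L[ℂ] X)) := by
      rw [hVc c, opN_sub_opD]
      apply denseRange_comp_clm _ _ (denseRange_quadratic T hT _ _ _ (hcoef c))
      apply Function.Surjective.denseRange
      intro y
      refine ⟨(D : X →L[ℂ] X) y, ?_⟩
      exact congrArg (fun f : X →L[ℂ] X => f y) hDinv'
    have h2 : (⇑(V - c • (1 : X →L[ℂ] X))) = fun x => V x - c • x := by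
      funext x; simp
    rwa [h2] at h1
  · intro c hc x hx
    obtain ⟨h1, h2⟩ := norm_mob a a' c hc ha1 ha'1
    refine ⟨mobN a a' c / mobD a a' c, h2, ?_⟩
    have hNx : opN T a a' x = mobN a a' c • x := by
      have h3 : ((1 : X →L[ℂ] X) - (starRingEnd ℂ) a' • T) x = (1 - (starRingEnd ℂ) a' * c) • x := by
        have : ((1 : X →L[ℂ] X) - (starRingEnd ℂ) a' • T) x = x - (starRingEnd ℂ) a' • T x := rfl
        rw [this, hx]; module
      have h4 : (T - a • (1 : X →L[ℂ] X)) x = (c - a) • x := by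
        have : (T - a • (1 : X →L[ℂ] X)) x = T x - a • x := rfl
        rw [this, hx]; module
      have h5 : opN T a a' x = (T - a • (1 : X →L[ℂ] X))
        (((1 : X →L[ℂ] X) - (starRingEnd ℂ) a' • T) x) := rfl
      rw [h5, h3, map_smul, h4, smul_smul, mobN]
      congr 1
      ring
    have hDx : (D : X →L[ℂ] X) x = mobD a a' c • x := by
      rw [hD]
      have h3 : ((1 : X →L[ℂ] X) - (starRingEnd ℂ) a • T) x = (1 - (starRingEnd ℂ) a * c) • x := by
        have : ((1 : X →L[ℂ] X) - (starRingEnd ℂ) a • T) x = x - (starRingEnd ℂ) a • T x := rfl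
        rw [this, hx]; module
      have h4 : (T - a' • (1 : X →L[ℂ] X)) x = (c - a') • x := by
        have : (T - a' • (1 : X →L[ℂ] X)) x = T x - a' • x := rfl
        rw [this, hx]; module
      have h5 : opD T a a' x = ((1 : X →L[ℂ] X) - (starRingEnd ℂ) a • T)
        ((T - a' • (1 : X →L[ℂ] X)) x) := rfl
      rw [h5, h4, map_smul, h3, smul_smul, mobD]
      congr 1
      ring
    have hDi : ((D⁻¹ : (X →L[ℂ] X)ˣ) : X →L[ℂ] X) x = (mobD a a' c)⁻¹ • x := by
      have h3 : ((D⁻¹ : (X →L[ℂ] X)ˣ) : X →L[ℂ] X) ((D : X →L[ℂ] X) x) = x :=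
        congrArg (fun f : X →L[ℂ] X => f x) hDinv'
      rw [hDx, map_smul] at h3
      calc ((D⁻¹ : (X →L[ℂ] X)ˣ) : X →L[ℂ] X) x
          = (mobD a a' c)⁻¹ • (mobD a a' c • ((D⁻¹ : (X →L[ℂ] X)ˣ) : X →L[ℂ] X) x) := by
            rw [smul_smul, inv_mul_cancel₀ h1, one_smul]
        _ = _ := by rw [h3]
    have : V x = opN T a a' (((D⁻¹ : (X →L[ℂ] X)ˣ) : X →L[ℂ] X) x) := rfl
    rw [this, hDi, map_smul, hNx, smul_smul]
    congr 1
    rw [div_eq_mul_inv, mul_comm]
  · set G : ℂ → ℂ := fun z => mobN a a' z / mobD a a' z with hG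
    have hDne : ∀ z ∈ spectrum ℂ T, mobD a a' z ≠ 0 := by
      intro z hz
      have h1 : (1 : ℂ) - (starRingEnd ℂ) a * z ≠ 0 := by
        intro h
        have hca : (starRingEnd ℂ) a ≠ 0 := by rw [Ne, map_eq_zero]; exact ha0
        have h2 : z = ((starRingEnd ℂ) a)⁻¹ := by
          field_simp
          linear_combination -h
        exact haσ (h2 ▸ hz)
      have h2 : z - a' ≠ 0 := by
        intro h
        exact ha'σ ((sub_eq_zero.1 h) ▸ hz)
      exact mul_ne_zero h1 h2
    have hGspec : ∀ z ∈ spectrum ℂ T, G z ∈ spectrum ℂ V := by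
      intro z hz
      by_contra hcon
      have h1 : IsUnit (V - G z • (1 : X →L[ℂ] X)) := isUnit_sub V _ hcon
      rw [hVc] at h1
      have h2 : IsUnit (opN T a a' - G z • opD T a a') := by
        have h3 : opN T a a' - G z • opD T a a' =
            ((opN T a a' - G z • opD T a a') * ((D⁻¹ : (X →L[ℂ] X)ˣ) : X →L[ℂ] X)) * D := by
          rw [mul_assoc, hDinv', mul_one]
        rw [h3]
        exact h1.mul D.isUnit
      have h3 : mobN a a' z - G z * mobD a a' z = 0 := by
        simp only [hG]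
        rw [div_mul_cancel₀ _ (hDne z hz), sub_self]
      have h4 : opN T a a' - G z • opD T a a' =
          (T - z • (1 : X →L[ℂ] X)) *
          ((-(starRingEnd ℂ) a' + G z * (starRingEnd ℂ) a) • T +
            ((1 + a * (starRingEnd ℂ) a' - G z * (1 + (starRingEnd ℂ) a * a')) +
              (-(starRingEnd ℂ) a' + G z * (starRingEnd ℂ) a) * z) • (1 : X →L[ℂ] X)) := by
        rw [opN_sub_opD]
        have h5 : -a + G z * a' = -(((1 + a * (starRingEnd ℂ) a' -
            G z * (1 + (starRingEnd ℂ) a * a')) +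
              (-(starRingEnd ℂ) a' + G z * (starRingEnd ℂ) a) * z) * z) := by
          simp only [mobN, mobD] at h3
          linear_combination h3
        rw [h5]
        simp only [sub_mul, mul_add, mul_smul_comm, smul_mul_assoc, mul_one, one_mul]
        module
      rw [h4] at h2
      have h5 : Commute (T - z • (1 : X →L[ℂ] X))
          ((-(starRingEnd ℂ) a' + G z * (starRingEnd ℂ) a) • T +
            ((1 + a * (starRingEnd ℂ) a' - G z * (1 + (starRingEnd ℂ) a * a')) +
              (-(starRingEnd ℂ) a' + G z * (starRingEnd ℂ) a) * z) • (1 : X →L[ℂ] X)) := by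
        apply Commute.sub_left
        · exact ((Commute.refl T).smul_right _).add_right ((Commute.one_right T).smul_right _)
        · exact (Commute.one_left _).smul_left _
      have h6 := (h5.isUnit_mul_iff.1 h2).1
      rw [spectrum.mem_iff, Algebra.algebraMap_eq_smul_one] at hz
      apply hz
      have : z • (1 : X →L[ℂ] X) - T = -(T - z • (1 : X →L[ℂ] X)) := by abel
      rw [this]
      exact h6.neg
    have hGan : AnalyticAt ℂ G z₀ := by
      apply AnalyticAt.div
      · have : Differentiable ℂ (mobN a a') := by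
          unfold mobN; fun_prop
        exact this.analyticAt z₀
      · have : Differentiable ℂ (mobD a a') := by
          unfold mobD; fun_prop
        exact this.analyticAt z₀
      · exact hD0
    rcases hGan.eventually_constant_or_nhds_le_map_nhds with hconst | hopen
    · -- impossible
      exfalso
      have hDcont : ContinuousAt (mobD a a') z₀ := by
        have : Continuous (mobD a a') := by unfold mobD; fun_prop
        exact this.continuousAt
      have hev : ∀ᶠ z in 𝓝 z₀, mobN a a' z - G z₀ * mobD a a' z = 0 := by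
        filter_upwards [hconst, hDcont.eventually_ne hD0] with z hz hz'
        have : mobN a a' z = G z * mobD a a' z := by
          simp only [hG]
          rw [div_mul_cancel₀ _ hz']
        rw [this, hz, sub_self]
      obtain ⟨ρ, hρ, hball⟩ := Metric.eventually_nhds_iff.1 hev
      have hq : ∀ w : ℂ, ‖w‖ < ρ → (-(starRingEnd ℂ) a' + G z₀ * (starRingEnd ℂ) a) * (z₀ + w) ^ 2 +
          (1 + a * (starRingEnd ℂ) a' - G z₀ * (1 + (starRingEnd ℂ) a * a')) * (z₀ + w) +
          (-a + G z₀ * a') = 0 := by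
        intro w hw
        have h1 := hball (y := z₀ + w) (by simpa [dist_eq_norm] using hw)
        simp only [mobN, mobD] at h1
        linear_combination h1
      set p := (-(starRingEnd ℂ) a' + G z₀ * (starRingEnd ℂ) a) with hp
      set q := (1 + a * (starRingEnd ℂ) a' - G z₀ * (1 + (starRingEnd ℂ) a * a')) with hq'
      set s := (-a + G z₀ * a') with hs
      have hρ2 : ‖((ρ / 2 : ℝ) : ℂ)‖ < ρ := by
        rw [Complex.norm_real, Real.norm_of_nonneg (by positivity)]; linarith
      have e0 := hq 0 (by simpa using hρ)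
      have e1 := hq ((ρ / 2 : ℝ) : ℂ) hρ2
      have e2 := hq (-((ρ / 2 : ℝ) : ℂ)) (by rw [norm_neg]; exact hρ2)
      have hρne : ((ρ / 2 : ℝ) : ℂ) ≠ 0 := by
        have : (ρ / 2 : ℝ) ≠ 0 := by positivity
        exact_mod_cast this
      have hp0 : p = 0 := by
        have : p * (2 * ((ρ / 2 : ℝ) : ℂ) ^ 2) = 0 := by
          linear_combination e1 + e2 - 2 * e0
        rcases mul_eq_zero.1 this with h | h
        · exact h
        · exact absurd h (mul_ne_zero two_ne_zero (pow_ne_zero 2 hρne))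
      have hq0 : q = 0 := by
        rw [hp0] at e1 e0
        have : q * ((ρ / 2 : ℝ) : ℂ) = 0 := by
          linear_combination e1 - e0
        rcases mul_eq_zero.1 this with h | h
        · exact h
        · exact absurd h hρne
      have hs0 : s = 0 := by
        rw [hp0, hq0] at e0
        linear_combination e0
      rcases hcoef (G z₀) with h | h | h
      · exact h hp0
      · exact h hq0
      · exact h hs0
    · have h1 : G '' (spectrum ℂ T) ∈ 𝓝 (G z₀) := by
        apply hopen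
        rw [Filter.mem_map]
        exact Filter.mem_of_superset (mem_interior_iff_mem_nhds.1 hz₀) (Set.subset_preimage_image _ _)
      have h2 : G z₀ = Complex.exp ((Complex.arg (G z₀) : ℝ) * Complex.I) := by
        have := Complex.norm_mul_exp_arg_mul_I (G z₀)
        have h3 : ‖G z₀‖ = 1 := hone
        rw [h3] at this
        simpa using this.symm
      have h3 : ContinuousAt (fun t : ℝ => Complex.exp (t * Complex.I)) (Complex.arg (G z₀)) := by
        have : Continuous (fun t : ℝ => Complex.exp (t * Complex.I)) := by fun_prop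
        exact this.continuousAt
      have h4 : ∀ᶠ t : ℝ in 𝓝 (Complex.arg (G z₀)),
          Complex.exp (t * Complex.I) ∈ G '' (spectrum ℂ T) := by
        apply h3.eventually_mem
        rw [← h2]
        exact h1
      obtain ⟨ρ, hρ, hball⟩ := Metric.eventually_nhds_iff.1 h4
      refine ⟨Complex.arg (G z₀) - ρ / 2, Complex.arg (G z₀) + ρ / 2, by linarith, ?_⟩
      intro t ht1 ht2
      obtain ⟨z, hz, hzt⟩ := hball (y := t) (by
        rw [Real.dist_eq, abs_lt]; constructor <;> linarith)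
      rw [← hzt]
      exact hGspec z hz

/-- Operators with spanning unimodular eigenvectors and with interior points in the spectrum. -/
theorem main_interior [CompleteSpace X] (T : X →L[ℂ] X) (hT : Hypercyclic T)
    (hd : Dense (Submodule.span ℂ {x : X | ∃ c : ℂ, ‖c‖ = 1 ∧ T x = c • x} : Set X))
    (hint : (interior (spectrum ℂ T)).Nonempty) :
    ∃ S : X →L[ℂ] X, Chaotic S ∧ FrequentlyHypercyclic S := by
  have := hyp_separable T hT
  by_cases hall : ∀ c : ℂ, ‖c‖ = 1 → c ∈ spectrum ℂ T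
  · refine main_arc T hT hd 0 1 one_pos ?_
    intro t _ _
    exact hall _ (Complex.norm_exp_ofReal_mul_I t)
  · push Not at hall
    obtain ⟨ζ, hζ, hζσ⟩ := hall
    have hcl : IsClosed (spectrum ℂ T) := spectrum.isClosed T
    obtain ⟨r, hr, hball⟩ := Metric.isOpen_iff.1 hcl.isOpen_compl ζ hζσ
    have hζr : ∀ z ∈ spectrum ℂ T, r ≤ ‖z - ζ‖ := by
      intro z hz
      by_contra hlt
      push Not at hlt
      exact hball (by rw [Metric.mem_ball, dist_eq_norm]; exact hlt) hz
    obtain ⟨V, hV1, hV2, α, β, hαβ, hV3⟩ :=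
      exists_quotient T (hyp_denseRange T hT) ζ hζ r hr hζr hint
    refine main_arc' V hV1 ?_ α β hαβ hV3
    refine hd.mono (SetLike.coe_subset_coe.mpr (Submodule.span_mono ?_))
    rintro x ⟨c, hc, hx⟩
    obtain ⟨d, hd1, hd2⟩ := hV2 c hc x hx
    exact ⟨d, hd1, hd2⟩

end Pool.Agent.Lib.MP_bb8441_an
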