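import Pool.Agent.Lib.MP_bb8441_an.Defs
import Pool.Agent.Lib.MP_bb8441_an.Density

/-! Facts on hypercyclic and chaotic operators. -/

set_option autoImplicit false

namespace Pool.Agent.Lib.MP_bb8441_an

variable {X : Type*} [NormedAddCommGroup X] [NormedSpace ℂ X]

/-- A proper closed subspace is annihilated by a nonzero functional. -/
private theorem exists_annihilator (M : Submodule ℂ X) (hM : IsClosed (M : Set X)) (y : X)
    (hy : y ∉ M) : ∃ f : X →L[ℂ] ℂ, f y ≠ 0 ∧ ∀ z ∈ M, f z = 0 := by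
  obtain ⟨f, s, hs1, hs2⟩ := RCLike.geometric_hahn_banach_point_closed (𝕜 := ℂ)
    (x := y) (t := (M : Set X)) (M.restrictScalars ℝ).convex hM hy
  have hre : ∀ z ∈ M, (f z).re = 0 := by
    intro z hz
    by_contra hne
    have h1 := hs2 ((((s - 1) / (f z).re : ℝ) : ℂ) • z) (M.smul_mem _ hz)
    rw [map_smul, smul_eq_mul] at h1
    have h2 : (((((s - 1) / (f z).re : ℝ) : ℂ)) * f z).re = s - 1 := by
      rw [Complex.re_ofReal_mul]
      field_simp
    have h3 : s < (((((s - 1) / (f z).re : ℝ) : ℂ)) * f z).re := h1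
    rw [h2] at h3
    linarith
  refine ⟨f, ?_, ?_⟩
  · intro h0
    have h1 : s < (f 0).re := hs2 0 M.zero_mem
    have h2 : (f y).re < s := hs1
    rw [map_zero, Complex.zero_re] at h1
    rw [h0, Complex.zero_re] at h2
    linarith
  · intro z hz
    have h1 := hre z hz
    have h2 := hre (Complex.I • z) (M.smul_mem _ hz)
    rw [map_smul, smul_eq_mul, Complex.I_mul_re] at h2
    exact Complex.ext h1 (by simpa using h2)

theorem hyp_denseRange (T : X →L[ℂ] X) (hT : Hypercyclic T) (c : ℂ) :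
    DenseRange fun x => T x - c • x := by
  obtain ⟨x, hx⟩ := hT
  by_contra hcon
  -- the range as a submodule
  set A : X →ₗ[ℂ] X := (T : X →ₗ[ℂ] X) - c • LinearMap.id with hA
  have hAx : ∀ y, A y = T y - c • y := fun y => by simp [hA]
  have hcoe : ((LinearMap.range A).topologicalClosure : Set X) =
      closure (Set.range fun x => T x - c • x) := by
    rw [Submodule.topologicalClosure_coe]
    have : ((LinearMap.range A : Submodule ℂ X) : Set X) = Set.range fun x => T x - c • x := by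
      ext z
      simp only [SetLike.mem_coe, LinearMap.mem_range, Set.mem_range, hAx]
    rw [this]
  obtain ⟨y, hy⟩ : ∃ y, y ∉ (LinearMap.range A).topologicalClosure := by
    by_contra hall
    push Not at hall
    apply hcon
    intro y
    have hy := hall y
    rw [← SetLike.mem_coe, hcoe] at hy
    exact hy
  obtain ⟨f, hf1, hf2⟩ := exists_annihilator _ (Submodule.isClosed_topologicalClosure _) y hy
  have hT1 : ∀ z, f (T z) = c * f z := by
    intro z
    have h1 := hf2 (A z) (Submodule.le_topologicalClosure _ (LinearMap.mem_range_self A z))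
    rw [hAx, map_sub, map_smul, smul_eq_mul] at h1
    exact sub_eq_zero.1 h1
  have hTn : ∀ n : ℕ, f ((T ^ n) x) = c ^ n * f x := by
    intro n
    induction n with
    | zero => simp
    | succ n ih =>
      have h1 : (T ^ (n + 1)) x = T ((T ^ n) x) := by rw [pow_succ']; rfl
      rw [h1, hT1, ih, pow_succ]
      ring
  -- the orbit of `f x` is dense
  have hd : Dense (Set.range fun n : ℕ => c ^ n * f x) := by
    have hsurj : Function.Surjective f := by
      intro w
      refine ⟨(w / f y) • y, ?_⟩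
      rw [map_smul, smul_eq_mul]
      field_simp
    have h1 := hsurj.denseRange.dense_image f.continuous hx
    rw [← Set.range_comp] at h1
    have h2 : (fun n : ℕ => c ^ n * f x) = (f ∘ fun n : ℕ => (T ^ n) x) := by
      funext n
      exact (hTn n).symm
    rw [h2]
    exact h1
  rcases le_or_gt ‖c‖ 1 with hc | hc
  · -- bounded orbit
    have hbd : (Set.range fun n : ℕ => c ^ n * f x) ⊆ Metric.closedBall 0 ‖f x‖ := by
      rintro _ ⟨n, rfl⟩
      rw [mem_closedBall_zero_iff, norm_mul, norm_pow]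
      calc ‖c‖ ^ n * ‖f x‖ ≤ 1 * ‖f x‖ := by
            gcongr
            exact pow_le_one₀ (norm_nonneg _) hc
        _ = ‖f x‖ := one_mul _
    have h2 := closure_minimal hbd Metric.isClosed_closedBall
    rw [hd.closure_eq] at h2
    have h3 := h2 (Set.mem_univ ((‖f x‖ + 1 : ℝ) : ℂ))
    rw [mem_closedBall_zero_iff, Complex.norm_real, Real.norm_eq_abs, abs_of_nonneg (by positivity)]
      at h3
    linarith
  · by_cases h0 : f x = 0
    · have hbd : (Set.range fun n : ℕ => c ^ n * f x) ⊆ {0} := by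
        rintro _ ⟨n, rfl⟩
        simp [h0]
      have h2 := closure_minimal hbd isClosed_singleton
      rw [hd.closure_eq] at h2
      have h3 := h2 (Set.mem_univ (1 : ℂ))
      simp at h3
    · have hbd : (Set.range fun n : ℕ => c ^ n * f x) ⊆ {w : ℂ | ‖f x‖ ≤ ‖w‖} := by
        rintro _ ⟨n, rfl⟩
        simp only [Set.mem_ofPred_eq, norm_mul, norm_pow]
        calc ‖f x‖ = 1 * ‖f x‖ := (one_mul _).symm
          _ ≤ ‖c‖ ^ n * ‖f x‖ := by
              gcongr
              exact one_le_pow₀ hc.le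
      have h2 := closure_minimal hbd (isClosed_le continuous_const continuous_norm)
      rw [hd.closure_eq] at h2
      have h3 := h2 (Set.mem_univ (0 : ℂ))
      simp only [Set.mem_ofPred_eq, norm_zero, norm_le_zero_iff] at h3
      exact h0 h3

theorem hyp_separable (T : X →L[ℂ] X) (hT : Hypercyclic T) :
    TopologicalSpace.SeparableSpace X := by
  obtain ⟨x, hx⟩ := hT
  exact ⟨⟨_, Set.countable_range _, hx⟩⟩

theorem hyp_of_fhc (T : X →L[ℂ] X) (hT : FrequentlyHypercyclic T) : Hypercyclic T := by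
  obtain ⟨x, hx⟩ := hT
  refine ⟨x, dense_iff_inter_open.2 fun U hU hne => ?_⟩
  have h := hx U hU hne
  by_contra hcon
  have hempty : {n : ℕ | (T ^ n) x ∈ U} = ∅ := by
    ext n
    simp only [Set.mem_ofPred_eq, Set.mem_empty_iff_false, iff_false]
    intro hn
    exact hcon ⟨_, hn, ⟨n, rfl⟩⟩
  rw [hempty, lowerDensity_empty] at h
  exact lt_irrefl _ h

private theorem t31_pow_succ_app (T : X →L[ℂ] X) (k : ℕ) (x : X) : T ((T ^ k) x) = (T ^ (k + 1)) x := by
  rw [pow_succ']; rfl

private theorem t31_pow_eig (T : X →L[ℂ] X) (c : ℂ) (x : X) (h : T x = c • x) (k : ℕ) :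
    (T ^ k) x = c ^ k • x := by
  induction k with
  | zero => simp
  | succ k ih =>
    rw [← t31_pow_succ_app, ih, map_smul, h, smul_smul, pow_succ]

/-- the components of a periodic vector are eigenvectors -/
private theorem t31_comp_eig (T : X →L[ℂ] X) (m : ℕ) (x : X) (hx : (T ^ m) x = x) (c : ℂ)
    (hc : c ^ m = 1) (hc0 : c ≠ 0) :
    T (∑ k ∈ Finset.range m, (c⁻¹) ^ k • (T ^ k) x) =
      c • ∑ k ∈ Finset.range m, (c⁻¹) ^ k • (T ^ k) x := by
  have h1 : T (∑ k ∈ Finset.range m, (c⁻¹) ^ k • (T ^ k) x) =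
      c • ∑ k ∈ Finset.range m, (c⁻¹) ^ (k + 1) • (T ^ (k + 1)) x := by
    rw [map_sum, Finset.smul_sum]
    apply Finset.sum_congr rfl
    intro k _
    rw [map_smul, t31_pow_succ_app, smul_smul, pow_succ' (c⁻¹) k, ← mul_assoc, mul_inv_cancel₀ hc0,
      one_mul]
  rw [h1]
  congr 1
  have h2 := Finset.sum_range_succ (fun k => (c⁻¹) ^ k • (T ^ k) x) m
  have h3 := Finset.sum_range_succ' (fun k => (c⁻¹) ^ k • (T ^ k) x) m
  have h4 : (c⁻¹) ^ m = 1 := by rw [inv_pow, hc, inv_one]
  rw [h2] at h3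
  simp only [h4, hx, pow_zero, one_smul, one_apply_eq_self] at h3
  exact (add_right_cancel h3).symm

/-- A periodic vector is a sum of eigenvectors for roots of unity. -/
theorem chaotic_eig_span (T : X →L[ℂ] X) (hT : Chaotic T) :
    Dense (Submodule.span ℂ {x : X | ∃ c : ℂ, (∃ m : ℕ, 1 ≤ m ∧ c ^ m = 1) ∧ T x = c • x} :
      Set X) := by
  refine hT.2.mono ?_
  rintro x ⟨m, hm, hx⟩
  have hm0 : m ≠ 0 := by omega
  have hmC : (m : ℂ) ≠ 0 := by exact_mod_cast hm0
  obtain ⟨ζ, hζ⟩ : ∃ ζ : ℂ, IsPrimitiveRoot ζ m := ⟨_, Complex.isPrimitiveRoot_exp m hm0⟩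
  have hζ0 : ζ ≠ 0 := hζ.ne_zero hm0
  have hsum : ∑ j ∈ Finset.range m, ∑ k ∈ Finset.range m, ((ζ ^ j)⁻¹) ^ k • (T ^ k) x =
      (m : ℂ) • x := by
    rw [Finset.sum_comm]
    rw [Finset.sum_eq_single_of_mem 0 (Finset.mem_range.mpr (by omega))]
    · simp only [pow_zero, one_smul, Finset.sum_const, Finset.card_range]
      exact (Nat.cast_smul_eq_nsmul ℂ m x).symm
    · intro k hk hk0
      rw [← Finset.sum_smul]
      have h1 : ∑ j ∈ Finset.range m, ((ζ ^ j)⁻¹) ^ k = 0 := by
        have h2 : ∀ j, ((ζ ^ j)⁻¹) ^ k = ((ζ ^ k)⁻¹) ^ j := by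
          intro j
          rw [inv_pow, inv_pow, ← pow_mul, ← pow_mul, mul_comm]
        simp only [h2]
        have h3 := geom_sum_mul ((ζ ^ k)⁻¹) m
        have h4 : ((ζ ^ k)⁻¹) ^ m = 1 := by
          rw [inv_pow, ← pow_mul, mul_comm, pow_mul, hζ.pow_eq_one, one_pow, inv_one]
        rw [h4, sub_self] at h3
        refine (mul_eq_zero.mp h3).resolve_right ?_
        rw [sub_eq_zero]
        intro h5
        rw [inv_eq_one] at h5
        exact hζ.pow_ne_one_of_pos_of_lt hk0 (Finset.mem_range.mp hk) h5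
      rw [h1, zero_smul]
  have hx2 : x = (m : ℂ)⁻¹ • ∑ j ∈ Finset.range m,
      ∑ k ∈ Finset.range m, ((ζ ^ j)⁻¹) ^ k • (T ^ k) x := by
    rw [hsum, smul_smul, inv_mul_cancel₀ hmC, one_smul]
  rw [hx2]
  refine Submodule.smul_mem _ _ (Submodule.sum_mem _ fun j _ => Submodule.subset_span ?_)
  have hcm : (ζ ^ j) ^ m = 1 := by rw [← pow_mul, mul_comm, pow_mul, hζ.pow_eq_one, one_pow]
  exact ⟨ζ ^ j, ⟨m, hm, hcm⟩, t31_comp_eig T m x hx _ hcm (pow_ne_zero _ hζ0)⟩

theorem periodic_dense (S : X →L[ℂ] X)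
    (hd : Dense (Submodule.span ℂ {x : X | ∃ c : ℂ, (∃ m : ℕ, 1 ≤ m ∧ c ^ m = 1) ∧ S x = c • x} :
      Set X)) :
    Dense {x : X | ∃ m : ℕ, 1 ≤ m ∧ (S ^ m) x = x} := by
  refine hd.mono ?_
  intro x hx
  have hiter : ∀ (m : ℕ) (x : X), (S ^ m) x = x → ∀ k, (S ^ (m * k)) x = x := by
    intro m x h k
    induction k with
    | zero => simp
    | succ k ih =>
      rw [Nat.mul_succ, pow_add]
      show (S ^ (m * k)) ((S ^ m) x) = x
      rw [h, ih]
  have hx' : x ∈ Submodule.span ℂ
    {x : X | ∃ c : ℂ, (∃ m : ℕ, 1 ≤ m ∧ c ^ m = 1) ∧ S x = c • x} := hx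
  induction hx' using Submodule.span_induction with
  | mem y hy =>
    obtain ⟨c, ⟨m, hm, hc⟩, hy⟩ := hy
    exact ⟨m, hm, by rw [t31_pow_eig S c y hy, hc, one_smul]⟩
  | zero => exact ⟨1, le_rfl, by simp⟩
  | add y z hy hz ihy ihz =>
    obtain ⟨m, hm, h1⟩ := ihy hy
    obtain ⟨k, hk, h2⟩ := ihz hz
    refine ⟨m * k, Nat.mul_pos hm hk, ?_⟩
    rw [map_add, hiter m y h1 k, mul_comm, hiter k z h2 m]
  | smul a y hy ihy =>
    obtain ⟨m, hm, h1⟩ := ihy hy
    exact ⟨m, hm, by rw [map_smul, h1]⟩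

/-- `T ^ p - c` has dense range if all `T - b` have. -/
theorem pow_denseRange (T : X →L[ℂ] X) (hT : ∀ c : ℂ, DenseRange fun x => T x - c • x) (p : ℕ)
    (hp : 1 ≤ p) (c : ℂ) : DenseRange fun x => (T ^ p) x - c • x := by
  have key : ∀ (n : ℕ) (Q : Polynomial ℂ), Q ≠ 0 → Q.natDegree = n →
      DenseRange fun x => (Polynomial.aeval T Q) x := by
    intro n
    induction n with
    | zero =>
      intro Q hQ hdeg
      obtain ⟨a, rfl⟩ := Polynomial.natDegree_eq_zero.1 hdeg
      have ha : a ≠ 0 := fun h => hQ (by rw [h, Polynomial.C_0])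
      have hs : Function.Surjective fun x : X => (Polynomial.aeval T (Polynomial.C a)) x := by
        intro y
        refine ⟨a⁻¹ • y, ?_⟩
        simp only [Polynomial.aeval_C]
        rw [Algebra.algebraMap_eq_smul_one]
        simp [smul_smul, ha]
      exact hs.denseRange
    | succ n ih =>
      intro Q hQ hdeg
      have hdeg' : Q.degree ≠ 0 := by
        intro h
        have := Polynomial.natDegree_eq_of_degree_eq_some h
        simp [this] at hdeg
      obtain ⟨b, hb⟩ := IsAlgClosed.exists_root Q hdeg'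
      obtain ⟨Q', hQ'⟩ := Polynomial.dvd_iff_isRoot.2 hb
      have hQ'0 : Q' ≠ 0 := by
        rintro rfl
        exact hQ (by rw [hQ', mul_zero])
      have hdQ' : Q'.natDegree = n := by
        have h1 : Q.natDegree = (Polynomial.X - Polynomial.C b).natDegree + Q'.natDegree := by
          rw [hQ']
          exact Polynomial.natDegree_mul (Polynomial.X_sub_C_ne_zero b) hQ'0
        rw [Polynomial.natDegree_X_sub_C, hdeg] at h1
        omega
      have h1 := ih Q' hQ'0 hdQ'
      have h2 := hT b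
      have hc : Continuous fun x => T x - b • x :=
        T.continuous.sub (continuous_const_smul b)
      have h3 := DenseRange.comp h2 h1 hc
      convert h3 using 1
      funext x
      rw [hQ', map_mul]
      simp only [map_sub, Polynomial.aeval_X, Polynomial.aeval_C, Function.comp]
      rw [Algebra.algebraMap_eq_smul_one]
      simp
  have h := key _ (Polynomial.X ^ p - Polynomial.C c)
    (Polynomial.X_pow_sub_C_ne_zero (by omega) c) rfl
  convert h using 1
  funext x
  simp only [map_sub, map_pow, Polynomial.aeval_X, Polynomial.aeval_C]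
  rw [Algebra.algebraMap_eq_smul_one]
  simp

/-- The powers of the points of an arc cover the circle. -/
theorem arc_pow (α β : ℝ) (hαβ : α < β) :
    ∃ p : ℕ, 1 ≤ p ∧ ∀ c : ℂ, ‖c‖ = 1 → ∃ t : ℝ, α ≤ t ∧ t ≤ β ∧
      Complex.exp (t * Complex.I) ^ p = c := by
  obtain ⟨p, hp⟩ := exists_nat_gt (max 1 (2 * Real.pi / (β - α)))
  have hp1 : (1 : ℝ) < p := (le_max_left _ _).trans_lt hp
  have hp2 : 2 * Real.pi < p * (β - α) := by
    have := (le_max_right _ _).trans_lt hp
    rwa [div_lt_iff₀ (by linarith)] at this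
  have hp0 : (0 : ℝ) < p := by linarith
  refine ⟨p, by exact_mod_cast hp1.le, fun c hc => ?_⟩
  set θ : ℝ := Complex.arg c with hθ
  have hcθ : Complex.exp (θ * Complex.I) = c := by
    have := Complex.norm_mul_exp_arg_mul_I c
    rwa [hc, Complex.ofReal_one, one_mul] at this
  set k : ℤ := ⌈(p * α - θ) / (2 * Real.pi)⌉ with hk
  have hk1 : (p * α - θ) / (2 * Real.pi) ≤ k := Int.le_ceil _
  have hk2 : (k : ℝ) < (p * α - θ) / (2 * Real.pi) + 1 := Int.ceil_lt_add_one _
  have hpi : (0 : ℝ) < 2 * Real.pi := by positivity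
  rw [div_le_iff₀ hpi] at hk1
  have hk3 : (k : ℝ) * (2 * Real.pi) < (p * α - θ) + 2 * Real.pi := by
    have := mul_lt_mul_of_pos_right hk2 hpi
    rwa [add_mul, div_mul_cancel₀ _ hpi.ne', one_mul] at this
  refine ⟨(θ + k * (2 * Real.pi)) / p, ?_, ?_, ?_⟩
  · rw [le_div_iff₀ hp0]; linarith
  · rw [div_le_iff₀ hp0]; nlinarith
  · rw [← Complex.exp_nat_mul]
    have h1 : (p : ℂ) * (((θ + k * (2 * Real.pi)) / p : ℝ) * Complex.I) =
        θ * Complex.I + k * (2 * Real.pi * Complex.I) := by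
      have hp0' : (p : ℂ) ≠ 0 := by exact_mod_cast hp0.ne'
      push_cast
      field_simp
    rw [h1, Complex.exp_add, hcθ, Complex.exp_int_mul_two_pi_mul_I, mul_one]

/-- Roots of unity are dense in the circle, without the point itself. -/
theorem roots_accumulate (c : ℂ) (hc : ‖c‖ = 1) (δ : ℝ) (hδ : 0 < δ) :
    ∃ b : ℂ, (∃ m : ℕ, 1 ≤ m ∧ b ^ m = 1) ∧ b ≠ c ∧ ‖b - c‖ < δ := by
  set θ : ℝ := Complex.arg c with hθ
  have hcθ : Complex.exp (θ * Complex.I) = c := by
    have := Complex.norm_mul_exp_arg_mul_I c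
    rwa [hc, Complex.ofReal_one, one_mul] at this
  have hpi : (0 : ℝ) < 2 * Real.pi := by positivity
  obtain ⟨q, hq1, hq2⟩ := exists_rat_btwn
    (show θ / (2 * Real.pi) < (θ + min δ 1) / (2 * Real.pi) by
      gcongr
      have : 0 < min δ 1 := lt_min hδ one_pos
      linarith)
  rw [div_lt_iff₀ hpi] at hq1
  rw [lt_div_iff₀ hpi] at hq2
  refine ⟨Complex.exp ((q * (2 * Real.pi) : ℝ) * Complex.I), ⟨q.den, q.den_pos, ?_⟩, ?_, ?_⟩
  · rw [← Complex.exp_nat_mul]
    have h1 : (q.den : ℂ) * (((q : ℝ) * (2 * Real.pi) : ℝ) * Complex.I) =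
        q.num * (2 * Real.pi * Complex.I) := by
      have h2 : (q.den : ℂ) * (q : ℂ) = q.num := by
        exact_mod_cast Rat.den_mul_eq_num q
      push_cast
      calc (q.den : ℂ) * ((q : ℂ) * (2 * Real.pi) * Complex.I)
          = ((q.den : ℂ) * (q : ℂ)) * (2 * Real.pi * Complex.I) := by ring
        _ = _ := by rw [h2]
    rw [h1, Complex.exp_int_mul_two_pi_mul_I]
  · intro heq
    rw [← hcθ, Complex.exp_eq_exp_iff_exists_int] at heq
    obtain ⟨n, hn⟩ := heq
    have h1 : (q : ℝ) * (2 * Real.pi) = θ + n * (2 * Real.pi) := by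
      have h2 : ((q * (2 * Real.pi) : ℝ) : ℂ) * Complex.I =
          ((θ + n * (2 * Real.pi) : ℝ) : ℂ) * Complex.I := by
        rw [hn]; push_cast; ring
      have h3 := mul_right_cancel₀ Complex.I_ne_zero h2
      exact_mod_cast h3
    have h4 : 0 < (n : ℝ) * (2 * Real.pi) := by linarith
    have h5 : (n : ℝ) * (2 * Real.pi) < 1 := by
      have := min_le_right δ 1
      linarith
    have h6 : 0 < (n : ℝ) := by
      by_contra hcon
      push Not at hcon
      nlinarith
    have h7 : (1 : ℝ) ≤ n := by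
      have : 0 < n := by exact_mod_cast h6
      exact_mod_cast this
    have h8 := Real.pi_gt_three
    nlinarith
  · rw [← hcθ]
    have h1 : Complex.exp ((q * (2 * Real.pi) : ℝ) * Complex.I) - Complex.exp (θ * Complex.I) =
        Complex.exp (θ * Complex.I) *
          (Complex.exp (Complex.I * (q * (2 * Real.pi) - θ : ℝ)) - 1) := by
      rw [mul_sub, mul_one, ← Complex.exp_add]
      congr 2
      push_cast
      ring
    rw [h1, norm_mul, Complex.norm_exp_ofReal_mul_I, one_mul]
    refine (Real.norm_exp_I_mul_ofReal_sub_one_le).trans_lt ?_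
    rw [Real.norm_eq_abs, abs_of_pos (by linarith)]
    have := min_le_left δ 1
    linarith

end Pool.Agent.Lib.MP_bb8441_an
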