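import Pool.Agent.Lib.MP_bb8441_an.Complexify
import Pool.Agent.Lib.MP_bb8441_an.Hyp

/-! Facts on the complexification: dense range, eigenvectors, spectrum. -/

set_option autoImplicit false

namespace Pool.Agent.Lib.MP_bb8441_an

variable {X : Type*} [NormedAddCommGroup X] [NormedSpace ℝ X]

section General

variable {E : Type*} [NormedAddCommGroup E] [NormedSpace ℂ E]

/-- A proper closed subspace is annihilated by a nonzero functional. -/
private theorem r16_exists_annihilator (M : Submodule ℂ E) (hM : IsClosed (M : Set E)) (y : E)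
    (hy : y ∉ M) : ∃ f : E →L[ℂ] ℂ, f y ≠ 0 ∧ ∀ z ∈ M, f z = 0 := by
  obtain ⟨f, s, hs1, hs2⟩ := RCLike.geometric_hahn_banach_point_closed (𝕜 := ℂ)
    (x := y) (t := (M : Set E)) (M.restrictScalars ℝ).convex hM hy
  have hre : ∀ z ∈ M, (f z).re = 0 := by
    intro z hz
    by_contra hne
    have h1 := hs2 ((((s - 1) / (f z).re : ℝ) : ℂ) • z) (M.smul_mem _ hz)
    rw [map_smul, smul_eq_mul] at h1
    have h2 : (((((s - 1) / (f z).re : ℝ) : ℂ)) * f z).re = s - 1 := by
      rw [Complex.re_ofReal_mul]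
      field_simp
    have h3 : s < (((((s - 1) / (f z).re : ℝ) : ℂ)) * f z).re := h1
    rw [h2] at h3
    linarith
  refine ⟨f, ?_, ?_⟩
  · intro h0
    have h1 : s < (f 0).re := hs2 0 M.zero_mem
    have h2 : (f y).re < s := hs1
    rw [map_zero, Complex.zero_re] at h1
    rw [h0, Complex.zero_re] at h2
    linarith
  · intro z hz
    have h1 := hre z hz
    have h2 := hre (Complex.I • z) (M.smul_mem _ hz)
    rw [map_smul, smul_eq_mul, Complex.I_mul_re] at h2
    exact Complex.ext h1 (by simpa using h2)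

private theorem r16_pow_succ_app (T : E →L[ℂ] E) (k : ℕ) (x : E) :
    T ((T ^ k) x) = (T ^ (k + 1)) x := by
  rw [pow_succ']; rfl

/-- the components of a periodic vector are eigenvectors -/
private theorem r16_comp_eig (T : E →L[ℂ] E) (m : ℕ) (x : E) (hx : (T ^ m) x = x) (c : ℂ)
    (hc : c ^ m = 1) (hc0 : c ≠ 0) :
    T (∑ k ∈ Finset.range m, (c⁻¹) ^ k • (T ^ k) x) =
      c • ∑ k ∈ Finset.range m, (c⁻¹) ^ k • (T ^ k) x := by
  have h1 : T (∑ k ∈ Finset.range m, (c⁻¹) ^ k • (T ^ k) x) =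
      c • ∑ k ∈ Finset.range m, (c⁻¹) ^ (k + 1) • (T ^ (k + 1)) x := by
    rw [map_sum, Finset.smul_sum]
    apply Finset.sum_congr rfl
    intro k _
    rw [map_smul, r16_pow_succ_app, smul_smul, pow_succ' (c⁻¹) k, ← mul_assoc, mul_inv_cancel₀ hc0,
      one_mul]
  rw [h1]
  congr 1
  have h2 := Finset.sum_range_succ (fun k => (c⁻¹) ^ k • (T ^ k) x) m
  have h3 := Finset.sum_range_succ' (fun k => (c⁻¹) ^ k • (T ^ k) x) m
  have h4 : (c⁻¹) ^ m = 1 := by rw [inv_pow, hc, inv_one]
  rw [h2] at h3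
  simp only [h4, hx, pow_zero, one_smul, one_apply_eq_self] at h3
  exact (add_right_cancel h3).symm

/-- A periodic vector is a sum of eigenvectors for roots of unity. -/
theorem r16_periodic_mem (T : E →L[ℂ] E) (x : E) (m : ℕ) (hm : 1 ≤ m) (hx : (T ^ m) x = x) :
    x ∈ Submodule.span ℂ {x : E | ∃ c : ℂ, (∃ m : ℕ, 1 ≤ m ∧ c ^ m = 1) ∧ T x = c • x} := by
  have hm0 : m ≠ 0 := by omega
  have hmC : (m : ℂ) ≠ 0 := by exact_mod_cast hm0
  obtain ⟨ζ, hζ⟩ : ∃ ζ : ℂ, IsPrimitiveRoot ζ m := ⟨_, Complex.isPrimitiveRoot_exp m hm0⟩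
  have hζ0 : ζ ≠ 0 := hζ.ne_zero hm0
  have hsum : ∑ j ∈ Finset.range m, ∑ k ∈ Finset.range m, ((ζ ^ j)⁻¹) ^ k • (T ^ k) x =
      (m : ℂ) • x := by
    rw [Finset.sum_comm]
    rw [Finset.sum_eq_single_of_mem 0 (Finset.mem_range.mpr (by omega))]
    · simp only [pow_zero, one_smul, Finset.sum_const, Finset.card_range]
      exact (Nat.cast_smul_eq_nsmul ℂ m x).symm
    · intro k hk hk0
      rw [← Finset.sum_smul]
      have h1 : ∑ j ∈ Finset.range m, ((ζ ^ j)⁻¹) ^ k = 0 := by
        have h2 : ∀ j, ((ζ ^ j)⁻¹) ^ k = ((ζ ^ k)⁻¹) ^ j := by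
          intro j
          rw [inv_pow, inv_pow, ← pow_mul, ← pow_mul, mul_comm]
        simp only [h2]
        have h3 := geom_sum_mul ((ζ ^ k)⁻¹) m
        have h4 : ((ζ ^ k)⁻¹) ^ m = 1 := by
          rw [inv_pow, ← pow_mul, mul_comm, pow_mul, hζ.pow_eq_one, one_pow, inv_one]
        rw [h4, sub_self] at h3
        refine (mul_eq_zero.mp h3).resolve_right ?_
        rw [sub_eq_zero]
        intro h5
        rw [inv_eq_one] at h5
        exact hζ.pow_ne_one_of_pos_of_lt hk0 (Finset.mem_range.mp hk) h5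
      rw [h1, zero_smul]
  have hx2 : x = (m : ℂ)⁻¹ • ∑ j ∈ Finset.range m,
      ∑ k ∈ Finset.range m, ((ζ ^ j)⁻¹) ^ k • (T ^ k) x := by
    rw [hsum, smul_smul, inv_mul_cancel₀ hmC, one_smul]
  rw [hx2]
  refine Submodule.smul_mem _ _ (Submodule.sum_mem _ fun j _ => Submodule.subset_span ?_)
  have hcm : (ζ ^ j) ^ m = 1 := by rw [← pow_mul, mul_comm, pow_mul, hζ.pow_eq_one, one_pow]
  exact ⟨ζ ^ j, ⟨m, hm, hcm⟩, r16_comp_eig T m x hx _ hcm (pow_ne_zero _ hζ0)⟩

end General

namespace Cx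

theorem denseRange_map (T : X →L[ℝ] X) (hT : Hypercyclic T) (c : ℂ) :
    DenseRange fun f : Cx X => map T f - c • f := by
  obtain ⟨x, hx⟩ := hT
  by_contra hcon
  set A : Cx X →ₗ[ℂ] Cx X := (map T : Cx X →ₗ[ℂ] Cx X) - c • LinearMap.id with hA
  have hAx : ∀ y, A y = map T y - c • y := fun y => by simp [hA]
  have hcoe : ((LinearMap.range A).topologicalClosure : Set (Cx X)) =
      closure (Set.range fun f : Cx X => map T f - c • f) := by
    rw [Submodule.topologicalClosure_coe]
    have : ((LinearMap.range A : Submodule ℂ (Cx X)) : Set (Cx X)) =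
        Set.range fun f : Cx X => map T f - c • f := by
      ext z
      simp only [SetLike.mem_coe, LinearMap.mem_range, Set.mem_range, hAx]
    rw [this]
  obtain ⟨y, hy⟩ : ∃ y, y ∉ (LinearMap.range A).topologicalClosure := by
    by_contra hall
    push Not at hall
    apply hcon
    intro y
    have hy := hall y
    rw [← SetLike.mem_coe, hcoe] at hy
    exact hy
  obtain ⟨φ, hf1, hf2⟩ := r16_exists_annihilator _ (Submodule.isClosed_topologicalClosure _) y hy
  have hT1 : ∀ z, φ (map T z) = c * φ z := by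
    intro z
    have h1 := hf2 (A z) (Submodule.le_topologicalClosure _ (LinearMap.mem_range_self A z))
    rw [hAx, map_sub, map_smul, smul_eq_mul] at h1
    exact sub_eq_zero.1 h1
  have hTn : ∀ n : ℕ, φ (incl ((T ^ n) x)) = c ^ n * φ (incl x) := by
    intro n
    induction n with
    | zero => simp
    | succ n ih =>
      have h1 : (T ^ (n + 1)) x = T ((T ^ n) x) := by rw [pow_succ']; rfl
      rw [h1, ← map_incl, hT1, ih, pow_succ]
      ring
  -- the values on real vectors
  have hcl : ∀ z : X, φ (incl z) ∈ closure (Set.range fun n : ℕ => c ^ n * φ (incl x)) := by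
    intro z
    have hcont : Continuous fun z : X => φ (incl z) := φ.continuous.comp continuous_incl
    have h1 : z ∈ closure (Set.range fun n : ℕ => (T ^ n) x) := hx z
    have h2 := image_closure_subset_closure_image hcont (Set.mem_image_of_mem _ h1)
    rw [← Set.range_comp] at h2
    have h3 : ((fun z : X => φ (incl z)) ∘ fun n : ℕ => (T ^ n) x) =
        fun n : ℕ => c ^ n * φ (incl x) := by
      funext n
      exact hTn n
    rwa [h3] at h2
  obtain ⟨z, hz⟩ : ∃ z : X, φ (incl z) ≠ 0 := by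
    by_contra hall
    push Not at hall
    apply hf1
    rw [eq_incl y, map_sub, map_smul, hall, hall]
    simp
  have hincl_smul : ∀ (r : ℝ) (z : X), incl (r • z) = (r : ℂ) • incl z := by
    intro r z
    apply Cx.ext
    intro w
    rw [smul_val, incl_val, incl_val]
    have : ((r : ℂ) * w).re = r * w.re := by simp
    rw [this, smul_smul, mul_comm]
  rcases le_or_gt ‖c‖ 1 with hc | hc
  · have hbd : (Set.range fun n : ℕ => c ^ n * φ (incl x)) ⊆ Metric.closedBall 0 ‖φ (incl x)‖ := by
      rintro _ ⟨n, rfl⟩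
      rw [mem_closedBall_zero_iff, norm_mul, norm_pow]
      calc ‖c‖ ^ n * ‖φ (incl x)‖ ≤ 1 * ‖φ (incl x)‖ := by
            gcongr
            exact pow_le_one₀ (norm_nonneg _) hc
        _ = ‖φ (incl x)‖ := one_mul _
    have h2 := closure_minimal hbd Metric.isClosed_closedBall
    have h3 := h2 (hcl (((‖φ (incl x)‖ + 1) / ‖φ (incl z)‖ : ℝ) • z))
    rw [mem_closedBall_zero_iff, hincl_smul, map_smul, smul_eq_mul, norm_mul, Complex.norm_real,
      Real.norm_eq_abs, abs_of_nonneg (by positivity)] at h3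
    have hpos : 0 < ‖φ (incl z)‖ := norm_pos_iff.mpr hz
    rw [div_mul_cancel₀ _ hpos.ne'] at h3
    linarith
  · by_cases h0 : φ (incl x) = 0
    · have hbd : (Set.range fun n : ℕ => c ^ n * φ (incl x)) ⊆ {0} := by
        rintro _ ⟨n, rfl⟩
        simp [h0]
      have h2 := closure_minimal hbd isClosed_singleton
      have h3 := h2 (hcl z)
      exact hz (by simpa using h3)
    · have hbd : (Set.range fun n : ℕ => c ^ n * φ (incl x)) ⊆ {w : ℂ | ‖φ (incl x)‖ ≤ ‖w‖} := by
        rintro _ ⟨n, rfl⟩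
        simp only [Set.mem_ofPred_eq, norm_mul, norm_pow]
        calc ‖φ (incl x)‖ = 1 * ‖φ (incl x)‖ := (one_mul _).symm
          _ ≤ ‖c‖ ^ n * ‖φ (incl x)‖ := by
              gcongr
              exact one_le_pow₀ hc.le
      have h2 := closure_minimal hbd (isClosed_le continuous_const continuous_norm)
      have h3 := h2 (hcl 0)
      have h4 : incl (0 : X) = 0 := by
        have := hincl_smul 0 (0 : X)
        simpa using this
      rw [h4, map_zero] at h3
      simp only [Set.mem_ofPred_eq, norm_zero, norm_le_zero_iff] at h3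
      exact h0 h3

theorem eig_span_map (T : X →L[ℝ] X) (hT : Chaotic T) :
    Dense (Submodule.span ℂ {f : Cx X | ∃ c : ℂ, (∃ m : ℕ, 1 ≤ m ∧ c ^ m = 1) ∧
      map T f = c • f} : Set (Cx X)) := by
  set M := Submodule.span ℂ {f : Cx X | ∃ c : ℂ, (∃ m : ℕ, 1 ≤ m ∧ c ^ m = 1) ∧
      map T f = c • f} with hM
  have hincl : ∀ x : X, (∃ m : ℕ, 1 ≤ m ∧ (T ^ m) x = x) → incl x ∈ M := by
    rintro x ⟨m, hm, hx⟩
    apply r16_periodic_mem (map T) (incl x) m hm
    rw [map_pow, map_incl, hx]
  have hcl : ∀ x : X, incl x ∈ closure (M : Set (Cx X)) := by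
    intro x
    have h1 := image_closure_subset_closure_image continuous_incl
      (Set.mem_image_of_mem incl (hT.2 x))
    refine closure_mono ?_ h1
    rintro _ ⟨z, hz, rfl⟩
    exact hincl z hz
  intro f
  rw [← Submodule.topologicalClosure_coe, SetLike.mem_coe]
  have hcl' : ∀ x : X, incl x ∈ M.topologicalClosure := by
    intro x
    have := hcl x
    rwa [← Submodule.topologicalClosure_coe, SetLike.mem_coe] at this
  rw [eq_incl f]
  exact Submodule.sub_mem _ (hcl' _) (Submodule.smul_mem _ _ (hcl' _))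

/-! ### the spectrum -/

theorem r17_map_mul (A B : X →L[ℝ] X) : map (A * B) = map A * map B := rfl

theorem r17_map_one : map (1 : X →L[ℝ] X) = 1 := rfl

theorem r17_bijective_of_map (Q : X →L[ℝ] X) (h : Function.Bijective (map Q)) :
    Function.Bijective Q := by
  constructor
  · intro x y hxy
    have h1 : map Q (incl x) = map Q (incl y) := by rw [map_incl, map_incl, hxy]
    have h2 := h.1 h1
    rw [← val_one_incl x, h2, val_one_incl]
  · intro y
    obtain ⟨f, hf⟩ := h.2 (incl y)
    refine ⟨f.val 1, ?_⟩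
    rw [← map_val, hf, val_one_incl]

theorem r17_isUnit_map [CompleteSpace X] (Q : X →L[ℝ] X) : IsUnit (map Q) ↔ IsUnit Q := by
  constructor
  · intro h
    rw [ContinuousLinearMap.isUnit_iff_bijective] at h ⊢
    exact r17_bijective_of_map Q h
  · intro h
    obtain ⟨u, rfl⟩ := h
    refine ⟨⟨map u.1, map u.2, ?_, ?_⟩, rfl⟩
    · rw [← r17_map_mul]
      show map (u.1 * u.2) = 1
      rw [u.3]; rfl
    · rw [← r17_map_mul]
      show map (u.2 * u.1) = 1
      rw [u.4]; rfl

/-- The spectrum of the complexification. -/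
theorem mem_spectrum_map [CompleteSpace X] (T : X →L[ℝ] X) (z : ℂ) :
    z ∈ spectrum ℂ (map T) ↔
      z ∈ complexSpectrum T := by
  rw [spectrum.mem_iff]
  show _ ↔ ¬ IsUnit (T ^ 2 - (2 * z.re) • T + (‖z‖ ^ 2) • (1 : X →L[ℝ] X))
  rw [not_iff_not, ← r17_isUnit_map]
  set A : Cx X →L[ℂ] Cx X := algebraMap ℂ (Cx X →L[ℂ] Cx X) z - map T with hA
  set B : Cx X →L[ℂ] Cx X := algebraMap ℂ (Cx X →L[ℂ] Cx X) ((starRingEnd ℂ) z) - map T with hB
  have hAf : ∀ f, A f = z • f - map T f := fun f => by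
    rw [hA, Algebra.algebraMap_eq_smul_one]; rfl
  have hBf : ∀ f, B f = (starRingEnd ℂ) z • f - map T f := fun f => by
    rw [hB, Algebra.algebraMap_eq_smul_one]; rfl
  have hprod : map (T ^ 2 - (2 * z.re) • T + (‖z‖ ^ 2) • (1 : X →L[ℝ] X)) = A * B := by
    ext1 f
    apply Cx.ext
    intro w
    show (map _ f).val w = (A (B f)).val w
    rw [hAf, hBf, map_val]
    simp only [sub_val, smul_val, map_val, map_sub, sq]
    show T (T (f.val w)) - (2 * z.re) • T (f.val w) + (‖z‖ * ‖z‖) • f.val w = _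
    have h1 : f.val ((starRingEnd ℂ) z * (z * w)) = (‖z‖ * ‖z‖) • f.val w := by
      have : (starRingEnd ℂ) z * (z * w) = ((‖z‖ * ‖z‖ : ℝ) : ℂ) * w := by
        rw [← mul_assoc, mul_comm ((starRingEnd ℂ) z) z, Complex.mul_conj, Complex.normSq_eq_norm_sq,
          sq]
      rw [this, val_smul]
    have h2 : T (f.val (z * w)) + T (f.val ((starRingEnd ℂ) z * w)) = (2 * z.re) • T (f.val w) := by
      rw [← map_add, ← val_add, ← add_mul, Complex.add_conj, val_smul, map_smul]
    rw [← h1, ← h2]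
    abel
  have hcomm : Commute A B := by
    show A * B = B * A
    ext1 f
    show A (B f) = B (A f)
    rw [hAf, hBf, hBf, hAf, map_sub, map_sub, map_smul, map_smul, smul_sub, smul_sub, smul_smul,
      smul_smul, mul_comm z]
    abel
  rw [hprod, hcomm.isUnit_mul_iff]
  have hAB : IsUnit A → IsUnit B := by
    intro h
    rw [ContinuousLinearMap.isUnit_iff_bijective] at h ⊢
    have hBA : ∀ f, B (conj f) = conj (A f) := by
      intro f
      rw [hBf, hAf, map_conj, map_sub]
      congr 1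
      exact (LinearIsometryEquiv.map_smulₛₗ conj z f).symm
    constructor
    · intro f g hfg
      have h3 : A (conj f) = A (conj g) := by
        apply (conj (X := X)).injective
        rw [← hBA, ← hBA, conj_conj, conj_conj, hfg]
      have h4 := h.1 h3
      exact (conj (X := X)).injective h4
    · intro g
      obtain ⟨f, hf⟩ := h.2 (conj g)
      exact ⟨conj f, by rw [hBA, hf, conj_conj]⟩
  exact ⟨fun h => ⟨h, hAB h⟩, fun h => h.1⟩

end Cx

end Pool.Agent.Lib.MP_bb8441_an
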