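import Pool.Agent.Lib.MP_bb8441_an.JQuotient
import Pool.Agent.Lib.MP_bb8441_an.CxFacts

/-! The main theorems for real spaces. -/

set_option autoImplicit false

namespace Pool.Agent.Lib.MP_bb8441_an

variable {X : Type*} [NormedAddCommGroup X] [NormedSpace ℝ X] [CompleteSpace X]

omit [CompleteSpace X] in
/-- A hypercyclic operator lives on a separable space (real version of `hyp_separable`). -/
theorem hyp_separable_real (T : X →L[ℝ] X) (hT : Hypercyclic T) :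
    TopologicalSpace.SeparableSpace X := by
  obtain ⟨x, hx⟩ := hT
  exact ⟨⟨_, Set.countable_range _, hx⟩⟩

theorem real_chaotic (T : X →L[ℝ] X) (hT : Chaotic T)
    (hiso : {c : ℂ | c ∈ complexSpectrum T ∧ ‖c‖ = 1 ∧
      ∃ δ > 0, ∀ b ∈ complexSpectrum T, ‖b‖ = 1 → ‖b - c‖ < δ → b = c}.Finite)
    (ε : ℝ) (hε : 0 < ε) :
    ∃ S : X →L[ℝ] X, ‖S - T‖ < ε ∧ Chaotic S ∧ FrequentlyHypercyclic S := by
  have := hyp_separable_real T hT.1
  have := Cx.separable (X := X)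
  have hspec : spectrum ℂ (Cx.map T) = complexSpectrum T := by
    ext z
    exact Cx.mem_spectrum_map T z
  obtain ⟨S, hSJ, hSn, hSc, hSf⟩ := main_chaotic_J (X := Cx X) Cx.conj Cx.conj_conj (Cx.map T)
    (Cx.map_conj T) (Cx.denseRange_map T hT.1) (Cx.eig_span_map T hT)
    (by rw [hspec]; exact hiso) ε hε
  obtain ⟨S₀, rfl⟩ := Cx.exists_map S hSJ
  exact ⟨S₀, (Cx.norm_map_sub S₀ T).trans_lt hSn,
    ⟨Cx.hypercyclic_of_map S₀ hSc.1, Cx.periodic_of_map S₀ hSc.2⟩, Cx.fhc_of_map S₀ hSf⟩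

theorem real_interior (T : X →L[ℝ] X) (hT : Chaotic T)
    (hint : (interior (complexSpectrum T)).Nonempty) :
    ∃ S : X →L[ℝ] X, Chaotic S ∧ FrequentlyHypercyclic S := by
  have := hyp_separable_real T hT.1
  have := Cx.separable (X := X)
  have hspec : spectrum ℂ (Cx.map T) = complexSpectrum T := by
    ext z
    exact Cx.mem_spectrum_map T z
  have hd : Dense (Submodule.span ℂ {f : Cx X | ∃ c : ℂ, ‖c‖ = 1 ∧ Cx.map T f = c • f} :
      Set (Cx X)) := by
    refine (Cx.eig_span_map T hT).mono (SetLike.coe_subset_coe.mpr (Submodule.span_mono ?_))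
    rintro x ⟨c, hc, hx⟩
    exact ⟨c, norm_of_root hc, hx⟩
  obtain ⟨S, hSJ, hSc, hSf⟩ := main_interior_J (X := Cx X) Cx.conj Cx.conj_conj (Cx.map T)
    (Cx.map_conj T) (Cx.denseRange_map T hT.1) hd (by rw [hspec]; exact hint)
  obtain ⟨S₀, rfl⟩ := Cx.exists_map S hSJ
  exact ⟨S₀, ⟨Cx.hypercyclic_of_map S₀ hSc.1, Cx.periodic_of_map S₀ hSc.2⟩,
    Cx.fhc_of_map S₀ hSf⟩

end Pool.Agent.Lib.MP_bb8441_an
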