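import Pool.Agent.Lib.MP_bb8441_an.RotAlign

/-! Choice of lacunary children together with a time at which they are aligned. -/

set_option autoImplicit false

namespace Pool.Agent.Lib.MP_bb8441_an

variable {X : Type*} [NormedAddCommGroup X] [NormedSpace ℂ X]

theorem choose_children (u : ℂ → X) (a : ℂ) (ha : ‖a‖ = 1) (D : Set ℂ)
    (hD : ∀ c ∈ D, ‖c‖ = 1 ∧ c ≠ a)
    (hacc : ∀ δ > 0, ∃ c ∈ D, ‖c - a‖ < δ ∧ ‖u c - u a‖ < δ)
    (Ω : Finset ℂ) (hΩ : ∀ c ∈ Ω, ‖c‖ = 1) (t₀ : ℕ) (s : ℕ → ℂ) (hs : ∀ l, ‖s l‖ = 1)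
    (M : ℝ) (hM : 0 < M) (L : ℕ) (τ : ℝ) (hτ : 0 < τ) :
    ∃ (μ : ℕ → ℂ) (n : ℕ),
      (∀ l < L, μ l ∈ D ∧ ‖u (μ l) - u a‖ < τ) ∧
      (∀ l, l + 1 < L → ‖μ (l + 1) / a - 1‖ ≤ ‖μ l / a - 1‖ / M) ∧
      (∀ c ∈ Ω, ‖c ^ n - 1‖ < τ) ∧
      (∀ l < L, ‖(μ l / a) ^ (n + t₀) - s l‖ < τ) := by
  classical
  have ha0 : a ≠ 0 := by
    intro h
    rw [h, norm_zero] at ha
    exact zero_ne_one ha
  induction L generalizing τ with
  | zero =>
    refine ⟨fun _ => 0, 0, ?_, ?_, ?_, ?_⟩
    · intro l hl; omega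
    · intro l hl; omega
    · intro c _; simpa using hτ
    · intro l hl; omega
  | succ L ih =>
    obtain ⟨μ, n₀, h1, h2, h3, h4⟩ := ih (τ / 2) (half_pos hτ)
    have hnorm : ∀ c ∈ D, ‖c / a‖ = 1 := by
      intro c hc
      rw [norm_div, (hD c hc).1, ha, div_one]
    have hΩ' : ∀ c ∈ Ω ∪ (Finset.range L).image (fun l => μ l / a), ‖c‖ = 1 := by
      intro c hc
      rw [Finset.mem_union, Finset.mem_image] at hc
      rcases hc with hc | ⟨l, hl, rfl⟩
      · exact hΩ c hc
      · exact hnorm _ (h1 l (Finset.mem_range.mp hl)).1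
    obtain ⟨δ, hδ, hal⟩ := align _ hΩ' (n₀ + t₀) (τ / 2) (half_pos hτ)
    obtain ⟨θ, hθ, hθL⟩ : ∃ θ : ℝ, 0 < θ ∧ (∀ l, l + 1 = L → θ ≤ ‖μ l / a - 1‖ / M) := by
      rcases Nat.eq_zero_or_pos L with h0 | h0
      · exact ⟨1, one_pos, fun l hl => by omega⟩
      · refine ⟨‖μ (L - 1) / a - 1‖ / M, ?_, ?_⟩
        · apply div_pos _ hM
          rw [norm_pos_iff, sub_ne_zero]
          intro h
          rw [div_eq_one_iff_eq ha0] at h
          exact (hD _ (h1 (L - 1) (by omega)).1).2 h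
        · intro l hl
          have : L - 1 = l := by omega
          rw [this]
    obtain ⟨c, hcD, hc1, hc2⟩ := hacc (min (min δ τ) θ) (lt_min (lt_min hδ hτ) hθ)
    have hc1δ : ‖c - a‖ < δ := hc1.trans_le ((min_le_left _ _).trans (min_le_left _ _))
    have hc1θ : ‖c - a‖ < θ := hc1.trans_le (min_le_right _ _)
    have hc2τ : ‖u c - u a‖ < τ := hc2.trans_le ((min_le_left _ _).trans (min_le_right _ _))
    have hca : ‖c / a - 1‖ = ‖c - a‖ := by
      have : c / a - 1 = (c - a) / a := by field_simp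
      rw [this, norm_div, ha, div_one]
    obtain ⟨n', hn1, hn2⟩ := hal (c / a) (hnorm c hcD) (by
      intro h
      rw [div_eq_one_iff_eq ha0] at h
      exact (hD _ hcD).2 h) (by rw [hca]; exact hc1δ) (s L) (hs L)
    have hup : ∀ l < L, Function.update μ L c l = μ l := by
      intro l hl
      rw [Function.update_of_ne (by omega)]
    refine ⟨Function.update μ L c, n' + n₀, ?_, ?_, ?_, ?_⟩
    · intro l hl
      rcases Nat.lt_or_ge l L with h | h
      · rw [hup l h]
        exact ⟨(h1 l h).1, (h1 l h).2.trans (by linarith)⟩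
      · have : l = L := by omega
        subst this
        rw [Function.update_self]
        exact ⟨hcD, hc2τ⟩
    · intro l hl
      rcases Nat.lt_or_ge (l + 1) L with h | h
      · rw [hup l (by omega), hup (l + 1) h]
        exact h2 l h
      · have hl1 : l + 1 = L := by omega
        rw [hup l (by omega), hl1, Function.update_self, hca]
        exact hc1θ.le.trans (hθL l hl1)
    · intro d hd
      have e1 : d ^ (n' + n₀) - 1 = d ^ n' * (d ^ n₀ - 1) + (d ^ n' - 1) := by rw [pow_add]; ring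
      rw [e1]
      refine (norm_add_le _ _).trans_lt ?_
      rw [norm_mul, norm_pow, hΩ d hd, one_pow, one_mul]
      have e2 := h3 d hd
      have e3 := hn1 d (Finset.mem_union_left _ hd)
      linarith
    · intro l hl
      rcases Nat.lt_or_ge l L with h | h
      · rw [hup l h]
        have e0 := hnorm _ (h1 l h).1
        have e1 : (μ l / a) ^ (n' + n₀ + t₀) - s l =
            (μ l / a) ^ (n₀ + t₀) * ((μ l / a) ^ n' - 1) + ((μ l / a) ^ (n₀ + t₀) - s l) := by
          rw [add_assoc, pow_add]; ring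
        rw [e1]
        refine (norm_add_le _ _).trans_lt ?_
        rw [norm_mul, norm_pow, e0, one_pow, one_mul]
        have e2 := h4 l h
        have e3 := hn1 (μ l / a) (Finset.mem_union_right _
          (Finset.mem_image.mpr ⟨l, Finset.mem_range.mpr h, rfl⟩))
        linarith
      · have : l = L := by omega
        subst this
        rw [Function.update_self, add_assoc]
        exact hn2.trans (by linarith)

end Pool.Agent.Lib.MP_bb8441_an
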