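import Pool.Agent.Lib.MP_bb8441_an.JDefs

/-!
The complexification of a real Banach space `X`: the space `Cx X` of the real linear maps
`ℂ →L[ℝ] X`, with `(c • f) w = f (c w)`. The vector `x` of `X` is `incl x = (w ↦ re w • x)`, and
`f = incl (f 1) - I • incl (f I)`.
-/

set_option autoImplicit false

namespace Pool.Agent.Lib.MP_bb8441_an

variable {X : Type*} [NormedAddCommGroup X] [NormedSpace ℝ X]

/-- The complexification. -/
def Cx (X : Type*) [NormedAddCommGroup X] [NormedSpace ℝ X] : Type _ := ℂ →L[ℝ] X

namespace Cx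

noncomputable instance : NormedAddCommGroup (Cx X) :=
  inferInstanceAs (NormedAddCommGroup (ℂ →L[ℝ] X))

instance [CompleteSpace X] : CompleteSpace (Cx X) :=
  inferInstanceAs (CompleteSpace (ℂ →L[ℝ] X))

/-- The value at `w`. -/
noncomputable def val (f : Cx X) (w : ℂ) : X := (show ℂ →L[ℝ] X from f) w

/-- The element given by a real linear map. -/
noncomputable def mk (f : ℂ →L[ℝ] X) : Cx X := f

theorem ext {f g : Cx X} (h : ∀ w, f.val w = g.val w) : f = g :=
  ContinuousLinearMap.ext (f := show ℂ →L[ℝ] X from f) (g := show ℂ →L[ℝ] X from g) h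

noncomputable instance : SMul ℂ (Cx X) :=
  ⟨fun c f => mk ((show ℂ →L[ℝ] X from f).comp (ContinuousLinearMap.mul ℝ ℂ c))⟩

theorem smul_val (c : ℂ) (f : Cx X) (w : ℂ) : (c • f).val w = f.val (c * w) := rfl
theorem add_val (f g : Cx X) (w : ℂ) : (f + g).val w = f.val w + g.val w := rfl
theorem sub_val (f g : Cx X) (w : ℂ) : (f - g).val w = f.val w - g.val w := rfl
theorem zero_val (w : ℂ) : (0 : Cx X).val w = 0 := rfl
theorem val_add (f : Cx X) (v w : ℂ) : f.val (v + w) = f.val v + f.val w :=
  map_add (show ℂ →L[ℝ] X from f) v w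
theorem val_smul (f : Cx X) (r : ℝ) (w : ℂ) : f.val (r * w) = r • f.val w := by
  have : (r : ℂ) * w = r • w := by rw [Complex.real_smul]
  rw [this]
  exact map_smul (show ℂ →L[ℝ] X from f) r w
theorem norm_val_le (f : Cx X) (w : ℂ) : ‖f.val w‖ ≤ ‖f‖ * ‖w‖ :=
  (show ℂ →L[ℝ] X from f).le_opNorm w
theorem norm_le {f : Cx X} {M : ℝ} (hM : 0 ≤ M) (h : ∀ w, ‖f.val w‖ ≤ M * ‖w‖) : ‖f‖ ≤ M :=
  ContinuousLinearMap.opNorm_le_bound (show ℂ →L[ℝ] X from f) hM h

noncomputable instance : Module ℂ (Cx X) where
  one_smul f := ext fun w => by rw [smul_val, one_mul]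
  mul_smul a b f := ext fun w => by rw [smul_val, smul_val, smul_val, ← mul_assoc, mul_comm b a]
  smul_zero a := ext fun w => by rw [smul_val, zero_val, zero_val]
  smul_add a f g := ext fun w => by simp only [smul_val, add_val]
  add_smul a b f := ext fun w => by simp only [smul_val, add_val, add_mul, val_add]
  zero_smul f := ext fun w => by
    rw [smul_val, zero_mul, zero_val]
    exact map_zero (show ℂ →L[ℝ] X from f)

noncomputable instance : NormedSpace ℂ (Cx X) where
  norm_smul_le c f := norm_le (by positivity) fun w => by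
    rw [smul_val]
    refine (norm_val_le _ _).trans (le_of_eq ?_)
    rw [norm_mul]; ring

/-- The inclusion of `X`. -/
noncomputable def incl (x : X) : Cx X := mk (Complex.reCLM.smulRight x)

theorem incl_val (x : X) (w : ℂ) : (incl x).val w = w.re • x := rfl

theorem norm_incl (x : X) : ‖incl x‖ = ‖x‖ := by
  apply le_antisymm
  · apply norm_le (norm_nonneg _)
    intro w
    rw [incl_val, norm_smul, mul_comm]
    exact mul_le_mul_of_nonneg_left (Complex.abs_re_le_norm w) (norm_nonneg _)
  · have := norm_val_le (incl x) 1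
    simpa [incl_val] using this

theorem incl_add (x y : X) : incl (x + y) = incl x + incl y :=
  ext fun w => by rw [add_val, incl_val, incl_val, incl_val, smul_add]

theorem incl_sub (x y : X) : incl (x - y) = incl x - incl y :=
  ext fun w => by rw [sub_val, incl_val, incl_val, incl_val, smul_sub]

theorem val_one_incl (x : X) : (incl x).val 1 = x := by
  rw [incl_val, Complex.one_re, one_smul]

theorem continuous_incl : Continuous (incl : X → Cx X) := by
  have : Isometry (incl : X → Cx X) := by
    refine Isometry.of_dist_eq fun x y => ?_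
    rw [dist_eq_norm, dist_eq_norm, ← incl_sub, norm_incl]
  exact this.continuous

theorem val_eq (f : Cx X) (w : ℂ) : f.val w = w.re • f.val 1 + w.im • f.val Complex.I := by
  have h : w = (w.re : ℂ) * 1 + (w.im : ℂ) * Complex.I := by
    rw [mul_one]; exact (Complex.re_add_im w).symm
  conv_lhs => rw [h]
  rw [val_add, val_smul, val_smul]

/-- Every element is a real part plus `I` times an imaginary part. -/
theorem eq_incl (f : Cx X) : f = incl (f.val 1) - Complex.I • incl (f.val Complex.I) := by
  apply ext
  intro w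
  rw [sub_val, smul_val, incl_val, incl_val, val_eq f w]
  have : (Complex.I * w).re = -w.im := by simp
  rw [this, neg_smul, sub_neg_eq_add]

/-- The conjugation. -/
noncomputable def conj : Cx X ≃ₗᵢ⋆[ℂ] Cx X where
  toFun f := mk ((show ℂ →L[ℝ] X from f).comp Complex.conjCLE.toContinuousLinearMap)
  invFun f := mk ((show ℂ →L[ℝ] X from f).comp Complex.conjCLE.toContinuousLinearMap)
  map_add' f g := rfl
  map_smul' c f := ext fun w => by
    change f.val (c * (starRingEnd ℂ) w) = f.val ((starRingEnd ℂ) ((starRingEnd ℂ) c * w))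
    rw [map_mul, Complex.conj_conj]
  left_inv f := ext fun w => by
    change f.val ((starRingEnd ℂ) ((starRingEnd ℂ) w)) = f.val w
    rw [Complex.conj_conj]
  right_inv f := ext fun w => by
    change f.val ((starRingEnd ℂ) ((starRingEnd ℂ) w)) = f.val w
    rw [Complex.conj_conj]
  norm_map' f := by
    change ‖mk ((show ℂ →L[ℝ] X from f).comp Complex.conjCLE.toContinuousLinearMap)‖ = ‖f‖
    apply le_antisymm
    · apply norm_le (norm_nonneg _)
      intro w
      change ‖f.val ((starRingEnd ℂ) w)‖ ≤ _
      refine (norm_val_le f _).trans (le_of_eq ?_)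
      rw [Complex.norm_conj]
    · apply norm_le (norm_nonneg _)
      intro w
      have h := norm_val_le (mk ((show ℂ →L[ℝ] X from f).comp
        Complex.conjCLE.toContinuousLinearMap)) ((starRingEnd ℂ) w)
      have h2 : (mk ((show ℂ →L[ℝ] X from f).comp
        Complex.conjCLE.toContinuousLinearMap)).val ((starRingEnd ℂ) w) = f.val w := by
        change f.val ((starRingEnd ℂ) ((starRingEnd ℂ) w)) = f.val w
        rw [Complex.conj_conj]
      rw [h2, Complex.norm_conj] at h
      exact h

theorem conj_val (f : Cx X) (w : ℂ) : (conj f).val w = f.val ((starRingEnd ℂ) w) := rfl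

theorem conj_conj (f : Cx X) : conj (conj f) = f :=
  ext fun w => by rw [conj_val, conj_val, Complex.conj_conj]

theorem conj_incl (x : X) : conj (incl x) = incl x :=
  ext fun w => by rw [conj_val, incl_val, incl_val, Complex.conj_re]

/-- The extension of an operator. -/
noncomputable def map (T : X →L[ℝ] X) : Cx X →L[ℂ] Cx X :=
  LinearMap.mkContinuous
    { toFun := fun f => mk (T.comp (show ℂ →L[ℝ] X from f))
      map_add' := fun f g => ext fun w => map_add T _ _
      map_smul' := fun c f => rfl }
    ‖T‖ (fun f => ContinuousLinearMap.opNorm_comp_le T (show ℂ →L[ℝ] X from f))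

theorem map_val (T : X →L[ℝ] X) (f : Cx X) (w : ℂ) : (map T f).val w = T (f.val w) := rfl

theorem map_conj (T : X →L[ℝ] X) (f : Cx X) : map T (conj f) = conj (map T f) := rfl

theorem map_incl (T : X →L[ℝ] X) (x : X) : map T (incl x) = incl (T x) :=
  ext fun w => by rw [map_val, incl_val, incl_val, map_smul]

theorem map_pow (T : X →L[ℝ] X) (n : ℕ) : map T ^ n = map (T ^ n) := by
  induction n with
  | zero => rfl
  | succ n ih => rw [pow_succ, ih, pow_succ]; rfl

theorem norm_map_sub (T T' : X →L[ℝ] X) : ‖T - T'‖ ≤ ‖map T - map T'‖ := by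
  apply ContinuousLinearMap.opNorm_le_bound _ (norm_nonneg _)
  intro x
  have h1 : (map T - map T') (incl x) = incl ((T - T') x) := by
    change map T (incl x) - map T' (incl x) = _
    rw [map_incl, map_incl, ← incl_sub]; rfl
  have h2 := (map T - map T').le_opNorm (incl x)
  rwa [h1, norm_incl, norm_incl] at h2

end Cx

/-- The spectrum of (the complexification of) an operator on a real space. -/
def complexSpectrum (T : X →L[ℝ] X) : Set ℂ :=
  {z : ℂ | ¬ IsUnit (T ^ 2 - (2 * z.re) • T + (‖z‖ ^ 2) • (1 : X →L[ℝ] X))}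

end Pool.Agent.Lib.MP_bb8441_an
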