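import Pool.Agent.Lib.MP_bb8441_an.AddNodes
import Pool.Agent.Lib.MP_bb8441_an.Functional
import Pool.Agent.Lib.MP_bb8441_an.AlmostEigen

/-! Correction of one pending child. -/

set_option autoImplicit false

namespace Pool.Agent.Lib.MP_bb8441_an

variable {X : Type*} [NormedAddCommGroup X] [NormedSpace ℂ X]

/-- Correction of one pending child `c`. -/
theorem correct_one [CompleteSpace X] (T : X →L[ℂ] X) (Λ R : Set ℂ)
    (H1 : ∀ c : ℂ, DenseRange fun x => T x - c • x)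
    (hR : ∀ c ∈ R, c ∈ spectrum ℂ T)
    (H2 : Dense (Submodule.span ℂ {x : X | ∃ c ∈ Λ, T x = c • x} : Set X))
    (s : State X) (hs : State.Inv T Λ R s) (c : ℂ) (hc : c ∈ s.P)
    (η : ℝ) (hη : ‖s.S (s.u c) - c • s.u c‖ < η) (δ : ℝ) (hδ : 0 < δ) (η' : ℝ) (hη' : 0 < η') :
    ∃ s' : State X, State.Inv T Λ R s' ∧ s.A ⊆ s'.A ∧ s'.B = s.B ∧ s'.P = s.P ∧
      (∀ b ∈ s.A ∪ s.B ∪ s.P, b ≠ c → s'.u b = s.u b) ∧
      (∀ b ∈ s.A ∪ s.B ∪ s.P, b ≠ c → s'.S (s'.u b) = s.S (s.u b)) ∧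
      ‖s'.S - s.S‖ ≤ δ ∧ ‖s'.u c - s.u c‖ ≤ 6 * η / δ ∧
      ‖s'.S (s'.u c) - c • s'.u c‖ < η' := by
  classical
  have hη0 : 0 < η := lt_of_le_of_lt (norm_nonneg _) hη
  by_cases hr : s.S (s.u c) - c • s.u c = 0
  · refine ⟨s, hs, Finset.Subset.refl _, rfl, rfl, fun _ _ _ => rfl, fun _ _ _ => rfl, ?_, ?_, ?_⟩
    · simpa using hδ.le
    · rw [sub_self, norm_zero]; positivity
    · rw [hr, norm_zero]; exact hη'
  set r : X := s.S (s.u c) - c • s.u c with hrdef
  have hr0 : 0 < ‖r‖ := norm_pos_iff.mpr hr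
  obtain ⟨s₁, hs₁, hN, y, hy, hry⟩ := add_nodes T Λ R H1 H2 s hs r
    (min (η' / 2) (‖r‖ / 2)) (lt_min (by linarith) (by linarith))
  have hry1 : ‖r - y‖ < η' / 2 := lt_of_lt_of_le hry (min_le_left _ _)
  have hry2 : ‖r - y‖ < ‖r‖ / 2 := lt_of_lt_of_le hry (min_le_right _ _)
  have hy0 : y ≠ 0 := by
    rintro rfl
    rw [sub_zero] at hry2
    linarith
  have hyn : 0 < ‖y‖ := norm_pos_iff.mpr hy0
  have hy2 : ‖y‖ ≤ 2 * η := by
    have h1 : ‖y‖ ≤ ‖r‖ + ‖r - y‖ := by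
      have : y = r - (r - y) := by abel
      calc ‖y‖ = ‖r - (r - y)‖ := by rw [← this]
        _ ≤ ‖r‖ + ‖r - y‖ := norm_sub_le _ _
    linarith
  have hcP : c ∈ s₁.P := by rw [hN.P_eq]; exact hc
  have hcA : c ∉ s₁.A := fun h => (Finset.disjoint_left.mp hs₁.AP h) hcP
  have hcB : c ∉ s₁.B := fun h => (Finset.disjoint_left.mp hs₁.BP h) hcP
  have huc : s₁.u c = s.u c := hN.u_eq c (by simp [hc])
  have hcR := hR c (hs₁.P_mem c hcP)
  -- the finite-dimensional spaces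
  set W : Submodule ℂ X := Submodule.span ℂ (s₁.u '' ((s₁.A ∪ s₁.B ∪ s₁.P : Finset ℂ) : Set ℂ))
    with hW
  set V : Submodule ℂ X := Submodule.span ℂ (s₁.u '' (s₁.A : Set ℂ)) with hV
  haveI : FiniteDimensional ℂ W :=
    FiniteDimensional.span_of_finite ℂ (Set.Finite.image _ (Finset.finite_toSet _))
  haveI : FiniteDimensional ℂ V :=
    FiniteDimensional.span_of_finite ℂ (Set.Finite.image _ (Finset.finite_toSet _))
  obtain ⟨n, Ψ, hΨ⟩ := exists_functional W
  set D : X →L[ℂ] V := (s₁.S - T).codRestrict V (fun x => by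
    have := hs₁.range x
    simpa using this) with hD
  set Φ : X →L[ℂ] (Fin n → ℂ) × V := Ψ.prod D with hΦ
  set q : ℝ := 3 * ‖y‖ / δ with hq
  have hq0 : 0 < q := by positivity
  obtain ⟨v, hv1, hv2, hv3⟩ := exists_almost_eigen T c hcR (hs₁.P_not c hcP) (H1 c)
    ((Fin n → ℂ) × V) Φ (η' / (2 * q)) (by positivity)
  have hv4 : Ψ v = 0 := by
    have := congrArg Prod.fst hv2
    simpa [hΦ] using this
  have hv5 : s₁.S v = T v := by
    have h1 : D v = 0 := by
      have := congrArg Prod.snd hv2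
      simpa [hΦ] using this
    have h2 : ((D v : V) : X) = 0 := by rw [h1]; rfl
    have h3 : ((D v : V) : X) = s₁.S v - T v := rfl
    rw [h3] at h2
    exact sub_eq_zero.mp h2
  obtain ⟨φ, hφ1, hφ2, hφ3⟩ := hΨ v hv1 hv4
  set K : X →L[ℂ] X := φ.smulRight (-((q : ℂ)⁻¹) • y) with hK
  have hKx : ∀ x, K x = φ x • (-((q : ℂ)⁻¹) • y) := fun x => by
    rw [hK, ContinuousLinearMap.smulRight_apply]
  have hqc : (q : ℂ) ≠ 0 := by exact_mod_cast hq0.ne'
  have hKW : ∀ w ∈ W, K w = 0 := fun w hw => by rw [hKx, hφ2 w hw, zero_smul]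
  have hKn : ‖K‖ ≤ δ := by
    rw [hK, ContinuousLinearMap.norm_smulRight_apply, norm_smul, norm_neg, norm_inv,
      Complex.norm_real, Real.norm_eq_abs, abs_of_pos hq0]
    have : q⁻¹ * ‖y‖ = δ / 3 := by
      rw [hq]; field_simp
    rw [this]
    have := mul_le_mul_of_nonneg_right hφ3 (show (0 : ℝ) ≤ δ / 3 by positivity)
    linarith
  have hKu : ∀ b ∈ s₁.A ∪ s₁.B ∪ s₁.P, K (s₁.u b) = 0 := fun b hb =>
    hKW _ (Submodule.subset_span ⟨b, by exact_mod_cast hb, rfl⟩)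
  have hKV : ∀ x, K x ∈ V := fun x => by
    rw [hKx]
    exact V.smul_mem _ (V.smul_mem _ hy)
  -- the new state
  set u' : ℂ → X := Function.update s₁.u c (s₁.u c + (q : ℂ) • v) with hu'
  have hu1 : u' c = s₁.u c + (q : ℂ) • v := by rw [hu']; simp
  have hu2 : ∀ b, b ≠ c → u' b = s₁.u b := fun b hb => by rw [hu']; simp [hb]
  have himg : u' '' (s₁.A : Set ℂ) = s₁.u '' (s₁.A : Set ℂ) := by
    apply Set.image_congr
    intro b hb
    apply hu2
    rintro rfl
    exact hcA (by exact_mod_cast hb)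
  have hsub : ∀ b ∈ s.A ∪ s.B ∪ s.P, b ∈ s₁.A ∪ s₁.B ∪ s₁.P := by
    intro b hb
    simp only [Finset.mem_union] at hb ⊢
    rw [hN.B_eq, hN.P_eq]
    rcases hb with (hb | hb) | hb
    · exact Or.inl (Or.inl (hN.A_sub hb))
    · exact Or.inl (Or.inr hb)
    · exact Or.inr hb
  refine ⟨⟨s₁.S + K, u', s₁.A, s₁.B, s₁.P⟩, ?_, hN.A_sub, hN.B_eq, hN.P_eq, ?_, ?_, ?_, ?_, ?_⟩
  · refine ⟨hs₁.A_mem, hs₁.B_mem, hs₁.P_mem, hs₁.AB, hs₁.AP, hs₁.BP, ?_, ?_, ?_, hs₁.P_not⟩
    · intro b hb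
      have hbc : b ≠ c := by
        rintro rfl
        rcases Finset.mem_union.mp hb with h | h
        · exact hcA h
        · exact hcB h
      show (s₁.S + K) (u' b) = b • u' b
      rw [hu2 b hbc, ContinuousLinearMap.add_apply, hs₁.eig b hb,
        hKu b (Finset.mem_union_left _ hb), add_zero]
    · intro b hb
      have hbc : b ≠ c := by
        rintro rfl
        rcases Finset.mem_union.mp hb with h | h
        · exact hcA h
        · exact hcB h
      show u' b ≠ 0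
      rw [hu2 b hbc]
      exact hs₁.ne b hb
    · intro x
      show (s₁.S + K) x - T x ∈ Submodule.span ℂ (u' '' (s₁.A : Set ℂ))
      rw [himg, ContinuousLinearMap.add_apply]
      have : s₁.S x + K x - T x = (s₁.S x - T x) + K x := by abel
      rw [this]
      exact Submodule.add_mem _ (hs₁.range x) (hKV x)
  · intro b hb hbc
    show u' b = s.u b
    rw [hu2 b hbc, hN.u_eq b hb]
  · intro b hb hbc
    show (s₁.S + K) (u' b) = s.S (s.u b)
    rw [hu2 b hbc, ContinuousLinearMap.add_apply, hKu b (hsub b hb), add_zero, hN.u_eq b hb,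
      hN.S_eq]
  · show ‖(s₁.S + K) - s.S‖ ≤ δ
    rw [hN.S_eq, add_sub_cancel_left]
    exact hKn
  · show ‖u' c - s.u c‖ ≤ 6 * η / δ
    rw [hu1, huc, add_sub_cancel_left, norm_smul, hv1, mul_one, Complex.norm_real,
      Real.norm_eq_abs, abs_of_pos hq0, hq]
    apply div_le_div_of_nonneg_right _ hδ.le
    linarith
  · show ‖(s₁.S + K) (u' c) - c • u' c‖ < η'
    have hkey : (s₁.S + K) (u' c) - c • u' c = (r - y) + (q : ℂ) • (T v - c • v) := by
      have h1 : s₁.S (s₁.u c) - c • s₁.u c = r := by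
        rw [hrdef, hN.S_eq, huc]
      have h2 : K (s₁.u c) = 0 := hKu c (by simp [hcP])
      have h3 : K ((q : ℂ) • v) = -y := by
        rw [map_smul, hKx, hφ1, one_smul, smul_smul, mul_neg, mul_inv_cancel₀ hqc, neg_smul,
          one_smul]
      rw [hu1, ContinuousLinearMap.add_apply, map_add, map_add, h2, h3, map_smul, hv5, ← h1,
        smul_add, smul_sub, smul_comm c (q : ℂ) v]
      abel
    rw [hkey]
    calc ‖(r - y) + (q : ℂ) • (T v - c • v)‖ ≤ ‖r - y‖ + ‖(q : ℂ) • (T v - c • v)‖ :=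
          norm_add_le _ _
      _ = ‖r - y‖ + q * ‖T v - c • v‖ := by
          rw [norm_smul, Complex.norm_real, Real.norm_eq_abs, abs_of_pos hq0]
      _ < η' / 2 + q * (η' / (2 * q)) := by
          have := mul_lt_mul_of_pos_left hv3 hq0
          linarith
      _ = η' := by field_simp; ring

end Pool.Agent.Lib.MP_bb8441_an
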