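import Pool.Agent.Lib.MP_bb8441_an.AddNodes
import Pool.Agent.Lib.MP_bb8441_an.Functional
import Pool.Agent.Lib.MP_bb8441_an.AlmostEigen
import Pool.Agent.Lib.MP_bb8441_an.CorrectOne

/-! Correction of the pending children. -/

set_option autoImplicit false

namespace Pool.Agent.Lib.MP_bb8441_an

variable {X : Type*} [NormedAddCommGroup X] [NormedSpace ℂ X]

/-- Correction of the pending children in a subset `F`. -/
theorem correct_subset [CompleteSpace X] (T : X →L[ℂ] X) (Λ R : Set ℂ)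
    (H1 : ∀ c : ℂ, DenseRange fun x => T x - c • x)
    (hR : ∀ c ∈ R, c ∈ spectrum ℂ T)
    (H2 : Dense (Submodule.span ℂ {x : X | ∃ c ∈ Λ, T x = c • x} : Set X))
    (s : State X) (hs : State.Inv T Λ R s) (η δ : ℝ) (hδ : 0 < δ)
    (hE : State.Err s η) (η' : ℝ) (hη' : 0 < η') (F : Finset ℂ) :
    F ⊆ s.P → ∃ s' : State X, State.Inv T Λ R s' ∧ s.A ⊆ s'.A ∧ s'.B = s.B ∧ s'.P = s.P ∧
      (∀ b ∈ s.A ∪ s.B, s'.u b = s.u b) ∧
      (∀ b ∈ s.P, b ∉ F → s'.u b = s.u b ∧ s'.S (s'.u b) = s.S (s.u b)) ∧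
      ‖s'.S - s.S‖ ≤ F.card * δ ∧
      (∀ b ∈ F, ‖s'.u b - s.u b‖ ≤ 6 * η / δ ∧ ‖s'.S (s'.u b) - b • s'.u b‖ < η') := by
  classical
  induction F using Finset.induction_on with
  | empty =>
    intro _
    refine ⟨s, hs, Finset.Subset.refl _, rfl, rfl, fun b _ => rfl, fun b _ _ => ⟨rfl, rfl⟩, ?_, ?_⟩
    · simp
    · intro b hb
      simp at hb
  | insert c F' hcF' ih =>
    intro hF
    have hcP : c ∈ s.P := hF (Finset.mem_insert_self c F')
    have hF' : F' ⊆ s.P := fun b hb => hF (Finset.mem_insert_of_mem hb)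
    obtain ⟨s1, hs1, hA1, hB1, hP1, hu1, hk1, hS1, hn1⟩ := ih hF'
    have hc1 : c ∈ s1.P := by rw [hP1]; exact hcP
    have hcold := hk1 c hcP hcF'
    have herr : ‖s1.S (s1.u c) - c • s1.u c‖ < η := by
      rw [hcold.2, hcold.1]
      exact hE c hcP
    obtain ⟨s2, hs2, hA2, hB2, hP2, hu2, hk2, hS2, hn2, he2⟩ :=
      correct_one T Λ R H1 hR H2 s1 hs1 c hc1 η herr δ hδ η' hη'
    have hAc : ∀ b ∈ s.A ∪ s.B, b ≠ c := by
      intro b hb hbc
      subst hbc
      rcases Finset.mem_union.1 hb with h | h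
      · exact (Finset.disjoint_left.1 hs.AP h) hcP
      · exact (Finset.disjoint_left.1 hs.BP h) hcP
    have hmem : ∀ b ∈ s.A ∪ s.B, b ∈ s1.A ∪ s1.B ∪ s1.P := by
      intro b hb
      rcases Finset.mem_union.1 hb with h | h
      · exact Finset.mem_union_left _ (Finset.mem_union_left _ (hA1 h))
      · exact Finset.mem_union_left _ (Finset.mem_union_right _ (by rw [hB1]; exact h))
    have hmemP : ∀ b ∈ s.P, b ∈ s1.A ∪ s1.B ∪ s1.P := by
      intro b hb
      exact Finset.mem_union_right _ (by rw [hP1]; exact hb)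
    refine ⟨s2, hs2, hA1.trans hA2, hB2.trans hB1, hP2.trans hP1, ?_, ?_, ?_, ?_⟩
    · intro b hb
      rw [hu2 b (hmem b hb) (hAc b hb), hu1 b hb]
    · intro b hb hbF
      have hbc : b ≠ c := fun h => hbF (h ▸ Finset.mem_insert_self c F')
      have hbF' : b ∉ F' := fun h => hbF (Finset.mem_insert_of_mem h)
      have h1 := hk1 b hb hbF'
      refine ⟨?_, ?_⟩
      · rw [hu2 b (hmemP b hb) hbc, h1.1]
      · rw [hk2 b (hmemP b hb) hbc, h1.2]
    · rw [Finset.card_insert_of_notMem hcF']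
      have h3 : s2.S - s.S = (s2.S - s1.S) + (s1.S - s.S) := by abel
      rw [h3]
      calc ‖(s2.S - s1.S) + (s1.S - s.S)‖ ≤ ‖s2.S - s1.S‖ + ‖s1.S - s.S‖ := norm_add_le _ _
        _ ≤ δ + F'.card * δ := add_le_add hS2 hS1
        _ = ((F'.card + 1 : ℕ) : ℝ) * δ := by push_cast; ring
    · intro b hb
      by_cases hbc : b = c
      · subst hbc
        refine ⟨?_, he2⟩
        rw [← hcold.1]
        exact hn2
      · have hbF' : b ∈ F' := by
          rcases Finset.mem_insert.1 hb with h | h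
          · exact absurd h hbc
          · exact h
        have hbm := hmemP b (hF' hbF')
        rw [hk2 b hbm hbc, hu2 b hbm hbc]
        exact hn1 b hbF'

/-- Correction of all pending children. -/
theorem correct_all [CompleteSpace X] (T : X →L[ℂ] X) (Λ R : Set ℂ)
    (H1 : ∀ c : ℂ, DenseRange fun x => T x - c • x)
    (hR : ∀ c ∈ R, c ∈ spectrum ℂ T)
    (H2 : Dense (Submodule.span ℂ {x : X | ∃ c ∈ Λ, T x = c • x} : Set X))
    (s : State X) (hs : State.Inv T Λ R s) (ε : ℝ) (hε : 0 < ε)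
    (hE : State.Err s (ε ^ 2 / (6 * ((s.P.card : ℝ) + 1)))) (η' : ℝ) (hη' : 0 < η') :
    ∃ s' : State X, State.Inv T Λ R s' ∧ State.Ext s s' ε ∧ s'.B = s.B ∧ s'.P = s.P ∧
      State.Err s' η' := by
  have hcard : (0 : ℝ) < (s.P.card : ℝ) + 1 := by positivity
  have hδ : 0 < ε / ((s.P.card : ℝ) + 1) := div_pos hε hcard
  obtain ⟨s', hs', hA, hB, hP, hu, _, hS, hn⟩ :=
    correct_subset T Λ R H1 hR H2 s hs _ _ hδ hE η' hη' s.P (Finset.Subset.refl _)
  refine ⟨s', hs', ?_, hB, hP, ?_⟩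
  · refine ⟨hA, ?_, ?_, hu, ?_, ?_⟩
    · rw [hB]
    · rw [hP]
    · intro c hc
      refine (hn c hc).1.trans (le_of_eq ?_)
      field_simp
    · refine hS.trans ?_
      rw [mul_div_assoc', div_le_iff₀ hcard]
      nlinarith
  · intro c hc
    rw [hP] at hc
    exact (hn c hc).2

end Pool.Agent.Lib.MP_bb8441_an
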