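import Pool.Agent.Lib.MP_bb8441_an.Complexify
import Pool.Agent.Lib.MP_bb8441_an.Hyp

/-! Facts on the complexification. -/

set_option autoImplicit false

namespace Pool.Agent.Lib.MP_bb8441_an

variable {X : Type*} [NormedAddCommGroup X] [NormedSpace ℝ X]

namespace Cx

/-- The real part `f ↦ f 1`. -/
noncomputable def rea (f : Cx X) : X := f.val 1

theorem rea_incl (x : X) : rea (incl x) = x := val_one_incl x

theorem rea_add (f g : Cx X) : rea (f + g) = rea f + rea g := rfl

theorem rea_sub (f g : Cx X) : rea (f - g) = rea f - rea g := rfl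

theorem norm_rea_le (f : Cx X) : ‖rea f‖ ≤ ‖f‖ := by
  have := norm_val_le f 1
  simpa [rea] using this

theorem continuous_rea : Continuous (rea : Cx X → X) := by
  have : LipschitzWith 1 (rea : Cx X → X) := by
    refine LipschitzWith.of_dist_le_mul fun f g => ?_
    rw [dist_eq_norm, dist_eq_norm, ← rea_sub, NNReal.coe_one, one_mul]
    exact norm_rea_le _
  exact this.continuous

theorem rea_map (T : X →L[ℝ] X) (f : Cx X) : rea (map T f) = T (rea f) := rfl

theorem rea_surjective : Function.Surjective (rea : Cx X → X) := fun x => ⟨incl x, rea_incl x⟩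

/-- An operator which commutes with the conjugation is the extension of an operator on `X`. -/
theorem exists_map (S : Cx X →L[ℂ] Cx X) (hS : ∀ f, S (conj f) = conj (S f)) :
    ∃ S₀ : X →L[ℝ] X, S = map S₀ := by
  -- elements fixed by the conjugation
  have hfix : ∀ f : Cx X, conj f = f → f = incl (rea f) := by
    intro f hf
    have h1 : f.val Complex.I = 0 := by
      have h2 : (conj f).val Complex.I = f.val Complex.I := by rw [hf]
      rw [conj_val, Complex.conj_I] at h2
      have h3 : f.val (-Complex.I) = - f.val Complex.I := by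
        have := val_smul f (-1) Complex.I
        simpa using this
      rw [h3] at h2
      have h4 : (2 : ℝ) • f.val Complex.I = 0 := by
        rw [two_smul]
        nth_rewrite 1 [← h2]
        abel
      exact (smul_eq_zero.1 h4).resolve_left two_ne_zero
    conv_lhs => rw [eq_incl f, h1]
    have : incl (0 : X) = 0 := ext fun w => by rw [incl_val, zero_val, smul_zero]
    rw [this, smul_zero, sub_zero]
    rfl
  have hincl_smul : ∀ (r : ℝ) (x : X), incl (r • x) = (r : ℂ) • incl x := by
    intro r x
    refine ext fun w => ?_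
    rw [smul_val, incl_val, incl_val, Complex.re_ofReal_mul, smul_smul, mul_comm]
  have hSincl : ∀ x : X, S (incl x) = incl (rea (S (incl x))) := by
    intro x
    apply hfix
    rw [← hS, conj_incl]
  let S₀ : X →L[ℝ] X := LinearMap.mkContinuous
    { toFun := fun x => rea (S (incl x))
      map_add' := fun x y => by rw [incl_add, map_add, rea_add]
      map_smul' := fun r x => by
        rw [hincl_smul, map_smul, RingHom.id_apply]
        change (S (incl x)).val ((r : ℂ) * 1) = r • (S (incl x)).val 1
        exact val_smul _ _ _ } ‖S‖ (fun x => by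
      change ‖rea (S (incl x))‖ ≤ ‖S‖ * ‖x‖
      refine (norm_rea_le _).trans ((S.le_opNorm _).trans ?_)
      rw [norm_incl])
  refine ⟨S₀, ?_⟩
  apply ContinuousLinearMap.ext
  intro f
  have h1 : ∀ x : X, S (incl x) = map S₀ (incl x) := by
    intro x
    rw [map_incl]
    exact hSincl x
  rw [eq_incl f, map_sub, map_sub, map_smul, map_smul, h1, h1]

theorem separable [TopologicalSpace.SeparableSpace X] :
    TopologicalSpace.SeparableSpace (Cx X) := by
  have hcont : Continuous fun p : X × X => incl p.1 - Complex.I • incl p.2 := by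
    have h1 : Continuous fun p : X × X => incl p.1 := continuous_incl.comp continuous_fst
    have h2 : Continuous fun p : X × X => incl p.2 := continuous_incl.comp continuous_snd
    exact h1.sub (h2.const_smul Complex.I)
  have hsurj : Function.Surjective fun p : X × X => incl p.1 - Complex.I • incl p.2 := by
    intro f
    exact ⟨(f.val 1, f.val Complex.I), (eq_incl f).symm⟩
  exact hsurj.denseRange.separableSpace hcont

theorem rea_map_pow (S : X →L[ℝ] X) (n : ℕ) (f : Cx X) :
    rea ((map S ^ n) f) = (S ^ n) (rea f) := by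
  rw [map_pow, rea_map]

theorem fhc_of_map (S : X →L[ℝ] X) (h : FrequentlyHypercyclic (map S)) :
    FrequentlyHypercyclic S := by
  obtain ⟨f, hf⟩ := h
  refine ⟨rea f, fun U hU hne => ?_⟩
  have h1 := hf (rea ⁻¹' U) (hU.preimage continuous_rea) (hne.preimage rea_surjective)
  have h2 : {n : ℕ | (map S ^ n) f ∈ rea ⁻¹' U} = {n : ℕ | (S ^ n) (rea f) ∈ U} := by
    ext n
    change rea ((map S ^ n) f) ∈ U ↔ (S ^ n) (rea f) ∈ U
    rw [rea_map_pow]
  rwa [h2] at h1

theorem hypercyclic_of_map (S : X →L[ℝ] X) (h : Hypercyclic (map S)) : Hypercyclic S := by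
  obtain ⟨f, hf⟩ := h
  refine ⟨rea f, ?_⟩
  have h1 : Dense (rea '' (Set.range fun n : ℕ => (map S ^ n) f)) :=
    rea_surjective.denseRange.dense_image continuous_rea hf
  refine h1.mono ?_
  rintro _ ⟨_, ⟨n, rfl⟩, rfl⟩
  exact ⟨n, (rea_map_pow S n f).symm⟩

theorem periodic_of_map (S : X →L[ℝ] X)
    (h : Dense {f : Cx X | ∃ m : ℕ, 1 ≤ m ∧ (map S ^ m) f = f}) :
    Dense {x : X | ∃ m : ℕ, 1 ≤ m ∧ (S ^ m) x = x} := by
  have h1 : Dense (rea '' {f : Cx X | ∃ m : ℕ, 1 ≤ m ∧ (map S ^ m) f = f}) :=
    rea_surjective.denseRange.dense_image continuous_rea h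
  refine h1.mono ?_
  rintro _ ⟨f, ⟨m, hm, hf⟩, rfl⟩
  refine ⟨m, hm, ?_⟩
  rw [← rea_map_pow, hf]

end Cx

end Pool.Agent.Lib.MP_bb8441_an
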