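import Mathlib

/-!
Definitions of linear dynamics (hypercyclic, chaotic, frequently hypercyclic operators) and the
auxiliary notions used in the perturbation theorem.
-/

set_option autoImplicit false

namespace Pool.Agent.Lib.MP_bb8441_an

open Filter Topology

section Defs

variable {𝕜 X : Type*} [NontriviallyNormedField 𝕜] [NormedAddCommGroup X] [NormedSpace 𝕜 X]

/-- `T` is hypercyclic: some vector `x` has a dense orbit `{T ^ n x : n ≥ 0}`. -/
def Hypercyclic (T : X →L[𝕜] X) : Prop :=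
  ∃ x : X, Dense (Set.range fun n : ℕ => (T ^ n) x)

/-- `T` is chaotic (Devaney): hypercyclic with a dense set of periodic points. -/
def Chaotic (T : X →L[𝕜] X) : Prop :=
  Hypercyclic T ∧ Dense {x : X | ∃ m : ℕ, 1 ≤ m ∧ (T ^ m) x = x}

/-- The lower density `liminf |A ∩ [1, N]| / N` of a set of natural numbers. -/
noncomputable def lowerDensity (A : Set ℕ) : ℝ :=
  liminf (fun N : ℕ => ((A ∩ Set.Icc 1 N).ncard : ℝ) / N) atTop

/-- `T` is frequently hypercyclic: for some vector `x` the set `{n : T ^ n x ∈ U}` has positive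
lower density for each nonempty open set `U`. -/
def FrequentlyHypercyclic (T : X →L[𝕜] X) : Prop :=
  ∃ x : X, ∀ U : Set X, IsOpen U → U.Nonempty → 0 < lowerDensity {n : ℕ | (T ^ n) x ∈ U}

end Defs

section Aux

variable {X : Type*} [NormedAddCommGroup X] [NormedSpace ℂ X]

/-- The span of the eigenvectors of `S` for eigenvalues of modulus one. -/
def AP (S : X →L[ℂ] X) : Submodule ℂ X :=
  Submodule.span ℂ {x : X | ∃ c : ℂ, ‖c‖ = 1 ∧ S x = c • x}

/-- `p` can be reached from a small vector of `AP S` whose orbit is small most of the time; the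
time of the visit is `t₀ + n`, where `n` is an almost period of the finite set `Ω`. -/
def Reach (S : X →L[ℂ] X) (p : X) : Prop :=
  ∀ Ω : Finset ℂ, (∀ c ∈ Ω, ‖c‖ = 1) → ∀ (t₀ : ℕ) (ε : ℝ), 0 < ε →
    ∃ z ∈ AP S, ∃ n : ℕ, (∀ c ∈ Ω, ‖c ^ n - 1‖ < ε) ∧ ‖z‖ < ε ∧
      (∀ N : ℕ, (((Finset.range N).filter fun t => ε ≤ ‖(S ^ t) z‖).card : ℝ) ≤ ε * N) ∧
      ‖(S ^ (t₀ + n)) z - p‖ < ε

/-- The data of one stage of the construction. `u c` is the vector of the track with number `c`,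
where `c` is the intended eigenvalue. `A`: nodes, `B`: exact children, `P`: pending children. -/
structure State (X : Type*) [NormedAddCommGroup X] [NormedSpace ℂ X] where
  S : X →L[ℂ] X
  u : ℂ → X
  A : Finset ℂ
  B : Finset ℂ
  P : Finset ℂ

/-- The invariants of a stage. -/
structure State.Inv (T : X →L[ℂ] X) (Λ R : Set ℂ) (s : State X) : Prop where
  A_mem : ∀ c ∈ s.A, c ∈ Λ
  B_mem : ∀ c ∈ s.B, c ∈ R
  P_mem : ∀ c ∈ s.P, c ∈ R
  AB : Disjoint s.A s.B
  AP : Disjoint s.A s.P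
  BP : Disjoint s.B s.P
  eig : ∀ c ∈ s.A ∪ s.B, s.S (s.u c) = c • s.u c
  ne : ∀ c ∈ s.A ∪ s.B, s.u c ≠ 0
  range : ∀ x, s.S x - T x ∈ Submodule.span ℂ (s.u '' (s.A : Set ℂ))
  P_not : ∀ c ∈ s.P, ∀ x, T x = c • x → x = 0

/-- The pending children are approximate eigenvectors with error less than `η`. -/
def State.Err (s : State X) (η : ℝ) : Prop :=
  ∀ c ∈ s.P, ‖s.S (s.u c) - c • s.u c‖ < η

/-- `s'` extends `s` up to `ε`. -/
structure State.Ext (s s' : State X) (ε : ℝ) : Prop where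
  A_sub : s.A ⊆ s'.A
  B_sub : s.B ⊆ s'.B
  P_sub : s.P ⊆ s'.P
  u_eq : ∀ c ∈ s.A ∪ s.B, s'.u c = s.u c
  u_near : ∀ c ∈ s.P, ‖s'.u c - s.u c‖ ≤ ε
  S_near : ‖s'.S - s.S‖ ≤ ε

/-- `s'` is obtained from `s` by adding nodes only. -/
structure State.NodeExt (s s' : State X) : Prop where
  S_eq : s'.S = s.S
  B_eq : s'.B = s.B
  P_eq : s'.P = s.P
  A_sub : s.A ⊆ s'.A
  u_eq : ∀ c ∈ s.A ∪ s.B ∪ s.P, s'.u c = s.u c

/-- `s'` is obtained from `s` by adding children only, and by a change of the operator of size at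
most `ε`. -/
structure State.ChildExt (s s' : State X) (ε : ℝ) : Prop where
  A_eq : s'.A = s.A
  B_sub : s.B ⊆ s'.B
  P_sub : s.P ⊆ s'.P
  u_eq : ∀ c ∈ s.A ∪ s.B ∪ s.P, s'.u c = s.u c
  S_near : ‖s'.S - s.S‖ ≤ ε

end Aux

end Pool.Agent.Lib.MP_bb8441_an
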