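import Pool.Agent.Lib.MP_bb8441_an.Defs
import Pool.Agent.Lib.MP_bb8441_an.SolveSpan
import Pool.Agent.Lib.MP_bb8441_an.Functional

/-! Adding an exact child to a node. -/

set_option autoImplicit false

namespace Pool.Agent.Lib.MP_bb8441_an

open Filter Topology

variable {X : Type*} [NormedAddCommGroup X] [NormedSpace ℂ X]

omit [NormedAddCommGroup X] [NormedSpace ℂ X] in
theorem image_update_of_notMem (u : ℂ → X) (c : ℂ) (v : X) (A : Finset ℂ) (hc : c ∉ A) :
    (Function.update u c v) '' (A : Set ℂ) = u '' (A : Set ℂ) := by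
  apply Set.image_congr
  intro b hb
  have : b ≠ c := by
    rintro rfl
    exact hc hb
  simp [Function.update_of_ne this]

/-- A new exact eigenvector `v` for `c` is recorded as a child. -/
theorem add_exact (T : X →L[ℂ] X) (Λ R : Set ℂ) (s : State X) (hs : State.Inv T Λ R s)
    (c : ℂ) (hcR : c ∈ R) (hcA : c ∉ s.A) (hcB : c ∉ s.B) (hcP : c ∉ s.P) (K : X →L[ℂ] X)
    (hKr : ∀ x, K x ∈ Submodule.span ℂ (s.u '' (s.A : Set ℂ)))
    (hK0 : ∀ b ∈ s.A ∪ s.B, K (s.u b) = 0) (v : X) (hv : v ≠ 0) (hSv : (s.S + K) v = c • v)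
    (ε : ℝ) (hKε : ‖K‖ ≤ ε) (η : ℝ)
    (hE : ∀ b ∈ s.P, ‖(s.S + K) (s.u b) - b • s.u b‖ < η) :
    State.Inv T Λ R (⟨s.S + K, Function.update s.u c v, s.A, insert c s.B, s.P⟩ : State X) ∧
    State.ChildExt s (⟨s.S + K, Function.update s.u c v, s.A, insert c s.B, s.P⟩ : State X) ε ∧
    State.Err (⟨s.S + K, Function.update s.u c v, s.A, insert c s.B, s.P⟩ : State X) η := by
  have hne : ∀ b ∈ s.A ∪ s.B ∪ s.P, b ≠ c := by
    intro b hb hbc
    subst hbc
    simp only [Finset.mem_union] at hb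
    tauto
  have hu : ∀ b ∈ s.A ∪ s.B ∪ s.P, Function.update s.u c v b = s.u b := by
    intro b hb
    rw [Function.update_of_ne (hne b hb)]
  refine ⟨?_, ?_, ?_⟩
  · refine { A_mem := hs.A_mem, B_mem := ?_, P_mem := hs.P_mem, AB := ?_, AP := hs.AP, BP := ?_,
             eig := ?_, ne := ?_, range := ?_, P_not := hs.P_not }
    · intro b hb
      rcases Finset.mem_insert.1 hb with rfl | hb
      · exact hcR
      · exact hs.B_mem b hb
    · simp only [Finset.disjoint_insert_right]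
      exact ⟨hcA, hs.AB⟩
    · simp only [Finset.disjoint_insert_left]
      exact ⟨hcP, hs.BP⟩
    · intro b hb
      by_cases hbc : b = c
      · subst hbc
        simpa using hSv
      · have hb' : b ∈ s.A ∪ s.B := by
          simp only [Finset.mem_union, Finset.mem_insert] at hb ⊢
          tauto
        have h1 : Function.update s.u c v b = s.u b := by rw [Function.update_of_ne hbc]
        simp only [h1]
        have := hs.eig b hb'
        rw [add_apply, this, hK0 b hb', add_zero]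
    · intro b hb
      by_cases hbc : b = c
      · subst hbc
        simpa using hv
      · have hb' : b ∈ s.A ∪ s.B := by
          simp only [Finset.mem_union, Finset.mem_insert] at hb ⊢
          tauto
        have h1 : Function.update s.u c v b = s.u b := by rw [Function.update_of_ne hbc]
        simp only [h1]
        exact hs.ne b hb'
    · intro x
      simp only
      rw [image_update_of_notMem s.u c v s.A hcA]
      have : (s.S + K) x - T x = (s.S x - T x) + K x := by
        rw [add_apply]; abel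
      rw [this]
      exact Submodule.add_mem _ (hs.range x) (hKr x)
  · refine { A_eq := rfl, B_sub := Finset.subset_insert _ _, P_sub := subset_rfl, u_eq := hu,
             S_near := ?_ }
    simpa using hKε
  · intro b hb
    have h1 := hu b (by simp only [Finset.mem_union]; right; exact hb)
    simp only at h1 ⊢
    rw [h1]
    exact hE b hb

theorem seq_of_acc (D : Set ℂ) (a : ℂ) (hD : ∀ δ > 0, ∃ c ∈ D, c ≠ a ∧ ‖c - a‖ < δ) :
    ∃ c : ℕ → ℂ, (∀ n, c n ∈ D ∧ c n ≠ a) ∧ Function.Injective c ∧ Tendsto c atTop (𝓝 a) := by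
  classical
  choose! g hg using hD
  have hpos : ∀ c : {c : ℂ // c ∈ D ∧ c ≠ a}, 0 < ‖c.1 - a‖ := by
    intro c
    exact norm_pos_iff.2 (sub_ne_zero.2 c.2.2)
  let step : ℕ → {c : ℂ // c ∈ D ∧ c ≠ a} → {c : ℂ // c ∈ D ∧ c ≠ a} := fun n c =>
    ⟨g (min ‖c.1 - a‖ (1 / ((n : ℝ) + 1))),
      (hg _ (lt_min (hpos c) (by positivity))).1, (hg _ (lt_min (hpos c) (by positivity))).2.1⟩
  let f : ℕ → {c : ℂ // c ∈ D ∧ c ≠ a} := fun n =>
    Nat.rec ⟨g 1, (hg 1 one_pos).1, (hg 1 one_pos).2.1⟩ (fun n c => step n c) n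
  have hf : ∀ n, ‖(f (n + 1)).1 - a‖ < min ‖(f n).1 - a‖ (1 / ((n : ℝ) + 1)) := by
    intro n
    exact (hg _ (lt_min (hpos (f n)) (by positivity))).2.2
  have hanti : StrictAnti fun n => ‖(f n).1 - a‖ :=
    strictAnti_nat_of_succ_lt fun n => (hf n).trans_le (min_le_left _ _)
  clear_value f
  refine ⟨fun n => (f n).1, fun n => (f n).2, ?_, ?_⟩
  · intro m n hmn
    apply hanti.injective
    have hmn' : (f m).1 = (f n).1 := hmn
    show ‖(f m).1 - a‖ = ‖(f n).1 - a‖
    rw [hmn']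
  · rw [tendsto_iff_norm_sub_tendsto_zero]
    refine (tendsto_add_atTop_iff_nat (f := fun n => ‖(f n).1 - a‖) 1).1 ?_
    refine squeeze_zero (fun n => norm_nonneg _) (fun n => ((hf n).trans_le (min_le_right _ _)).le)
      tendsto_one_div_add_atTop_nhds_zero_nat

theorem exact_child (T : X →L[ℂ] X) (Λ R : Set ℂ) (s : State X) (hs : State.Inv T Λ R s)
    (a : ℂ) (ha : a ∈ s.A)
    (hacc : ∀ δ > 0, ∃ c ∈ R, c ≠ a ∧ ‖c - a‖ < δ ∧ ∃ x, x ≠ 0 ∧ T x = c • x)
    (ε : ℝ) (hε : 0 < ε) (η : ℝ) (_hη : 0 < η) (hE : State.Err s η) :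
    ∃ (s' : State X) (c : ℂ), State.Inv T Λ R s' ∧ State.ChildExt s s' ε ∧ State.Err s' η ∧
      s'.P.card ≤ s.P.card + 1 ∧ c ∈ s'.B ∪ s'.P ∧ c ≠ a ∧ ‖s'.u c - s'.u a‖ < ε := by
  -- a sequence of eigenvalues
  set F : Finset ℂ := s.A ∪ s.B ∪ s.P with hF
  set D : Set ℂ := {c | c ∈ R ∧ c ∉ F ∧ ∃ x, x ≠ 0 ∧ T x = c • x} with hDdef
  have hD : ∀ δ > 0, ∃ c ∈ D, c ≠ a ∧ ‖c - a‖ < δ := by
    intro δ hδ
    obtain ⟨ρ, hρ, hρF⟩ : ∃ ρ > 0, ∀ b ∈ F, b ≠ a → ρ ≤ ‖b - a‖ := by
      by_cases hne : (F.filter (fun b => b ≠ a)).Nonempty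
      · obtain ⟨b₀, hb₀, hmin⟩ := Finset.exists_min_image (F.filter (fun b => b ≠ a))
          (fun b => ‖b - a‖) hne
        refine ⟨‖b₀ - a‖, norm_pos_iff.2 (sub_ne_zero.2 (Finset.mem_filter.1 hb₀).2), ?_⟩
        intro b hb hba
        exact hmin b (Finset.mem_filter.2 ⟨hb, hba⟩)
      · refine ⟨1, one_pos, ?_⟩
        intro b hb hba
        exact absurd ⟨b, Finset.mem_filter.2 ⟨hb, hba⟩⟩ hne
    obtain ⟨c, hcR, hca, hcδ, hcx⟩ := hacc (min δ ρ) (lt_min hδ hρ)
    refine ⟨c, ⟨hcR, ?_, hcx⟩, hca, hcδ.trans_le (min_le_left _ _)⟩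
    intro hcF
    exact absurd (hρF c hcF hca) (not_le.2 (hcδ.trans_le (min_le_right _ _)))
  obtain ⟨c, hc, hcinj, hclim⟩ := seq_of_acc D a hD
  have hcR : ∀ n, c n ∈ R := fun n => (hc n).1.1
  have hcA : ∀ n, c n ∉ s.A := fun n h => (hc n).1.2.1 (by
    rw [hF]; simp only [Finset.mem_union]; tauto)
  have hcB : ∀ n, c n ∉ s.B := fun n h => (hc n).1.2.1 (by
    rw [hF]; simp only [Finset.mem_union]; tauto)
  have hcP : ∀ n, c n ∉ s.P := fun n h => (hc n).1.2.1 (by
    rw [hF]; simp only [Finset.mem_union]; tauto)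
  choose e he0 heT using fun n => (hc n).1.2.2
  -- corrected eigenvectors
  have heigA : ∀ b ∈ s.A, s.S (s.u b) = b • s.u b := fun b hb =>
    hs.eig b (Finset.mem_union_left _ hb)
  have hsol : ∀ n, ∃ h ∈ Submodule.span ℂ (s.u '' (s.A : Set ℂ)),
      s.S h - c n • h = -(s.S (e n) - T (e n)) := by
    intro n
    exact solve_span s.S s.u s.A heigA (c n) (hcA n) _ (Submodule.neg_mem _ (hs.range (e n)))
  choose h hhW hh using hsol
  set G : Submodule ℂ X := Submodule.span ℂ (s.u '' ((s.A ∪ s.B : Finset ℂ) : Set ℂ)) with hG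
  have hWG : Submodule.span ℂ (s.u '' (s.A : Set ℂ)) ≤ G := by
    apply Submodule.span_mono
    apply Set.image_mono
    intro b hb
    simp only [Finset.coe_union, Set.mem_union]
    left; exact hb
  have hGfin : FiniteDimensional ℂ G := by
    apply FiniteDimensional.span_of_finite
    exact (Finset.finite_toSet _).image _
  obtain ⟨N, hN⟩ := eig_escape T e c hcinj (fun n => ⟨he0 n, heT n⟩) G
  set f : ℕ → X := fun n => e n + h n with hf
  have hfS : ∀ n, s.S (f n) = c n • f n := by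
    intro n
    have h1 := hh n
    have h2 := heT n
    have h3 : s.S (h n) = c n • h n - (s.S (e n) - T (e n)) := by
      rw [sub_eq_iff_eq_add] at h1
      rw [h1]; abel
    simp only [hf]
    rw [map_add, h3, h2, smul_add]
    abel
  have hfG : ∀ n, N ≤ n → f n ∉ G := by
    intro n hn hmem
    apply hN n hn
    have : e n = f n - h n := by simp [hf]
    rw [this]
    exact G.sub_mem hmem (hWG (hhW n))
  have hf0 : ∀ n, N ≤ n → f n ≠ 0 := by
    intro n hn h0
    exact hfG n hn (by rw [h0]; exact G.zero_mem)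
  set g : ℕ → X := fun n => ((‖f n‖ : ℂ))⁻¹ • f n with hg
  have hgS : ∀ n, s.S (g n) = c n • g n := by
    intro n
    simp only [hg]
    rw [map_smul, hfS, smul_comm]
  have hgnorm : ∀ n, N ≤ n → ‖g n‖ = 1 := by
    intro n hn
    simp only [hg]
    rw [norm_smul, norm_inv, Complex.norm_real, norm_norm,
      inv_mul_cancel₀ (norm_ne_zero_iff.2 (hf0 n hn))]
  have hua : s.S (s.u a) = a • s.u a := heigA a ha
  have hua0 : s.u a ≠ 0 := hs.ne a (Finset.mem_union_left _ ha)
  have hPcard : s.P.card ≤ s.P.card + 1 := Nat.le_succ _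
  by_cases hcase : ∃ d > 0, ∀ m, ∃ n, m ≤ n ∧ ∀ w ∈ G, d ≤ ‖g n - w‖
  · obtain ⟨d, hd, hfreq⟩ := hcase
    -- choice of the size of the perturbation
    obtain ⟨κ, hκ, hκε, hκE⟩ : ∃ κ > 0, κ * (2 / d * ‖s.u a‖) ≤ ε ∧
        ∀ b ∈ s.P, ‖s.S (s.u b) - b • s.u b‖ + κ * (2 / d * ‖s.u a‖) * ‖s.u b‖ < η := by
      have hC : (0 : ℝ) ≤ 2 / d * ‖s.u a‖ := by positivity
      have key : ∀ᶠ κ : ℝ in 𝓝[>] 0, κ * (2 / d * ‖s.u a‖) < ε ∧
          ∀ b ∈ s.P, ‖s.S (s.u b) - b • s.u b‖ + κ * (2 / d * ‖s.u a‖) * ‖s.u b‖ < η := by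
        refine Filter.Eventually.and ?_ ?_
        · have : Tendsto (fun κ : ℝ => κ * (2 / d * ‖s.u a‖)) (𝓝[>] 0) (𝓝 (0 * (2 / d * ‖s.u a‖))) :=
            (tendsto_id.mul_const _).mono_left nhdsWithin_le_nhds
          rw [zero_mul] at this
          exact this.eventually (gt_mem_nhds hε)
        · rw [Filter.eventually_all_finset]
          intro b hb
          have : Tendsto (fun κ : ℝ => ‖s.S (s.u b) - b • s.u b‖ +
              κ * (2 / d * ‖s.u a‖) * ‖s.u b‖) (𝓝[>] 0)
              (𝓝 (‖s.S (s.u b) - b • s.u b‖ + 0 * (2 / d * ‖s.u a‖) * ‖s.u b‖)) :=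
            (tendsto_const_nhds.add ((tendsto_id.mul_const _).mul_const _)).mono_left
              nhdsWithin_le_nhds
          rw [zero_mul, zero_mul, add_zero] at this
          exact this.eventually (gt_mem_nhds (hE b hb))
      obtain ⟨κ, ⟨h1, h2⟩, h3⟩ := (key.and self_mem_nhdsWithin).exists
      exact ⟨κ, h3, h1.le, h2⟩
    -- choice of the eigenvalue
    obtain ⟨n₁, hn₁⟩ : ∃ n₁, ∀ n, n₁ ≤ n → ‖c n - a‖ < κ * min ε ‖s.u a‖ := by
      have h1 : (0 : ℝ) < κ * min ε ‖s.u a‖ :=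
        mul_pos hκ (lt_min hε (norm_pos_iff.2 hua0))
      have h2 := (Metric.tendsto_atTop.1 hclim) _ h1
      simpa [dist_eq_norm] using h2
    obtain ⟨n, hn, hnG⟩ := hfreq (max N n₁)
    have hnN : N ≤ n := (le_max_left _ _).trans hn
    have hnn₁ : n₁ ≤ n := (le_max_right _ _).trans hn
    obtain ⟨φ, hφ1, hφG, hφn⟩ := exists_functional_dist G d hd (g n) hnG
    set K : X →L[ℂ] X := (κ : ℂ) • φ.smulRight (s.u a) with hK
    have hKx : ∀ x, K x = (κ : ℂ) • φ x • s.u a := fun x => by simp [hK]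
    have hKn : ‖K‖ ≤ κ * (2 / d * ‖s.u a‖) := by
      rw [hK, norm_smul, Complex.norm_real, Real.norm_of_nonneg hκ.le]
      apply mul_le_mul_of_nonneg_left _ hκ.le
      rw [ContinuousLinearMap.norm_smulRight_apply]
      exact mul_le_mul_of_nonneg_right hφn (norm_nonneg _)
    set v : X := s.u a + ((c n - a) / κ) • g n with hv
    have hκ' : (κ : ℂ) ≠ 0 := by exact_mod_cast hκ.ne'
    have hvn : ‖v - s.u a‖ < min ε ‖s.u a‖ := by
      have : v - s.u a = ((c n - a) / κ) • g n := by rw [hv]; abel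
      rw [this, norm_smul, hgnorm n hnN, mul_one, norm_div, Complex.norm_real,
        Real.norm_of_nonneg hκ.le, div_lt_iff₀ hκ, mul_comm]
      exact hn₁ n hnn₁
    have hv0 : v ≠ 0 := by
      intro h0
      rw [h0, zero_sub, norm_neg] at hvn
      exact absurd (hvn.trans_le (min_le_right _ _)) (lt_irrefl _)
    have hφa : φ (s.u a) = 0 := hφG _ (hWG (Submodule.subset_span ⟨a, ha, rfl⟩))
    have hKv : K v = (c n - a) • s.u a := by
      rw [hKx, hv, map_add, map_smul, hφa, hφ1, zero_add, smul_eq_mul, mul_one, smul_smul]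
      congr 1
      field_simp
    have hSv : (s.S + K) v = c n • v := by
      rw [add_apply, hKv, hv, map_add, map_smul, hua, hgS, smul_add, sub_smul,
        smul_comm (c n) ((c n - a) / (κ : ℂ)) (g n)]
      abel
    obtain ⟨h1, h2, h3⟩ := add_exact T Λ R s hs (c n) (hcR n) (hcA n) (hcB n) (hcP n) K
      (fun x => by
        rw [hKx, smul_smul]
        exact Submodule.smul_mem _ _ (Submodule.subset_span ⟨a, ha, rfl⟩))
      (fun b hb => by
        have : s.u b ∈ G := Submodule.subset_span ⟨b, by exact_mod_cast hb, rfl⟩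
        rw [hKx, hφG _ this, zero_smul, smul_zero])
      v hv0 hSv ε (hKn.trans hκε) η (fun b hb => by
        have h4 : (s.S + K) (s.u b) - b • s.u b = (s.S (s.u b) - b • s.u b) + K (s.u b) := by
          rw [add_apply]; abel
        rw [h4]
        refine (norm_add_le _ _).trans_lt ?_
        have h5 : ‖K (s.u b)‖ ≤ κ * (2 / d * ‖s.u a‖) * ‖s.u b‖ :=
          (K.le_opNorm _).trans (mul_le_mul_of_nonneg_right hKn (norm_nonneg _))
        have h6 := hκE b hb
        linarith)
    refine ⟨_, c n, h1, h2, h3, hPcard, ?_, (hc n).2, ?_⟩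
    · simp
    · have hac : a ≠ c n := fun h => (hc n).2 h.symm
      simp only [Function.update_self, Function.update_of_ne hac]
      exact hvn.trans_le (min_le_left _ _)
  · -- compactness
    push Not at hcase
    have hex : ∀ k : ℕ, ∃ n w, max N k ≤ n ∧ w ∈ G ∧ ‖g n - w‖ < 1 / ((k : ℝ) + 1) := by
      intro k
      obtain ⟨m, hm⟩ := hcase (1 / ((k : ℝ) + 1)) (by positivity)
      obtain ⟨w, hw, hwn⟩ := hm (max (max N k) m) (le_max_right _ _)
      exact ⟨_, w, le_max_left _ _, hw, hwn⟩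
    choose n w hn hwG hgw using hex
    have hnN : ∀ k, N ≤ n k := fun k => (le_max_left _ _).trans (hn k)
    have hnk : ∀ k, k ≤ n k := fun k => (le_max_right _ _).trans (hn k)
    have hwb : ∀ k, ‖w k‖ ≤ 2 := by
      intro k
      have h1 : ‖w k‖ ≤ ‖g (n k)‖ + ‖g (n k) - w k‖ := by
        have : w k = g (n k) - (g (n k) - w k) := by abel
        calc ‖w k‖ = ‖g (n k) - (g (n k) - w k)‖ := by rw [← this]
          _ ≤ _ := norm_sub_le _ _
      have h2 : (1 : ℝ) / ((k : ℝ) + 1) ≤ 1 := by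
        rw [div_le_one (by positivity)]
        have : (0 : ℝ) ≤ k := Nat.cast_nonneg k
        linarith
      have h3 := hgw k
      rw [hgnorm _ (hnN k)] at h1
      linarith
    set w' : ℕ → G := fun k => ⟨w k, hwG k⟩ with hw'
    have hmem : ∀ k, w' k ∈ Metric.closedBall (0 : G) 2 := by
      intro k
      rw [mem_closedBall_zero_iff]
      exact hwb k
    have : ProperSpace G := FiniteDimensional.proper ℂ G
    obtain ⟨q, -, θ, hθ, hθlim⟩ := (isCompact_closedBall (0 : G) 2).tendsto_subseq hmem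
    have hwlim : Tendsto (fun k => w (θ k)) atTop (𝓝 (q : X)) := by
      have := (continuous_subtype_val.tendsto q).comp hθlim
      exact this
    have hdiff : Tendsto (fun k => g (n (θ k)) - w (θ k)) atTop (𝓝 0) := by
      rw [tendsto_zero_iff_norm_tendsto_zero]
      have h1 : Tendsto (fun k : ℕ => 1 / (((θ k : ℕ) : ℝ) + 1)) atTop (𝓝 0) :=
        tendsto_one_div_add_atTop_nhds_zero_nat.comp hθ.tendsto_atTop
      exact squeeze_zero (fun _ => norm_nonneg _) (fun k => (hgw (θ k)).le) h1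
    have hglim : Tendsto (fun k => g (n (θ k))) atTop (𝓝 (q : X)) := by
      have := hdiff.add hwlim
      simpa using this
    have hnlim : Tendsto (fun k => n (θ k)) atTop atTop := by
      refine tendsto_atTop_mono (fun k => hnk (θ k)) hθ.tendsto_atTop
    have hqS : s.S (q : X) = a • (q : X) := by
      have h1 : Tendsto (fun k => s.S (g (n (θ k)))) atTop (𝓝 (s.S (q : X))) :=
        (s.S.continuous.tendsto _).comp hglim
      have h2 : Tendsto (fun k => s.S (g (n (θ k)))) atTop (𝓝 (a • (q : X))) := by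
        simp only [hgS]
        exact (hclim.comp hnlim).smul hglim
      exact tendsto_nhds_unique h1 h2
    have hqn : ‖(q : X)‖ = 1 := by
      have h1 : Tendsto (fun k => ‖g (n (θ k))‖) atTop (𝓝 ‖(q : X)‖) := hglim.norm
      have h2 : (fun k => ‖g (n (θ k))‖) = fun _ => (1 : ℝ) := by
        funext k
        exact hgnorm _ (hnN _)
      rw [h2] at h1
      exact (tendsto_nhds_unique tendsto_const_nhds h1).symm
    obtain ⟨t, ht⟩ := eig_multiple s.S s.u (s.A ∪ s.B) hs.eig a
      (Finset.mem_union_left _ ha) q q.2 hqS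
    have ht0 : t ≠ 0 := by
      rintro rfl
      rw [zero_smul] at ht
      rw [ht, norm_zero] at hqn
      exact zero_ne_one hqn
    have hlim' : Tendsto (fun k => t⁻¹ • g (n (θ k))) atTop (𝓝 (s.u a)) := by
      have h1 : Tendsto (fun k => t⁻¹ • g (n (θ k))) atTop (𝓝 (t⁻¹ • (q : X))) :=
        hglim.const_smul _
      rwa [ht, smul_smul, inv_mul_cancel₀ ht0, one_smul] at h1
    obtain ⟨k, hk⟩ := ((Metric.tendsto_nhds.1 hlim') ε hε).exists
    rw [dist_eq_norm] at hk
    have hg0 : g (n (θ k)) ≠ 0 := by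
      intro h0
      have := hgnorm _ (hnN (θ k))
      rw [h0, norm_zero] at this
      exact zero_ne_one this
    set m := n (θ k) with hm
    obtain ⟨h1, h2, h3⟩ := add_exact T Λ R s hs (c m) (hcR m) (hcA m) (hcB m) (hcP m) 0
      (fun x => by simp) (fun b hb => by simp) (t⁻¹ • g m)
      (smul_ne_zero (inv_ne_zero ht0) hg0)
      (by rw [add_zero, map_smul, hgS, smul_comm]) ε (by rw [norm_zero]; exact hε.le) η
      (fun b hb => by rw [add_zero]; exact hE b hb)
    refine ⟨_, c m, h1, h2, h3, hPcard, ?_, (hc m).2, ?_⟩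
    · simp
    · have hac : a ≠ c m := fun h => (hc m).2 h.symm
      simp only [Function.update_self, Function.update_of_ne hac]
      exact hk

end Pool.Agent.Lib.MP_bb8441_an
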