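import Pool.Agent.Lib.MP_bb8441_an.ApRec

/-! The set of reachable vectors is a closed subspace. -/

set_option autoImplicit false

namespace Pool.Agent.Lib.MP_bb8441_an

variable {X : Type*} [NormedAddCommGroup X] [NormedSpace ℂ X]

theorem reach_zero (S : X →L[ℂ] X) : Reach S (0 : X) := by
  intro Ω _ t₀ ε hε
  refine ⟨0, Submodule.zero_mem _, 0, fun c _ => by simpa using hε, by simpa using hε, fun N => ?_,
    by simpa using hε⟩
  have h : ((Finset.range N).filter fun t => ε ≤ ‖(S ^ t) (0 : X)‖) = ∅ := by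
    apply Finset.filter_eq_empty_iff.2
    intro t _
    rw [map_zero, norm_zero]
    exact not_le.2 hε
  rw [h]
  simp only [Finset.card_empty, Nat.cast_zero]
  positivity

theorem reach_smul (S : X →L[ℂ] X) (b : ℂ) (p : X) (hp : Reach S p) : Reach S (b • p) := by
  intro Ω hΩ t₀ ε hε
  set ε' : ℝ := ε / (‖b‖ + 1) with hε'
  have hb1 : 0 < ‖b‖ + 1 := by positivity
  have hb0 : 0 ≤ ‖b‖ := norm_nonneg b
  have h0 : 0 < ε' := by positivity
  have hle : ε' ≤ ε := by
    rw [hε', div_le_iff₀ hb1]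
    nlinarith
  have hmul : ε' * (‖b‖ + 1) = ε := by
    rw [hε']
    field_simp
  have hbe : ‖b‖ * ε' ≤ ε := by nlinarith
  have key : ∀ s : ℝ, 0 ≤ s → s < ε' → ‖b‖ * s < ε := by
    intro s hs0 hs
    nlinarith
  obtain ⟨z, hz, n, h1, h2, h3, h4⟩ := hp Ω hΩ t₀ ε' h0
  refine ⟨b • z, Submodule.smul_mem _ _ hz, n, fun c hc => (h1 c hc).trans_le hle, ?_, fun N => ?_,
    ?_⟩
  · rw [norm_smul]
    exact key _ (norm_nonneg _) h2
  · have hsub : ((Finset.range N).filter fun t => ε ≤ ‖(S ^ t) (b • z)‖) ⊆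
        ((Finset.range N).filter fun t => ε' ≤ ‖(S ^ t) z‖) := by
      intro t ht
      rw [Finset.mem_filter] at ht ⊢
      refine ⟨ht.1, ?_⟩
      by_contra hlt
      rw [not_le] at hlt
      have h5 := ht.2
      rw [map_smul, norm_smul] at h5
      have h6 := key _ (norm_nonneg _) hlt
      linarith
    have h5 : (((Finset.range N).filter fun t => ε ≤ ‖(S ^ t) (b • z)‖).card : ℝ) ≤
        (((Finset.range N).filter fun t => ε' ≤ ‖(S ^ t) z‖).card : ℝ) := by
      exact_mod_cast Finset.card_le_card hsub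
    refine h5.trans ((h3 N).trans ?_)
    exact mul_le_mul_of_nonneg_right hle (Nat.cast_nonneg N)
  · rw [map_smul, ← smul_sub, norm_smul]
    exact key _ (norm_nonneg _) h4

theorem reach_add (S : X →L[ℂ] X) (p q : X) (hp : Reach S p) (hq : Reach S q) :
    Reach S (p + q) := by
  classical
  intro Ω hΩ t₀ ε hε
  have h0 : 0 < ε / 4 := by positivity
  obtain ⟨z1, hz1, n1, a1, a2, a3, a4⟩ := hp Ω hΩ t₀ (ε / 4) h0
  obtain ⟨Ω1, hΩ1, τ1, hτ1, H1⟩ := ap_rec S z1 hz1 (ε / 4) h0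
  have hU : ∀ c ∈ Ω ∪ Ω1, ‖c‖ = 1 := by
    intro c hc
    rcases Finset.mem_union.1 hc with h | h
    · exact hΩ c h
    · exact hΩ1 c h
  obtain ⟨z2, hz2, n2, b1, b2, b3, b4⟩ := hq (Ω ∪ Ω1) hU (t₀ + n1) (min (ε / 4) τ1)
    (lt_min h0 hτ1)
  have hm1 : min (ε / 4) τ1 ≤ ε / 4 := min_le_left _ _
  have hm2 : min (ε / 4) τ1 ≤ τ1 := min_le_right _ _
  refine ⟨z1 + z2, Submodule.add_mem _ hz1 hz2, n1 + n2, fun c hc => ?_, ?_, fun N => ?_, ?_⟩
  · have e1 := a1 c hc
    have e2 := (b1 c (Finset.mem_union_left _ hc)).trans_le hm1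
    have h : c ^ (n1 + n2) - 1 = c ^ n1 * (c ^ n2 - 1) + (c ^ n1 - 1) := by ring
    rw [h]
    refine (norm_add_le _ _).trans_lt ?_
    rw [norm_mul, norm_pow, hΩ c hc, one_pow, one_mul]
    linarith
  · exact (norm_add_le _ _).trans_lt (by linarith)
  · have hsub : ((Finset.range N).filter fun t => ε ≤ ‖(S ^ t) (z1 + z2)‖) ⊆
        ((Finset.range N).filter fun t => ε / 4 ≤ ‖(S ^ t) z1‖) ∪
        ((Finset.range N).filter fun t => min (ε / 4) τ1 ≤ ‖(S ^ t) z2‖) := by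
      intro t ht
      rw [Finset.mem_filter] at ht
      rw [Finset.mem_union, Finset.mem_filter, Finset.mem_filter]
      by_contra hcon
      rw [not_or] at hcon
      have c1 : ‖(S ^ t) z1‖ < ε / 4 := by
        by_contra h
        exact hcon.1 ⟨ht.1, not_lt.1 h⟩
      have c2 : ‖(S ^ t) z2‖ < min (ε / 4) τ1 := by
        by_contra h
        exact hcon.2 ⟨ht.1, not_lt.1 h⟩
      have h5 := ht.2
      rw [map_add] at h5
      have h6 := norm_add_le ((S ^ t) z1) ((S ^ t) z2)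
      linarith
    have h5 : (((Finset.range N).filter fun t => ε ≤ ‖(S ^ t) (z1 + z2)‖).card : ℝ) ≤
        (((Finset.range N).filter fun t => ε / 4 ≤ ‖(S ^ t) z1‖).card : ℝ) +
        (((Finset.range N).filter fun t => min (ε / 4) τ1 ≤ ‖(S ^ t) z2‖).card : ℝ) := by
      exact_mod_cast (Finset.card_le_card hsub).trans (Finset.card_union_le _ _)
    have h6 := a3 N
    have h7 := b3 N
    have hN : (0 : ℝ) ≤ N := Nat.cast_nonneg N
    have h8 : min (ε / 4) τ1 * N ≤ ε / 4 * N := mul_le_mul_of_nonneg_right hm1 hN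
    nlinarith
  · have e1 := H1 n2 (fun c hc => (b1 c (Finset.mem_union_right _ hc)).trans_le hm2) (t₀ + n1)
    have e2 := b4.trans_le hm1
    rw [map_add]
    have h : t₀ + (n1 + n2) = n2 + (t₀ + n1) := by ring
    have h' : t₀ + n1 + n2 = n2 + (t₀ + n1) := by ring
    rw [h]
    rw [h'] at e2
    have h9 : (S ^ (n2 + (t₀ + n1))) z1 + (S ^ (n2 + (t₀ + n1))) z2 - (p + q) =
        ((S ^ (n2 + (t₀ + n1))) z1 - (S ^ (t₀ + n1)) z1) + ((S ^ (t₀ + n1)) z1 - p) +
        ((S ^ (n2 + (t₀ + n1))) z2 - q) := by abel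
    rw [h9]
    refine (norm_add₃_le).trans_lt ?_
    linarith

theorem reach_closure (S : X →L[ℂ] X) (p : X) (h : ∀ δ > 0, ∃ q, Reach S q ∧ ‖q - p‖ < δ) :
    Reach S p := by
  intro Ω hΩ t₀ ε hε
  obtain ⟨q, hq, hqp⟩ := h (ε / 2) (by positivity)
  obtain ⟨z, hz, n, h1, h2, h3, h4⟩ := hq Ω hΩ t₀ (ε / 2) (by positivity)
  refine ⟨z, hz, n, fun c hc => (h1 c hc).trans (by linarith), by linarith, fun N => ?_, ?_⟩
  · have hsub : ((Finset.range N).filter fun t => ε ≤ ‖(S ^ t) z‖) ⊆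
        ((Finset.range N).filter fun t => ε / 2 ≤ ‖(S ^ t) z‖) := by
      intro t ht
      rw [Finset.mem_filter] at ht ⊢
      exact ⟨ht.1, by linarith [ht.2]⟩
    have h5 : (((Finset.range N).filter fun t => ε ≤ ‖(S ^ t) z‖).card : ℝ) ≤
        (((Finset.range N).filter fun t => ε / 2 ≤ ‖(S ^ t) z‖).card : ℝ) := by
      exact_mod_cast Finset.card_le_card hsub
    refine h5.trans ((h3 N).trans ?_)
    exact mul_le_mul_of_nonneg_right (by linarith) (Nat.cast_nonneg N)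
  · have h9 : (S ^ (t₀ + n)) z - p = ((S ^ (t₀ + n)) z - q) + (q - p) := by abel
    rw [h9]
    exact (norm_add_le _ _).trans_lt (by linarith)

end Pool.Agent.Lib.MP_bb8441_an
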