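import Pool.Agent.Lib.MP_bb8441_an.ReachNode
import Pool.Agent.Lib.MP_bb8441_an.ReachOps
import Pool.Agent.Lib.MP_bb8441_an.Assemble

/-! Frequent hypercyclicity from spanning unimodular eigenvectors which are limits of other
unimodular eigenvectors. -/

set_option autoImplicit false

namespace Pool.Agent.Lib.MP_bb8441_an

variable {X : Type*} [NormedAddCommGroup X] [NormedSpace ℂ X]

theorem fhc_of_eigenvectors [CompleteSpace X] [TopologicalSpace.SeparableSpace X]
    (S : X →L[ℂ] X) (u : ℂ → X) (A C : Set ℂ)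
    (h1 : ∀ c ∈ A ∪ C, ‖c‖ = 1 ∧ S (u c) = c • u c)
    (hd : Dense (Submodule.span ℂ (u '' A) : Set X))
    (hacc : ∀ a ∈ A, ∀ δ > 0, ∃ c ∈ C, c ≠ a ∧ ‖u c - u a‖ < δ) :
    FrequentlyHypercyclic S := by
  have key : ∀ q ∈ Submodule.span ℂ (u '' A), Reach S q := by
    intro q hq
    induction hq using Submodule.span_induction with
    | mem x hx =>
      obtain ⟨a, ha, rfl⟩ := hx
      exact reach_node S u C (fun c hc => h1 c (Or.inr hc)) a (h1 a (Or.inl ha)).1
        (h1 a (Or.inl ha)).2 (hacc a ha)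
    | zero => exact reach_zero S
    | add x y _ _ hx hy => exact reach_add S x y hx hy
    | smul b x _ hx => exact reach_smul S b x hx
  apply fhc_of_reach
  intro p
  apply reach_closure
  intro δ hδ
  obtain ⟨q, hq, hpq⟩ := Metric.dense_iff.1 hd p δ hδ
  exact ⟨q, key q hpq, by simpa [dist_eq_norm] using hq⟩

end Pool.Agent.Lib.MP_bb8441_an
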