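import Pool.Agent.Lib.MP_bb8441_an.JDefs
import Pool.Agent.Lib.MP_bb8441_an.ExactChild

/-! Adding a pair of exact children to a symmetric stage. -/

set_option autoImplicit false

namespace Pool.Agent.Lib.MP_bb8441_an

open Filter Topology

variable {X : Type*} [NormedAddCommGroup X] [NormedSpace ℂ X]

/-- A pair of new exact eigenvectors `v`, `J v` for `c`, `conj c` is recorded. -/
theorem add_exact_J (J : X ≃ₗᵢ⋆[ℂ] X) (hJ : ∀ x, J (J x) = x) (T : X →L[ℂ] X)
    (Λ R : Set ℂ) (hRJ : ∀ c ∈ R, (starRingEnd ℂ) c ∈ R) (s : State X)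
    (hs : State.InvJ J T Λ R s)
    (c : ℂ) (hcR : c ∈ R) (hcc : (starRingEnd ℂ) c ≠ c) (hc : c ∉ s.A ∪ s.B ∪ s.P)
    (K : X →L[ℂ] X) (hKJ : ∀ x, K (J x) = J (K x))
    (hKr : ∀ x, K x ∈ Submodule.span ℂ (s.u '' (s.A : Set ℂ)))
    (hK0 : ∀ b ∈ s.A ∪ s.B, K (s.u b) = 0) (v : X) (hv : v ≠ 0) (hSv : (s.S + K) v = c • v)
    (ε : ℝ) (hKε : ‖K‖ ≤ ε) (η : ℝ)
    (hE : ∀ b ∈ s.P, ‖(s.S + K) (s.u b) - b • s.u b‖ < η) :
    ∃ s' : State X, State.InvJ J T Λ R s' ∧ State.ChildExt s s' ε ∧ State.Err s' η ∧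
      s'.P = s.P ∧ c ∈ s'.B ∧ s'.u c = v := by
  have hcA : c ∉ s.A := fun h => hc (by simp only [Finset.mem_union]; tauto)
  have hcB : c ∉ s.B := fun h => hc (by simp only [Finset.mem_union]; tauto)
  have hcP : c ∉ s.P := fun h => hc (by simp only [Finset.mem_union]; tauto)
  have hconj : (starRingEnd ℂ) ((starRingEnd ℂ) c) = c := Complex.conj_conj c
  have hcA' : (starRingEnd ℂ) c ∉ s.A := fun h => hcA (by
    have := hs.A_J _ h; rwa [hconj] at this)
  have hcB' : (starRingEnd ℂ) c ∉ s.B := fun h => hcB (by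
    have := hs.B_J _ h; rwa [hconj] at this)
  have hcP' : (starRingEnd ℂ) c ∉ s.P := fun h => hcP (by
    have := hs.P_J _ h; rwa [hconj] at this)
  obtain ⟨i1, i2, i3⟩ := add_exact T Λ R s hs.inv c hcR hcA hcB hcP K hKr hK0 v hv hSv ε hKε η hE
  set s₁ : State X := ⟨s.S + K, Function.update s.u c v, s.A, insert c s.B, s.P⟩ with hs₁
  have hSJ : ∀ x, (s.S + K) (J x) = J ((s.S + K) x) := by
    intro x
    have h1 : (s.S + K) (J x) = s.S (J x) + K (J x) := rfl
    have h2 : (s.S + K) x = s.S x + K x := rfl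
    rw [h1, h2, hs.S_J, hKJ, map_add]
  have hJv : J v ≠ 0 := by
    intro h
    apply hv
    have := hJ v
    rw [h, map_zero] at this
    exact this.symm
  have hSJv : (s₁.S + 0) (J v) = (starRingEnd ℂ) c • J v := by
    rw [add_zero]
    change (s.S + K) (J v) = _
    rw [hSJ, hSv, map_smulₛₗ]
  have hcB₁ : (starRingEnd ℂ) c ∉ s₁.B := by
    simp only [hs₁, Finset.mem_insert, not_or]
    exact ⟨hcc, hcB'⟩
  obtain ⟨j1, j2, j3⟩ := add_exact T Λ R s₁ i1 ((starRingEnd ℂ) c) (hRJ c hcR) hcA' hcB₁ hcP' 0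
    (fun x => by
      have : (0 : X →L[ℂ] X) x = 0 := rfl
      rw [this]; exact Submodule.zero_mem _)
    (fun b _ => rfl) (J v) hJv hSJv 0 (by rw [norm_zero]) η
    (fun b hb => by rw [add_zero]; exact i3 b hb)
  set s₂ : State X := ⟨s₁.S + 0, Function.update s₁.u ((starRingEnd ℂ) c) (J v), s₁.A,
    insert ((starRingEnd ℂ) c) s₁.B, s₁.P⟩ with hs₂
  have hu_c : s₂.u c = v := by
    simp only [hs₂, hs₁]
    rw [Function.update_of_ne hcc.symm, Function.update_self]
  have hu_cc : s₂.u ((starRingEnd ℂ) c) = J v := by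
    simp only [hs₂]
    rw [Function.update_self]
  have hu_old : ∀ b ∈ s.A ∪ s.B ∪ s.P, s₂.u b = s.u b := by
    intro b hb
    rw [j2.u_eq b ?_, i2.u_eq b hb]
    simp only [hs₁, Finset.mem_union, Finset.mem_insert] at hb ⊢
    tauto
  have hconjmem : ∀ b ∈ s.A ∪ s.B ∪ s.P, (starRingEnd ℂ) b ∈ s.A ∪ s.B ∪ s.P := by
    intro b hb
    simp only [Finset.mem_union] at hb ⊢
    rcases hb with (hb | hb) | hb
    · exact Or.inl (Or.inl (hs.A_J b hb))
    · exact Or.inl (Or.inr (hs.B_J b hb))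
    · exact Or.inr (hs.P_J b hb)
  have hcases : ∀ b ∈ s₂.A ∪ s₂.B ∪ s₂.P,
      b = c ∨ b = (starRingEnd ℂ) c ∨ b ∈ s.A ∪ s.B ∪ s.P := by
    intro b hb
    simp only [hs₂, hs₁, Finset.mem_union, Finset.mem_insert] at hb ⊢
    tauto
  refine ⟨s₂, ?_, ?_, j3, rfl, ?_, hu_c⟩
  · refine { inv := j1, S_J := ?_, A_J := hs.A_J, B_J := ?_, P_J := hs.P_J, u_J := ?_, nr := ?_ }
    · intro x
      simp only [hs₂, hs₁, add_zero]
      exact hSJ x
    · intro b hb
      simp only [hs₂, hs₁, Finset.mem_insert] at hb ⊢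
      rcases hb with rfl | rfl | hb
      · right; left; exact hconj
      · left; rfl
      · right; right; exact hs.B_J b hb
    · intro b hb
      rcases hcases b hb with rfl | rfl | hb
      · rw [hu_cc, hu_c]
      · rw [hconj, hu_c, hu_cc, hJ]
      · rw [hu_old _ (hconjmem b hb), hu_old b hb, hs.u_J b hb]
    · intro b hb
      rcases hcases b hb with rfl | rfl | hb
      · exact hcc
      · rw [hconj]; exact hcc.symm
      · exact hs.nr b hb
  · refine { A_eq := rfl, B_sub := ?_, P_sub := subset_rfl, u_eq := hu_old, S_near := ?_ }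
    · intro b hb
      simp only [hs₂, hs₁, Finset.mem_insert]
      exact Or.inr (Or.inr hb)
    · simp only [hs₂, hs₁, add_zero, add_sub_cancel_left]
      exact hKε
  · simp [hs₂, hs₁]

/-- Hint: as `exact_child` (file ExactChild.lean). `G = span u '' (A ∪ B)` is invariant under `J` and
`S`. Case 1 (`dist (f n) G ≥ d` infinitely often): `dist (f n) (G + ℂ J (f n)) ≥
d ‖c n - conj (c n)‖ / (‖S‖ + 1)` (apply `S - conj (c n)`), which gives `φ` with `φ (f n) = 1`,
`φ (J (f n)) = 0`, `φ = 0` on `G`; `K = κ (K₀ + conjOp J K₀)`, `K₀ x = φ x • u a`. Case 2: `K = 0`.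
In both cases `c n` and `conj (c n)` are added to `B`, `u' (conj c) = J (u' c)`. -/
theorem exact_child_J (J : X ≃ₗᵢ⋆[ℂ] X) (hJ : ∀ x, J (J x) = x)
    (T : X →L[ℂ] X) (hT : ∀ x, T (J x) = J (T x)) (Λ R : Set ℂ)
    (hR1 : ∀ c ∈ R, ‖c‖ = 1) (hRJ : ∀ c ∈ R, (starRingEnd ℂ) c ∈ R)
    (s : State X) (hs : State.InvJ J T Λ R s) (a : ℂ) (ha : a ∈ s.A)
    (hacc : ∀ δ > 0, ∃ c ∈ R, c ≠ a ∧ ‖c - a‖ < δ ∧ ∃ x, x ≠ 0 ∧ T x = c • x)
    (ε : ℝ) (hε : 0 < ε) (η : ℝ) (hη : 0 < η) (hE : State.Err s η) :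
    ∃ (s' : State X) (c : ℂ), State.InvJ J T Λ R s' ∧ State.ChildExt s s' ε ∧ State.Err s' η ∧
      s'.P.card ≤ s.P.card + 2 ∧
      (∀ b ∈ s'.P, b ∈ s.P ∨ ‖a - (starRingEnd ℂ) a‖ / 2 ≤ ‖b - (starRingEnd ℂ) b‖) ∧
      c ∈ s'.B ∪ s'.P ∧ c ≠ a ∧ ‖s'.u c - s'.u a‖ < ε := by
  -- a sequence of eigenvalues
  have hanr : (starRingEnd ℂ) a ≠ a := hs.nr a (by
    simp only [Finset.mem_union]; exact Or.inl (Or.inl ha))
  set m₀ : ℝ := ‖a - (starRingEnd ℂ) a‖ with hm₀
  have hm₀pos : 0 < m₀ := norm_pos_iff.2 (sub_ne_zero.2 hanr.symm)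
  set F : Finset ℂ := s.A ∪ s.B ∪ s.P with hF
  set D : Set ℂ := {c | c ∈ R ∧ c ∉ F ∧ m₀ / 2 ≤ ‖c - (starRingEnd ℂ) c‖ ∧
    ∃ x, x ≠ 0 ∧ T x = c • x} with hDdef
  have hD : ∀ δ > 0, ∃ c ∈ D, c ≠ a ∧ ‖c - a‖ < δ := by
    intro δ hδ
    obtain ⟨ρ, hρ, hρF⟩ : ∃ ρ > 0, ∀ b ∈ F, b ≠ a → ρ ≤ ‖b - a‖ := by
      by_cases hne : (F.filter (fun b => b ≠ a)).Nonempty
      · obtain ⟨b₀, hb₀, hmin⟩ := Finset.exists_min_image (F.filter (fun b => b ≠ a))
          (fun b => ‖b - a‖) hne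
        refine ⟨‖b₀ - a‖, norm_pos_iff.2 (sub_ne_zero.2 (Finset.mem_filter.1 hb₀).2), ?_⟩
        intro b hb hba
        exact hmin b (Finset.mem_filter.2 ⟨hb, hba⟩)
      · refine ⟨1, one_pos, ?_⟩
        intro b hb hba
        exact absurd ⟨b, Finset.mem_filter.2 ⟨hb, hba⟩⟩ hne
    obtain ⟨c, hcR, hca, hcδ, hcx⟩ := hacc (min (min δ ρ) (m₀ / 4))
      (lt_min (lt_min hδ hρ) (by positivity))
    refine ⟨c, ⟨hcR, ?_, ?_, hcx⟩, hca,
      hcδ.trans_le ((min_le_left _ _).trans (min_le_left _ _))⟩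
    · intro hcF
      exact absurd (hρF c hcF hca)
        (not_le.2 (hcδ.trans_le ((min_le_left _ _).trans (min_le_right _ _))))
    · have h1 : ‖c - a‖ < m₀ / 4 := hcδ.trans_le (min_le_right _ _)
      have h2 : a - (starRingEnd ℂ) a = (c - (starRingEnd ℂ) c) - (c - a) +
          (starRingEnd ℂ) (c - a) := by
        rw [map_sub]; ring
      have h3 : m₀ ≤ ‖c - (starRingEnd ℂ) c‖ + ‖c - a‖ + ‖c - a‖ := by
        rw [hm₀, h2]
        refine (norm_add_le _ _).trans ?_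
        rw [Complex.norm_conj]
        have := norm_sub_le (c - (starRingEnd ℂ) c) (c - a)
        linarith
      linarith
  obtain ⟨c, hc, hcinj, hclim⟩ := seq_of_acc D a hD
  have hcR : ∀ n, c n ∈ R := fun n => (hc n).1.1
  have hcF : ∀ n, c n ∉ F := fun n => (hc n).1.2.1
  have hcm : ∀ n, m₀ / 2 ≤ ‖c n - (starRingEnd ℂ) (c n)‖ := fun n => (hc n).1.2.2.1
  have hcA : ∀ n, c n ∉ s.A := fun n h => hcF n (by
    rw [hF]; simp only [Finset.mem_union]; tauto)
  have hccn : ∀ n, (starRingEnd ℂ) (c n) ≠ c n := by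
    intro n h
    have := hcm n
    rw [h, sub_self, norm_zero] at this
    linarith
  choose e he0 heT using fun n => (hc n).1.2.2.2
  -- corrected eigenvectors
  have heig := hs.inv.eig
  have heigA : ∀ b ∈ s.A, s.S (s.u b) = b • s.u b := fun b hb =>
    heig b (Finset.mem_union_left _ hb)
  have hsol : ∀ n, ∃ h ∈ Submodule.span ℂ (s.u '' (s.A : Set ℂ)),
      s.S h - c n • h = -(s.S (e n) - T (e n)) := by
    intro n
    exact solve_span s.S s.u s.A heigA (c n) (hcA n) _ (Submodule.neg_mem _ (hs.inv.range (e n)))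
  choose h hhW hh using hsol
  set G : Submodule ℂ X := Submodule.span ℂ (s.u '' ((s.A ∪ s.B : Finset ℂ) : Set ℂ)) with hG
  have hWG : Submodule.span ℂ (s.u '' (s.A : Set ℂ)) ≤ G := by
    apply Submodule.span_mono
    apply Set.image_mono
    intro b hb
    simp only [Finset.coe_union, Set.mem_union]
    left; exact hb
  have hGS : ∀ w ∈ G, s.S w ∈ G := fun w hw => span_invariant s.S s.u (s.A ∪ s.B) heig w hw
  have hGfin : FiniteDimensional ℂ G := by
    apply FiniteDimensional.span_of_finite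
    exact (Finset.finite_toSet _).image _
  obtain ⟨N, hN⟩ := eig_escape T e c hcinj (fun n => ⟨he0 n, heT n⟩) G
  set f : ℕ → X := fun n => e n + h n with hf
  have hfS : ∀ n, s.S (f n) = c n • f n := by
    intro n
    have h1 := hh n
    have h2 := heT n
    have h3 : s.S (h n) = c n • h n - (s.S (e n) - T (e n)) := by
      rw [sub_eq_iff_eq_add] at h1
      rw [h1]; abel
    simp only [hf]
    rw [map_add, h3, h2, smul_add]
    abel
  have hfG : ∀ n, N ≤ n → f n ∉ G := by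
    intro n hn hmem
    apply hN n hn
    have : e n = f n - h n := by simp [hf]
    rw [this]
    exact G.sub_mem hmem (hWG (hhW n))
  have hf0 : ∀ n, N ≤ n → f n ≠ 0 := by
    intro n hn h0
    exact hfG n hn (by rw [h0]; exact G.zero_mem)
  set g : ℕ → X := fun n => ((‖f n‖ : ℂ))⁻¹ • f n with hg
  have hgS : ∀ n, s.S (g n) = c n • g n := by
    intro n
    simp only [hg]
    rw [map_smul, hfS, smul_comm]
  have hgnorm : ∀ n, N ≤ n → ‖g n‖ = 1 := by
    intro n hn
    simp only [hg]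
    rw [norm_smul, norm_inv, Complex.norm_real, norm_norm,
      inv_mul_cancel₀ (norm_ne_zero_iff.2 (hf0 n hn))]
  have hua : s.S (s.u a) = a • s.u a := heigA a ha
  have hua0 : s.u a ≠ 0 := hs.inv.ne a (Finset.mem_union_left _ ha)
  have haF : a ∈ F := by
    rw [hF]; simp only [Finset.mem_union]; exact Or.inl (Or.inl ha)
  -- conclusion from a new pair
  have hfin : ∀ (s' : State X) (n : ℕ), State.InvJ J T Λ R s' → State.ChildExt s s' ε →
      State.Err s' η → s'.P = s.P → c n ∈ s'.B → ‖s'.u (c n) - s.u a‖ < ε →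
      ∃ (s' : State X) (c : ℂ), State.InvJ J T Λ R s' ∧ State.ChildExt s s' ε ∧ State.Err s' η ∧
      s'.P.card ≤ s.P.card + 2 ∧
      (∀ b ∈ s'.P, b ∈ s.P ∨ ‖a - (starRingEnd ℂ) a‖ / 2 ≤ ‖b - (starRingEnd ℂ) b‖) ∧
      c ∈ s'.B ∪ s'.P ∧ c ≠ a ∧ ‖s'.u c - s'.u a‖ < ε := by
    intro s' n h1 h2 h3 h4 h5 h6
    refine ⟨s', c n, h1, h2, h3, ?_, ?_, Finset.mem_union_left _ h5, (hc n).2, ?_⟩
    · rw [h4]; exact Nat.le_add_right _ _
    · intro b hb
      left
      rwa [h4] at hb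
    · rw [h2.u_eq a haF]
      exact h6
  by_cases hcase : ∃ d > 0, ∀ m, ∃ n, m ≤ n ∧ ∀ w ∈ G, d ≤ ‖g n - w‖
  · obtain ⟨d, hd, hfreq⟩ := hcase
    -- the distance to `G` and `J (g n)`
    set d' : ℝ := d * (m₀ / 2) / (‖s.S‖ + 1) with hd'
    have hd'pos : 0 < d' := by positivity
    have hdist : ∀ n, (∀ w ∈ G, d ≤ ‖g n - w‖) → ∀ w ∈ G ⊔ Submodule.span ℂ {J (g n)},
        d' ≤ ‖g n - w‖ := by
      intro n hn w hw
      obtain ⟨w₁, hw₁, w₂, hw₂, rfl⟩ := Submodule.mem_sup.1 hw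
      obtain ⟨t, rfl⟩ := Submodule.mem_span_singleton.1 hw₂
      set q : ℂ := (starRingEnd ℂ) (c n) with hq
      have hqn : ‖q‖ = 1 := by rw [hq, Complex.norm_conj]; exact hR1 _ (hcR n)
      have hSJg : s.S (J (g n)) = q • J (g n) := by
        rw [hs.S_J, hgS, map_smulₛₗ]
      have h1 : s.S (g n - (w₁ + t • J (g n))) - q • (g n - (w₁ + t • J (g n))) =
          (c n - q) • (g n - (c n - q)⁻¹ • (s.S w₁ - q • w₁)) := by
        have hcq : c n - q ≠ 0 := sub_ne_zero.2 (hccn n).symm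
        have hSt : s.S (t • J (g n)) = t • q • J (g n) := by rw [map_smul, hSJg]
        have hinv : (c n - q) • (c n - q)⁻¹ • (s.S w₁ - q • w₁) = s.S w₁ - q • w₁ := by
          rw [smul_smul, mul_inv_cancel₀ hcq, one_smul]
        rw [map_sub, map_add, hSt, hgS, smul_sub (c n - q) (g n), hinv]
        module
      have h2 : (c n - q)⁻¹ • (s.S w₁ - q • w₁) ∈ G :=
        G.smul_mem _ (G.sub_mem (hGS _ hw₁) (G.smul_mem _ hw₁))
      have h3 : m₀ / 2 * d ≤ ‖s.S (g n - (w₁ + t • J (g n))) -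
          q • (g n - (w₁ + t • J (g n)))‖ := by
        rw [h1, norm_smul]
        exact mul_le_mul (hcm n) (hn _ h2) hd.le (norm_nonneg _)
      have h4 : ‖s.S (g n - (w₁ + t • J (g n))) - q • (g n - (w₁ + t • J (g n)))‖ ≤
          (‖s.S‖ + 1) * ‖g n - (w₁ + t • J (g n))‖ := by
        refine (norm_sub_le _ _).trans ?_
        rw [norm_smul, hqn, add_mul]
        exact add_le_add (s.S.le_opNorm _) le_rfl
      rw [hd', div_le_iff₀ (by positivity)]
      linarith
    -- choice of the size of the perturbation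
    obtain ⟨κ, hκ, hκε, hκE⟩ : ∃ κ > 0, κ * (2 * (2 / d' * ‖s.u a‖)) ≤ ε ∧
        ∀ b ∈ s.P, ‖s.S (s.u b) - b • s.u b‖ + κ * (2 * (2 / d' * ‖s.u a‖)) * ‖s.u b‖ < η := by
      have key : ∀ᶠ κ : ℝ in 𝓝[>] 0, κ * (2 * (2 / d' * ‖s.u a‖)) < ε ∧
          ∀ b ∈ s.P, ‖s.S (s.u b) - b • s.u b‖ + κ * (2 * (2 / d' * ‖s.u a‖)) * ‖s.u b‖ < η := by
        refine Filter.Eventually.and ?_ ?_
        · have : Tendsto (fun κ : ℝ => κ * (2 * (2 / d' * ‖s.u a‖))) (𝓝[>] 0)
              (𝓝 (0 * (2 * (2 / d' * ‖s.u a‖)))) :=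
            (tendsto_id.mul_const _).mono_left nhdsWithin_le_nhds
          rw [zero_mul] at this
          exact this.eventually (gt_mem_nhds hε)
        · rw [Filter.eventually_all_finset]
          intro b hb
          have : Tendsto (fun κ : ℝ => ‖s.S (s.u b) - b • s.u b‖ +
              κ * (2 * (2 / d' * ‖s.u a‖)) * ‖s.u b‖) (𝓝[>] 0)
              (𝓝 (‖s.S (s.u b) - b • s.u b‖ + 0 * (2 * (2 / d' * ‖s.u a‖)) * ‖s.u b‖)) :=
            (tendsto_const_nhds.add ((tendsto_id.mul_const _).mul_const _)).mono_left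
              nhdsWithin_le_nhds
          rw [zero_mul, zero_mul, add_zero] at this
          exact this.eventually (gt_mem_nhds (hE b hb))
      obtain ⟨κ, ⟨h1, h2⟩, h3⟩ := (key.and self_mem_nhdsWithin).exists
      exact ⟨κ, h3, h1.le, h2⟩
    -- choice of the eigenvalue
    obtain ⟨n₁, hn₁⟩ : ∃ n₁, ∀ n, n₁ ≤ n → ‖c n - a‖ < κ * min ε ‖s.u a‖ := by
      have h1 : (0 : ℝ) < κ * min ε ‖s.u a‖ :=
        mul_pos hκ (lt_min hε (norm_pos_iff.2 hua0))
      have h2 := (Metric.tendsto_atTop.1 hclim) _ h1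
      simpa [dist_eq_norm] using h2
    obtain ⟨n, hn, hnG⟩ := hfreq (max N n₁)
    have hnN : N ≤ n := (le_max_left _ _).trans hn
    have hnn₁ : n₁ ≤ n := (le_max_right _ _).trans hn
    obtain ⟨φ, hφ1, hφG, hφn⟩ := exists_functional_dist _ d' hd'pos (g n) (hdist n hnG)
    have hφJ : φ (J (g n)) = 0 :=
      hφG _ (Submodule.mem_sup_right (Submodule.mem_span_singleton_self _))
    set K₀ : X →L[ℂ] X := (κ : ℂ) • φ.smulRight (s.u a) with hK₀
    have hK₀x : ∀ x, K₀ x = (κ : ℂ) • φ x • s.u a := fun x => by simp [hK₀]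
    have hK₀n : ‖K₀‖ ≤ κ * (2 / d' * ‖s.u a‖) := by
      rw [hK₀, norm_smul, Complex.norm_real, Real.norm_of_nonneg hκ.le]
      apply mul_le_mul_of_nonneg_left _ hκ.le
      rw [ContinuousLinearMap.norm_smulRight_apply]
      exact mul_le_mul_of_nonneg_right hφn (norm_nonneg _)
    set K : X →L[ℂ] X := K₀ + conjOp J K₀ with hK
    have hKx : ∀ x, K x = K₀ x + J (K₀ (J x)) := fun x => rfl
    have hKJ : ∀ x, K (J x) = J (K x) := by
      intro x
      rw [hKx, hKx, hJ, map_add, hJ, add_comm]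
    have hKn : ‖K‖ ≤ κ * (2 * (2 / d' * ‖s.u a‖)) := by
      refine (norm_add_le _ _).trans ?_
      have := norm_conjOp_le J K₀
      nlinarith
    set v : X := s.u a + ((c n - a) / κ) • g n with hv
    have hκ' : (κ : ℂ) ≠ 0 := by exact_mod_cast hκ.ne'
    have hvn : ‖v - s.u a‖ < min ε ‖s.u a‖ := by
      have : v - s.u a = ((c n - a) / κ) • g n := by rw [hv]; abel
      rw [this, norm_smul, hgnorm n hnN, mul_one, norm_div, Complex.norm_real,
        Real.norm_of_nonneg hκ.le, div_lt_iff₀ hκ, mul_comm]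
      exact hn₁ n hnn₁
    have hv0 : v ≠ 0 := by
      intro h0
      rw [h0, zero_sub, norm_neg] at hvn
      exact absurd (hvn.trans_le (min_le_right _ _)) (lt_irrefl _)
    have hφu : ∀ b ∈ s.A ∪ s.B, φ (s.u b) = 0 := fun b hb =>
      hφG _ (Submodule.mem_sup_left (Submodule.subset_span ⟨b, by exact_mod_cast hb, rfl⟩))
    have hconjAB : ∀ b ∈ s.A ∪ s.B, (starRingEnd ℂ) b ∈ s.A ∪ s.B := by
      intro b hb
      rcases Finset.mem_union.1 hb with hb | hb
      · exact Finset.mem_union_left _ (hs.A_J b hb)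
      · exact Finset.mem_union_right _ (hs.B_J b hb)
    have hK0u : ∀ b ∈ s.A ∪ s.B, K (s.u b) = 0 := by
      intro b hb
      have hJu : J (s.u b) = s.u ((starRingEnd ℂ) b) :=
        (hs.u_J b (Finset.mem_union_left _ hb)).symm
      rw [hKx, hJu, hK₀x, hK₀x, hφu b hb, hφu _ (hconjAB b hb), zero_smul, smul_zero, map_zero,
        add_zero]
    have hKg : K (g n) = (κ : ℂ) • s.u a := by
      rw [hKx, hK₀x, hK₀x, hφ1, hφJ, one_smul, zero_smul, smul_zero, map_zero, add_zero]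
    have hKv : K v = (c n - a) • s.u a := by
      rw [hv, map_add, map_smul, hK0u a (Finset.mem_union_left _ ha), hKg, zero_add, smul_smul]
      congr 1
      field_simp
    have hSv : (s.S + K) v = c n • v := by
      have : (s.S + K) v = s.S v + K v := rfl
      rw [this, hKv, hv, map_add, map_smul, hua, hgS, smul_add, sub_smul,
        smul_comm (c n) ((c n - a) / (κ : ℂ)) (g n)]
      abel
    have hua_mem : s.u a ∈ Submodule.span ℂ (s.u '' (s.A : Set ℂ)) :=
      Submodule.subset_span ⟨a, ha, rfl⟩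
    have hJua : J (s.u a) = s.u ((starRingEnd ℂ) a) := (hs.u_J a haF).symm
    obtain ⟨s', h1, h2, h3, h4, h5, h6⟩ := add_exact_J J hJ T Λ R hRJ s hs (c n) (hcR n) (hccn n)
      (hcF n) K hKJ
      (fun x => by
        rw [hKx, hK₀x, hK₀x, map_smulₛₗ, map_smulₛₗ, hJua]
        refine Submodule.add_mem _ (Submodule.smul_mem _ _ (Submodule.smul_mem _ _ hua_mem))
          (Submodule.smul_mem _ _ (Submodule.smul_mem _ _ ?_))
        exact Submodule.subset_span ⟨(starRingEnd ℂ) a, hs.A_J a ha, rfl⟩)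
      hK0u v hv0 hSv ε (hKn.trans hκε) η (fun b hb => by
        have h4 : (s.S + K) (s.u b) - b • s.u b = (s.S (s.u b) - b • s.u b) + K (s.u b) := by
          have : (s.S + K) (s.u b) = s.S (s.u b) + K (s.u b) := rfl
          rw [this]; abel
        rw [h4]
        refine (norm_add_le _ _).trans_lt ?_
        have h5 : ‖K (s.u b)‖ ≤ κ * (2 * (2 / d' * ‖s.u a‖)) * ‖s.u b‖ :=
          (K.le_opNorm _).trans (mul_le_mul_of_nonneg_right hKn (norm_nonneg _))
        have h6 := hκE b hb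
        linarith)
    refine hfin s' n h1 h2 h3 h4 h5 ?_
    rw [h6]
    exact hvn.trans_le (min_le_left _ _)
  · -- compactness
    push Not at hcase
    have hex : ∀ k : ℕ, ∃ n w, max N k ≤ n ∧ w ∈ G ∧ ‖g n - w‖ < 1 / ((k : ℝ) + 1) := by
      intro k
      obtain ⟨m, hm⟩ := hcase (1 / ((k : ℝ) + 1)) (by positivity)
      obtain ⟨w, hw, hwn⟩ := hm (max (max N k) m) (le_max_right _ _)
      exact ⟨_, w, le_max_left _ _, hw, hwn⟩
    choose n w hn hwG hgw using hex
    have hnN : ∀ k, N ≤ n k := fun k => (le_max_left _ _).trans (hn k)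
    have hnk : ∀ k, k ≤ n k := fun k => (le_max_right _ _).trans (hn k)
    have hwb : ∀ k, ‖w k‖ ≤ 2 := by
      intro k
      have h1 : ‖w k‖ ≤ ‖g (n k)‖ + ‖g (n k) - w k‖ := by
        have : w k = g (n k) - (g (n k) - w k) := by abel
        calc ‖w k‖ = ‖g (n k) - (g (n k) - w k)‖ := by rw [← this]
          _ ≤ _ := norm_sub_le _ _
      have h2 : (1 : ℝ) / ((k : ℝ) + 1) ≤ 1 := by
        rw [div_le_one (by positivity)]
        have : (0 : ℝ) ≤ k := Nat.cast_nonneg k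
        linarith
      have h3 := hgw k
      rw [hgnorm _ (hnN k)] at h1
      linarith
    set w' : ℕ → G := fun k => ⟨w k, hwG k⟩ with hw'
    have hmem : ∀ k, w' k ∈ Metric.closedBall (0 : G) 2 := by
      intro k
      rw [mem_closedBall_zero_iff]
      exact hwb k
    have : ProperSpace G := FiniteDimensional.proper ℂ G
    obtain ⟨q, -, θ, hθ, hθlim⟩ := (isCompact_closedBall (0 : G) 2).tendsto_subseq hmem
    have hwlim : Tendsto (fun k => w (θ k)) atTop (𝓝 (q : X)) := by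
      have := (continuous_subtype_val.tendsto q).comp hθlim
      exact this
    have hdiff : Tendsto (fun k => g (n (θ k)) - w (θ k)) atTop (𝓝 0) := by
      rw [tendsto_zero_iff_norm_tendsto_zero]
      have h1 : Tendsto (fun k : ℕ => 1 / (((θ k : ℕ) : ℝ) + 1)) atTop (𝓝 0) :=
        tendsto_one_div_add_atTop_nhds_zero_nat.comp hθ.tendsto_atTop
      exact squeeze_zero (fun _ => norm_nonneg _) (fun k => (hgw (θ k)).le) h1
    have hglim : Tendsto (fun k => g (n (θ k))) atTop (𝓝 (q : X)) := by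
      have := hdiff.add hwlim
      simpa using this
    have hnlim : Tendsto (fun k => n (θ k)) atTop atTop := by
      refine tendsto_atTop_mono (fun k => hnk (θ k)) hθ.tendsto_atTop
    have hqS : s.S (q : X) = a • (q : X) := by
      have h1 : Tendsto (fun k => s.S (g (n (θ k)))) atTop (𝓝 (s.S (q : X))) :=
        (s.S.continuous.tendsto _).comp hglim
      have h2 : Tendsto (fun k => s.S (g (n (θ k)))) atTop (𝓝 (a • (q : X))) := by
        simp only [hgS]
        exact (hclim.comp hnlim).smul hglim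
      exact tendsto_nhds_unique h1 h2
    have hqn : ‖(q : X)‖ = 1 := by
      have h1 : Tendsto (fun k => ‖g (n (θ k))‖) atTop (𝓝 ‖(q : X)‖) := hglim.norm
      have h2 : (fun k => ‖g (n (θ k))‖) = fun _ => (1 : ℝ) := by
        funext k
        exact hgnorm _ (hnN _)
      rw [h2] at h1
      exact (tendsto_nhds_unique tendsto_const_nhds h1).symm
    obtain ⟨t, ht⟩ := eig_multiple s.S s.u (s.A ∪ s.B) heig a
      (Finset.mem_union_left _ ha) q q.2 hqS
    have ht0 : t ≠ 0 := by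
      rintro rfl
      rw [zero_smul] at ht
      rw [ht, norm_zero] at hqn
      exact zero_ne_one hqn
    have hlim' : Tendsto (fun k => t⁻¹ • g (n (θ k))) atTop (𝓝 (s.u a)) := by
      have h1 : Tendsto (fun k => t⁻¹ • g (n (θ k))) atTop (𝓝 (t⁻¹ • (q : X))) :=
        hglim.const_smul _
      rwa [ht, smul_smul, inv_mul_cancel₀ ht0, one_smul] at h1
    obtain ⟨k, hk⟩ := ((Metric.tendsto_nhds.1 hlim') ε hε).exists
    rw [dist_eq_norm] at hk
    have hg0 : g (n (θ k)) ≠ 0 := by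
      intro h0
      have := hgnorm _ (hnN (θ k))
      rw [h0, norm_zero] at this
      exact zero_ne_one this
    set m := n (θ k) with hm
    obtain ⟨s', h1, h2, h3, h4, h5, h6⟩ := add_exact_J J hJ T Λ R hRJ s hs (c m) (hcR m) (hccn m)
      (hcF m) 0 (fun x => by
        have h7 : ∀ y : X, (0 : X →L[ℂ] X) y = 0 := fun _ => rfl
        rw [h7, h7, map_zero])
      (fun x => by simp) (fun b hb => by simp) (t⁻¹ • g m)
      (smul_ne_zero (inv_ne_zero ht0) hg0)
      (by rw [add_zero, map_smul, hgS, smul_comm]) ε (by rw [norm_zero]; exact hε.le) η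
      (fun b hb => by rw [add_zero]; exact hE b hb)
    refine hfin s' m h1 h2 h3 h4 h5 ?_
    rw [h6]
    exact hk

end Pool.Agent.Lib.MP_bb8441_an
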