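import Pool.Agent.Lib.MP_bb8441_an.JPending
import Pool.Agent.Lib.MP_bb8441_an.JExact
import Pool.Agent.Lib.MP_bb8441_an.Child

/-! Adding children to a symmetric stage. -/

set_option autoImplicit false

namespace Pool.Agent.Lib.MP_bb8441_an

variable {X : Type*} [NormedAddCommGroup X] [NormedSpace ℂ X]

theorem child_one_J (J : X ≃ₗᵢ⋆[ℂ] X) (hJ : ∀ x, J (J x) = x)
    (T : X →L[ℂ] X) (hT : ∀ x, T (J x) = J (T x)) (Λ R : Set ℂ)
    (hR1 : ∀ c ∈ R, ‖c‖ = 1) (hRJ : ∀ c ∈ R, (starRingEnd ℂ) c ∈ R)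
    (s : State X) (hs : State.InvJ J T Λ R s) (a : ℂ) (ha : a ∈ s.A)
    (hacc : ∀ δ > 0, ∃ c ∈ R, c ≠ a ∧ ‖c - a‖ < δ)
    (ε : ℝ) (hε : 0 < ε) (η : ℝ) (hη : 0 < η) (hE : State.Err s η) :
    ∃ (s' : State X) (c : ℂ), State.InvJ J T Λ R s' ∧ State.ChildExt s s' ε ∧ State.Err s' η ∧
      s'.P.card ≤ s.P.card + 2 ∧
      (∀ b ∈ s'.P, b ∈ s.P ∨ ‖a - (starRingEnd ℂ) a‖ / 2 ≤ ‖b - (starRingEnd ℂ) b‖) ∧
      c ∈ s'.B ∪ s'.P ∧ c ≠ a ∧ ‖s'.u c - s'.u a‖ < ε := by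
  by_cases h : ∀ δ > 0, ∃ c ∈ R, c ≠ a ∧ ‖c - a‖ < δ ∧ ∀ x, T x = c • x → x = 0
  · exact pending_child_J J hJ T hT Λ R hRJ s hs a ha h ε hε η hη hE
  · push Not at h
    obtain ⟨δ₀, hδ₀, h⟩ := h
    apply exact_child_J J hJ T hT Λ R hR1 hRJ s hs a ha _ ε hε η hη hE
    intro δ hδ
    obtain ⟨c, hcR, hca, hcδ⟩ := hacc (min δ δ₀) (lt_min hδ hδ₀)
    obtain ⟨x, hx, hx0⟩ := h c hcR hca (lt_of_lt_of_le hcδ (min_le_right _ _))
    exact ⟨c, hcR, hca, lt_of_lt_of_le hcδ (min_le_left _ _), x, hx0, hx⟩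

theorem child_all_J (J : X ≃ₗᵢ⋆[ℂ] X) (hJ : ∀ x, J (J x) = x)
    (T : X →L[ℂ] X) (hT : ∀ x, T (J x) = J (T x)) (Λ R : Set ℂ)
    (hR1 : ∀ c ∈ R, ‖c‖ = 1) (hRJ : ∀ c ∈ R, (starRingEnd ℂ) c ∈ R)
    (s : State X) (hs : State.InvJ J T Λ R s)
    (H3 : ∀ a ∈ Λ, ∀ δ > 0, ∃ c ∈ R, c ≠ a ∧ ‖c - a‖ < δ)
    (A₀ : Finset ℂ) (hA₀ : A₀ ⊆ s.A)
    (ε : ℝ) (hε : 0 < ε) (η : ℝ) (hη : 0 < η) (hE : State.Err s η) :
    ∃ s' : State X, State.InvJ J T Λ R s' ∧ State.ChildExt s s' ε ∧ State.Err s' η ∧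
      s'.P.card ≤ s.P.card + 2 * A₀.card ∧
      (∀ b ∈ s'.P, b ∈ s.P ∨
        ∃ a ∈ A₀, ‖a - (starRingEnd ℂ) a‖ / 2 ≤ ‖b - (starRingEnd ℂ) b‖) ∧
      ∀ a ∈ A₀, ∃ c ∈ s'.B ∪ s'.P, c ≠ a ∧ ‖s'.u c - s'.u a‖ < ε := by
  have key : ∀ A₁ : Finset ℂ, A₁ ⊆ A₀ → ∃ s' : State X, State.InvJ J T Λ R s' ∧
      State.ChildExt s s' (ε / ((A₀.card : ℝ) + 1) * A₁.card) ∧ State.Err s' η ∧
      s'.P.card ≤ s.P.card + 2 * A₁.card ∧
      (∀ b ∈ s'.P, b ∈ s.P ∨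
        ∃ a ∈ A₁, ‖a - (starRingEnd ℂ) a‖ / 2 ≤ ‖b - (starRingEnd ℂ) b‖) ∧
      ∀ a ∈ A₁, ∃ c ∈ s'.B ∪ s'.P, c ≠ a ∧ ‖s'.u c - s'.u a‖ < ε := by
    intro A₁
    induction A₁ using Finset.induction_on with
    | empty =>
      intro _
      refine ⟨s, hs, ChildExt.refl' s _ (by simp), hE, by simp, fun b hb => Or.inl hb, by simp⟩
    | insert a A₁ ha ih =>
      intro hsub
      obtain ⟨s', h1, h2, h3, h4, h6, h5⟩ := ih (fun d hd => hsub (Finset.mem_insert_of_mem hd))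
      have haA : a ∈ s.A := hA₀ (hsub (Finset.mem_insert_self a A₁))
      have haA' : a ∈ s'.A := by rw [h2.A_eq]; exact haA
      have hpos : 0 < ε / ((A₀.card : ℝ) + 1) := by positivity
      have hle : ε / ((A₀.card : ℝ) + 1) ≤ ε := by
        apply div_le_self hε.le
        have : (0 : ℝ) ≤ A₀.card := by positivity
        linarith
      obtain ⟨s'', c, k1, k2, k3, k4, k8, k5, k6, k7⟩ := child_one_J J hJ T hT Λ R hR1 hRJ s' h1
        a haA' (H3 a (hs.inv.A_mem a haA)) _ hpos η hη h3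
      have hcard : (insert a A₁).card = A₁.card + 1 := Finset.card_insert_of_notMem ha
      refine ⟨s'', k1, ?_, k3, ?_, ?_, ?_⟩
      · have := ChildExt.trans' s s' s'' _ _ h2 k2
        rw [hcard]
        convert this using 1
        push_cast
        ring
      · rw [hcard]; omega
      · intro b hb
        rcases k8 b hb with hb | hb
        · rcases h6 b hb with hb | ⟨d, hd, hdb⟩
          · exact Or.inl hb
          · exact Or.inr ⟨d, Finset.mem_insert_of_mem hd, hdb⟩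
        · exact Or.inr ⟨a, Finset.mem_insert_self a A₁, hb⟩
      · intro b hb
        rcases Finset.mem_insert.1 hb with rfl | hb
        · exact ⟨c, k5, k6, lt_of_lt_of_le k7 hle⟩
        · obtain ⟨d, hd, hdb, hdn⟩ := h5 b hb
          have hbA : b ∈ s.A := hA₀ (hsub (Finset.mem_insert_of_mem hb))
          have hbA' : b ∈ s'.A := by rw [h2.A_eq]; exact hbA
          refine ⟨d, ?_, hdb, ?_⟩
          · simp only [Finset.mem_union] at hd ⊢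
            rcases hd with hd | hd
            · exact Or.inl (k2.B_sub hd)
            · exact Or.inr (k2.P_sub hd)
          · rw [k2.u_eq d ?_, k2.u_eq b ?_]
            · exact hdn
            · simp only [Finset.mem_union]; exact Or.inl (Or.inl hbA')
            · simp only [Finset.mem_union] at hd ⊢
              rcases hd with hd | hd
              · exact Or.inl (Or.inr hd)
              · exact Or.inr hd
  obtain ⟨s', h1, h2, h3, h4, h6, h5⟩ := key A₀ (le_refl _)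
  refine ⟨s', h1, ?_, h3, h4, h6, h5⟩
  refine { h2 with S_near := h2.S_near.trans ?_ }
  have : (0 : ℝ) ≤ A₀.card := by positivity
  rw [div_mul_eq_mul_div, div_le_iff₀ (by linarith)]
  nlinarith

end Pool.Agent.Lib.MP_bb8441_an
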