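import Pool.Agent.Lib.MP_bb8441_an.JCorrectOne

/-! Correction of the pending children. -/

set_option autoImplicit false

namespace Pool.Agent.Lib.MP_bb8441_an

variable {X : Type*} [NormedAddCommGroup X] [NormedSpace ℂ X]

/-- Correction of the pending children in a subset `F` of the upper half plane, and of their
conjugates. -/
theorem correct_subset_J [CompleteSpace X] (J : X ≃ₗᵢ⋆[ℂ] X) (hJ : ∀ x, J (J x) = x)
    (T : X →L[ℂ] X) (hT : ∀ x, T (J x) = J (T x)) (Λ R : Set ℂ)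
    (H1 : ∀ c : ℂ, ‖c‖ = 1 → DenseRange fun x => T x - c • x)
    (hΛ : ∀ c ∈ Λ, ‖c‖ = 1 ∧ (starRingEnd ℂ) c ∈ Λ ∧ (starRingEnd ℂ) c ≠ c)
    (hR : ∀ c ∈ R, ‖c‖ = 1 ∧ c ∈ spectrum ℂ T)
    (H2 : Dense (Submodule.span ℂ {x : X | ∃ c ∈ Λ, T x = c • x} : Set X))
    (s : State X) (hs : State.InvJ J T Λ R s) (ρ : ℝ) (hρ : 0 < ρ)
    (hρP : ∀ c ∈ s.P, ρ * (‖T‖ + 1) ≤ ‖c - (starRingEnd ℂ) c‖) (η δ : ℝ) (hδ : 0 < δ)
    (hE : State.Err s η) (η' : ℝ) (hη' : 0 < η') (F : Finset ℂ) :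
    (∀ c ∈ F, c ∈ s.P ∧ 0 < c.im) → ∃ s' : State X, State.InvJ J T Λ R s' ∧ s.A ⊆ s'.A ∧
      s'.B = s.B ∧ s'.P = s.P ∧
      (∀ b ∈ s.A ∪ s.B, s'.u b = s.u b) ∧
      (∀ b ∈ s.P, b ∉ F → (starRingEnd ℂ) b ∉ F →
        s'.u b = s.u b ∧ s'.S (s'.u b) = s.S (s.u b)) ∧
      ‖s'.S - s.S‖ ≤ F.card * δ ∧
      (∀ b ∈ F, ‖s'.u b - s.u b‖ ≤ 48 / ρ * η / δ ∧ ‖s'.S (s'.u b) - b • s'.u b‖ < η') := by
  classical
  induction F using Finset.induction_on with
  | empty =>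
    intro _
    refine ⟨s, hs, Finset.Subset.refl _, rfl, rfl, fun b _ => rfl, fun b _ _ _ => ⟨rfl, rfl⟩,
      ?_, ?_⟩
    · simp
    · intro b hb
      simp at hb
  | insert c F' hcF' ih =>
    intro hF
    obtain ⟨hcP, hcim⟩ := hF c (Finset.mem_insert_self c F')
    have hF' : ∀ b ∈ F', b ∈ s.P ∧ 0 < b.im := fun b hb => hF b (Finset.mem_insert_of_mem hb)
    obtain ⟨s1, hs1, hA1, hB1, hP1, hu1, hk1, hS1, hn1⟩ := ih hF'
    have hc1 : c ∈ s1.P := by rw [hP1]; exact hcP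
    have hstF : ∀ b : ℂ, 0 < b.im → (starRingEnd ℂ) b ∉ insert c F' := by
      intro b hb h
      have := (hF _ h).2
      rw [Complex.conj_im] at this
      linarith
    have hcold := hk1 c hcP hcF' (fun h => hstF c hcim (Finset.mem_insert_of_mem h))
    have herr : ‖s1.S (s1.u c) - c • s1.u c‖ < η := by
      rw [hcold.2, hcold.1]
      exact hE c hcP
    have hη0 : 0 < η := lt_of_le_of_lt (norm_nonneg _) herr
    obtain ⟨s2, hs2, hA2, hB2, hP2, hu2, hk2, hS2, hn2, he2⟩ :=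
      correct_one_J J hJ T hT Λ R H1 hΛ hR H2 s1 hs1 c hc1 η herr δ hδ η' hη'
    have hcPc : (starRingEnd ℂ) c ∈ s.P := hs.P_J c hcP
    have hAc : ∀ d ∈ s.P, ∀ b ∈ s.A ∪ s.B, b ≠ d := by
      intro d hd b hb hbc
      subst hbc
      rcases Finset.mem_union.1 hb with h | h
      · exact (Finset.disjoint_left.1 hs.inv.AP h) hd
      · exact (Finset.disjoint_left.1 hs.inv.BP h) hd
    have hmem : ∀ b ∈ s.A ∪ s.B, b ∈ s1.A ∪ s1.B ∪ s1.P := by
      intro b hb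
      rcases Finset.mem_union.1 hb with h | h
      · exact Finset.mem_union_left _ (Finset.mem_union_left _ (hA1 h))
      · exact Finset.mem_union_left _ (Finset.mem_union_right _ (by rw [hB1]; exact h))
    have hmemP : ∀ b ∈ s.P, b ∈ s1.A ∪ s1.B ∪ s1.P := by
      intro b hb
      exact Finset.mem_union_right _ (by rw [hP1]; exact hb)
    refine ⟨s2, hs2, hA1.trans hA2, hB2.trans hB1, hP2.trans hP1, ?_, ?_, ?_, ?_⟩
    · intro b hb
      rw [hu2 b (hmem b hb) (hAc c hcP b hb) (hAc _ hcPc b hb), hu1 b hb]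
    · intro b hb hbF hbFc
      have hbc : b ≠ c := fun h => hbF (h ▸ Finset.mem_insert_self c F')
      have hbc' : b ≠ (starRingEnd ℂ) c := by
        rintro rfl
        rw [Complex.conj_conj] at hbFc
        exact hbFc (Finset.mem_insert_self c F')
      have hbF' : b ∉ F' := fun h => hbF (Finset.mem_insert_of_mem h)
      have hbFc' : (starRingEnd ℂ) b ∉ F' := fun h => hbFc (Finset.mem_insert_of_mem h)
      have h1 := hk1 b hb hbF' hbFc'
      refine ⟨?_, ?_⟩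
      · rw [hu2 b (hmemP b hb) hbc hbc', h1.1]
      · rw [hk2 b (hmemP b hb) hbc hbc', h1.2]
    · rw [Finset.card_insert_of_notMem hcF']
      have h3 : s2.S - s.S = (s2.S - s1.S) + (s1.S - s.S) := by abel
      rw [h3]
      calc ‖(s2.S - s1.S) + (s1.S - s.S)‖ ≤ ‖s2.S - s1.S‖ + ‖s1.S - s.S‖ := norm_add_le _ _
        _ ≤ δ + F'.card * δ := add_le_add hS2 hS1
        _ = ((F'.card + 1 : ℕ) : ℝ) * δ := by push_cast; ring
    · intro b hb
      by_cases hbc : b = c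
      · subst hbc
        refine ⟨?_, he2⟩
        rw [← hcold.1]
        refine hn2.trans ?_
        have hd0 : 0 < ρ * (‖T‖ + 1) := by positivity
        have hd1 := hρP b hcP
        apply div_le_div_of_nonneg_right _ hδ.le
        apply mul_le_mul_of_nonneg_right _ hη0.le
        rw [div_le_div_iff₀ (lt_of_lt_of_le hd0 hd1) hρ]
        nlinarith
      · have hbF' : b ∈ F' := by
          rcases Finset.mem_insert.1 hb with h | h
          · exact absurd h hbc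
          · exact h
        have hbm := hmemP b (hF' b hbF').1
        have hbc' : b ≠ (starRingEnd ℂ) c := by
          rintro rfl
          have := (hF' _ hbF').2
          rw [Complex.conj_im] at this
          linarith
        rw [hk2 b hbm hbc hbc', hu2 b hbm hbc hbc']
        exact hn1 b hbF'

/-- Correction of all pending children (process the `c ∈ P` with `0 < im c`, or all `c ∈ P`). -/
theorem correct_all_J [CompleteSpace X] (J : X ≃ₗᵢ⋆[ℂ] X) (hJ : ∀ x, J (J x) = x)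
    (T : X →L[ℂ] X) (hT : ∀ x, T (J x) = J (T x)) (Λ R : Set ℂ)
    (H1 : ∀ c : ℂ, ‖c‖ = 1 → DenseRange fun x => T x - c • x)
    (hΛ : ∀ c ∈ Λ, ‖c‖ = 1 ∧ (starRingEnd ℂ) c ∈ Λ ∧ (starRingEnd ℂ) c ≠ c)
    (hR : ∀ c ∈ R, ‖c‖ = 1 ∧ c ∈ spectrum ℂ T)
    (H2 : Dense (Submodule.span ℂ {x : X | ∃ c ∈ Λ, T x = c • x} : Set X))
    (s : State X) (hs : State.InvJ J T Λ R s) (ρ : ℝ) (hρ : 0 < ρ)
    (hρP : ∀ c ∈ s.P, ρ * (‖T‖ + 1) ≤ ‖c - (starRingEnd ℂ) c‖) (ε : ℝ) (hε : 0 < ε)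
    (hE : State.Err s (ρ * ε ^ 2 / (96 * ((s.P.card : ℝ) + 1)))) (η' : ℝ) (hη' : 0 < η') :
    ∃ s' : State X, State.InvJ J T Λ R s' ∧ State.Ext s s' ε ∧ s'.B = s.B ∧ s'.P = s.P ∧
      State.Err s' η' := by
  classical
  have hcard : (0 : ℝ) < (s.P.card : ℝ) + 1 := by positivity
  have hδ : 0 < ε / ((s.P.card : ℝ) + 1) := div_pos hε hcard
  obtain ⟨s', hs', hA, hB, hP, hu, _, hS, hn⟩ :=
    correct_subset_J J hJ T hT Λ R H1 hΛ hR H2 s hs ρ hρ hρP _ _ hδ hE η' hη'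
      (s.P.filter fun c => 0 < c.im) (fun c hc => Finset.mem_filter.1 hc)
  have hcase : ∀ c ∈ s.P, c ∈ (s.P.filter fun c => 0 < c.im) ∨
      (starRingEnd ℂ) c ∈ (s.P.filter fun c => 0 < c.im) := by
    intro c hc
    have hne := hs.nr c (by simp [hc])
    rcases lt_trichotomy c.im 0 with h | h | h
    · refine Or.inr (Finset.mem_filter.2 ⟨hs.P_J c hc, ?_⟩)
      rw [Complex.conj_im]
      linarith
    · exact absurd (Complex.conj_eq_iff_im.2 h) hne
    · exact Or.inl (Finset.mem_filter.2 ⟨hc, h⟩)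
  have hval : 48 / ρ * (ρ * ε ^ 2 / (96 * ((s.P.card : ℝ) + 1))) / (ε / ((s.P.card : ℝ) + 1)) =
      ε / 2 := by
    field_simp
    ring
  have hmem : ∀ c ∈ s.P, c ∈ s.A ∪ s.B ∪ s.P := fun c hc => by simp [hc]
  have hmem' : ∀ c ∈ s.P, c ∈ s'.A ∪ s'.B ∪ s'.P := fun c hc => by
    rw [hP]; simp [hc]
  have hcc : ∀ c : ℂ, c = (starRingEnd ℂ) ((starRingEnd ℂ) c) := fun c => by
    rw [Complex.conj_conj]
  have hall : ∀ c ∈ s.P, ‖s'.u c - s.u c‖ ≤ ε / 2 ∧ ‖s'.S (s'.u c) - c • s'.u c‖ < η' := by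
    intro c hc
    rcases hcase c hc with h | h
    · exact ⟨(hn c h).1.trans hval.le, (hn c h).2⟩
    · have hc' : (starRingEnd ℂ) c ∈ s.P := hs.P_J c hc
      have h1 : s.u c = J (s.u ((starRingEnd ℂ) c)) := by
        conv_lhs => rw [hcc c]
        exact hs.u_J _ (hmem _ hc')
      have h2 : s'.u c = J (s'.u ((starRingEnd ℂ) c)) := by
        conv_lhs => rw [hcc c]
        exact hs'.u_J _ (hmem' _ hc')
      obtain ⟨h3, h4⟩ := hn _ h
      refine ⟨?_, ?_⟩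
      · rw [h1, h2, ← map_sub, LinearIsometryEquiv.norm_map]
        exact h3.trans hval.le
      · have h5 : s'.S (s'.u c) - c • s'.u c = J (s'.S (s'.u ((starRingEnd ℂ) c)) -
            (starRingEnd ℂ) c • s'.u ((starRingEnd ℂ) c)) := by
          rw [h2, hs'.S_J, map_sub, map_smulₛₗ, Complex.conj_conj]
        rw [h5, LinearIsometryEquiv.norm_map]
        exact h4
  refine ⟨s', hs', ?_, hB, hP, ?_⟩
  · refine ⟨hA, ?_, ?_, hu, ?_, ?_⟩
    · rw [hB]
    · rw [hP]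
    · intro c hc
      exact (hall c hc).1.trans (by linarith)
    · refine hS.trans ?_
      rw [mul_div_assoc', div_le_iff₀ hcard]
      have h6 : ((s.P.filter fun c => 0 < c.im).card : ℝ) ≤ (s.P.card : ℝ) := by
        exact_mod_cast Finset.card_filter_le _ _
      nlinarith
  · intro c hc
    rw [hP] at hc
    exact (hall c hc).2

end Pool.Agent.Lib.MP_bb8441_an
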