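import Pool.Agent.Lib.MP_bb8441_an.Defs

/-!
Stages which are symmetric under a conjugation `J` of a complex space (a conjugate linear isometric
involution). `J` is kept as a bundled map; that it is an involution is a hypothesis
`hJ : ∀ x, J (J x) = x`.
-/

set_option autoImplicit false

namespace Pool.Agent.Lib.MP_bb8441_an

variable {X : Type*} [NormedAddCommGroup X] [NormedSpace ℂ X]

/-- The conjugate `x ↦ J (K (J x))` of an operator. -/
noncomputable def conjOp (J : X ≃ₗᵢ⋆[ℂ] X) (K : X →L[ℂ] X) : X →L[ℂ] X :=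
  LinearMap.mkContinuous
    { toFun := fun x => J (K (J x))
      map_add' := fun x y => by simp only [map_add]
      map_smul' := fun c x => by
        rw [map_smulₛₗ, map_smul, map_smulₛₗ, Complex.conj_conj, RingHom.id_apply] }
    ‖K‖ (fun x => by
      change ‖J (K (J x))‖ ≤ _
      rw [LinearIsometryEquiv.norm_map]
      refine (K.le_opNorm _).trans ?_
      rw [LinearIsometryEquiv.norm_map])

theorem conjOp_apply (J : X ≃ₗᵢ⋆[ℂ] X) (K : X →L[ℂ] X) (x : X) :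
    conjOp J K x = J (K (J x)) := rfl

theorem norm_conjOp_le (J : X ≃ₗᵢ⋆[ℂ] X) (K : X →L[ℂ] X) : ‖conjOp J K‖ ≤ ‖K‖ :=
  LinearMap.mkContinuous_norm_le _ (norm_nonneg _) _

/-- The invariants of a symmetric stage. -/
structure State.InvJ (J : X ≃ₗᵢ⋆[ℂ] X) (T : X →L[ℂ] X) (Λ R : Set ℂ) (s : State X) : Prop where
  inv : State.Inv T Λ R s
  S_J : ∀ x, s.S (J x) = J (s.S x)
  A_J : ∀ c ∈ s.A, (starRingEnd ℂ) c ∈ s.A
  B_J : ∀ c ∈ s.B, (starRingEnd ℂ) c ∈ s.B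
  P_J : ∀ c ∈ s.P, (starRingEnd ℂ) c ∈ s.P
  u_J : ∀ c ∈ s.A ∪ s.B ∪ s.P, s.u ((starRingEnd ℂ) c) = J (s.u c)
  nr : ∀ c ∈ s.A ∪ s.B ∪ s.P, (starRingEnd ℂ) c ≠ c

end Pool.Agent.Lib.MP_bb8441_an
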