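import Pool.Agent.Lib.MP_bb8441_an.Defs

/-! The limit of the stages. -/

set_option autoImplicit false

namespace Pool.Agent.Lib.MP_bb8441_an

open Filter Topology

variable {X : Type*} [NormedAddCommGroup X] [NormedSpace ℂ X]

theorem limit_tendsto [CompleteSpace X] (T : X →L[ℂ] X) (Λ R : Set ℂ)
    (x : ℕ → X) (hx : ∀ y : X, ∀ δ > 0, ∀ n : ℕ, ∃ k, n ≤ k ∧ ‖x k - y‖ < δ) (ε₀ : ℝ)
    (hε₀ : 0 < ε₀) (s : ℕ → State X) (h0 : (s 0).S = T) (hI : ∀ k, State.Inv T Λ R (s k))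
    (hExt : ∀ k, State.Ext (s k) (s (k + 1)) (ε₀ / 2 ^ (k + 2)))
    (hden : ∀ k, ∃ y ∈ Submodule.span ℂ ((s (k + 1)).u '' ((s (k + 1)).A : Set ℂ)),
      ‖x k - y‖ < ε₀ / 2 ^ (k + 2))
    (hch : ∀ k, ∀ a ∈ (s k).A, ∃ c ∈ (s (k + 1)).B ∪ (s (k + 1)).P, c ≠ a ∧
      ‖(s (k + 1)).u c - (s (k + 1)).u a‖ < ε₀ / 2 ^ (k + 2))
    (hErr : ∀ k, State.Err (s k) (ε₀ / 2 ^ (k + 2))) :
    ∃ (S : X →L[ℂ] X) (u : ℂ → X) (A C : Set ℂ), Tendsto (fun k => (s k).S) atTop (𝓝 S) ∧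
      ‖S - T‖ < ε₀ ∧ A ⊆ Λ ∧ C ⊆ R ∧
      (∀ c ∈ A ∪ C, S (u c) = c • u c) ∧ Dense (Submodule.span ℂ (u '' A) : Set X) ∧
      ∀ a ∈ A, ∀ δ > 0, ∃ c ∈ C, c ≠ a ∧ ‖u c - u a‖ < δ := by
  -- the operator
  have hScau : ∀ n, dist ((s n).S) ((s (n + 1)).S) ≤ ε₀ / 2 / 2 / 2 ^ n := by
    intro n
    rw [dist_comm, dist_eq_norm]
    refine (hExt n).S_near.trans (le_of_eq ?_)
    rw [pow_add]; field_simp
  obtain ⟨S, hS⟩ := cauchySeq_tendsto_of_complete (cauchySeq_of_le_geometric_two hScau)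
  have hST : ‖S - T‖ < ε₀ := by
    have := dist_le_of_le_geometric_two_of_tendsto₀ hScau hS
    rw [dist_comm, dist_eq_norm, h0] at this
    linarith
  -- monotonicity of the index sets
  have hA : ∀ k j, k ≤ j → (s k).A ⊆ (s j).A := by
    intro k j hkj
    induction j, hkj using Nat.le_induction with
    | base => exact subset_rfl
    | succ j _ ih => exact ih.trans (hExt j).A_sub
  have hB : ∀ k j, k ≤ j → (s k).B ⊆ (s j).B := by
    intro k j hkj
    induction j, hkj using Nat.le_induction with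
    | base => exact subset_rfl
    | succ j _ ih => exact ih.trans (hExt j).B_sub
  have hP : ∀ k j, k ≤ j → (s k).P ⊆ (s j).P := by
    intro k j hkj
    induction j, hkj using Nat.le_induction with
    | base => exact subset_rfl
    | succ j _ ih => exact ih.trans (hExt j).P_sub
  -- one step for the vectors
  have hstep : ∀ j, ∀ c, (c ∈ (s j).A ∨ c ∈ (s j).B ∨ c ∈ (s j).P) →
      ‖(s (j + 1)).u c - (s j).u c‖ ≤ ε₀ / 2 ^ (j + 2) := by
    intro j c hc
    have hpos : (0 : ℝ) ≤ ε₀ / 2 ^ (j + 2) := by positivity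
    rcases hc with h | h | h
    · rw [(hExt j).u_eq c (Finset.mem_union_left _ h), sub_self, norm_zero]; exact hpos
    · rw [(hExt j).u_eq c (Finset.mem_union_right _ h), sub_self, norm_zero]; exact hpos
    · exact (hExt j).u_near c h
  have hmem : ∀ k j, k ≤ j → ∀ c, (c ∈ (s k).A ∨ c ∈ (s k).B ∨ c ∈ (s k).P) →
      (c ∈ (s j).A ∨ c ∈ (s j).B ∨ c ∈ (s j).P) := by
    intro k j hkj c hc
    rcases hc with h | h | h
    · exact Or.inl (hA k j hkj h)
    · exact Or.inr (Or.inl (hB k j hkj h))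
    · exact Or.inr (Or.inr (hP k j hkj h))
  have hlim : ∀ c : ℂ, ∃ y : X, ∀ k, (c ∈ (s k).A ∨ c ∈ (s k).B ∨ c ∈ (s k).P) →
      Tendsto (fun j => (s j).u c) atTop (𝓝 y) ∧
      ‖(s k).u c - y‖ ≤ ε₀ / 2 / 2 ^ k := by
    intro c
    by_cases hex : ∃ k, (c ∈ (s k).A ∨ c ∈ (s k).B ∨ c ∈ (s k).P)
    · obtain ⟨k₀, hk₀⟩ := hex
      have hcau : ∀ k, (c ∈ (s k).A ∨ c ∈ (s k).B ∨ c ∈ (s k).P) → ∀ n,
          dist ((s (n + k)).u c) ((s (n + 1 + k)).u c) ≤ (ε₀ / 2 / 2 ^ k) / 2 / 2 ^ n := by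
        intro k hk n
        have h1 := hstep (n + k) c (hmem k (n + k) (Nat.le_add_left _ _) c hk)
        rw [dist_comm, dist_eq_norm]
        have h2 : n + 1 + k = n + k + 1 := by ring
        rw [h2]
        refine h1.trans (le_of_eq ?_)
        rw [pow_add, pow_add]; field_simp
      obtain ⟨y, hy⟩ := cauchySeq_tendsto_of_complete
        (cauchySeq_of_le_geometric_two (f := fun n => (s (n + k₀)).u c) (hcau k₀ hk₀))
      have hy' : Tendsto (fun j => (s j).u c) atTop (𝓝 y) :=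
        (tendsto_add_atTop_iff_nat (f := fun j => (s j).u c) k₀).1 hy
      refine ⟨y, fun k hk => ⟨hy', ?_⟩⟩
      have h3 : Tendsto (fun n => (s (n + k)).u c) atTop (𝓝 y) :=
        (tendsto_add_atTop_iff_nat (f := fun j => (s j).u c) k).2 hy'
      have := dist_le_of_le_geometric_two_of_tendsto₀ (f := fun n => (s (n + k)).u c) (hcau k hk) h3
      rw [dist_eq_norm] at this
      simpa using this
    · refine ⟨0, fun k hk => absurd ⟨k, hk⟩ hex⟩
  choose u hu using hlim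
  -- the vectors of the nodes are eventually constant
  have huA : ∀ k, ∀ a ∈ (s k).A, u a = (s k).u a := by
    intro k a ha
    have h1 := (hu a k (Or.inl ha)).1
    have h2 : ∀ j, k ≤ j → (s j).u a = (s k).u a := by
      intro j hkj
      induction j, hkj using Nat.le_induction with
      | base => rfl
      | succ j hj ih =>
        rw [(hExt j).u_eq a (Finset.mem_union_left _ (hA k j hj ha)), ih]
    have h3 : Tendsto (fun j => (s j).u a) atTop (𝓝 ((s k).u a)) := by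
      apply tendsto_const_nhds.congr'
      filter_upwards [eventually_ge_atTop k] with j hj
      exact (h2 j hj).symm
    exact tendsto_nhds_unique h1 h3
  have hε0 : Tendsto (fun k : ℕ => ε₀ / 2 ^ (k + 2)) atTop (𝓝 0) := by
    have h1 : Tendsto (fun k : ℕ => ε₀ * (1 / 2 : ℝ) ^ (k + 2)) atTop (𝓝 (ε₀ * 0)) := by
      apply Tendsto.const_mul
      exact (tendsto_add_atTop_iff_nat (f := fun n => (1 / 2 : ℝ) ^ n) 2).2
        (tendsto_pow_atTop_nhds_zero_of_lt_one (by norm_num) (by norm_num))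
    rw [mul_zero] at h1
    refine h1.congr fun k => ?_
    rw [one_div, inv_pow]; rfl
  have heig : ∀ k c, (c ∈ (s k).A ∨ c ∈ (s k).B ∨ c ∈ (s k).P) → S (u c) = c • u c := by
    intro k c hk
    have h1 := (hu c k hk).1
    have h2 : Tendsto (fun j => (s j).S ((s j).u c)) atTop (𝓝 (S (u c))) :=
      ((isBoundedBilinearMap_apply (𝕜 := ℂ) (E := X) (F := X)).continuous.tendsto
        (S, u c)).comp (hS.prodMk_nhds h1)
    have h3 : Tendsto (fun j => c • (s j).u c) atTop (𝓝 (c • u c)) := h1.const_smul c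
    have h4 : Tendsto (fun j => (s j).S ((s j).u c) - c • (s j).u c) atTop (𝓝 0) := by
      rw [tendsto_zero_iff_norm_tendsto_zero]
      refine squeeze_zero' (Eventually.of_forall fun _ => norm_nonneg _) ?_ hε0
      filter_upwards [eventually_ge_atTop k] with j hj
      have hpos : (0 : ℝ) ≤ ε₀ / 2 ^ (j + 2) := by positivity
      rcases hmem k j hj c hk with h | h | h
      · rw [(hI j).eig c (Finset.mem_union_left _ h), sub_self, norm_zero]; exact hpos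
      · rw [(hI j).eig c (Finset.mem_union_right _ h), sub_self, norm_zero]; exact hpos
      · exact (hErr j c h).le
    have h5 := tendsto_nhds_unique (h2.sub h3) h4
    exact sub_eq_zero.1 h5
  refine ⟨S, u, ⋃ k, ((s k).A : Set ℂ), ⋃ k, ((s k).B ∪ (s k).P : Set ℂ), hS, hST,
    ?_, ?_, ?_, ?_, ?_⟩
  · intro c hc
    obtain ⟨k, hk⟩ := Set.mem_iUnion.1 hc
    exact (hI k).A_mem c hk
  · intro c hc
    obtain ⟨k, hk⟩ := Set.mem_iUnion.1 hc
    rcases hk with hk | hk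
    · exact (hI k).B_mem c hk
    · exact (hI k).P_mem c hk
  · intro c hc
    rcases hc with hc | hc
    · obtain ⟨k, hk⟩ := Set.mem_iUnion.1 hc
      exact heig k c (Or.inl hk)
    · obtain ⟨k, hk⟩ := Set.mem_iUnion.1 hc
      rcases hk with hk | hk
      · exact heig k c (Or.inr (Or.inl hk))
      · exact heig k c (Or.inr (Or.inr hk))
  · rw [Metric.dense_iff]
    intro y δ hδ
    obtain ⟨n, hn⟩ := (Metric.tendsto_atTop.1 hε0) (δ / 2) (half_pos hδ)
    obtain ⟨k, hnk, hk⟩ := hx y (δ / 2) (half_pos hδ) n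
    obtain ⟨z, hz, hzk⟩ := hden k
    refine ⟨z, ?_, ?_⟩
    · rw [Metric.mem_ball, dist_eq_norm]
      have h1 := hn k hnk
      rw [dist_zero_right, Real.norm_of_nonneg (by positivity)] at h1
      have h2 : z - y = (x k - y) - (x k - z) := by abel
      rw [h2]
      refine (norm_sub_le _ _).trans_lt ?_
      linarith
    · have h3 : (s (k + 1)).u '' ((s (k + 1)).A : Set ℂ) ⊆ u '' (⋃ k, ((s k).A : Set ℂ)) := by
        rintro _ ⟨a, ha, rfl⟩
        exact ⟨a, Set.mem_iUnion.2 ⟨k + 1, ha⟩, huA (k + 1) a ha⟩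
      exact Submodule.span_mono h3 hz
  · intro a ha δ hδ
    obtain ⟨k₀, hk₀⟩ := Set.mem_iUnion.1 ha
    obtain ⟨n, hn⟩ := (Metric.tendsto_atTop.1 hε0) (δ / 2) (half_pos hδ)
    set k := max n k₀ with hk
    have hak : a ∈ (s k).A := hA k₀ k (le_max_right _ _) hk₀
    obtain ⟨c, hc, hca, hcu⟩ := hch k a hak
    have hc' : c ∈ (s (k + 1)).B ∨ c ∈ (s (k + 1)).P := Finset.mem_union.1 hc
    refine ⟨c, ?_, hca, ?_⟩
    · refine Set.mem_iUnion.2 ⟨k + 1, ?_⟩
      rcases hc' with h | h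
      · exact Or.inl h
      · exact Or.inr h
    · have h1 := hn k (le_max_left _ _)
      rw [dist_zero_right, Real.norm_of_nonneg (by positivity)] at h1
      have h2 : u a = (s (k + 1)).u a := huA (k + 1) a ((hExt k).A_sub hak)
      have h3 := (hu c (k + 1) (Or.inr hc')).2
      have h4 : ε₀ / 2 / 2 ^ (k + 1) = ε₀ / 2 ^ (k + 2) := by
        rw [pow_add, pow_add]; field_simp
      rw [h4] at h3
      have h5 : u c - u a = ((s (k + 1)).u c - (s (k + 1)).u a) - ((s (k + 1)).u c - u c) := by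
        rw [h2]; abel
      rw [h5]
      refine (norm_sub_le _ _).trans_lt ?_
      linarith

theorem limit [CompleteSpace X] (T : X →L[ℂ] X) (Λ R : Set ℂ)
    (x : ℕ → X) (hx : ∀ y : X, ∀ δ > 0, ∀ n : ℕ, ∃ k, n ≤ k ∧ ‖x k - y‖ < δ) (ε₀ : ℝ)
    (hε₀ : 0 < ε₀) (s : ℕ → State X) (h0 : (s 0).S = T) (hI : ∀ k, State.Inv T Λ R (s k))
    (hExt : ∀ k, State.Ext (s k) (s (k + 1)) (ε₀ / 2 ^ (k + 2)))
    (hden : ∀ k, ∃ y ∈ Submodule.span ℂ ((s (k + 1)).u '' ((s (k + 1)).A : Set ℂ)),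
      ‖x k - y‖ < ε₀ / 2 ^ (k + 2))
    (hch : ∀ k, ∀ a ∈ (s k).A, ∃ c ∈ (s (k + 1)).B ∪ (s (k + 1)).P, c ≠ a ∧
      ‖(s (k + 1)).u c - (s (k + 1)).u a‖ < ε₀ / 2 ^ (k + 2))
    (hErr : ∀ k, State.Err (s k) (ε₀ / 2 ^ (k + 2))) :
    ∃ (S : X →L[ℂ] X) (u : ℂ → X) (A C : Set ℂ), ‖S - T‖ < ε₀ ∧ A ⊆ Λ ∧ C ⊆ R ∧
      (∀ c ∈ A ∪ C, S (u c) = c • u c) ∧ Dense (Submodule.span ℂ (u '' A) : Set X) ∧
      ∀ a ∈ A, ∀ δ > 0, ∃ c ∈ C, c ≠ a ∧ ‖u c - u a‖ < δ := by
  obtain ⟨S, u, A, C, -, h⟩ := limit_tendsto T Λ R x hx ε₀ hε₀ s h0 hI hExt hden hch hErr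
  exact ⟨S, u, A, C, h⟩

end Pool.Agent.Lib.MP_bb8441_an
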