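import Pool.Agent.Lib.MP_bb8441_an.JStep
import Pool.Agent.Lib.MP_bb8441_an.LimitProof

/-! The symmetric perturbation theorem. -/

set_option autoImplicit false

namespace Pool.Agent.Lib.MP_bb8441_an

open Filter Topology

variable {X : Type*} [NormedAddCommGroup X] [NormedSpace ℂ X]

/-- The sequence of the symmetric stages. -/
theorem stages_J [CompleteSpace X] (J : X ≃ₗᵢ⋆[ℂ] X) (hJ : ∀ x, J (J x) = x)
    (T : X →L[ℂ] X) (hT : ∀ x, T (J x) = J (T x)) (Λ R : Set ℂ)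
    (H1 : ∀ c : ℂ, ‖c‖ = 1 → DenseRange fun x => T x - c • x)
    (hΛ : ∀ c ∈ Λ, ‖c‖ = 1 ∧ (starRingEnd ℂ) c ∈ Λ ∧ (starRingEnd ℂ) c ≠ c)
    (hR : ∀ c ∈ R, ‖c‖ = 1 ∧ c ∈ spectrum ℂ T) (hRJ : ∀ c ∈ R, (starRingEnd ℂ) c ∈ R)
    (H2 : Dense (Submodule.span ℂ {x : X | ∃ c ∈ Λ, T x = c • x} : Set X))
    (H3 : ∀ a ∈ Λ, ∀ δ > 0, ∃ c ∈ R, c ≠ a ∧ ‖c - a‖ < δ)
    (x : ℕ → X) (ε : ℕ → ℝ) (hε : ∀ k, 0 < ε k) :
    ∃ s : ℕ → State X, (s 0).S = T ∧ (∀ k, State.InvJ J T Λ R (s k)) ∧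
      (∀ k, State.Ext (s k) (s (k + 1)) (2 * ε k)) ∧
      (∀ k, ∃ y ∈ Submodule.span ℂ ((s (k + 1)).u '' ((s (k + 1)).A : Set ℂ)), ‖x k - y‖ < ε k) ∧
      (∀ k, ∀ a ∈ (s k).A, ∃ c ∈ (s (k + 1)).B ∪ (s (k + 1)).P, c ≠ a ∧
        ‖(s (k + 1)).u c - (s (k + 1)).u a‖ < ε k) ∧
      ∀ k, State.Err (s k) ((ε k) ^ 2) := by
  have hstep : ∀ (k : ℕ) (q : State X × ℝ), (State.InvJ J T Λ R q.1 ∧ 0 < q.2 ∧ q.2 ≤ 1 ∧
      (∀ c ∈ q.1.P, q.2 * (‖T‖ + 1) ≤ ‖c - (starRingEnd ℂ) c‖) ∧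
      State.Err q.1 (q.2 * ε k ^ 2 / (96 * ((q.1.P.card : ℝ) + 1)))) →
      ∃ q' : State X × ℝ, (State.InvJ J T Λ R q'.1 ∧ 0 < q'.2 ∧ q'.2 ≤ 1 ∧
      (∀ c ∈ q'.1.P, q'.2 * (‖T‖ + 1) ≤ ‖c - (starRingEnd ℂ) c‖) ∧
        State.Err q'.1 (q'.2 * ε (k + 1) ^ 2 / (96 * ((q'.1.P.card : ℝ) + 1)))) ∧
        State.Ext q.1 q'.1 (2 * ε k) ∧
        (∃ y ∈ Submodule.span ℂ (q'.1.u '' (q'.1.A : Set ℂ)), ‖x k - y‖ < ε k) ∧
        (∀ a ∈ q.1.A, ∃ c ∈ q'.1.B ∪ q'.1.P, c ≠ a ∧ ‖q'.1.u c - q'.1.u a‖ < ε k) := by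
    rintro k ⟨s, ρ⟩ ⟨hs, hρ, hρ1, hρP, hE⟩
    obtain ⟨s', ρ', h1, h2, h3, h4, h5, h6, h7, h8⟩ := step_J J hJ T hT Λ R H1 hΛ hR hRJ H2 H3
      s hs ρ hρ hρP (ε k) (hε k) hE (x k) (ε (k + 1)) (hε (k + 1))
    exact ⟨(s', ρ'), ⟨h1, h5, h6, h7, h8⟩, h2, h3, h4⟩
  choose! f hf using hstep
  let s0 : State X := { S := T, u := fun _ => 0, A := ∅, B := ∅, P := ∅ }
  let s : ℕ → State X × ℝ := fun n => Nat.rec (s0, (1 : ℝ)) (fun k t => f k t) n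
  have hs : ∀ k, State.InvJ J T Λ R (s k).1 ∧ 0 < (s k).2 ∧ (s k).2 ≤ 1 ∧
      (∀ c ∈ (s k).1.P, (s k).2 * (‖T‖ + 1) ≤ ‖c - (starRingEnd ℂ) c‖) ∧
      State.Err (s k).1 ((s k).2 * ε k ^ 2 / (96 * (((s k).1.P.card : ℝ) + 1))) := by
    intro k
    induction k with
    | zero =>
      refine ⟨?_, one_pos, le_refl _, ?_, ?_⟩
      · refine ⟨?_, hT, ?_, ?_, ?_, ?_, ?_⟩
        · constructor <;> simp [s, s0]
        all_goals (intro c hc; simp [s, s0] at hc)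
      · intro c hc
        simp [s, s0] at hc
      · intro c hc
        simp [s, s0] at hc
    | succ k ih => exact (hf k (s k) ih).1
  refine ⟨fun k => (s k).1, rfl, fun k => (hs k).1, fun k => (hf k (s k) (hs k)).2.1,
    fun k => (hf k (s k) (hs k)).2.2.1, fun k => (hf k (s k) (hs k)).2.2.2, ?_⟩
  intro k c hc
  refine lt_of_lt_of_le ((hs k).2.2.2.2 c hc) ?_
  have h0 := (hs k).2.1
  have h1 := (hs k).2.2.1
  have h2 : (0 : ℝ) ≤ ((s k).1.P.card : ℝ) := by positivity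
  have h3 : (s k).2 * ε k ^ 2 ≤ ε k ^ 2 := by
    have := sq_nonneg (ε k)
    nlinarith
  refine le_trans (div_le_self (by positivity) ?_) h3
  linarith

/-- Hint: as `construct` (file Limit.lean), with `step_J`, `limit_tendsto`; `S` commutes with `J`
as a limit. -/
theorem construct_J [CompleteSpace X] [TopologicalSpace.SeparableSpace X]
    (J : X ≃ₗᵢ⋆[ℂ] X) (hJ : ∀ x, J (J x) = x)
    (T : X →L[ℂ] X) (hT : ∀ x, T (J x) = J (T x)) (Λ R : Set ℂ)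
    (H1 : ∀ c : ℂ, ‖c‖ = 1 → DenseRange fun x => T x - c • x)
    (hΛ : ∀ c ∈ Λ, ‖c‖ = 1 ∧ (starRingEnd ℂ) c ∈ Λ ∧ (starRingEnd ℂ) c ≠ c)
    (hR : ∀ c ∈ R, ‖c‖ = 1 ∧ c ∈ spectrum ℂ T) (hRJ : ∀ c ∈ R, (starRingEnd ℂ) c ∈ R)
    (H2 : Dense (Submodule.span ℂ {x : X | ∃ c ∈ Λ, T x = c • x} : Set X))
    (H3 : ∀ a ∈ Λ, ∀ δ > 0, ∃ c ∈ R, c ≠ a ∧ ‖c - a‖ < δ) (ε₀ : ℝ) (hε₀ : 0 < ε₀) :
    ∃ (S : X →L[ℂ] X) (u : ℂ → X) (A C : Set ℂ), (∀ x, S (J x) = J (S x)) ∧ ‖S - T‖ < ε₀ ∧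
      A ⊆ Λ ∧ C ⊆ R ∧ (∀ c ∈ A ∪ C, S (u c) = c • u c) ∧
      Dense (Submodule.span ℂ (u '' A) : Set X) ∧
      ∀ a ∈ A, ∀ δ > 0, ∃ c ∈ C, c ≠ a ∧ ‖u c - u a‖ < δ := by
  -- a sequence which comes back close to each point infinitely often
  let x : ℕ → X := fun k => TopologicalSpace.denseSeq X (Nat.unpair k).1
  have hx : ∀ y : X, ∀ δ > 0, ∀ n : ℕ, ∃ k, n ≤ k ∧ ‖x k - y‖ < δ := by
    intro y δ hδ n
    obtain ⟨z, hz, ⟨i, rfl⟩⟩ := Metric.dense_iff.1 (TopologicalSpace.denseRange_denseSeq X) y δ hδ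
    refine ⟨Nat.pair i n, Nat.right_le_pair i n, ?_⟩
    simp only [x, Nat.unpair_pair]
    rwa [Metric.mem_ball, dist_eq_norm] at hz
  set e : ℝ := min ε₀ 1 with he
  have he0 : 0 < e := lt_min hε₀ one_pos
  have he1 : e ≤ 1 := min_le_right _ _
  have heε : e ≤ ε₀ := min_le_left _ _
  obtain ⟨s, h0, hI, hExt, hden, hch, hErr⟩ := stages_J J hJ T hT Λ R H1 hΛ hR hRJ H2 H3 x
    (fun k => e / 2 ^ (k + 3)) (fun k => by positivity)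
  have h2 : ∀ k : ℕ, 2 * (e / 2 ^ (k + 3)) = e / 2 ^ (k + 2) := by
    intro k
    rw [pow_succ 2 (k + 2)]
    field_simp
  have hle : ∀ k : ℕ, e / 2 ^ (k + 3) ≤ e / 2 ^ (k + 2) := by
    intro k
    rw [← h2 k]
    have : 0 < e / 2 ^ (k + 3) := by positivity
    linarith
  have hsq : ∀ k : ℕ, (e / 2 ^ (k + 3)) ^ 2 ≤ e / 2 ^ (k + 2) := by
    intro k
    refine le_trans ?_ (hle k)
    have h1 : e / 2 ^ (k + 3) ≤ 1 := by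
      rw [div_le_one (by positivity)]
      exact he1.trans (one_le_pow₀ (by norm_num))
    have h3 : 0 < e / 2 ^ (k + 3) := by positivity
    nlinarith
  obtain ⟨S, u, A, C, k0, k1, k2, k3, k4, k5, k6⟩ := limit_tendsto T Λ R x hx e he0 s h0
    (fun k => (hI k).inv)
    (fun k => by rw [← h2 k]; exact hExt k)
    (fun k => by
      obtain ⟨y, hy, hxy⟩ := hden k
      exact ⟨y, hy, lt_of_lt_of_le hxy (hle k)⟩)
    (fun k a ha => by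
      obtain ⟨c, hc, hca, hn⟩ := hch k a ha
      exact ⟨c, hc, hca, lt_of_lt_of_le hn (hle k)⟩)
    (fun k c hc => lt_of_lt_of_le (hErr k c hc) (hsq k))
  refine ⟨S, u, A, C, ?_, lt_of_lt_of_le k1 heε, k2, k3, k4, k5, k6⟩
  intro y
  have hev : ∀ z : X, Tendsto (fun k => (s k).S z) atTop (𝓝 (S z)) := fun z =>
    ((ContinuousLinearMap.apply ℂ X z).continuous.tendsto S).comp k0
  have t1 := hev (J y)
  have t2 : Tendsto (fun k => J ((s k).S y)) atTop (𝓝 (J (S y))) :=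
    (J.continuous.tendsto _).comp (hev y)
  refine tendsto_nhds_unique t1 (t2.congr fun k => ?_)
  exact ((hI k).S_J y).symm

end Pool.Agent.Lib.MP_bb8441_an
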