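import Pool.Agent.Lib.MP_bb8441_an.Step
import Pool.Agent.Lib.MP_bb8441_an.LimitProof

set_option autoImplicit false

namespace Pool.Agent.Lib.MP_bb8441_an

variable {X : Type*} [NormedAddCommGroup X] [NormedSpace ℂ X]

/-- The sequence of the stages. -/
theorem stages [CompleteSpace X] (T : X →L[ℂ] X) (Λ R : Set ℂ)
    (H1 : ∀ c : ℂ, DenseRange fun x => T x - c • x)
    (hR : ∀ c ∈ R, c ∈ spectrum ℂ T)
    (H2 : Dense (Submodule.span ℂ {x : X | ∃ c ∈ Λ, T x = c • x} : Set X))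
    (H3 : ∀ a ∈ Λ, ∀ δ > 0, ∃ c ∈ R, c ≠ a ∧ ‖c - a‖ < δ)
    (x : ℕ → X) (ε : ℕ → ℝ) (hε : ∀ k, 0 < ε k) :
    ∃ s : ℕ → State X, (s 0).S = T ∧ (∀ k, State.Inv T Λ R (s k)) ∧
      (∀ k, State.Ext (s k) (s (k + 1)) (2 * ε k)) ∧
      (∀ k, ∃ y ∈ Submodule.span ℂ ((s (k + 1)).u '' ((s (k + 1)).A : Set ℂ)), ‖x k - y‖ < ε k) ∧
      (∀ k, ∀ a ∈ (s k).A, ∃ c ∈ (s (k + 1)).B ∪ (s (k + 1)).P, c ≠ a ∧
        ‖(s (k + 1)).u c - (s (k + 1)).u a‖ < ε k) ∧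
      ∀ k, State.Err (s k) ((ε k) ^ 2) := by
  have hstep : ∀ (k : ℕ) (s : State X), State.Inv T Λ R s ∧
      State.Err s (ε k ^ 2 / (6 * ((s.P.card : ℝ) + 1))) →
      ∃ s' : State X, (State.Inv T Λ R s' ∧
        State.Err s' (ε (k + 1) ^ 2 / (6 * ((s'.P.card : ℝ) + 1)))) ∧
        State.Ext s s' (2 * ε k) ∧
        (∃ y ∈ Submodule.span ℂ (s'.u '' (s'.A : Set ℂ)), ‖x k - y‖ < ε k) ∧
        (∀ a ∈ s.A, ∃ c ∈ s'.B ∪ s'.P, c ≠ a ∧ ‖s'.u c - s'.u a‖ < ε k) := by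
    rintro k s ⟨hs, hE⟩
    obtain ⟨s', h1, h2, h3, h4, h5⟩ := step T Λ R H1 hR H2 H3 s hs (ε k) (hε k) hE (x k)
      (ε (k + 1)) (hε (k + 1))
    exact ⟨s', ⟨h1, h5⟩, h2, h3, h4⟩
  choose! f hf using hstep
  let s0 : State X := { S := T, u := fun _ => 0, A := ∅, B := ∅, P := ∅ }
  let s : ℕ → State X := fun n => Nat.rec s0 (fun k t => f k t) n
  have hs : ∀ k, State.Inv T Λ R (s k) ∧
      State.Err (s k) (ε k ^ 2 / (6 * (((s k).P.card : ℝ) + 1))) := by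
    intro k
    induction k with
    | zero =>
      refine ⟨?_, ?_⟩
      · constructor <;> simp [s, s0]
      · intro c hc
        simp [s, s0] at hc
    | succ k ih => exact (hf k (s k) ih).1
  refine ⟨s, rfl, fun k => (hs k).1, fun k => (hf k (s k) (hs k)).2.1,
    fun k => (hf k (s k) (hs k)).2.2.1, fun k => (hf k (s k) (hs k)).2.2.2, ?_⟩
  intro k c hc
  refine lt_of_lt_of_le ((hs k).2 c hc) ?_
  apply div_le_self (by positivity)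
  have : (0 : ℝ) ≤ ((s k).P.card : ℝ) := by positivity
  linarith

/-- The perturbation theorem. -/
theorem construct [CompleteSpace X] [TopologicalSpace.SeparableSpace X] (T : X →L[ℂ] X)
    (Λ R : Set ℂ)
    (H1 : ∀ c : ℂ, DenseRange fun x => T x - c • x)
    (hR : ∀ c ∈ R, c ∈ spectrum ℂ T)
    (H2 : Dense (Submodule.span ℂ {x : X | ∃ c ∈ Λ, T x = c • x} : Set X))
    (H3 : ∀ a ∈ Λ, ∀ δ > 0, ∃ c ∈ R, c ≠ a ∧ ‖c - a‖ < δ) (ε₀ : ℝ) (hε₀ : 0 < ε₀) :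
    ∃ (S : X →L[ℂ] X) (u : ℂ → X) (A C : Set ℂ), ‖S - T‖ < ε₀ ∧ A ⊆ Λ ∧ C ⊆ R ∧
      (∀ c ∈ A ∪ C, S (u c) = c • u c) ∧ Dense (Submodule.span ℂ (u '' A) : Set X) ∧
      ∀ a ∈ A, ∀ δ > 0, ∃ c ∈ C, c ≠ a ∧ ‖u c - u a‖ < δ := by
  -- a sequence which comes back close to each point infinitely often
  let x : ℕ → X := fun k => TopologicalSpace.denseSeq X (Nat.unpair k).1
  have hx : ∀ y : X, ∀ δ > 0, ∀ n : ℕ, ∃ k, n ≤ k ∧ ‖x k - y‖ < δ := by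
    intro y δ hδ n
    obtain ⟨z, hz, ⟨i, rfl⟩⟩ := Metric.dense_iff.1 (TopologicalSpace.denseRange_denseSeq X) y δ hδ
    refine ⟨Nat.pair i n, Nat.right_le_pair i n, ?_⟩
    simp only [x, Nat.unpair_pair]
    rwa [Metric.mem_ball, dist_eq_norm] at hz
  set e : ℝ := min ε₀ 1 with he
  have he0 : 0 < e := lt_min hε₀ one_pos
  have he1 : e ≤ 1 := min_le_right _ _
  have heε : e ≤ ε₀ := min_le_left _ _
  obtain ⟨s, h0, hI, hExt, hden, hch, hErr⟩ := stages T Λ R H1 hR H2 H3 x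
    (fun k => e / 2 ^ (k + 3)) (fun k => by positivity)
  have h2 : ∀ k : ℕ, 2 * (e / 2 ^ (k + 3)) = e / 2 ^ (k + 2) := by
    intro k
    rw [pow_succ 2 (k + 2)]
    field_simp
  have hle : ∀ k : ℕ, e / 2 ^ (k + 3) ≤ e / 2 ^ (k + 2) := by
    intro k
    rw [← h2 k]
    have : 0 < e / 2 ^ (k + 3) := by positivity
    linarith
  have hsq : ∀ k : ℕ, (e / 2 ^ (k + 3)) ^ 2 ≤ e / 2 ^ (k + 2) := by
    intro k
    refine le_trans ?_ (hle k)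
    have h1 : e / 2 ^ (k + 3) ≤ 1 := by
      rw [div_le_one (by positivity)]
      exact he1.trans (one_le_pow₀ (by norm_num))
    have h3 : 0 < e / 2 ^ (k + 3) := by positivity
    nlinarith
  obtain ⟨S, u, A, C, k1, k2, k3, k4, k5, k6⟩ := limit T Λ R x hx e he0 s h0 hI
    (fun k => by rw [← h2 k]; exact hExt k)
    (fun k => by
      obtain ⟨y, hy, hxy⟩ := hden k
      exact ⟨y, hy, lt_of_lt_of_le hxy (hle k)⟩)
    (fun k a ha => by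
      obtain ⟨c, hc, hca, hn⟩ := hch k a ha
      exact ⟨c, hc, hca, lt_of_lt_of_le hn (hle k)⟩)
    (fun k c hc => lt_of_lt_of_le (hErr k c hc) (hsq k))
  exact ⟨S, u, A, C, lt_of_lt_of_le k1 heε, k2, k3, k4, k5, k6⟩

end Pool.Agent.Lib.MP_bb8441_an
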