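import Pool.Agent.Lib.MP_bb8441_an.Fhc
import Pool.Agent.Lib.MP_bb8441_an.Limit
import Pool.Agent.Lib.MP_bb8441_an.Hyp

/-! The main theorems. -/

set_option autoImplicit false

namespace Pool.Agent.Lib.MP_bb8441_an

variable {X : Type*} [NormedAddCommGroup X] [NormedSpace ℂ X] [CompleteSpace X]

/-- General form. -/
theorem main_general (T : X →L[ℂ] X) (hT : Hypercyclic T) (Λ : Set ℂ) (hΛ : ∀ c ∈ Λ, ‖c‖ = 1)
    (hacc : ∀ c ∈ Λ, ∀ δ > 0, ∃ b ∈ spectrum ℂ T, ‖b‖ = 1 ∧ b ≠ c ∧ ‖b - c‖ < δ)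
    (hd : Dense (Submodule.span ℂ {x : X | ∃ c ∈ Λ, T x = c • x} : Set X))
    (ε : ℝ) (hε : 0 < ε) :
    ∃ S : X →L[ℂ] X, ‖S - T‖ < ε ∧ FrequentlyHypercyclic S ∧
      Dense (Submodule.span ℂ {x : X | ∃ c ∈ Λ, S x = c • x} : Set X) := by
  have := hyp_separable T hT
  obtain ⟨S, u, A, C, hS, hA, hC, heig, hdense, hch⟩ := construct T Λ
    {b : ℂ | b ∈ spectrum ℂ T ∧ ‖b‖ = 1} (fun c => hyp_denseRange T hT c)
    (fun c hc => hc.1) hd
    (fun a ha δ hδ => by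
      obtain ⟨b, hb, hb1, hb2, hb3⟩ := hacc a ha δ hδ
      exact ⟨b, ⟨hb, hb1⟩, hb2, hb3⟩) ε hε
  refine ⟨S, hS, ?_, ?_⟩
  · refine fhc_of_eigenvectors S u A C (fun c hc => ⟨?_, heig c hc⟩) hdense hch
    rcases hc with hc | hc
    · exact hΛ c (hA hc)
    · exact (hC hc).2
  · refine hdense.mono (SetLike.coe_subset_coe.mpr (Submodule.span_mono ?_))
    rintro _ ⟨c, hc, rfl⟩
    exact ⟨c, hA hc, heig c (Or.inl hc)⟩

omit [CompleteSpace X] in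
/-- An eigenvalue is in the spectrum. -/
theorem mem_spectrum_of_eig (T : X →L[ℂ] X) (c : ℂ) (x : X) (hx : x ≠ 0) (h : T x = c • x) :
    c ∈ spectrum ℂ T := by
  rw [spectrum.mem_iff]
  rintro ⟨v, hv⟩
  apply hx
  have h1 : (v : X →L[ℂ] X) x = 0 := by
    rw [hv]
    simp [h, Algebra.algebraMap_eq_smul_one]
  have h2 : ((v⁻¹ * v : (X →L[ℂ] X)ˣ) : X →L[ℂ] X) x = x := by
    rw [inv_mul_cancel]
    rfl
  rw [← h2]
  change ((v⁻¹ : (X →L[ℂ] X)ˣ) : X →L[ℂ] X) ((v : X →L[ℂ] X) x) = 0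
  rw [h1, map_zero]

theorem norm_of_root {c : ℂ} (h : ∃ m : ℕ, 1 ≤ m ∧ c ^ m = 1) : ‖c‖ = 1 := by
  obtain ⟨m, hm, hc⟩ := h
  exact Complex.norm_eq_one_of_pow_eq_one hc (by omega)

theorem main_chaotic (T : X →L[ℂ] X) (hT : Chaotic T)
    (hiso : {c : ℂ | c ∈ spectrum ℂ T ∧ ‖c‖ = 1 ∧
      ∃ δ > 0, ∀ b ∈ spectrum ℂ T, ‖b‖ = 1 → ‖b - c‖ < δ → b = c}.Finite)
    (ε : ℝ) (hε : 0 < ε) :
    ∃ S : X →L[ℂ] X, ‖S - T‖ < ε ∧ Chaotic S ∧ FrequentlyHypercyclic S := by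
  classical
  have hspan := chaotic_eig_span T hT
  have hspan' : Dense (Submodule.span ℂ {x : X | ∃ c ∈ {c : ℂ | ∃ m : ℕ, 1 ≤ m ∧ c ^ m = 1},
      T x = c • x} : Set X) := hspan
  have hrem := dense_remove T {c : ℂ | ∃ m : ℕ, 1 ≤ m ∧ c ^ m = 1} hiso.toFinset
    (fun c _ => hyp_denseRange T hT.1 c) hspan'
  set Λ : Set ℂ := {c : ℂ | (∃ m : ℕ, 1 ≤ m ∧ c ^ m = 1) ∧ c ∉ hiso.toFinset ∧
    c ∈ spectrum ℂ T} with hΛ
  have hd : Dense (Submodule.span ℂ {x : X | ∃ c ∈ Λ, T x = c • x} : Set X) := by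
    refine hrem.mono (SetLike.coe_subset_coe.mpr (Submodule.span_le.mpr ?_))
    rintro x ⟨c, hc, hcF, hx⟩
    by_cases h0 : x = 0
    · rw [h0]; exact Submodule.zero_mem _
    · exact Submodule.subset_span ⟨c, ⟨hc, hcF, mem_spectrum_of_eig T c x h0 hx⟩, hx⟩
  have hacc : ∀ c ∈ Λ, ∀ δ > 0, ∃ b ∈ spectrum ℂ T, ‖b‖ = 1 ∧ b ≠ c ∧ ‖b - c‖ < δ := by
    rintro c ⟨hc1, hc2, hc3⟩ δ hδ
    by_contra hcon
    push Not at hcon
    apply hc2
    rw [Set.Finite.mem_toFinset]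
    refine ⟨hc3, norm_of_root hc1, δ, hδ, fun b hb hb1 hb2 => ?_⟩
    by_contra hbc
    exact absurd hb2 (not_lt.mpr (hcon b hb hb1 hbc))
  obtain ⟨S, hS, hF, hdS⟩ := main_general T hT.1 Λ (fun c hc => norm_of_root hc.1) hacc hd ε hε
  refine ⟨S, hS, ⟨hyp_of_fhc S hF, periodic_dense S ?_⟩, hF⟩
  refine hdS.mono (SetLike.coe_subset_coe.mpr (Submodule.span_mono ?_))
  rintro x ⟨c, hc, hx⟩
  exact ⟨c, hc.1, hx⟩

omit [CompleteSpace X] in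
theorem pow_eig (T : X →L[ℂ] X) (c : ℂ) (x : X) (h : T x = c • x) (p : ℕ) :
    (T ^ p) x = c ^ p • x := by
  induction p with
  | zero => simp
  | succ p ih =>
    rw [pow_succ', pow_succ']
    change T ((T ^ p) x) = _
    rw [ih, map_smul, h, smul_smul, mul_comm]

theorem main_arc' [TopologicalSpace.SeparableSpace X] (T : X →L[ℂ] X)
    (hT : ∀ c : ℂ, DenseRange fun x => T x - c • x)
    (hd : Dense (Submodule.span ℂ {x : X | ∃ c : ℂ, ‖c‖ = 1 ∧ T x = c • x} : Set X))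
    (α β : ℝ) (hαβ : α < β)
    (harc : ∀ t : ℝ, α ≤ t → t ≤ β → Complex.exp (t * Complex.I) ∈ spectrum ℂ T) :
    ∃ S : X →L[ℂ] X, Chaotic S ∧ FrequentlyHypercyclic S := by
  obtain ⟨p, hp, hcov⟩ := arc_pow α β hαβ
  have hspec : ∀ c : ℂ, ‖c‖ = 1 → c ∈ spectrum ℂ (T ^ p) := by
    intro c hc
    obtain ⟨t, h1, h2, rfl⟩ := hcov c hc
    exact spectrum.pow_mem_pow T p (harc t h1 h2)
  have hd' : Dense (Submodule.span ℂ {x : X | ∃ c ∈ {c : ℂ | ‖c‖ = 1}, (T ^ p) x = c • x} :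
      Set X) := by
    refine hd.mono (SetLike.coe_subset_coe.mpr (Submodule.span_mono ?_))
    rintro x ⟨c, hc, hx⟩
    exact ⟨c ^ p, by simp [hc], pow_eig T c x hx p⟩
  obtain ⟨S, u, A, C, hS, hA, hC, heig, hdense, hch⟩ := construct (T ^ p) {c : ℂ | ‖c‖ = 1}
    {b : ℂ | ∃ m : ℕ, 1 ≤ m ∧ b ^ m = 1}
    (fun c => pow_denseRange T hT p hp c)
    (fun c hc => hspec c (norm_of_root hc)) hd'
    (fun a ha δ hδ => by
      obtain ⟨b, hb, hb2, hb3⟩ := roots_accumulate a ha δ hδ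
      exact ⟨b, hb, hb2, hb3⟩) 1 one_pos
  have hF : FrequentlyHypercyclic S := by
    refine fhc_of_eigenvectors S u A C (fun c hc => ⟨?_, heig c hc⟩) hdense hch
    rcases hc with hc | hc
    · exact hA hc
    · exact norm_of_root (hC hc)
  refine ⟨S, ⟨hyp_of_fhc S hF, periodic_dense S ?_⟩, hF⟩
  set W : Submodule ℂ X :=
    Submodule.span ℂ {x : X | ∃ c : ℂ, (∃ m : ℕ, 1 ≤ m ∧ c ^ m = 1) ∧ S x = c • x} with hW
  have hsub : (Submodule.span ℂ (u '' A)) ≤ W.topologicalClosure := by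
    refine Submodule.span_le.mpr ?_
    rintro _ ⟨a, ha, rfl⟩
    change u a ∈ closure (W : Set X)
    rw [Metric.mem_closure_iff]
    intro δ hδ
    obtain ⟨c, hc, -, hcδ⟩ := hch a ha δ hδ
    refine ⟨u c, Submodule.subset_span ⟨c, hC hc, heig c (Or.inr hc)⟩, ?_⟩
    rw [dist_eq_norm, ← norm_neg, neg_sub]
    exact hcδ
  have h1 : Dense (W.topologicalClosure : Set X) := hdense.mono hsub
  have h2 : closure (W.topologicalClosure : Set X) = W.topologicalClosure :=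
    (Submodule.isClosed_topologicalClosure W).closure_eq
  rw [dense_iff_closure_eq]
  rw [dense_iff_closure_eq, h2] at h1
  exact h1

theorem main_arc (T : X →L[ℂ] X) (hT : Hypercyclic T)
    (hd : Dense (Submodule.span ℂ {x : X | ∃ c : ℂ, ‖c‖ = 1 ∧ T x = c • x} : Set X))
    (α β : ℝ) (hαβ : α < β)
    (harc : ∀ t : ℝ, α ≤ t → t ≤ β → Complex.exp (t * Complex.I) ∈ spectrum ℂ T) :
    ∃ S : X →L[ℂ] X, Chaotic S ∧ FrequentlyHypercyclic S := by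
  have := hyp_separable T hT
  exact main_arc' T (hyp_denseRange T hT) hd α β hαβ harc

end Pool.Agent.Lib.MP_bb8441_an
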