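import Pool.Agent.Lib.MP_bb8441_an.JLimit
import Pool.Agent.Lib.MP_bb8441_an.Main

/-! The main theorems for spaces with a conjugation. -/

set_option autoImplicit false

namespace Pool.Agent.Lib.MP_bb8441_an

variable {X : Type*} [NormedAddCommGroup X] [NormedSpace ℂ X]

theorem conjOp_mul (J : X ≃ₗᵢ⋆[ℂ] X) (hJ : ∀ x, J (J x) = x) (K L : X →L[ℂ] X) :
    conjOp J K * conjOp J L = conjOp J (K * L) := by
  ext x
  change J (K (J (J (L (J x))))) = J (K (L (J x)))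
  rw [hJ]

theorem conjOp_one (J : X ≃ₗᵢ⋆[ℂ] X) (hJ : ∀ x, J (J x) = x) :
    conjOp J (1 : X →L[ℂ] X) = 1 := by
  ext x
  change J (J x) = x
  rw [hJ]

theorem spectrum_J (J : X ≃ₗᵢ⋆[ℂ] X) (hJ : ∀ x, J (J x) = x)
    (T : X →L[ℂ] X) (hT : ∀ x, T (J x) = J (T x)) (c : ℂ) (hc : c ∈ spectrum ℂ T) :
    (starRingEnd ℂ) c ∈ spectrum ℂ T := by
  rw [spectrum.mem_iff] at hc ⊢
  intro hu
  apply hc
  obtain ⟨v, hv⟩ := hu
  have key : algebraMap ℂ (X →L[ℂ] X) c - T =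
      conjOp J (algebraMap ℂ (X →L[ℂ] X) ((starRingEnd ℂ) c) - T) := by
    ext x
    rw [conjOp_apply]
    simp only [Algebra.algebraMap_eq_smul_one]
    change c • x - T x = J ((starRingEnd ℂ) c • (J x) - T (J x))
    rw [map_sub, map_smulₛₗ, Complex.conj_conj, hJ, hT, hJ]
  rw [key, ← hv]
  refine ⟨⟨conjOp J v, conjOp J ((v⁻¹ : (X →L[ℂ] X)ˣ) : X →L[ℂ] X), ?_, ?_⟩, rfl⟩
  · rw [conjOp_mul J hJ, Units.mul_inv, conjOp_one J hJ]
  · rw [conjOp_mul J hJ, Units.inv_mul, conjOp_one J hJ]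

/-- Hint: as `main_chaotic`, without the points `1`, `-1` (`dense_remove`), with `construct_J`. -/
theorem main_chaotic_J [CompleteSpace X] [TopologicalSpace.SeparableSpace X]
    (J : X ≃ₗᵢ⋆[ℂ] X) (hJ : ∀ x, J (J x) = x)
    (T : X →L[ℂ] X) (hT : ∀ x, T (J x) = J (T x))
    (H1 : ∀ c : ℂ, DenseRange fun x => T x - c • x)
    (hspan : Dense (Submodule.span ℂ {x : X | ∃ c : ℂ, (∃ m : ℕ, 1 ≤ m ∧ c ^ m = 1) ∧
      T x = c • x} : Set X))
    (hiso : {c : ℂ | c ∈ spectrum ℂ T ∧ ‖c‖ = 1 ∧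
      ∃ δ > 0, ∀ b ∈ spectrum ℂ T, ‖b‖ = 1 → ‖b - c‖ < δ → b = c}.Finite)
    (ε : ℝ) (hε : 0 < ε) :
    ∃ S : X →L[ℂ] X, (∀ x, S (J x) = J (S x)) ∧ ‖S - T‖ < ε ∧ Chaotic S ∧
      FrequentlyHypercyclic S := by
  classical
  have hspan' : Dense (Submodule.span ℂ {x : X | ∃ c ∈ {c : ℂ | ∃ m : ℕ, 1 ≤ m ∧ c ^ m = 1},
      T x = c • x} : Set X) := hspan
  set F : Finset ℂ := hiso.toFinset ∪ {1, -1} with hF
  have hrem := dense_remove T {c : ℂ | ∃ m : ℕ, 1 ≤ m ∧ c ^ m = 1} F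
    (fun c _ => H1 c) hspan'
  set Λ : Set ℂ := {c : ℂ | (∃ m : ℕ, 1 ≤ m ∧ c ^ m = 1) ∧ c ∉ F ∧
    c ∈ spectrum ℂ T} with hΛ
  have hd : Dense (Submodule.span ℂ {x : X | ∃ c ∈ Λ, T x = c • x} : Set X) := by
    refine hrem.mono (SetLike.coe_subset_coe.mpr (Submodule.span_le.mpr ?_))
    rintro x ⟨c, hc, hcF, hx⟩
    by_cases h0 : x = 0
    · rw [h0]; exact Submodule.zero_mem _
    · exact Submodule.subset_span ⟨c, ⟨hc, hcF, mem_spectrum_of_eig T c x h0 hx⟩, hx⟩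
  have hacc : ∀ c ∈ Λ, ∀ δ > 0, ∃ b ∈ {b : ℂ | b ∈ spectrum ℂ T ∧ ‖b‖ = 1}, b ≠ c ∧
      ‖b - c‖ < δ := by
    rintro c ⟨hc1, hc2, hc3⟩ δ hδ
    by_contra hcon
    push Not at hcon
    apply hc2
    rw [hF, Finset.mem_union, Set.Finite.mem_toFinset]
    left
    refine ⟨hc3, norm_of_root hc1, δ, hδ, fun b hb hb1 hb2 => ?_⟩
    by_contra hbc
    exact absurd hb2 (not_lt.mpr (hcon b ⟨hb, hb1⟩ hbc))
  have hconj : ∀ b : ℂ, ‖(starRingEnd ℂ) b‖ = ‖b‖ := fun b => Complex.norm_conj b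
  have hΛJ : ∀ c ∈ Λ, ‖c‖ = 1 ∧ (starRingEnd ℂ) c ∈ Λ ∧ (starRingEnd ℂ) c ≠ c := by
    rintro c ⟨hc1, hc2, hc3⟩
    have hn := norm_of_root hc1
    have hc2' : c ∉ hiso.toFinset ∧ c ≠ 1 ∧ c ≠ -1 := by
      rw [hF, Finset.mem_union, not_or, Finset.mem_insert, Finset.mem_singleton, not_or] at hc2
      exact ⟨hc2.1, hc2.2.1, hc2.2.2⟩
    refine ⟨hn, ⟨?_, ?_, spectrum_J J hJ T hT c hc3⟩, ?_⟩
    · obtain ⟨m, hm, hcm⟩ := hc1
      exact ⟨m, hm, by rw [← map_pow, hcm, map_one]⟩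
    · rw [hF, Finset.mem_union, not_or, Finset.mem_insert, Finset.mem_singleton, not_or]
      refine ⟨?_, ?_, ?_⟩
      · intro h
        apply hc2'.1
        rw [Set.Finite.mem_toFinset] at h ⊢
        obtain ⟨h1, h2, δ, hδ, h3⟩ := h
        refine ⟨hc3, hn, δ, hδ, fun b hb hb1 hb2 => ?_⟩
        have := h3 ((starRingEnd ℂ) b) (spectrum_J J hJ T hT b hb) (by rw [hconj, hb1])
          (by rw [← map_sub, hconj]; exact hb2)
        exact (starRingEnd ℂ).injective this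
      · intro h
        apply hc2'.2.1
        have := congrArg (starRingEnd ℂ) h
        rwa [Complex.conj_conj, map_one] at this
      · intro h
        apply hc2'.2.2
        have := congrArg (starRingEnd ℂ) h
        rwa [Complex.conj_conj, map_neg, map_one] at this
    · intro h
      obtain ⟨r, hr⟩ := Complex.conj_eq_iff_real.1 h
      rw [hr, Complex.norm_real, Real.norm_eq_abs] at hn
      rcases (abs_eq one_pos.le).1 hn with h1 | h1
      · apply hc2'.2.1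
        rw [hr, h1, Complex.ofReal_one]
      · apply hc2'.2.2
        rw [hr, h1, Complex.ofReal_neg, Complex.ofReal_one]
  obtain ⟨S, u, A, C, hSJ, hS, hA, hC, heig, hdense, hch⟩ := construct_J J hJ T hT Λ
    {b : ℂ | b ∈ spectrum ℂ T ∧ ‖b‖ = 1} (fun c _ => H1 c) hΛJ
    (fun c hc => ⟨hc.2, hc.1⟩) (fun c hc => ⟨spectrum_J J hJ T hT c hc.1, by
      rw [hconj]; exact hc.2⟩) hd hacc ε hε
  have hFS : FrequentlyHypercyclic S := by
    refine fhc_of_eigenvectors S u A C (fun c hc => ⟨?_, heig c hc⟩) hdense hch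
    rcases hc with hc | hc
    · exact (hΛJ c (hA hc)).1
    · exact (hC hc).2
  refine ⟨S, hSJ, hS, ⟨hyp_of_fhc S hFS, periodic_dense S ?_⟩, hFS⟩
  refine hdense.mono (SetLike.coe_subset_coe.mpr (Submodule.span_mono ?_))
  rintro _ ⟨c, hc, rfl⟩
  exact ⟨c, (hA hc).1, heig c (Or.inl hc)⟩

/-- Hint: as `main_arc'`. -/
theorem main_arc_J [CompleteSpace X] [TopologicalSpace.SeparableSpace X]
    (J : X ≃ₗᵢ⋆[ℂ] X) (hJ : ∀ x, J (J x) = x)
    (T : X →L[ℂ] X) (hT : ∀ x, T (J x) = J (T x))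
    (H1 : ∀ c : ℂ, DenseRange fun x => T x - c • x)
    (hd : Dense (Submodule.span ℂ {x : X | ∃ c : ℂ, ‖c‖ = 1 ∧ T x = c • x} : Set X))
    (α β : ℝ) (hαβ : α < β)
    (harc : ∀ t : ℝ, α ≤ t → t ≤ β → Complex.exp (t * Complex.I) ∈ spectrum ℂ T) :
    ∃ S : X →L[ℂ] X, (∀ x, S (J x) = J (S x)) ∧ Chaotic S ∧ FrequentlyHypercyclic S := by
  classical
  obtain ⟨p, hp, hcov⟩ := arc_pow α β hαβ
  have hspec : ∀ c : ℂ, ‖c‖ = 1 → c ∈ spectrum ℂ (T ^ p) := by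
    intro c hc
    obtain ⟨t, h1, h2, rfl⟩ := hcov c hc
    exact spectrum.pow_mem_pow T p (harc t h1 h2)
  have hTp : ∀ n : ℕ, ∀ x, (T ^ n) (J x) = J ((T ^ n) x) := by
    intro n
    induction n with
    | zero => intro x; rfl
    | succ n ih =>
      intro x
      rw [pow_succ']
      change T ((T ^ n) (J x)) = J (T ((T ^ n) x))
      rw [ih, hT]
  have hd' : Dense (Submodule.span ℂ {x : X | ∃ c ∈ {c : ℂ | ‖c‖ = 1}, (T ^ p) x = c • x} :
      Set X) := by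
    refine hd.mono (SetLike.coe_subset_coe.mpr (Submodule.span_mono ?_))
    rintro x ⟨c, hc, hx⟩
    exact ⟨c ^ p, by simp [hc], pow_eig T c x hx p⟩
  have hrem := dense_remove (T ^ p) {c : ℂ | ‖c‖ = 1} {1, -1}
    (fun c _ => pow_denseRange T H1 p hp c) hd'
  have hd'' : Dense (Submodule.span ℂ {x : X | ∃ c ∈ {c : ℂ | ‖c‖ = 1 ∧ c ≠ 1 ∧ c ≠ -1},
      (T ^ p) x = c • x} : Set X) := by
    refine hrem.mono (SetLike.coe_subset_coe.mpr (Submodule.span_mono ?_))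
    rintro x ⟨c, hc, hcF, hx⟩
    rw [Finset.mem_insert, Finset.mem_singleton, not_or] at hcF
    exact ⟨c, ⟨hc, hcF.1, hcF.2⟩, hx⟩
  obtain ⟨S, u, A, C, hSJ, hS, hA, hC, heig, hdense, hch⟩ := construct_J J hJ (T ^ p) (hTp p)
    {c : ℂ | ‖c‖ = 1 ∧ c ≠ 1 ∧ c ≠ -1}
    {b : ℂ | ∃ m : ℕ, 1 ≤ m ∧ b ^ m = 1}
    (fun c _ => pow_denseRange T H1 p hp c) (by
      rintro c ⟨hn, h1, h2⟩
      refine ⟨hn, ⟨by rw [Complex.norm_conj]; exact hn, ?_, ?_⟩, ?_⟩
      · intro h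
        apply h1
        have := congrArg (starRingEnd ℂ) h
        rwa [Complex.conj_conj, map_one] at this
      · intro h
        apply h2
        have := congrArg (starRingEnd ℂ) h
        rwa [Complex.conj_conj, map_neg, map_one] at this
      · intro h
        obtain ⟨r, hr⟩ := Complex.conj_eq_iff_real.1 h
        rw [hr, Complex.norm_real, Real.norm_eq_abs] at hn
        rcases (abs_eq one_pos.le).1 hn with h3 | h3
        · apply h1
          rw [hr, h3, Complex.ofReal_one]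
        · apply h2
          rw [hr, h3, Complex.ofReal_neg, Complex.ofReal_one])
    (fun c hc => ⟨norm_of_root hc, hspec c (norm_of_root hc)⟩)
    (by
      rintro c ⟨m, hm, hcm⟩
      exact ⟨m, hm, by rw [← map_pow, hcm, map_one]⟩)
    hd''
    (fun a ha δ hδ => by
      obtain ⟨b, hb, hb2, hb3⟩ := roots_accumulate a ha.1 δ hδ
      exact ⟨b, hb, hb2, hb3⟩) 1 one_pos
  have hF : FrequentlyHypercyclic S := by
    refine fhc_of_eigenvectors S u A C (fun c hc => ⟨?_, heig c hc⟩) hdense hch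
    rcases hc with hc | hc
    · exact (hA hc).1
    · exact norm_of_root (hC hc)
  refine ⟨S, hSJ, ⟨hyp_of_fhc S hF, periodic_dense S ?_⟩, hF⟩
  set W : Submodule ℂ X :=
    Submodule.span ℂ {x : X | ∃ c : ℂ, (∃ m : ℕ, 1 ≤ m ∧ c ^ m = 1) ∧ S x = c • x} with hW
  have hsub : (Submodule.span ℂ (u '' A)) ≤ W.topologicalClosure := by
    refine Submodule.span_le.mpr ?_
    rintro _ ⟨a, ha, rfl⟩
    change u a ∈ closure (W : Set X)
    rw [Metric.mem_closure_iff]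
    intro δ hδ
    obtain ⟨c, hc, -, hcδ⟩ := hch a ha δ hδ
    refine ⟨u c, Submodule.subset_span ⟨c, hC hc, heig c (Or.inr hc)⟩, ?_⟩
    rw [dist_eq_norm, ← norm_neg, neg_sub]
    exact hcδ
  have h1 : Dense (W.topologicalClosure : Set X) := hdense.mono hsub
  have h2 : closure (W.topologicalClosure : Set X) = W.topologicalClosure :=
    (Submodule.isClosed_topologicalClosure W).closure_eq
  rw [dense_iff_closure_eq]
  rw [dense_iff_closure_eq, h2] at h1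
  exact h1

end Pool.Agent.Lib.MP_bb8441_an
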