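import Pool.Agent.Lib.MP_bb8441_an.JDefs
import Pool.Agent.Lib.MP_bb8441_an.AddNodes

/-! Adding nodes to a symmetric stage. -/

set_option autoImplicit false

namespace Pool.Agent.Lib.MP_bb8441_an

variable {X : Type*} [NormedAddCommGroup X] [NormedSpace ℂ X]

/-- One eigenvector of `T`, for a new eigenvalue `c`, is brought into the span of the nodes; the
nodes `c` and `conj c` are added. -/
theorem add_node_J (J : X ≃ₗᵢ⋆[ℂ] X) (hJ : ∀ x, J (J x) = x) (T : X →L[ℂ] X)
    (hT : ∀ x, T (J x) = J (T x)) (Λ R : Set ℂ)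
    (hΛ : ∀ c ∈ Λ, ‖c‖ = 1 ∧ (starRingEnd ℂ) c ∈ Λ ∧ (starRingEnd ℂ) c ≠ c)
    (s : State X) (hs : State.InvJ J T Λ R s)
    (c : ℂ) (hcΛ : c ∈ Λ) (hc : c ∉ s.A ∪ s.B ∪ s.P) (e : X) (he : T e = c • e) :
    ∃ s' : State X, State.InvJ J T Λ R s' ∧ State.NodeExt s s' ∧
      s'.A ⊆ insert c (insert ((starRingEnd ℂ) c) s.A) ∧
      e ∈ Submodule.span ℂ (s'.u '' (s'.A : Set ℂ)) := by
  classical
  by_cases hmem : e ∈ Submodule.span ℂ (s.u '' (s.A : Set ℂ))
  · exact ⟨s, hs, NodeExt.refl s,
      (Finset.subset_insert _ _).trans (Finset.subset_insert _ _), hmem⟩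
  · obtain ⟨-, hcΛ', hcc⟩ := hΛ c hcΛ
    have hi := hs.inv
    set c' : ℂ := (starRingEnd ℂ) c with hc'def
    have hcc' : (starRingEnd ℂ) c' = c := Complex.conj_conj c
    have hcA : c ∉ s.A := fun h => hc (by simp only [Finset.mem_union]; tauto)
    have hcB : c ∉ s.B := fun h => hc (by simp only [Finset.mem_union]; tauto)
    have hcP : c ∉ s.P := fun h => hc (by simp only [Finset.mem_union]; tauto)
    have hcA' : c' ∉ s.A := fun h => hcA (by have := hs.A_J c' h; rwa [hcc'] at this)
    have hcB' : c' ∉ s.B := fun h => hcB (by have := hs.B_J c' h; rwa [hcc'] at this)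
    have hcP' : c' ∉ s.P := fun h => hcP (by have := hs.P_J c' h; rwa [hcc'] at this)
    have heigA : ∀ b ∈ s.A, s.S (s.u b) = b • s.u b := fun b hb =>
      hi.eig b (Finset.mem_union_left _ hb)
    obtain ⟨h, hhW, hh⟩ := solve_span s.S s.u s.A heigA c hcA _
      (Submodule.neg_mem _ (hi.range e))
    have hS : s.S (e + h) = c • (e + h) := by
      have h3 : s.S h = c • h - (s.S e - T e) := by
        rw [sub_eq_iff_eq_add] at hh
        rw [hh]; abel
      rw [map_add, h3, he, smul_add]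
      abel
    have hSJ : s.S (J (e + h)) = c' • J (e + h) := by
      rw [hs.S_J, hS, map_smulₛₗ]
    have hne0 : e + h ≠ 0 := by
      intro h0
      apply hmem
      have : e = -h := eq_neg_of_add_eq_zero_left h0
      rw [this]
      exact Submodule.neg_mem _ hhW
    have hneJ : J (e + h) ≠ 0 := by
      intro h0
      apply hne0
      rw [← hJ (e + h), h0, map_zero]
    set v : ℂ → X := Function.update (Function.update s.u c (e + h)) c' (J (e + h)) with hv
    have hvc' : v c' = J (e + h) := by rw [hv, Function.update_self]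
    have hvc : v c = e + h := by
      rw [hv, Function.update_of_ne (fun h => hcc h.symm), Function.update_self]
    have hvo : ∀ b, b ≠ c → b ≠ c' → v b = s.u b := by
      intro b hb hb'
      rw [hv, Function.update_of_ne hb', Function.update_of_ne hb]
    have hu : ∀ b ∈ s.A ∪ s.B ∪ s.P, v b = s.u b := by
      intro b hb
      refine hvo b ?_ ?_
      · rintro rfl
        exact hc hb
      · intro h
        rw [h] at hb
        simp only [Finset.mem_union] at hb
        tauto
    set A' : Finset ℂ := insert c (insert c' s.A) with hA'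
    have hsub : Submodule.span ℂ (s.u '' (s.A : Set ℂ)) ≤
        Submodule.span ℂ (v '' (A' : Set ℂ)) := by
      apply Submodule.span_mono
      rintro _ ⟨b, hb, rfl⟩
      refine ⟨b, ?_, hu b ?_⟩
      · rw [hA']
        simp only [Finset.coe_insert, Set.mem_insert_iff]
        exact Or.inr (Or.inr hb)
      · simp only [Finset.mem_union]
        exact Or.inl (Or.inl hb)
    have hAcases : ∀ b ∈ A', b = c ∨ b = c' ∨ b ∈ s.A := by
      intro b hb
      rw [hA', Finset.mem_insert, Finset.mem_insert] at hb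
      exact hb
    have hABcases : ∀ b ∈ A' ∪ s.B, b = c ∨ b = c' ∨ b ∈ s.A ∪ s.B := by
      intro b hb
      rcases Finset.mem_union.1 hb with hb | hb
      · rcases hAcases b hb with h | h | h
        · exact Or.inl h
        · exact Or.inr (Or.inl h)
        · exact Or.inr (Or.inr (Finset.mem_union_left _ h))
      · exact Or.inr (Or.inr (Finset.mem_union_right _ hb))
    have hABPcases : ∀ b ∈ A' ∪ s.B ∪ s.P, b = c ∨ b = c' ∨ b ∈ s.A ∪ s.B ∪ s.P := by
      intro b hb
      rcases Finset.mem_union.1 hb with hb | hb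
      · rcases hABcases b hb with h | h | h
        · exact Or.inl h
        · exact Or.inr (Or.inl h)
        · exact Or.inr (Or.inr (Finset.mem_union_left _ h))
      · exact Or.inr (Or.inr (Finset.mem_union_right _ hb))
    refine ⟨⟨s.S, v, A', s.B, s.P⟩, ?_, ?_, subset_rfl, ?_⟩
    · refine { inv := ?_, S_J := hs.S_J, A_J := ?_, B_J := hs.B_J, P_J := hs.P_J, u_J := ?_,
               nr := ?_ }
      · refine { A_mem := ?_, B_mem := hi.B_mem, P_mem := hi.P_mem, AB := ?_, AP := ?_,
                 BP := hi.BP, eig := ?_, ne := ?_, range := ?_, P_not := hi.P_not }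
        · intro b hb
          rcases hAcases b hb with rfl | rfl | hb
          · exact hcΛ
          · exact hcΛ'
          · exact hi.A_mem b hb
        · show Disjoint A' s.B
          rw [hA']
          simp only [Finset.disjoint_insert_left]
          exact ⟨hcB, hcB', hi.AB⟩
        · show Disjoint A' s.P
          rw [hA']
          simp only [Finset.disjoint_insert_left]
          exact ⟨hcP, hcP', hi.AP⟩
        · intro b hb
          show s.S (v b) = b • v b
          rcases hABcases b hb with rfl | rfl | hb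
          · rw [hvc]; exact hS
          · rw [hvc']; exact hSJ
          · rw [hu b (Finset.mem_union_left _ hb)]
            exact hi.eig b hb
        · intro b hb
          show v b ≠ 0
          rcases hABcases b hb with rfl | rfl | hb
          · rw [hvc]; exact hne0
          · rw [hvc']; exact hneJ
          · rw [hu b (Finset.mem_union_left _ hb)]
            exact hi.ne b hb
        · intro x
          exact hsub (hi.range x)
      · intro b hb
        show (starRingEnd ℂ) b ∈ A'
        rcases hAcases b hb with rfl | rfl | hb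
        · rw [hA']
          exact Finset.mem_insert_of_mem (Finset.mem_insert_self _ _)
        · rw [hcc', hA']
          exact Finset.mem_insert_self _ _
        · rw [hA']
          exact Finset.mem_insert_of_mem (Finset.mem_insert_of_mem (hs.A_J b hb))
      · intro b hb
        show v ((starRingEnd ℂ) b) = J (v b)
        rcases hABPcases b hb with rfl | rfl | hb
        · rw [hvc, ← hc'def, hvc']
        · rw [hcc', hvc, hvc', hJ]
        · have hb' : (starRingEnd ℂ) b ∈ s.A ∪ s.B ∪ s.P := by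
            simp only [Finset.mem_union] at hb ⊢
            rcases hb with (hb | hb) | hb
            · exact Or.inl (Or.inl (hs.A_J b hb))
            · exact Or.inl (Or.inr (hs.B_J b hb))
            · exact Or.inr (hs.P_J b hb)
          rw [hu _ hb', hu b hb]
          exact hs.u_J b hb
      · intro b hb
        rcases hABPcases b hb with rfl | rfl | hb
        · exact hcc
        · rw [hcc']
          exact fun h => hcc h.symm
        · exact hs.nr b hb
    · exact { S_eq := rfl, B_eq := rfl, P_eq := rfl,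
              A_sub := (Finset.subset_insert _ _).trans (Finset.subset_insert _ _),
              u_eq := hu }
    · have h1 : (e + h) - h ∈ Submodule.span ℂ (v '' (A' : Set ℂ)) := by
        refine Submodule.sub_mem _ ?_ (hsub hhW)
        apply Submodule.subset_span
        exact ⟨c, by rw [hA']; simp, hvc⟩
      rwa [add_sub_cancel_right] at h1

/-- The span of the nodes of a symmetric stage is invariant under `J`. -/
theorem span_J (J : X ≃ₗᵢ⋆[ℂ] X) (T : X →L[ℂ] X) (Λ R : Set ℂ)
    (s : State X) (hs : State.InvJ J T Λ R s) (x : X)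
    (hx : x ∈ Submodule.span ℂ (s.u '' (s.A : Set ℂ))) :
    J x ∈ Submodule.span ℂ (s.u '' (s.A : Set ℂ)) := by
  induction hx using Submodule.span_induction with
  | mem x hx =>
    obtain ⟨b, hb, rfl⟩ := hx
    have hb' : b ∈ s.A := hb
    rw [← hs.u_J b (Finset.mem_union_left _ (Finset.mem_union_left _ hb'))]
    exact Submodule.subset_span ⟨_, hs.A_J b hb', rfl⟩
  | zero => simp
  | add x y _ _ hx hy =>
    rw [map_add]
    exact Submodule.add_mem _ hx hy
  | smul a x _ hx =>
    rw [map_smulₛₗ]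
    exact Submodule.smul_mem _ _ hx

/-- The real case of `add_nodes_J`. -/
theorem add_nodes_J_real (J : X ≃ₗᵢ⋆[ℂ] X) (hJ : ∀ x, J (J x) = x) (T : X →L[ℂ] X)
    (hT : ∀ x, T (J x) = J (T x)) (Λ R : Set ℂ)
    (H1 : ∀ c : ℂ, ‖c‖ = 1 → DenseRange fun x => T x - c • x)
    (hΛ : ∀ c ∈ Λ, ‖c‖ = 1 ∧ (starRingEnd ℂ) c ∈ Λ ∧ (starRingEnd ℂ) c ≠ c)
    (hR : ∀ c ∈ R, ‖c‖ = 1)
    (H2 : Dense (Submodule.span ℂ {x : X | ∃ c ∈ Λ, T x = c • x} : Set X))
    (s : State X) (hs : State.InvJ J T Λ R s) (x : X) (hx : J x = x) (ε : ℝ) (hε : 0 < ε) :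
    ∃ s' : State X, State.InvJ J T Λ R s' ∧ State.NodeExt s s' ∧
      ∃ y ∈ Submodule.span ℂ (s'.u '' (s'.A : Set ℂ)), ‖x - y‖ < ε := by
  classical
  have hF : ∀ c ∈ s.A ∪ s.B ∪ s.P, ‖c‖ = 1 := by
    intro c hc
    simp only [Finset.mem_union] at hc
    rcases hc with (hc | hc) | hc
    · exact (hΛ c (hs.inv.A_mem c hc)).1
    · exact hR c (hs.inv.B_mem c hc)
    · exact hR c (hs.inv.P_mem c hc)
  have hFJ : ∀ c ∈ s.A ∪ s.B ∪ s.P, (starRingEnd ℂ) c ∈ s.A ∪ s.B ∪ s.P := by
    intro c hc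
    simp only [Finset.mem_union] at hc ⊢
    rcases hc with (hc | hc) | hc
    · exact Or.inl (Or.inl (hs.A_J c hc))
    · exact Or.inl (Or.inr (hs.B_J c hc))
    · exact Or.inr (hs.P_J c hc)
  have hd := dense_remove T Λ (s.A ∪ s.B ∪ s.P) (fun c hc => H1 c (hF c hc)) H2
  obtain ⟨y, hy, hxy⟩ := Metric.dense_iff.1 hd x ε hε
  rw [Metric.mem_ball, dist_comm, dist_eq_norm] at hy
  set Λ' : Set ℂ := {c | c ∈ Λ ∧ c ∉ s.A ∪ s.B ∪ s.P} with hΛ'
  have hset : {x : X | ∃ c ∈ Λ, c ∉ s.A ∪ s.B ∪ s.P ∧ T x = c • x} =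
      {x : X | ∃ c ∈ Λ', T x = c • x} := by
    ext z
    constructor
    · rintro ⟨c, h1, h2, h3⟩
      exact ⟨c, ⟨h1, h2⟩, h3⟩
    · rintro ⟨c, ⟨h1, h2⟩, h3⟩
      exact ⟨c, h1, h2, h3⟩
  rw [hset] at hxy
  obtain ⟨G, e, hGe, hsum⟩ := span_eig_sum T Λ' y hxy
  -- the symmetrised family
  set e₀ : ℂ → X := fun c => if c ∈ G then e c else 0 with he₀
  have he₀T : ∀ c, T (e₀ c) = c • e₀ c := by
    intro c
    simp only [he₀]
    split_ifs with h
    · exact (hGe c h).2
    · simp
  set ê : ℂ → X := fun c => (1 / 2 : ℂ) • (e₀ c + J (e₀ ((starRingEnd ℂ) c))) with hê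
  have hhalf : (starRingEnd ℂ) (1 / 2 : ℂ) = 1 / 2 := by
    rw [map_div₀, map_one]
    congr 1
    exact Complex.conj_ofNat 2
  have hêJ : ∀ c, ê ((starRingEnd ℂ) c) = J (ê c) := by
    intro c
    simp only [hê]
    rw [map_smulₛₗ, hhalf, map_add, hJ, Complex.conj_conj, add_comm]
  have hêT : ∀ c, T (ê c) = c • ê c := by
    intro c
    simp only [hê]
    rw [map_smul, map_add, hT, he₀T, he₀T, map_smulₛₗ, Complex.conj_conj, ← smul_add,
      smul_comm]
  set G' : Finset ℂ := G ∪ G.image (starRingEnd ℂ) with hG'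
  have hG'J : ∀ c ∈ G', (starRingEnd ℂ) c ∈ G' := by
    intro c hc
    simp only [hG', Finset.mem_union, Finset.mem_image] at hc ⊢
    rcases hc with hc | ⟨b, hb, rfl⟩
    · exact Or.inr ⟨c, hc, rfl⟩
    · rw [Complex.conj_conj]
      exact Or.inl hb
  have hG'Λ : ∀ c ∈ G', c ∈ Λ' := by
    intro c hc
    simp only [hG', Finset.mem_union, Finset.mem_image] at hc
    rcases hc with hc | ⟨b, hb, rfl⟩
    · exact (hGe c hc).1
    · obtain ⟨⟨h1, h2⟩, _⟩ := hGe b hb
      refine ⟨(hΛ b h1).2.1, fun h => h2 ?_⟩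
      have := hFJ _ h
      rwa [Complex.conj_conj] at this
  have hsum1 : ∑ c ∈ G', e₀ c = y := by
    rw [hsum, hG']
    have h1 : ∑ c ∈ G, e c = ∑ c ∈ G, e₀ c := by
      refine Finset.sum_congr rfl fun c hc => ?_
      simp only [he₀, if_pos hc]
    rw [h1]
    symm
    refine Finset.sum_subset Finset.subset_union_left fun c _ hc => ?_
    simp only [he₀, if_neg hc]
  have hsum2 : ∑ c ∈ G', e₀ ((starRingEnd ℂ) c) = y := by
    rw [← hsum1]
    refine Finset.sum_nbij' (starRingEnd ℂ) (starRingEnd ℂ) hG'J hG'J ?_ ?_ ?_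
    · intro c _
      exact Complex.conj_conj c
    · intro c _
      exact Complex.conj_conj c
    · intro c _
      rfl
  have hsum3 : ∑ c ∈ G', ê c = (1 / 2 : ℂ) • (y + J y) := by
    simp only [hê]
    rw [← Finset.smul_sum, Finset.sum_add_distrib, hsum1, ← map_sum, hsum2]
  have key : ∀ K : Finset ℂ, K ⊆ G' → ∃ s' : State X, State.InvJ J T Λ R s' ∧
      State.NodeExt s s' ∧ s'.A ⊆ s.A ∪ (K ∪ K.image (starRingEnd ℂ)) ∧
      ∀ c ∈ K, ê c ∈ Submodule.span ℂ (s'.u '' (s'.A : Set ℂ)) := by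
    intro K
    induction K using Finset.induction_on with
    | empty =>
      intro _
      exact ⟨s, hs, NodeExt.refl s, by simp, by simp⟩
    | insert c K hc ih =>
      intro hsub
      obtain ⟨s', h1, h2, h3, h4⟩ := ih (fun d hd => hsub (Finset.mem_insert_of_mem hd))
      have hcG : c ∈ G' := hsub (Finset.mem_insert_self c K)
      obtain ⟨hcΛ, hcF⟩ := hG'Λ c hcG
      have hsubset : s.A ∪ (K ∪ K.image (starRingEnd ℂ)) ⊆
          s.A ∪ (insert c K ∪ (insert c K).image (starRingEnd ℂ)) := by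
        apply Finset.union_subset_union_right
        apply Finset.union_subset_union (Finset.subset_insert _ _)
        exact Finset.image_subset_image (Finset.subset_insert _ _)
      by_cases hcA : c ∈ s'.A
      · refine ⟨s', h1, h2, h3.trans hsubset, ?_⟩
        intro d hd
        rcases Finset.mem_insert.1 hd with rfl | hd
        · have h5 := h3 hcA
          simp only [Finset.mem_union, Finset.mem_image] at h5 hcF
          rcases h5 with h5 | h5 | ⟨b, hb, hbd⟩
          · exact absurd (Or.inl (Or.inl h5)) hcF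
          · exact absurd h5 hc
          · rw [← hbd, hêJ]
            exact span_J J T Λ R s' h1 _ (h4 b hb)
        · exact h4 d hd
      · have hc' : c ∉ s'.A ∪ s'.B ∪ s'.P := by
          rw [h2.B_eq, h2.P_eq]
          intro hmem
          simp only [Finset.mem_union] at hmem hcF
          rcases hmem with (hmem | hmem) | hmem
          · exact hcA hmem
          · exact hcF (Or.inl (Or.inr hmem))
          · exact hcF (Or.inr hmem)
        obtain ⟨s'', k1, k2, k3, k4⟩ :=
          add_node_J J hJ T hT Λ R hΛ s' h1 c hcΛ hc' (ê c) (hêT c)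
        refine ⟨s'', k1, NodeExt.trans _ _ _ h2 k2, ?_, ?_⟩
        · intro d hd
          have h5 := k3 hd
          rcases Finset.mem_insert.1 h5 with rfl | h5
          · simp
          · rcases Finset.mem_insert.1 h5 with rfl | h5
            · simp
            · exact hsubset (h3 h5)
        · intro d hd
          rcases Finset.mem_insert.1 hd with rfl | hd
          · exact k4
          · exact NodeExt.span_le _ _ k2 (h4 d hd)
  obtain ⟨s', h1, h2, _, h4⟩ := key G' (le_refl _)
  refine ⟨s', h1, h2, (1 / 2 : ℂ) • (y + J y), ?_, ?_⟩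
  · rw [← hsum3]
    exact Submodule.sum_mem _ (fun c hc => h4 c hc)
  · have h5 : x - (1 / 2 : ℂ) • (y + J y) = (1 / 2 : ℂ) • ((x - y) + J (x - y)) := by
      rw [map_sub, hx]
      module
    have h6 : ‖J (x - y)‖ = ‖x - y‖ := LinearIsometryEquiv.norm_map J _
    have h7 : ‖(x - y) + J (x - y)‖ ≤ ‖x - y‖ + ‖x - y‖ := by
      calc ‖(x - y) + J (x - y)‖ ≤ ‖x - y‖ + ‖J (x - y)‖ := norm_add_le _ _
        _ = _ := by rw [h6]
    rw [h5, norm_smul]
    have h8 : ‖(1 / 2 : ℂ)‖ = 1 / 2 := by norm_num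
    rw [h8]
    linarith

/-- Every vector is approximated by the span of the nodes of a later stage. Hint: for a real
vector `x = J x` symmetrise the approximation (`(y + J y)/2 = Σ ê c` with
`ê (conj c) = J (ê c)`) so that the nodes `c`, `conj c` added with `add_node_J` suffice; then apply
this to the real and the imaginary part of `x`. -/
theorem add_nodes_J (J : X ≃ₗᵢ⋆[ℂ] X) (hJ : ∀ x, J (J x) = x) (T : X →L[ℂ] X)
    (hT : ∀ x, T (J x) = J (T x)) (Λ R : Set ℂ)
    (H1 : ∀ c : ℂ, ‖c‖ = 1 → DenseRange fun x => T x - c • x)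
    (hΛ : ∀ c ∈ Λ, ‖c‖ = 1 ∧ (starRingEnd ℂ) c ∈ Λ ∧ (starRingEnd ℂ) c ≠ c)
    (hR : ∀ c ∈ R, ‖c‖ = 1)
    (H2 : Dense (Submodule.span ℂ {x : X | ∃ c ∈ Λ, T x = c • x} : Set X))
    (s : State X) (hs : State.InvJ J T Λ R s) (x : X) (ε : ℝ) (hε : 0 < ε) :
    ∃ s' : State X, State.InvJ J T Λ R s' ∧ State.NodeExt s s' ∧
      ∃ y ∈ Submodule.span ℂ (s'.u '' (s'.A : Set ℂ)), ‖x - y‖ < ε := by
  have hhalf : (starRingEnd ℂ) (1 / 2 : ℂ) = 1 / 2 := by
    rw [map_div₀, map_one]
    congr 1
    exact Complex.conj_ofNat 2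
  set x₁ : X := (1 / 2 : ℂ) • (x + J x) with hx₁
  set x₂ : X := Complex.I • ((1 / 2 : ℂ) • (x - J x)) with hx₂
  have hJ1 : J x₁ = x₁ := by
    rw [hx₁, map_smulₛₗ, hhalf, map_add, hJ, add_comm]
  have hJ2 : J x₂ = x₂ := by
    rw [hx₂, map_smulₛₗ, map_smulₛₗ, hhalf, map_sub, hJ, Complex.conj_I]
    module
  have hx12 : x = x₁ - Complex.I • x₂ := by
    rw [hx₁, hx₂, smul_smul, Complex.I_mul_I]
    module
  obtain ⟨s₁, h1, h2, y₁, h3, h4⟩ :=
    add_nodes_J_real J hJ T hT Λ R H1 hΛ hR H2 s hs x₁ hJ1 (ε / 2) (half_pos hε)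
  obtain ⟨s₂, k1, k2, y₂, k3, k4⟩ :=
    add_nodes_J_real J hJ T hT Λ R H1 hΛ hR H2 s₁ h1 x₂ hJ2 (ε / 2) (half_pos hε)
  refine ⟨s₂, k1, NodeExt.trans _ _ _ h2 k2, y₁ - Complex.I • y₂, ?_, ?_⟩
  · exact Submodule.sub_mem _ (NodeExt.span_le _ _ k2 h3) (Submodule.smul_mem _ _ k3)
  · have h5 : x - (y₁ - Complex.I • y₂) = (x₁ - y₁) - Complex.I • (x₂ - y₂) := by
      rw [smul_sub]
      conv_lhs => rw [hx12]
      abel
    rw [h5]
    calc ‖(x₁ - y₁) - Complex.I • (x₂ - y₂)‖ ≤ ‖x₁ - y₁‖ + ‖Complex.I • (x₂ - y₂)‖ :=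
          norm_sub_le _ _
      _ = ‖x₁ - y₁‖ + ‖x₂ - y₂‖ := by rw [norm_smul, Complex.norm_I, one_mul]
      _ < ε := by linarith

end Pool.Agent.Lib.MP_bb8441_an
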