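import Pool.Agent.Lib.MP_bb8441_an.JDefs
import Pool.Agent.Lib.MP_bb8441_an.AddNode1

/-! Adding a pair of pending children to a symmetric stage. -/

set_option autoImplicit false

namespace Pool.Agent.Lib.MP_bb8441_an

variable {X : Type*} [NormedAddCommGroup X] [NormedSpace ℂ X]

theorem pending_child_J (J : X ≃ₗᵢ⋆[ℂ] X) (hJ : ∀ x, J (J x) = x)
    (T : X →L[ℂ] X) (hT : ∀ x, T (J x) = J (T x)) (Λ R : Set ℂ)
    (hRJ : ∀ c ∈ R, (starRingEnd ℂ) c ∈ R)
    (s : State X) (hs : State.InvJ J T Λ R s) (a : ℂ) (ha : a ∈ s.A)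
    (hacc : ∀ δ > 0, ∃ c ∈ R, c ≠ a ∧ ‖c - a‖ < δ ∧ ∀ x, T x = c • x → x = 0)
    (ε : ℝ) (hε : 0 < ε) (η : ℝ) (hη : 0 < η) (hE : State.Err s η) :
    ∃ (s' : State X) (c : ℂ), State.InvJ J T Λ R s' ∧ State.ChildExt s s' ε ∧ State.Err s' η ∧
      s'.P.card ≤ s.P.card + 2 ∧
      (∀ b ∈ s'.P, b ∈ s.P ∨ ‖a - (starRingEnd ℂ) a‖ / 2 ≤ ‖b - (starRingEnd ℂ) b‖) ∧
      c ∈ s'.B ∪ s'.P ∧ c ≠ a ∧ ‖s'.u c - s'.u a‖ < ε := by
  classical
  have hi := hs.inv
  set F : Finset ℂ := s.A ∪ s.B ∪ s.P with hF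
  have hFJ : ∀ b ∈ F, (starRingEnd ℂ) b ∈ F := by
    intro b hb
    rw [hF] at hb ⊢
    simp only [Finset.mem_union] at hb ⊢
    rcases hb with (hb | hb) | hb
    · exact Or.inl (Or.inl (hs.A_J b hb))
    · exact Or.inl (Or.inr (hs.B_J b hb))
    · exact Or.inr (hs.P_J b hb)
  have haF : a ∈ F := by
    rw [hF]; simp only [Finset.mem_union]; tauto
  have hna : (starRingEnd ℂ) a ≠ a := hs.nr a haF
  have hpos : 0 < ‖a - (starRingEnd ℂ) a‖ := norm_pos_iff.2 (sub_ne_zero.2 hna.symm)
  obtain ⟨ρ, hρ, hρF⟩ : ∃ ρ > 0, ∀ b ∈ F, b ≠ a → ρ ≤ ‖b - a‖ := by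
    by_cases hne : (F.filter (fun b => b ≠ a)).Nonempty
    · obtain ⟨b₀, hb₀, hmin⟩ := Finset.exists_min_image (F.filter (fun b => b ≠ a))
        (fun b => ‖b - a‖) hne
      refine ⟨‖b₀ - a‖, norm_pos_iff.2 (sub_ne_zero.2 (Finset.mem_filter.1 hb₀).2), ?_⟩
      intro b hb hba
      exact hmin b (Finset.mem_filter.2 ⟨hb, hba⟩)
    · refine ⟨1, one_pos, ?_⟩
      intro b hb hba
      exact absurd ⟨b, Finset.mem_filter.2 ⟨hb, hba⟩⟩ hne
  have hδ : 0 < min (min ρ (η / (‖s.u a‖ + 1))) (‖a - (starRingEnd ℂ) a‖ / 4) :=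
    lt_min (lt_min hρ (by positivity)) (by positivity)
  obtain ⟨c, hcR, hca, hcδ, hcT⟩ := hacc _ hδ
  have hcρ : ‖c - a‖ < ρ := hcδ.trans_le ((min_le_left _ _).trans (min_le_left _ _))
  have hcη : ‖c - a‖ < η / (‖s.u a‖ + 1) :=
    hcδ.trans_le ((min_le_left _ _).trans (min_le_right _ _))
  have hc4 : ‖c - a‖ < ‖a - (starRingEnd ℂ) a‖ / 4 := hcδ.trans_le (min_le_right _ _)
  set c' : ℂ := (starRingEnd ℂ) c with hc'
  have hcc : (starRingEnd ℂ) c' = c := by rw [hc', Complex.conj_conj]
  have hcF : c ∉ F := by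
    intro h
    exact absurd (hρF c h hca) (not_le.2 hcρ)
  have hc'F : c' ∉ F := by
    intro h
    have := hFJ _ h
    rw [hcc] at this
    exact hcF this
  have hgap : ‖a - (starRingEnd ℂ) a‖ / 2 ≤ ‖c - c'‖ := by
    have h1 : a - (starRingEnd ℂ) a = (c - c') - (c - a) + (starRingEnd ℂ) (c - a) := by
      rw [map_sub, hc']; ring
    have h2 : ‖(starRingEnd ℂ) (c - a)‖ = ‖c - a‖ := RCLike.norm_conj _
    have h3 : ‖a - (starRingEnd ℂ) a‖ ≤ ‖c - c'‖ + ‖c - a‖ + ‖c - a‖ := by
      calc ‖a - (starRingEnd ℂ) a‖ = ‖(c - c') - (c - a) + (starRingEnd ℂ) (c - a)‖ := by rw [← h1]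
        _ ≤ ‖(c - c') - (c - a)‖ + ‖(starRingEnd ℂ) (c - a)‖ := norm_add_le _ _
        _ ≤ ‖c - c'‖ + ‖c - a‖ + ‖c - a‖ := by rw [h2]; gcongr; exact norm_sub_le _ _
    linarith
  have hcc' : c' ≠ c := by
    intro h
    rw [h, sub_self, norm_zero] at hgap
    linarith
  have hAF : ∀ b ∈ s.A, b ∈ F := fun b hb => by rw [hF]; simp only [Finset.mem_union]; tauto
  have hBF : ∀ b ∈ s.B, b ∈ F := fun b hb => by rw [hF]; simp only [Finset.mem_union]; tauto
  have hPF : ∀ b ∈ s.P, b ∈ F := fun b hb => by rw [hF]; simp only [Finset.mem_union]; tauto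
  set u' : ℂ → X := Function.update (Function.update s.u c (s.u a)) c' (J (s.u a)) with hu'
  have hu'c : u' c = s.u a := by
    rw [hu', Function.update_of_ne hcc'.symm, Function.update_self]
  have hu'c' : u' c' = J (s.u a) := by
    rw [hu', Function.update_self]
  have hu : ∀ b ∈ F, u' b = s.u b := by
    intro b hb
    have h1 : b ≠ c := by
      rintro rfl
      exact hcF hb
    have h2 : b ≠ c' := by
      rintro rfl
      exact hc'F hb
    rw [hu', Function.update_of_ne h2, Function.update_of_ne h1]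
  have hc'T : ∀ x, T x = c' • x → x = 0 := by
    intro x hx
    have h1 : T (J x) = c • J x := by
      rw [hT, hx, map_smulₛₗ, hcc]
    have h2 := hcT _ h1
    exact (map_eq_zero_iff J J.injective).1 h2
  have hac : a ≠ c := fun h => hca h.symm
  have hua : s.S (s.u a) = a • s.u a := hi.eig a (Finset.mem_union_left _ ha)
  have himg : u' '' (s.A : Set ℂ) = s.u '' (s.A : Set ℂ) := by
    apply Set.image_congr
    intro b hb
    exact hu b (hAF b hb)
  have herr : ‖s.S (s.u a) - c • s.u a‖ < η := by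
    rw [hua, ← sub_smul, norm_smul]
    have h1 : ‖a - c‖ < η / (‖s.u a‖ + 1) := by
      rw [norm_sub_rev]
      exact hcη
    rw [lt_div_iff₀ (by positivity)] at h1
    have h2 : 0 ≤ ‖a - c‖ := norm_nonneg _
    nlinarith
  refine ⟨⟨s.S, u', s.A, s.B, insert c (insert c' s.P)⟩, c, ?_, ?_, ?_, ?_, ?_, ?_, hca, ?_⟩
  · refine { inv := ?_, S_J := hs.S_J, A_J := hs.A_J, B_J := hs.B_J, P_J := ?_, u_J := ?_,
             nr := ?_ }
    · refine { A_mem := hi.A_mem, B_mem := hi.B_mem, P_mem := ?_, AB := hi.AB, AP := ?_,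
               BP := ?_, eig := ?_, ne := ?_, range := ?_, P_not := ?_ }
      · intro b hb
        rcases Finset.mem_insert.1 hb with rfl | hb
        · exact hcR
        · rcases Finset.mem_insert.1 hb with rfl | hb
          · exact hRJ c hcR
          · exact hi.P_mem b hb
      · simp only [Finset.disjoint_insert_right]
        exact ⟨fun h => hcF (hAF _ h), fun h => hc'F (hAF _ h), hi.AP⟩
      · simp only [Finset.disjoint_insert_right]
        exact ⟨fun h => hcF (hBF _ h), fun h => hc'F (hBF _ h), hi.BP⟩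
      · intro b hb
        have h1 := hu b (by rw [hF]; exact Finset.mem_union_left _ hb)
        simp only [h1]
        exact hi.eig b hb
      · intro b hb
        have h1 := hu b (by rw [hF]; exact Finset.mem_union_left _ hb)
        simp only [h1]
        exact hi.ne b hb
      · intro x
        simp only [himg]
        exact hi.range x
      · intro b hb
        rcases Finset.mem_insert.1 hb with rfl | hb
        · exact hcT
        · rcases Finset.mem_insert.1 hb with rfl | hb
          · exact hc'T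
          · exact hi.P_not b hb
    · intro b hb
      simp only [Finset.mem_insert] at hb ⊢
      rcases hb with rfl | rfl | hb
      · exact Or.inr (Or.inl rfl)
      · exact Or.inl hcc
      · exact Or.inr (Or.inr (hs.P_J b hb))
    · intro b hb
      have h0 : b = c ∨ b = c' ∨ b ∈ F := by
        rw [hF]
        simp only [Finset.mem_union, Finset.mem_insert] at hb ⊢
        tauto
      simp only
      rcases h0 with rfl | rfl | h0
      · rw [← hc', hu'c', hu'c]
      · rw [hcc, hu'c, hu'c', hJ]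
      · rw [hu b h0, hu _ (hFJ b h0)]
        exact hs.u_J b h0
    · intro b hb
      have h0 : b = c ∨ b = c' ∨ b ∈ F := by
        rw [hF]
        simp only [Finset.mem_union, Finset.mem_insert] at hb ⊢
        tauto
      rcases h0 with rfl | rfl | h0
      · exact hcc'
      · rw [hcc]; exact hcc'.symm
      · exact hs.nr b h0
  · refine { A_eq := rfl, B_sub := subset_rfl, P_sub := ?_, u_eq := hu, S_near := ?_ }
    · exact (Finset.subset_insert _ _).trans (Finset.subset_insert _ _)
    · simpa using hε.le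
  · intro b hb
    simp only [Finset.mem_insert] at hb
    simp only
    rcases hb with rfl | rfl | hb
    · rw [hu'c]
      exact herr
    · rw [hu'c', hs.S_J]
      have h1 : c' • J (s.u a) = J (c • s.u a) := by rw [map_smulₛₗ]
      rw [h1, ← map_sub, LinearIsometryEquiv.norm_map]
      exact herr
    · rw [hu b (hPF b hb)]
      exact hE b hb
  · simp only
    have h1 := Finset.card_insert_le c (insert c' s.P)
    have h2 := Finset.card_insert_le c' s.P
    omega
  · intro b hb
    simp only [Finset.mem_insert] at hb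
    rcases hb with rfl | rfl | hb
    · exact Or.inr hgap
    · refine Or.inr ?_
      rw [hcc, norm_sub_rev c' c]
      exact hgap
    · exact Or.inl hb
  · simp
  · simp only
    rw [hu'c, hu a haF, sub_self, norm_zero]
    exact hε

end Pool.Agent.Lib.MP_bb8441_an
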