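import Pool.Agent.Lib.MP_bb8441_an.RatOp
import Pool.Agent.Lib.MP_bb8441_an.JMain

/-! A symmetric quotient of Blaschke products of an operator, whose spectrum contains an arc. -/

set_option autoImplicit false

namespace Pool.Agent.Lib.MP_bb8441_an

open Polynomial

variable {X : Type*} [NormedAddCommGroup X] [NormedSpace ℂ X]

/-- The choice of the two zeros, symmetric version: antipodal points `a`, `a'` of a small circle close
to `ζ`. -/
theorem exists_pair_J (ζ : ℂ) (hζ : ‖ζ‖ = 1) (r : ℝ) (hr : 0 < r) (z₀ : ℂ)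
    (hz₀ : r ≤ ‖z₀ - ζ‖) (hz₀' : r ≤ ‖z₀ - (starRingEnd ℂ) ζ‖) :
    ∃ a a' : ℂ, a ≠ a' ∧ a ≠ 0 ∧ ‖a‖ < 1 ∧ ‖a'‖ < 1 ∧ ‖a - ζ‖ < r ∧ ‖a' - ζ‖ < r ∧
      ‖((starRingEnd ℂ) a)⁻¹ - ζ‖ < r ∧
      mobD a a' z₀ ≠ 0 ∧ mobD ((starRingEnd ℂ) a) ((starRingEnd ℂ) a') z₀ ≠ 0 ∧
      ‖mobN a a' z₀ / mobD a a' z₀ *
        (mobN ((starRingEnd ℂ) a) ((starRingEnd ℂ) a') z₀ /
          mobD ((starRingEnd ℂ) a) ((starRingEnd ℂ) a') z₀)‖ = 1 := by
  obtain ⟨s, hs0, hs1, hsr⟩ : ∃ s : ℝ, 0 < s ∧ s ≤ 1 / 6 ∧ 6 * s < r := by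
    refine ⟨min (1 / 6) (r / 12), by positivity, min_le_left _ _, ?_⟩
    have := min_le_right (1 / 6 : ℝ) (r / 12)
    linarith
  set b : ℝ → ℂ := fun θ => 1 - 2 * s + s * Complex.exp (θ * Complex.I) with hb
  have hexp : ∀ θ : ℝ, ‖Complex.exp (θ * Complex.I)‖ = 1 := Complex.norm_exp_ofReal_mul_I
  have hb1 : ∀ θ, ‖b θ - 1‖ ≤ 3 * s := by
    intro θ
    have : b θ - 1 = -(2 * s) + s * Complex.exp (θ * Complex.I) := by simp only [hb]; ring
    rw [this]
    refine (norm_add_le _ _).trans ?_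
    rw [norm_neg, norm_mul, norm_mul, hexp, Complex.norm_real, Real.norm_of_nonneg hs0.le]
    norm_num
    linarith
  have hb2 : ∀ θ, ‖b θ‖ ≤ 1 - s := by
    intro θ
    simp only [hb]
    refine (norm_add_le _ _).trans ?_
    rw [norm_mul, hexp, Complex.norm_real, Real.norm_of_nonneg hs0.le]
    have : ‖(1 : ℂ) - 2 * s‖ = 1 - 2 * s := by
      have h : (1 : ℂ) - 2 * s = ((1 - 2 * s : ℝ) : ℂ) := by push_cast; ring
      rw [h, Complex.norm_real, Real.norm_of_nonneg (by linarith)]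
    rw [this]; linarith
  have hb3 : ∀ θ, 1 / 2 ≤ ‖b θ‖ := by
    intro θ
    have h1 : ‖(1 : ℂ)‖ ≤ ‖b θ‖ + ‖b θ - 1‖ := by
      have : (1 : ℂ) = b θ - (b θ - 1) := by ring
      calc ‖(1 : ℂ)‖ = ‖b θ - (b θ - 1)‖ := by rw [← this]
        _ ≤ _ := norm_sub_le _ _
    rw [norm_one] at h1
    have := hb1 θ
    linarith
  set A : ℝ → ℂ := fun θ => ζ * b θ with hA
  have hA1 : ∀ θ, ‖A θ‖ < 1 := by
    intro θ
    simp only [hA]
    rw [norm_mul, hζ, one_mul]
    have := hb2 θ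
    linarith
  have hA2 : ∀ θ, ‖A θ - ζ‖ < r := by
    intro θ
    have : A θ - ζ = ζ * (b θ - 1) := by simp only [hA]; ring
    rw [this, norm_mul, hζ, one_mul]
    have := hb1 θ
    linarith
  have hA0 : ∀ θ, A θ ≠ 0 := by
    intro θ h
    have h1 : ‖A θ‖ = 0 := by rw [h, norm_zero]
    simp only [hA] at h1
    rw [norm_mul, hζ, one_mul] at h1
    have := hb3 θ
    linarith
  have hζζ : (starRingEnd ℂ) ζ * ζ = 1 := by
    rw [mul_comm, Complex.mul_conj, Complex.normSq_eq_norm_sq, hζ]; norm_num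
  have hA3 : ∀ θ, ‖((starRingEnd ℂ) (A θ))⁻¹ - ζ‖ < r := by
    intro θ
    have hcA : (starRingEnd ℂ) (A θ) ≠ 0 := by
      rw [Ne, map_eq_zero]; exact hA0 θ
    have h1 : ((starRingEnd ℂ) (A θ))⁻¹ - ζ = ((starRingEnd ℂ) (A θ))⁻¹ *
        (1 - (starRingEnd ℂ) (A θ) * ζ) := by
      field_simp
    have h2 : (1 : ℂ) - (starRingEnd ℂ) (A θ) * ζ = -(starRingEnd ℂ) (b θ - 1) := by
      simp only [hA]
      rw [map_mul, map_sub, map_one]
      linear_combination (-(starRingEnd ℂ) (b θ)) * hζζ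
    rw [h1, h2, norm_mul, norm_inv, norm_neg, Complex.norm_conj, Complex.norm_conj]
    have h3 : ‖A θ‖ = ‖b θ‖ := by simp only [hA]; rw [norm_mul, hζ, one_mul]
    rw [h3]
    have h4 := hb3 θ
    have h5 := hb1 θ
    have h6 : ‖b θ‖⁻¹ ≤ 2 := by
      rw [inv_le_comm₀ (by linarith) (by norm_num)]
      linarith
    have h7 : ‖b θ‖⁻¹ * ‖b θ - 1‖ ≤ 2 * (3 * s) :=
      mul_le_mul h6 h5 (norm_nonneg _) (by norm_num)
    linarith
  have hA2' : ∀ θ, ‖(starRingEnd ℂ) (A θ) - (starRingEnd ℂ) ζ‖ < r := by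
    intro θ
    rw [← map_sub, Complex.norm_conj]
    exact hA2 θ
  have hA3' : ∀ θ, ‖(A θ)⁻¹ - (starRingEnd ℂ) ζ‖ < r := by
    intro θ
    have h1 : (A θ)⁻¹ - (starRingEnd ℂ) ζ = (starRingEnd ℂ) (((starRingEnd ℂ) (A θ))⁻¹ - ζ) := by
      rw [map_sub, map_inv₀, Complex.conj_conj]
    rw [h1, Complex.norm_conj]
    exact hA3 θ
  -- the four quantities are nonzero
  have hz1 : ∀ θ, z₀ - A θ ≠ 0 := by
    intro θ h
    have : z₀ = A θ := sub_eq_zero.1 h
    rw [this] at hz₀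
    exact absurd (hA2 θ) (not_lt.2 hz₀)
  have hz1' : ∀ θ, z₀ - (starRingEnd ℂ) (A θ) ≠ 0 := by
    intro θ h
    have : z₀ = (starRingEnd ℂ) (A θ) := sub_eq_zero.1 h
    rw [this] at hz₀'
    exact absurd (hA2' θ) (not_lt.2 hz₀')
  have hz2 : ∀ θ, 1 - (starRingEnd ℂ) (A θ) * z₀ ≠ 0 := by
    intro θ h
    have hcA : (starRingEnd ℂ) (A θ) ≠ 0 := by
      rw [Ne, map_eq_zero]; exact hA0 θ
    have h1 : z₀ = ((starRingEnd ℂ) (A θ))⁻¹ := by
      field_simp
      linear_combination -h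
    rw [h1] at hz₀
    exact absurd (hA3 θ) (not_lt.2 hz₀)
  have hz2' : ∀ θ, 1 - A θ * z₀ ≠ 0 := by
    intro θ h
    have hcA := hA0 θ
    have h1 : z₀ = (A θ)⁻¹ := by
      field_simp
      linear_combination -h
    rw [h1] at hz₀'
    exact absurd (hA3' θ) (not_lt.2 hz₀')
  set F : ℝ → ℝ := fun θ => (‖z₀ - A θ‖ * ‖z₀ - (starRingEnd ℂ) (A θ)‖) /
    (‖1 - (starRingEnd ℂ) (A θ) * z₀‖ * ‖1 - A θ * z₀‖) with hF
  have hbcont : Continuous b := by
    simp only [hb]; fun_prop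
  have hAcont : Continuous A := by
    simp only [hA]; fun_prop
  have hcAcont : Continuous fun θ => (starRingEnd ℂ) (A θ) := Complex.continuous_conj.comp hAcont
  have hFcont : Continuous F := by
    apply Continuous.div
    · fun_prop
    · fun_prop
    · intro θ
      exact mul_ne_zero (norm_ne_zero_iff.2 (hz2 θ)) (norm_ne_zero_iff.2 (hz2' θ))
  have hper : ∀ θ : ℝ, A (θ + 2 * Real.pi) = A θ := by
    intro θ
    simp only [hA, hb]
    congr 3
    push_cast
    rw [add_mul, Complex.exp_add, Complex.exp_two_pi_mul_I, mul_one]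
  obtain ⟨θ, -, hθ⟩ : ∃ θ ∈ Set.Icc (0 : ℝ) Real.pi, F θ - F (θ + Real.pi) = 0 := by
    have hcont : ContinuousOn (fun θ => F θ - F (θ + Real.pi)) (Set.Icc 0 Real.pi) := by
      apply Continuous.continuousOn
      exact hFcont.sub (hFcont.comp (by fun_prop))
    have h1 : F (Real.pi + Real.pi) = F 0 := by
      have h2 : Real.pi + Real.pi = 0 + 2 * Real.pi := by ring
      rw [h2]
      simp only [hF]
      rw [hper 0]
    by_cases h0 : F 0 - F Real.pi ≤ 0
    · have h3 : (0 : ℝ) ∈ Set.Icc (F 0 - F (0 + Real.pi)) (F Real.pi - F (Real.pi + Real.pi)) := by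
        rw [zero_add, h1]
        constructor <;> linarith
      obtain ⟨θ, hθ, h4⟩ := intermediate_value_Icc Real.pi_pos.le hcont h3
      exact ⟨θ, hθ, h4⟩
    · push Not at h0
      have h3 : (0 : ℝ) ∈ Set.Icc (F Real.pi - F (Real.pi + Real.pi)) (F 0 - F (0 + Real.pi)) := by
        rw [zero_add, h1]
        constructor <;> linarith
      obtain ⟨θ, hθ, h4⟩ := intermediate_value_Icc' Real.pi_pos.le hcont h3
      exact ⟨θ, hθ, h4⟩
  have hFF : F θ = F (θ + Real.pi) := by linarith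
  have hD : mobD (A θ) (A (θ + Real.pi)) z₀ ≠ 0 := mul_ne_zero (hz2 θ) (hz1 _)
  have hD' : mobD ((starRingEnd ℂ) (A θ)) ((starRingEnd ℂ) (A (θ + Real.pi))) z₀ ≠ 0 := by
    rw [mobD, Complex.conj_conj]
    exact mul_ne_zero (hz2' θ) (hz1' _)
  refine ⟨A θ, A (θ + Real.pi), ?_, hA0 _, hA1 _, hA1 _, hA2 _, hA2 _, hA3 _, hD, hD', ?_⟩
  · intro h
    have h1 : A θ - A (θ + Real.pi) = ζ * (2 * s * Complex.exp (θ * Complex.I)) := by
      simp only [hA, hb]
      have h2 : Complex.exp (((θ + Real.pi : ℝ) : ℂ) * Complex.I) =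
          -Complex.exp (θ * Complex.I) := by
        push_cast
        rw [add_mul, Complex.exp_add, Complex.exp_pi_mul_I]; ring
      rw [h2]; ring
    rw [h, sub_self] at h1
    have h3 : ‖ζ * (2 * s * Complex.exp (θ * Complex.I))‖ = 2 * s := by
      rw [norm_mul, hζ, one_mul, norm_mul, hexp, mul_one, norm_mul, Complex.norm_real,
        Real.norm_of_nonneg hs0.le]
      norm_num
    rw [← h1, norm_zero] at h3
    linarith
  · simp only [hF] at hFF
    rw [norm_mul, norm_div, norm_div, mobN, mobD, mobN, mobD, norm_mul, norm_mul, norm_mul,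
      norm_mul, Complex.conj_conj, Complex.conj_conj]
    have p1 := norm_ne_zero_iff.2 (hz1 θ)
    have p2 := norm_ne_zero_iff.2 (hz1 (θ + Real.pi))
    have p3 := norm_ne_zero_iff.2 (hz2 θ)
    have p4 := norm_ne_zero_iff.2 (hz2 (θ + Real.pi))
    have p1' := norm_ne_zero_iff.2 (hz1' θ)
    have p2' := norm_ne_zero_iff.2 (hz1' (θ + Real.pi))
    have p3' := norm_ne_zero_iff.2 (hz2' θ)
    have p4' := norm_ne_zero_iff.2 (hz2' (θ + Real.pi))
    rw [div_eq_div_iff (mul_ne_zero p3 p3') (mul_ne_zero p4 p4')] at hFF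
    rw [div_mul_div_comm, div_eq_one_iff_eq (mul_ne_zero (mul_ne_zero p3 p2)
      (mul_ne_zero p3' p2'))]
    linarith

theorem r14_aeval_J (J : X ≃ₗᵢ⋆[ℂ] X) (T : X →L[ℂ] X) (hTJ : ∀ x, T (J x) = J (T x))
    (p : ℂ[X]) : ∀ x : X, (aeval T p : X →L[ℂ] X) (J x) =
      J ((aeval T (p.map (starRingEnd ℂ)) : X →L[ℂ] X) x) := by
  induction p using Polynomial.induction_on with
  | C a =>
    intro x
    rw [map_C, aeval_C, aeval_C, Algebra.algebraMap_eq_smul_one, Algebra.algebraMap_eq_smul_one]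
    change a • J x = J ((starRingEnd ℂ) a • x)
    rw [map_smulₛₗ, Complex.conj_conj]
  | add p q hp hq =>
    intro x
    rw [Polynomial.map_add, map_add, map_add]
    change (aeval T p : X →L[ℂ] X) (J x) + (aeval T q : X →L[ℂ] X) (J x) =
      J ((aeval T (p.map (starRingEnd ℂ)) : X →L[ℂ] X) x +
        (aeval T (q.map (starRingEnd ℂ)) : X →L[ℂ] X) x)
    rw [hp x, hq x, map_add]
  | monomial n a ih =>
    intro x
    have e1 : ∀ q : ℂ[X], (aeval T (q * Polynomial.X) : X →L[ℂ] X) = (aeval T q) * T := by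
      intro q
      rw [map_mul, aeval_X]
    rw [pow_succ, ← mul_assoc, Polynomial.map_mul, map_X, e1, e1]
    change (aeval T (C a * Polynomial.X ^ n) : X →L[ℂ] X) (T (J x)) =
      J ((aeval T ((C a * Polynomial.X ^ n).map (starRingEnd ℂ)) : X →L[ℂ] X) (T x))
    rw [hTJ, ih (T x)]

/-- The symmetric quotient. -/
theorem exists_quotient_J (J : X ≃ₗᵢ⋆[ℂ] X) (hJ : ∀ x, J (J x) = x)
    (T : X →L[ℂ] X) (hTJ : ∀ x, T (J x) = J (T x))
    (hT : ∀ c : ℂ, DenseRange fun x => T x - c • x)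
    (ζ : ℂ) (hζ : ‖ζ‖ = 1) (r : ℝ) (hr : 0 < r) (hrζ : r ≤ ‖ζ - (starRingEnd ℂ) ζ‖ / 2)
    (hζr : ∀ z ∈ spectrum ℂ T, r ≤ ‖z - ζ‖)
    (hint : (interior (spectrum ℂ T)).Nonempty) :
    ∃ (V : X →L[ℂ] X), (∀ x, V (J x) = J (V x)) ∧
      (∀ c : ℂ, DenseRange fun x => V x - c • x) ∧
      (∀ c : ℂ, ‖c‖ = 1 → ∀ x, T x = c • x → ∃ d : ℂ, ‖d‖ = 1 ∧ V x = d • x) ∧
      ∃ α β : ℝ, α < β ∧ ∀ t : ℝ, α ≤ t → t ≤ β → Complex.exp (t * Complex.I) ∈ spectrum ℂ V := by
  obtain ⟨z₀, hz₀⟩ := hint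
  have hz₀σ : z₀ ∈ spectrum ℂ T := interior_subset hz₀
  have hζr' : ∀ z ∈ spectrum ℂ T, r ≤ ‖z - (starRingEnd ℂ) ζ‖ := by
    intro z hz
    have h1 := hζr _ (spectrum_J J hJ T hTJ z hz)
    rwa [← Complex.norm_conj, map_sub, Complex.conj_conj] at h1
  obtain ⟨a, a', haa', ha0, ha1, ha'1, har, ha'r, hair, hD0, hD0', hone⟩ :=
    exists_pair_J ζ hζ r hr z₀ (hζr z₀ hz₀σ) (hζr' z₀ hz₀σ)
  -- the conjugate pair
  set b : ℂ := (starRingEnd ℂ) a with hb
  set b' : ℂ := (starRingEnd ℂ) a' with hb'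
  have hcb : (starRingEnd ℂ) b = a := Complex.conj_conj a
  have hcb' : (starRingEnd ℂ) b' = a' := Complex.conj_conj a'
  have hb1 : ‖b‖ < 1 := by rw [hb, Complex.norm_conj]; exact ha1
  have hb'1 : ‖b'‖ < 1 := by rw [hb', Complex.norm_conj]; exact ha'1
  have hb0 : b ≠ 0 := by rw [hb, Ne, map_eq_zero]; exact ha0
  have haσ : b⁻¹ ∉ spectrum ℂ T := fun h => absurd hair (not_lt.2 (hζr _ h))
  have ha'σ : a' ∉ spectrum ℂ T := fun h => absurd ha'r (not_lt.2 (hζr _ h))
  have hbσ : a⁻¹ ∉ spectrum ℂ T := by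
    intro h
    have h1 := spectrum_J J hJ T hTJ _ h
    rw [map_inv₀] at h1
    exact haσ h1
  have hb'σ : b' ∉ spectrum ℂ T := by
    intro h
    have h1 := spectrum_J J hJ T hTJ _ h
    rw [hcb'] at h1
    exact ha'σ h1
  set N : ℂ[X] := ((Polynomial.X - C a) * (1 - C b' * Polynomial.X)) *
    ((Polynomial.X - C b) * (1 - C a' * Polynomial.X)) with hN
  set D : ℂ[X] := ((1 - C b * Polynomial.X) * (Polynomial.X - C a')) *
    ((1 - C a * Polynomial.X) * (Polynomial.X - C b')) with hD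
  have hNe : ∀ z, N.eval z = mobN a a' z * mobN b b' z := by
    intro z
    rw [hN, mobN, mobN, hcb']
    simp only [eval_mul, eval_sub, eval_X, eval_C, eval_one, hb']
  have hDe : ∀ z, D.eval z = mobD a a' z * mobD b b' z := by
    intro z
    rw [hD, mobD, mobD, hcb]
    simp only [eval_mul, eval_sub, eval_X, eval_C, eval_one, hb]
  have hNJ : N.map (starRingEnd ℂ) = N := by
    rw [hN]
    simp only [Polynomial.map_mul, Polynomial.map_sub, map_X, map_C, Polynomial.map_one, hcb,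
      hcb', ← hb, ← hb']
    ring
  have hDJ : D.map (starRingEnd ℂ) = D := by
    rw [hD]
    simp only [Polynomial.map_mul, Polynomial.map_sub, map_X, map_C, Polynomial.map_one, hcb,
      hcb', ← hb, ← hb']
    ring
  have hDop : aeval T D = opD T a a' * opD T b b' := by
    rw [hD, opD, opD, hcb]
    simp only [map_mul, map_sub, aeval_X, aeval_C, map_one, Algebra.algebraMap_eq_smul_one, ← hb,
      smul_mul_assoc, one_mul]
  have hDunit : IsUnit (aeval T D : X →L[ℂ] X) := by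
    rw [hDop]
    refine (isUnit_opD T a a' ha0 haσ ha'σ).mul (isUnit_opD T b b' hb0 ?_ hb'σ)
    rw [hcb]
    exact hbσ
  have hne1 : ∀ c : ℂ, ‖c‖ < 1 → (1 : ℂ) - c ≠ 0 := by
    intro c hc h
    have h1 : c = 1 := (sub_eq_zero.1 h).symm
    rw [h1, norm_one] at hc
    exact lt_irrefl _ hc
  have hDa : D.eval a ≠ 0 := by
    rw [hD]
    simp only [eval_mul, eval_sub, eval_X, eval_C, eval_one]
    refine mul_ne_zero (mul_ne_zero ?_ (sub_ne_zero.2 haa')) (mul_ne_zero ?_ ?_)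
    · apply hne1
      rw [norm_mul]
      nlinarith [norm_nonneg a, norm_nonneg b]
    · apply hne1
      rw [norm_mul]
      nlinarith [norm_nonneg a]
    · intro h
      have h1 : a = b' := sub_eq_zero.1 h
      have h2 : ‖b' - (starRingEnd ℂ) ζ‖ < r := by
        rw [hb', ← map_sub, Complex.norm_conj]; exact ha'r
      have h3 : ‖ζ - (starRingEnd ℂ) ζ‖ ≤ ‖a - ζ‖ + ‖b' - (starRingEnd ℂ) ζ‖ := by
        have : ζ - (starRingEnd ℂ) ζ = -(a - ζ) + (b' - (starRingEnd ℂ) ζ) := by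
          rw [h1]; ring
        rw [this]
        refine (norm_add_le _ _).trans ?_
        rw [norm_neg]
      linarith
  have hNa : N.eval a = 0 := by
    rw [hN]
    simp only [eval_mul, eval_sub, eval_X, eval_C, eval_one, sub_self, zero_mul]
  have hN1 : N.eval 1 ≠ 0 := by
    rw [hN]
    simp only [eval_mul, eval_sub, eval_X, eval_C, eval_one, mul_one]
    exact mul_ne_zero (mul_ne_zero (hne1 _ ha1) (hne1 _ hb'1))
      (mul_ne_zero (hne1 _ hb1) (hne1 _ ha'1))
  have hND : ∀ c : ℂ, N - C c * D ≠ 0 := by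
    intro c h
    have h1 : N.eval a - c * D.eval a = 0 := by
      have := congrArg (Polynomial.eval a) h
      simpa only [eval_sub, eval_mul, eval_C, eval_zero] using this
    rw [hNa, zero_sub, neg_eq_zero, mul_eq_zero] at h1
    rcases h1 with h1 | h1
    · rw [h1, C_0, zero_mul, sub_zero] at h
      rw [h, eval_zero] at hN1
      exact hN1 rfl
    · exact hDa h1
  obtain ⟨V, hV1, hV2, hV3, hV4⟩ := exists_ratOp T hT N D hDunit hND
  refine ⟨V, ?_, hV2, ?_, ?_⟩
  · intro x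
    obtain ⟨u, hu⟩ := hDunit
    obtain ⟨y, rfl⟩ : ∃ y, (aeval T D : X →L[ℂ] X) y = x := by
      refine ⟨((u⁻¹ : (X →L[ℂ] X)ˣ) : X →L[ℂ] X) x, ?_⟩
      rw [← hu]
      have : (u : X →L[ℂ] X) * ((u⁻¹ : (X →L[ℂ] X)ˣ) : X →L[ℂ] X) = 1 := by
        rw [← Units.val_mul, mul_inv_cancel, Units.val_one]
      exact congrArg (fun f : X →L[ℂ] X => f x) this
    have hVD : ∀ w, V ((aeval T D : X →L[ℂ] X) w) = (aeval T N : X →L[ℂ] X) w := fun w =>
      congrArg (fun f : X →L[ℂ] X => f w) hV1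
    have h1 := r14_aeval_J J T hTJ D y
    have h2 := r14_aeval_J J T hTJ N y
    rw [hDJ] at h1
    rw [hNJ] at h2
    rw [← h1, hVD, hVD, h2]
  · intro c hc x hx
    obtain ⟨h1, h2⟩ := norm_mob a a' c hc ha1 ha'1
    obtain ⟨h3, h4⟩ := norm_mob b b' c hc hb1 hb'1
    refine ⟨N.eval c / D.eval c, ?_, hV3 c x ?_ hx⟩
    · rw [hNe, hDe, mul_div_mul_comm, norm_mul, h2, h4, one_mul]
    · rw [hDe]
      exact mul_ne_zero h1 h3
  · set G : ℂ → ℂ := fun z => N.eval z / D.eval z with hG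
    have hDz₀ : D.eval z₀ ≠ 0 := by
      rw [hDe]; exact mul_ne_zero hD0 hD0'
    have hDne : ∀ z ∈ spectrum ℂ T, D.eval z ≠ 0 := by
      intro z hz
      rw [hD]
      simp only [eval_mul, eval_sub, eval_X, eval_C, eval_one]
      refine mul_ne_zero (mul_ne_zero ?_ ?_) (mul_ne_zero ?_ ?_)
      · intro h
        have h2 : z = b⁻¹ := by
          field_simp
          linear_combination -h
        exact haσ (h2 ▸ hz)
      · intro h
        exact ha'σ ((sub_eq_zero.1 h) ▸ hz)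
      · intro h
        have h2 : z = a⁻¹ := by
          field_simp
          linear_combination -h
        exact hbσ (h2 ▸ hz)
      · intro h
        exact hb'σ ((sub_eq_zero.1 h) ▸ hz)
    have hGspec : ∀ z ∈ spectrum ℂ T, G z ∈ spectrum ℂ V := fun z hz =>
      hV4 z hz (hDne z hz)
    have hGone : ‖G z₀‖ = 1 := by
      simp only [hG]
      rw [hNe, hDe, mul_div_mul_comm]
      exact hone
    have hGan : AnalyticAt ℂ G z₀ := by
      apply AnalyticAt.div
      · exact N.differentiable.analyticAt z₀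
      · exact D.differentiable.analyticAt z₀
      · exact hDz₀
    rcases hGan.eventually_constant_or_nhds_le_map_nhds with hconst | hopen
    · exfalso
      have hDcont : ContinuousAt (fun z => D.eval z) z₀ := D.continuous.continuousAt
      have hev : ∀ᶠ z in nhds z₀, (N - C (G z₀) * D).IsRoot z := by
        filter_upwards [hconst, hDcont.eventually_ne hDz₀] with z hz hz'
        rw [IsRoot.def, eval_sub, eval_C_mul, ← hz]
        change N.eval z - N.eval z / D.eval z * D.eval z = 0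
        rw [div_mul_cancel₀ _ hz', sub_self]
      have hinf : {z | (N - C (G z₀) * D).IsRoot z}.Infinite :=
        infinite_of_mem_nhds z₀ hev
      exact hND (G z₀) (Polynomial.eq_zero_of_infinite_isRoot _ hinf)
    · have h1 : G '' (spectrum ℂ T) ∈ nhds (G z₀) := by
        apply hopen
        rw [Filter.mem_map]
        exact Filter.mem_of_superset (mem_interior_iff_mem_nhds.1 hz₀)
          (Set.subset_preimage_image _ _)
      have h2 : G z₀ = Complex.exp ((Complex.arg (G z₀) : ℝ) * Complex.I) := by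
        have := Complex.norm_mul_exp_arg_mul_I (G z₀)
        rw [hGone] at this
        simpa using this.symm
      have h3 : ContinuousAt (fun t : ℝ => Complex.exp (t * Complex.I)) (Complex.arg (G z₀)) := by
        have : Continuous (fun t : ℝ => Complex.exp (t * Complex.I)) := by fun_prop
        exact this.continuousAt
      have h4 : ∀ᶠ t : ℝ in nhds (Complex.arg (G z₀)),
          Complex.exp (t * Complex.I) ∈ G '' (spectrum ℂ T) := by
        apply h3.eventually_mem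
        rw [← h2]
        exact h1
      obtain ⟨ρ, hρ, hball⟩ := Metric.eventually_nhds_iff.1 h4
      refine ⟨Complex.arg (G z₀) - ρ / 2, Complex.arg (G z₀) + ρ / 2, by linarith, ?_⟩
      intro t ht1 ht2
      obtain ⟨z, hz, hzt⟩ := hball (y := t) (by
        rw [Real.dist_eq, abs_lt]; constructor <;> linarith)
      rw [← hzt]
      exact hGspec z hz

/-- Symmetric operators with spanning unimodular eigenvectors and with interior points in the
spectrum. -/
theorem main_interior_J [CompleteSpace X] [TopologicalSpace.SeparableSpace X]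
    (J : X ≃ₗᵢ⋆[ℂ] X) (hJ : ∀ x, J (J x) = x)
    (T : X →L[ℂ] X) (hT : ∀ x, T (J x) = J (T x))
    (H1 : ∀ c : ℂ, DenseRange fun x => T x - c • x)
    (hd : Dense (Submodule.span ℂ {x : X | ∃ c : ℂ, ‖c‖ = 1 ∧ T x = c • x} : Set X))
    (hint : (interior (spectrum ℂ T)).Nonempty) :
    ∃ S : X →L[ℂ] X, (∀ x, S (J x) = J (S x)) ∧ Chaotic S ∧ FrequentlyHypercyclic S := by
  by_cases hall : ∀ c : ℂ, ‖c‖ = 1 → (starRingEnd ℂ) c ≠ c → c ∈ spectrum ℂ T
  · -- an arc which does not contain real numbers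
    refine main_arc_J J hJ T hT H1 hd 1 2 one_lt_two ?_
    intro t ht1 ht2
    apply hall _ (Complex.norm_exp_ofReal_mul_I t)
    intro h
    have h1 := Complex.conj_eq_iff_im.1 h
    rw [Complex.exp_ofReal_mul_I_im] at h1
    have h2 : 0 < Real.sin t := Real.sin_pos_of_pos_of_lt_pi (by linarith)
      (by linarith [Real.pi_gt_three])
    linarith
  · push Not at hall
    obtain ⟨ζ, hζ, hζc, hζσ⟩ := hall
    have hcl : IsClosed (spectrum ℂ T) := spectrum.isClosed T
    obtain ⟨r₀, hr₀, hball⟩ := Metric.isOpen_iff.1 hcl.isOpen_compl ζ hζσ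
    have hpos : 0 < ‖ζ - (starRingEnd ℂ) ζ‖ / 2 := by
      have : 0 < ‖ζ - (starRingEnd ℂ) ζ‖ := norm_pos_iff.2 (sub_ne_zero.2 (Ne.symm hζc))
      linarith
    set r := min r₀ (‖ζ - (starRingEnd ℂ) ζ‖ / 2) with hr
    have hr0 : 0 < r := lt_min hr₀ hpos
    have hζr : ∀ z ∈ spectrum ℂ T, r ≤ ‖z - ζ‖ := by
      intro z hz
      by_contra hlt
      push Not at hlt
      exact hball (by
        rw [Metric.mem_ball, dist_eq_norm]; exact hlt.trans_le (min_le_left _ _)) hz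
    obtain ⟨V, hVJ, hV1, hV2, α, β, hαβ, hV3⟩ :=
      exists_quotient_J J hJ T hT H1 ζ hζ r hr0 (min_le_right _ _) hζr hint
    refine main_arc_J J hJ V hVJ hV1 ?_ α β hαβ hV3
    refine hd.mono (SetLike.coe_subset_coe.mpr (Submodule.span_mono ?_))
    rintro x ⟨c, hc, hx⟩
    obtain ⟨d, hd1, hd2⟩ := hV2 c hc x hx
    exact ⟨d, hd1, hd2⟩

end Pool.Agent.Lib.MP_bb8441_an
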