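import Mathlib

/-! For lacunary rotations the alternating sum is small for most times, uniformly in the length of
the time interval. -/

set_option autoImplicit false

namespace Pool.Agent.Lib.MP_bb8441_an

open Finset

theorem geom_bound (z : ℂ) (hz : ‖z‖ = 1) (hne : z ≠ 1) (N : ℕ) :
    ‖∑ t ∈ range N, z ^ t‖ ≤ 2 / ‖z - 1‖ := by
  rw [geom_sum_eq hne, norm_div]
  apply div_le_div_of_nonneg_right _ (norm_nonneg _)
  calc ‖z ^ N - 1‖ ≤ ‖z ^ N‖ + ‖(1 : ℂ)‖ := norm_sub_le _ _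
    _ = 2 := by rw [norm_pow, hz, one_pow, norm_one]; norm_num

theorem sq_sum_bound (n N : ℕ) (a ω : ℕ → ℂ) (ha : ∀ l < n, ‖a l‖ = 1) (h1 : ∀ l < n, ‖ω l‖ = 1)
    (δ : ℝ) (hδ : 0 < δ) (hsep : ∀ l < n, ∀ l' < n, l ≠ l' → δ ≤ ‖ω l - ω l'‖) :
    ∑ t ∈ range N, ‖∑ l ∈ range n, a l * ω l ^ t‖ ^ 2 ≤ n * N + n ^ 2 * (2 / δ) := by
  have key : ((∑ t ∈ range N, ‖∑ l ∈ range n, a l * ω l ^ t‖ ^ 2 : ℝ) : ℂ) =
      ∑ l ∈ range n, ∑ l' ∈ range n, (a l * (starRingEnd ℂ) (a l')) *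
        ∑ t ∈ range N, (ω l * (starRingEnd ℂ) (ω l')) ^ t := by
    push_cast
    have : ∀ t ∈ range N, ((‖∑ l ∈ range n, a l * ω l ^ t‖ : ℂ)) ^ 2 =
        ∑ l ∈ range n, ∑ l' ∈ range n, (a l * (starRingEnd ℂ) (a l')) *
          (ω l * (starRingEnd ℂ) (ω l')) ^ t := by
      intro t _
      rw [← Complex.mul_conj']
      rw [map_sum, Finset.sum_mul_sum]
      apply sum_congr rfl
      intro l _
      apply sum_congr rfl
      intro l' _
      rw [map_mul, map_pow, mul_pow]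
      ring
    rw [sum_congr rfl this, sum_comm]
    apply sum_congr rfl
    intro l _
    rw [sum_comm]
    apply sum_congr rfl
    intro l' _
    rw [mul_sum]
  have hnn : 0 ≤ ∑ t ∈ range N, ‖∑ l ∈ range n, a l * ω l ^ t‖ ^ 2 :=
    sum_nonneg fun _ _ => by positivity
  have h2 : ∑ t ∈ range N, ‖∑ l ∈ range n, a l * ω l ^ t‖ ^ 2 =
      ‖((∑ t ∈ range N, ‖∑ l ∈ range n, a l * ω l ^ t‖ ^ 2 : ℝ) : ℂ)‖ := by
    rw [Complex.norm_real, Real.norm_of_nonneg hnn]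
  rw [h2, key]
  have h3 : ∀ l ∈ range n, ∀ l' ∈ range n,
      ‖(a l * (starRingEnd ℂ) (a l')) * ∑ t ∈ range N, (ω l * (starRingEnd ℂ) (ω l')) ^ t‖ ≤
        (if l = l' then (N : ℝ) else 0) + 2 / δ := by
    intro l hl l' hl'
    rw [mem_range] at hl hl'
    rw [norm_mul, norm_mul, RCLike.norm_conj, ha l hl, ha l' hl', one_mul, one_mul]
    by_cases h : l = l'
    · subst h
      rw [if_pos rfl]
      have h4 : ‖∑ t ∈ range N, (ω l * (starRingEnd ℂ) (ω l)) ^ t‖ ≤ N := by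
        calc _ ≤ ∑ t ∈ range N, ‖(ω l * (starRingEnd ℂ) (ω l)) ^ t‖ := norm_sum_le _ _
          _ = ∑ t ∈ range N, (1 : ℝ) := by
              apply sum_congr rfl
              intro t _
              rw [norm_pow, norm_mul, RCLike.norm_conj, h1 l hl]; norm_num
          _ = N := by simp
      have : 0 ≤ 2 / δ := by positivity
      linarith
    · rw [if_neg h, zero_add]
      have hnz : ω l' ≠ 0 := by
        rw [← norm_ne_zero_iff, h1 l' hl']; norm_num
      have hcc : ω l' * (starRingEnd ℂ) (ω l') = 1 := by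
        rw [Complex.mul_conj', h1 l' hl']; norm_num
      have hz1 : ‖ω l * (starRingEnd ℂ) (ω l')‖ = 1 := by
        rw [norm_mul, RCLike.norm_conj, h1 l hl, h1 l' hl']; norm_num
      have hzd : ‖ω l * (starRingEnd ℂ) (ω l') - 1‖ = ‖ω l - ω l'‖ := by
        rw [← hcc, ← sub_mul, norm_mul, RCLike.norm_conj, h1 l' hl', mul_one]
      have hd := hsep l hl l' hl' h
      have hne : ω l * (starRingEnd ℂ) (ω l') ≠ 1 := by
        intro h5
        rw [h5, sub_self, norm_zero] at hzd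
        linarith
      calc _ ≤ 2 / ‖ω l * (starRingEnd ℂ) (ω l') - 1‖ := geom_bound _ hz1 hne N
        _ ≤ 2 / δ := by
            rw [hzd]
            exact div_le_div_of_nonneg_left (by norm_num) hδ hd
  calc _ ≤ ∑ l ∈ range n, ∑ l' ∈ range n,
        ((if l = l' then (N : ℝ) else 0) + 2 / δ) := by
        refine (norm_sum_le _ _).trans (sum_le_sum fun l hl => ?_)
        exact (norm_sum_le _ _).trans (sum_le_sum fun l' hl' => h3 l hl l' hl')
    _ = n * N + n ^ 2 * (2 / δ) := by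
        simp only [sum_add_distrib, sum_const, card_range, nsmul_eq_mul]
        have : ∀ l ∈ range n, (∑ l' ∈ range n, if l = l' then (N : ℝ) else 0) = N := by
          intro l hl
          rw [Finset.sum_ite_eq, if_pos hl]
        rw [sum_congr rfl this]
        simp only [sum_const, card_range, nsmul_eq_mul]
        ring

theorem alt_block (m L : ℕ) : ‖∑ l ∈ Ico m L, (-1 : ℂ) ^ l‖ ≤ 1 := by
  by_cases h : m ≤ L
  · rw [sum_Ico_eq_sub _ h, neg_one_geom_sum, neg_one_geom_sum]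
    split_ifs <;> simp
  · rw [Ico_eq_empty (by omega)]
    simp

theorem pow_sub_one_le (z : ℂ) (hz : ‖z‖ = 1) (t : ℕ) : ‖z ^ t - 1‖ ≤ t * ‖z - 1‖ := by
  induction t with
  | zero => simp
  | succ t ih =>
    have : z ^ (t + 1) - 1 = (z ^ t - 1) * z + (z - 1) := by ring
    rw [this]
    calc _ ≤ ‖(z ^ t - 1) * z‖ + ‖z - 1‖ := norm_add_le _ _
      _ = ‖z ^ t - 1‖ + ‖z - 1‖ := by rw [norm_mul, hz, mul_one]
      _ ≤ _ := by push_cast; linarith

theorem lacunary_count (L : ℕ) (hL : 1 ≤ L) (κ : ℝ) (hκ0 : 0 < κ) (hκ : 8 ≤ κ * L)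
    (ω : ℕ → ℂ) (h1 : ∀ l < L, ‖ω l‖ = 1) (hne : ∀ l < L, ω l ≠ 1)
    (hlac : ∀ l, l + 1 < L → ‖ω (l + 1) - 1‖ ≤ ‖ω l - 1‖ / (8 * (L : ℝ) ^ 2)) (N : ℕ) :
    (((Finset.range N).filter fun t : ℕ =>
      κ * L ≤ ‖∑ l ∈ Finset.range L, (-1 : ℂ) ^ l * ω l ^ t‖).card : ℝ) ≤
      16 / (κ ^ 2 * L) * N := by
  rcases Nat.eq_zero_or_pos N with hN | hN
  · subst hN; simp
  have hLr : (1 : ℝ) ≤ L := by exact_mod_cast hL
  have hNr : (0 : ℝ) < N := by exact_mod_cast hN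
  have hL2 : (8 : ℝ) ≤ 8 * (L : ℝ) ^ 2 := by nlinarith
  have hd8 : ∀ l, l + 1 < L → ‖ω (l + 1) - 1‖ ≤ ‖ω l - 1‖ / 8 := by
    intro l hl
    refine (hlac l hl).trans ?_
    exact div_le_div_of_nonneg_left (norm_nonneg _) (by norm_num) hL2
  have hdec : ∀ k l, l + k < L → ‖ω (l + k) - 1‖ ≤ ‖ω l - 1‖ := by
    intro k
    induction k with
    | zero => intro l _; simp
    | succ k ih =>
      intro l hl
      have h2 := hd8 (l + k) (by omega)
      have h3 := ih l (by omega)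
      have h4 := norm_nonneg (ω (l + k) - 1)
      rw [← add_assoc]
      linarith
  classical
  have hex : ∃ l, L ≤ l ∨ N * ‖ω l - 1‖ ≤ 1 / (2 * L) := ⟨L, Or.inl le_rfl⟩
  set m := Nat.find hex with hm
  have hmL : m ≤ L := Nat.find_min' hex (Or.inl le_rfl)
  have hbelow : ∀ l < m, 1 / (2 * (L : ℝ)) < N * ‖ω l - 1‖ := by
    intro l hl
    have := Nat.find_min hex hl
    push Not at this
    exact this.2
  have hslow : ∀ l, m ≤ l → l < L → N * ‖ω l - 1‖ ≤ 1 / (2 * (L : ℝ)) := by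
    intro l hl hlL
    have h2 := Nat.find_spec hex
    rw [← hm] at h2
    rcases h2 with h2 | h2
    · omega
    · have h3 := hdec (l - m) m (by omega)
      rw [Nat.add_sub_cancel' hl] at h3
      exact (mul_le_mul_of_nonneg_left h3 hNr.le).trans h2
  have hfast : ∀ l < m - 1, 4 * (L : ℝ) ≤ N * ‖ω l - 1‖ := by
    intro l hl
    have h2 := hbelow (l + 1) (by omega)
    have h3 := hlac l (by omega)
    have h4 : 1 / (2 * (L : ℝ)) < N * (‖ω l - 1‖ / (8 * (L : ℝ) ^ 2)) :=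
      h2.trans_le (mul_le_mul_of_nonneg_left h3 hNr.le)
    have h5 : N * (‖ω l - 1‖ / (8 * (L : ℝ) ^ 2)) = (N * ‖ω l - 1‖) / (8 * (L : ℝ) ^ 2) := by ring
    rw [h5, div_lt_div_iff₀ (by positivity) (by positivity)] at h4
    have h6 : 0 < (L : ℝ) := by linarith
    by_contra hcon
    push Not at hcon
    have : N * ‖ω l - 1‖ * (2 * (L : ℝ)) < 4 * L * (2 * L) :=
      mul_lt_mul_of_pos_right hcon (by positivity)
    nlinarith
  -- separation of the fast block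
  have hsep0 : ∀ l < m - 1, ∀ l' < m - 1, l < l' → 7 / 2 * (L : ℝ) / N ≤ ‖ω l - ω l'‖ := by
    intro l hl l' hl' hll
    have h2 := hd8 l (by omega)
    have h3 := hdec (l' - (l + 1)) (l + 1) (by omega)
    rw [Nat.add_sub_cancel' (by omega : l + 1 ≤ l')] at h3
    have h4 := hfast l hl
    have h5 : ‖ω l - 1‖ ≤ ‖ω l - ω l'‖ + ‖ω l' - 1‖ := by
      have : ω l - 1 = (ω l - ω l') + (ω l' - 1) := by ring
      rw [this]; exact norm_add_le _ _
    rw [div_le_iff₀ hNr]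
    have h6 : 7 / 8 * ‖ω l - 1‖ ≤ ‖ω l - ω l'‖ := by linarith
    nlinarith
  have hsep : ∀ l < m - 1, ∀ l' < m - 1, l ≠ l' → 7 / 2 * (L : ℝ) / N ≤ ‖ω l - ω l'‖ := by
    intro l hl l' hl' hll
    rcases lt_or_gt_of_ne hll with h | h
    · exact hsep0 l hl l' hl' h
    · rw [norm_sub_rev]; exact hsep0 l' hl' l hl h
  have hsq := sq_sum_bound (m - 1) N (fun l => (-1 : ℂ) ^ l) ω (fun l _ => by simp)
    (fun l hl => h1 l (by omega)) (7 / 2 * (L : ℝ) / N) (by positivity) hsep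
  -- the bound of the other terms
  have hrest : ∀ t < N, ‖∑ l ∈ range L, (-1 : ℂ) ^ l * ω l ^ t‖ ≤
      ‖∑ l ∈ range (m - 1), (-1 : ℂ) ^ l * ω l ^ t‖ + 5 / 2 := by
    intro t ht
    have htail : ‖∑ l ∈ Ico m L, (-1 : ℂ) ^ l * ω l ^ t‖ ≤ 3 / 2 := by
      have h2 : ∑ l ∈ Ico m L, (-1 : ℂ) ^ l * ω l ^ t =
          ∑ l ∈ Ico m L, (-1 : ℂ) ^ l + ∑ l ∈ Ico m L, (-1 : ℂ) ^ l * (ω l ^ t - 1) := by
        rw [← sum_add_distrib]
        apply sum_congr rfl
        intro l _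
        ring
      have h3 : ‖∑ l ∈ Ico m L, (-1 : ℂ) ^ l * (ω l ^ t - 1)‖ ≤ 1 / 2 := by
        calc _ ≤ ∑ l ∈ Ico m L, ‖(-1 : ℂ) ^ l * (ω l ^ t - 1)‖ := norm_sum_le _ _
          _ ≤ ∑ l ∈ Ico m L, 1 / (2 * (L : ℝ)) := by
              apply sum_le_sum
              intro l hl
              rw [mem_Ico] at hl
              rw [norm_mul, norm_pow, norm_neg, norm_one, one_pow, one_mul]
              refine (pow_sub_one_le (ω l) (h1 l hl.2) t).trans ?_
              refine le_trans ?_ (hslow l hl.1 hl.2)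
              apply mul_le_mul_of_nonneg_right _ (norm_nonneg _)
              exact_mod_cast ht.le
          _ = ((L - m : ℕ) : ℝ) * (1 / (2 * (L : ℝ))) := by
              rw [sum_const, Nat.card_Ico, nsmul_eq_mul]
          _ ≤ (L : ℝ) * (1 / (2 * (L : ℝ))) := by
              apply mul_le_mul_of_nonneg_right _ (by positivity)
              exact_mod_cast Nat.sub_le L m
          _ = 1 / 2 := by
              have : (L : ℝ) ≠ 0 := by positivity
              field_simp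
      rw [h2]
      refine (norm_add_le _ _).trans ?_
      have := alt_block m L
      linarith
    have hmid : ‖∑ l ∈ range m, (-1 : ℂ) ^ l * ω l ^ t‖ ≤
        ‖∑ l ∈ range (m - 1), (-1 : ℂ) ^ l * ω l ^ t‖ + 1 := by
      rcases Nat.eq_zero_or_pos m with h0 | h0
      · rw [h0]; simp
      · obtain ⟨k, hk⟩ : ∃ k, m = k + 1 := ⟨m - 1, by omega⟩
        rw [hk, sum_range_succ, Nat.add_sub_cancel]
        refine (norm_add_le _ _).trans ?_
        have : ‖(-1 : ℂ) ^ k * ω k ^ t‖ = 1 := by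
          rw [norm_mul, norm_pow, norm_pow, h1 k (by omega)]; simp
        rw [this]
    rw [← sum_range_add_sum_Ico _ hmL]
    refine (norm_add_le _ _).trans ?_
    linarith
  -- Chebyshev
  set G := (Finset.range N).filter fun t : ℕ =>
      κ * L ≤ ‖∑ l ∈ Finset.range L, (-1 : ℂ) ^ l * ω l ^ t‖ with hG
  have hcheb : (G.card : ℝ) * (κ * L / 2) ^ 2 ≤
      ∑ t ∈ range N, ‖∑ l ∈ range (m - 1), (-1 : ℂ) ^ l * ω l ^ t‖ ^ 2 := by
    calc (G.card : ℝ) * (κ * L / 2) ^ 2 = ∑ t ∈ G, (κ * L / 2) ^ 2 := by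
          rw [sum_const, nsmul_eq_mul]
      _ ≤ ∑ t ∈ G, ‖∑ l ∈ range (m - 1), (-1 : ℂ) ^ l * ω l ^ t‖ ^ 2 := by
          apply sum_le_sum
          intro t ht
          rw [hG, mem_filter, mem_range] at ht
          have h2 := hrest t ht.1
          apply pow_le_pow_left₀ (by positivity)
          linarith [ht.2]
      _ ≤ _ := sum_le_sum_of_subset_of_nonneg (filter_subset _ _) fun _ _ _ => by positivity
  have hup : ∑ t ∈ range N, ‖∑ l ∈ range (m - 1), (-1 : ℂ) ^ l * ω l ^ t‖ ^ 2 ≤ 2 * L * N := by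
    refine hsq.trans ?_
    have hm1 : ((m - 1 : ℕ) : ℝ) ≤ L := by exact_mod_cast (Nat.sub_le m 1).trans hmL
    have hm0 : (0 : ℝ) ≤ ((m - 1 : ℕ) : ℝ) := Nat.cast_nonneg _
    have h3 : ((m - 1 : ℕ) : ℝ) ^ 2 ≤ (L : ℝ) ^ 2 := pow_le_pow_left₀ hm0 hm1 2
    have h4 : 2 / (7 / 2 * (L : ℝ) / N) = 4 / 7 * (N / L) := by
      have : (L : ℝ) ≠ 0 := by positivity
      field_simp
      norm_num
    rw [h4]
    have h5 : ((m - 1 : ℕ) : ℝ) * N ≤ L * N := mul_le_mul_of_nonneg_right hm1 hNr.le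
    have h6 : ((m - 1 : ℕ) : ℝ) ^ 2 * (4 / 7 * (N / L)) ≤ (L : ℝ) ^ 2 * (4 / 7 * (N / L)) :=
      mul_le_mul_of_nonneg_right h3 (by positivity)
    have h7 : (L : ℝ) ^ 2 * (4 / 7 * (N / L)) = 4 / 7 * (L * N) := by
      have : (L : ℝ) ≠ 0 := by positivity
      field_simp
    have h8 : (0 : ℝ) ≤ L * N := by positivity
    linarith
  have h9 := hcheb.trans hup
  have h10 : (0 : ℝ) < κ ^ 2 * L := by positivity
  rw [div_mul_eq_mul_div, le_div_iff₀ h10]
  have hLpos : (0 : ℝ) < L := by linarith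
  have h11 : (G.card : ℝ) * (κ ^ 2 * L) * (L / 4) ≤ 2 * N * L := by
    calc _ = (G.card : ℝ) * (κ * L / 2) ^ 2 := by ring
      _ ≤ _ := by linarith
  have h12 : (G.card : ℝ) * (κ ^ 2 * L) ≤ 8 * N := by
    by_contra hcon
    push Not at hcon
    have : 8 * N * (L / 4 : ℝ) < (G.card : ℝ) * (κ ^ 2 * L) * (L / 4) :=
      mul_lt_mul_of_pos_right hcon (by positivity)
    linarith
  linarith

end Pool.Agent.Lib.MP_bb8441_an
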