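import Mathlib

/-! Almost periods of finitely many points of the circle form a syndetic set. -/

set_option autoImplicit false

namespace Pool.Agent.Lib.MP_bb8441_an

theorem syndetic (Ω : Finset ℂ) (hΩ : ∀ c ∈ Ω, ‖c‖ = 1) (τ : ℝ) (hτ : 0 < τ) :
    ∃ g : ℕ, ∀ m : ℕ, ∃ n, m ≤ n ∧ n ≤ m + g ∧ ∀ c ∈ Ω, ‖c ^ n - 1‖ < τ := by
  set v : ℕ → (Ω → ℂ) := fun n c => (c : ℂ) ^ n with hv
  have hsub : Set.range v ⊆ Metric.closedBall (0 : Ω → ℂ) 1 := by
    rintro _ ⟨n, rfl⟩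
    rw [mem_closedBall_zero_iff, pi_norm_le_iff_of_nonneg zero_le_one]
    intro c
    simp only [hv, norm_pow, hΩ c c.2, one_pow, le_refl]
  have htb : TotallyBounded (Set.range v) :=
    (isCompact_closedBall (0 : Ω → ℂ) 1).totallyBounded.subset hsub
  obtain ⟨t, hts, htf, hcov⟩ := Metric.finite_approx_of_totallyBounded htb τ hτ
  have hex : ∀ y : Ω → ℂ, ∃ n : ℕ, y ∈ t → v n = y := by
    intro y
    by_cases hy : y ∈ t
    · obtain ⟨n, hn⟩ := hts hy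
      exact ⟨n, fun _ => hn⟩
    · exact ⟨0, fun h => absurd h hy⟩
  choose idx hidx using hex
  obtain ⟨g, hg⟩ : ∃ g : ℕ, ∀ y ∈ t, idx y ≤ g := by
    obtain ⟨g, hg⟩ := (htf.image idx).bddAbove
    exact ⟨g, fun y hy => hg (Set.mem_image_of_mem _ hy)⟩
  refine ⟨g, fun m => ?_⟩
  have h1 := hcov (Set.mem_range_self (m + g))
  simp only [Set.mem_iUnion, Metric.mem_ball] at h1
  obtain ⟨y, hy, hd⟩ := h1
  have hyg := hg y hy
  refine ⟨m + g - idx y, by omega, by omega, fun c hc => ?_⟩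
  have h2 : dist (v (m + g) ⟨c, hc⟩) (y ⟨c, hc⟩) < τ := (dist_le_pi_dist _ _ _).trans_lt hd
  rw [← hidx y hy] at h2
  have h2' : dist (c ^ (m + g)) (c ^ (idx y)) < τ := h2
  rw [dist_eq_norm] at h2'
  have h3 : c ^ (m + g) - c ^ (idx y) = c ^ (idx y) * (c ^ (m + g - idx y) - 1) := by
    rw [mul_sub, ← pow_add, mul_one]
    congr 2
    omega
  rwa [h3, norm_mul, norm_pow, hΩ c hc, one_pow, one_mul] at h2'

end Pool.Agent.Lib.MP_bb8441_an
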