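import Pool.Agent.Lib.MP_bb8441_an.ReachOps
import Pool.Agent.Lib.MP_bb8441_an.RotSyndetic

/-! The correction step towards a frequently hypercyclic vector. -/

set_option autoImplicit false

namespace Pool.Agent.Lib.MP_bb8441_an

variable {X : Type*} [NormedAddCommGroup X] [NormedSpace ℂ X]

theorem lemma_F (S : X →L[ℂ] X) (hR : ∀ p : X, Reach S p) (y : X) (hy : y ∈ AP S) (q : X)
    (ε : ℝ) (hε : 0 < ε) :
    ∃ z ∈ AP S, ‖z‖ < ε ∧
      (∀ N : ℕ, (((Finset.range N).filter fun t => ε ≤ ‖(S ^ t) z‖).card : ℝ) ≤ ε * N) ∧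
      ∃ g : ℕ, ∀ m : ℕ, ∃ t, m ≤ t ∧ t ≤ m + g ∧ ‖(S ^ t) (y + z) - q‖ < ε := by
  obtain ⟨Ω, hΩ, τ, hτ, h1⟩ := ap_rec S y hy (ε / 4) (by positivity)
  obtain ⟨z, hz, n₁, hn₁, hzn, hcount, hreach⟩ :=
    hR (q - y) Ω hΩ 0 (min (ε / 4) τ) (lt_min (by positivity) hτ)
  have hle : min (ε / 4) τ ≤ ε := (min_le_left _ _).trans (by linarith)
  have hle4 : min (ε / 4) τ ≤ ε / 4 := min_le_left _ _
  refine ⟨z, hz, lt_of_lt_of_le hzn hle, ?_, ?_⟩
  · intro N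
    have hsub : ((Finset.range N).filter fun t => ε ≤ ‖(S ^ t) z‖) ⊆
        ((Finset.range N).filter fun t => min (ε / 4) τ ≤ ‖(S ^ t) z‖) := by
      intro t ht
      rw [Finset.mem_filter] at ht ⊢
      exact ⟨ht.1, hle.trans ht.2⟩
    calc (((Finset.range N).filter fun t => ε ≤ ‖(S ^ t) z‖).card : ℝ)
        ≤ (((Finset.range N).filter fun t => min (ε / 4) τ ≤ ‖(S ^ t) z‖).card : ℝ) := by
          exact_mod_cast Finset.card_le_card hsub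
      _ ≤ min (ε / 4) τ * N := hcount N
      _ ≤ ε * N := mul_le_mul_of_nonneg_right hle (Nat.cast_nonneg N)
  · obtain ⟨Ω₂, hΩ₂, τ₂, hτ₂, h2⟩ := ap_rec S (y + z) (Submodule.add_mem _ hy hz) (ε / 2)
      (by positivity)
    obtain ⟨g, hg⟩ := syndetic Ω₂ hΩ₂ τ₂ hτ₂
    refine ⟨g + n₁, fun m => ?_⟩
    obtain ⟨n, hmn, hng, hn⟩ := hg m
    refine ⟨n + n₁, by omega, by omega, ?_⟩
    have e1 : ‖(S ^ (n + n₁)) (y + z) - (S ^ n₁) (y + z)‖ < ε / 2 := h2 n hn n₁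
    have e2 : ‖(S ^ (n₁ + 0)) y - (S ^ 0) y‖ < ε / 4 :=
      h1 n₁ (fun c hc => lt_of_lt_of_le (hn₁ c hc) (min_le_right _ _)) 0
    have e3 : ‖(S ^ n₁) z - (q - y)‖ < ε / 4 := by
      have := lt_of_lt_of_le hreach hle4
      simpa using this
    have e2' : ‖(S ^ n₁) y - y‖ < ε / 4 := by simpa using e2
    have key : (S ^ (n + n₁)) (y + z) - q =
        ((S ^ (n + n₁)) (y + z) - (S ^ n₁) (y + z)) +
          (((S ^ n₁) y - y) + ((S ^ n₁) z - (q - y))) := by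
      rw [map_add (S ^ n₁)]
      abel
    rw [key]
    calc _ ≤ ‖(S ^ (n + n₁)) (y + z) - (S ^ n₁) (y + z)‖ +
          (‖(S ^ n₁) y - y‖ + ‖(S ^ n₁) z - (q - y)‖) :=
          (norm_add_le _ _).trans (by gcongr; exact norm_add_le _ _)
      _ < ε := by linarith

end Pool.Agent.Lib.MP_bb8441_an
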