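import Pool.Agent.Lib.MP_bb8441_an.DenseRemove

/-! The spectrum has no isolated points when the eigenvectors span a dense subspace and all
`T - c` have dense range. -/

set_option autoImplicit false

namespace Pool.Agent.Lib.MP_bb8441_an

open Metric

theorem v1_clm_circle {E F : Type*} [NormedAddCommGroup E] [NormedSpace ℂ E] [CompleteSpace E]
    [NormedAddCommGroup F] [NormedSpace ℂ F] [CompleteSpace F] (L : E →L[ℂ] F) (f : ℂ → E)
    (c : ℂ) (r : ℝ) (hr : 0 ≤ r) (hf : ContinuousOn f (sphere c r)) :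
    L (∮ z in C(c, r), f z) = ∮ z in C(c, r), L (f z) := by
  unfold circleIntegral
  have h1 : IntervalIntegrable (fun θ : ℝ => deriv (circleMap c r) θ • f (circleMap c r θ))
      MeasureTheory.volume 0 (2 * Real.pi) := (hf.circleIntegrable hr).out
  rw [← L.intervalIntegral_comp_comm h1]
  simp only [map_smul]

variable {X : Type*} [NormedAddCommGroup X] [NormedSpace ℂ X]

/-- (V1) No isolated points in the spectrum. -/
theorem not_isolated [CompleteSpace X] (T : X →L[ℂ] X)
    (H1 : ∀ c : ℂ, DenseRange fun x => T x - c • x)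
    (H2 : Dense (Submodule.span ℂ {x : X | ∃ c : ℂ, T x = c • x} : Set X))
    (a : ℂ) (ha : a ∈ spectrum ℂ T) (δ : ℝ) (hδ : 0 < δ) :
    ∃ b ∈ spectrum ℂ T, b ≠ a ∧ ‖b - a‖ < δ := by
  by_contra hcon
  push Not at hcon
  set r : ℝ := δ / 2 with hrdef
  have hr : 0 < r := half_pos hδ
  set R : ℂ → (X →L[ℂ] X) := fun z => resolvent T z with hR
  have hres : ∀ z ∈ sphere a r, z ∈ resolventSet ℂ T := by
    intro z hz
    by_contra hz'
    have hz2 : z ∈ spectrum ℂ T := hz'
    rw [mem_sphere_iff_norm] at hz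
    have hza : z ≠ a := by
      rintro rfl
      rw [sub_self, norm_zero] at hz
      linarith
    have := hcon z hz2 hza
    linarith
  have hcont : ContinuousOn R (sphere a r) := fun z hz =>
    (spectrum.hasDerivAt_resolvent_const_left (hres z hz)).continuousAt.continuousWithinAt
  have hleft : ∀ z ∈ sphere a r, (z • (1 : X →L[ℂ] X) - T) * R z = 1 := by
    intro z hz
    have h := hres z hz
    rw [spectrum.mem_resolventSet_iff, Algebra.algebraMap_eq_smul_one] at h
    simp only [hR, resolvent, Algebra.algebraMap_eq_smul_one]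
    exact Ring.mul_inverse_cancel _ h
  have hright : ∀ z ∈ sphere a r, R z * (z • (1 : X →L[ℂ] X) - T) = 1 := by
    intro z hz
    have h := hres z hz
    rw [spectrum.mem_resolventSet_iff, Algebra.algebraMap_eq_smul_one] at h
    simp only [hR, resolvent, Algebra.algebraMap_eq_smul_one]
    exact Ring.inverse_mul_cancel _ h
  set P : X →L[ℂ] X := ∮ z in C(a, r), R z with hP
  set Q : X →L[ℂ] X := ∮ z in C(a, r), (z - a)⁻¹ • R z with hQ
  have hza : ∀ z ∈ sphere a r, z - a ≠ 0 := by
    intro z hz h0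
    rw [mem_sphere_iff_norm, h0, norm_zero] at hz
    linarith
  have hcinv : ContinuousOn (fun z : ℂ => (z - a)⁻¹) (sphere a r) :=
    ContinuousOn.inv₀ (by fun_prop) hza
  have hcont2 : ContinuousOn (fun z : ℂ => (z - a)⁻¹ • R z) (sphere a r) := hcinv.smul hcont
  -- P vanishes on eigenvectors of eigenvalue ≠ a
  have hPe : ∀ c x, T x = c • x → c ≠ a → P x = 0 := by
    intro c x hx hca
    by_cases hx0 : x = 0
    · rw [hx0, map_zero]
    have hcs : c ∈ spectrum ℂ T := by
      intro hc
      rw [spectrum.mem_resolventSet_iff, Algebra.algebraMap_eq_smul_one] at hc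
      have h1 := Ring.inverse_mul_cancel _ hc
      have h2 : (Ring.inverse (c • (1 : X →L[ℂ] X) - T) * (c • (1 : X →L[ℂ] X) - T)) x = x := by
        rw [h1]; rfl
      have h3 : (c • (1 : X →L[ℂ] X) - T) x = 0 := by
        show c • x - T x = 0
        rw [hx, sub_self]
      rw [mul_apply_eq_comp, h3, map_zero] at h2
      exact hx0 h2.symm
    have hcd := hcon c hcs hca
    have hRx : ∀ z ∈ sphere a r, R z x = (z - c)⁻¹ • x := by
      intro z hz
      have h1 : (R z * (z • (1 : X →L[ℂ] X) - T)) x = x := by rw [hright z hz]; rfl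
      have h2 : (z • (1 : X →L[ℂ] X) - T) x = (z - c) • x := by
        show z • x - T x = _
        rw [hx, sub_smul]
      rw [mul_apply_eq_comp, h2, map_smul] at h1
      have h3 : z - c ≠ 0 := by
        intro h0
        rw [sub_eq_zero] at h0
        rw [mem_sphere_iff_norm, h0] at hz
        linarith
      rw [← h1, smul_smul, inv_mul_cancel₀ h3, one_smul, h1]
    have h4 : P x = ∮ z in C(a, r), R z x :=
      v1_clm_circle (ContinuousLinearMap.apply ℂ X x) R a r hr.le hcont
    have h5 : (∮ z in C(a, r), R z x) = ∮ z in C(a, r), (z - c)⁻¹ • x :=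
      circleIntegral.integral_congr hr.le hRx
    rw [h4, h5, circleIntegral.integral_smul_const]
    have h6 : (∮ z in C(a, r), (z - c)⁻¹) = 0 := by
      have hd : DifferentiableOn ℂ (fun z : ℂ => (z - c)⁻¹) (closedBall a r) := by
        intro z hz
        have h3 : z - c ≠ 0 := by
          intro h0
          rw [sub_eq_zero] at h0
          rw [mem_closedBall_iff_norm, h0] at hz
          linarith
        exact ((differentiableAt_id.sub_const c).inv h3).differentiableWithinAt
      exact Complex.circleIntegral_eq_zero_of_differentiable_on_off_countable hr.le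
        Set.countable_empty hd.continuousOn
        (fun z hz => (hd z (ball_subset_closedBall hz.1)).differentiableAt
          (Filter.mem_of_superset (isOpen_ball.mem_nhds hz.1) ball_subset_closedBall))
    rw [h6, zero_smul]
  -- P = 0
  have hd1 : Dense (Submodule.span ℂ {x : X | ∃ c : ℂ, c ≠ a ∧ T x = c • x} : Set X) := by
    have h1 := dense_remove_one' T Set.univ a (H1 a) (by simpa using H2)
    simpa using h1
  have hP0 : P = 0 := by
    have h1 : Set.EqOn P (0 : X →L[ℂ] X)
        (Submodule.span ℂ {x : X | ∃ c : ℂ, c ≠ a ∧ T x = c • x} : Set X) := by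
      intro x hx
      have h2 : Submodule.span ℂ {x : X | ∃ c : ℂ, c ≠ a ∧ T x = c • x} ≤ LinearMap.ker (P : X →ₗ[ℂ] X) := by
        rw [Submodule.span_le]
        rintro y ⟨c, hc, hy⟩
        exact hPe c y hy hc
      exact h2 hx
    exact DFunLike.ext' (Continuous.ext_on hd1 P.continuous (0 : X →L[ℂ] X).continuous h1)
  have hI : (∮ z in C(a, r), (z - a)⁻¹ • (1 : X →L[ℂ] X)) =
      (2 * Real.pi * Complex.I : ℂ) • (1 : X →L[ℂ] X) := by
    rw [circleIntegral.integral_smul_const, circleIntegral.integral_sub_center_inv a hr.ne']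
  have hi1 : CircleIntegrable R a r := hcont.circleIntegrable hr.le
  have hi2 : CircleIntegrable (fun z => (z - a)⁻¹ • (1 : X →L[ℂ] X)) a r :=
    (hcinv.smul continuousOn_const).circleIntegrable hr.le
  have hQ1 : (T - a • (1 : X →L[ℂ] X)) * Q = -((2 * Real.pi * Complex.I : ℂ) • (1 : X →L[ℂ] X)) := by
    have h1 : (T - a • (1 : X →L[ℂ] X)) * Q =
        ∮ z in C(a, r), (T - a • (1 : X →L[ℂ] X)) * ((z - a)⁻¹ • R z) :=
      v1_clm_circle (ContinuousLinearMap.mul ℂ (X →L[ℂ] X) (T - a • (1 : X →L[ℂ] X))) _ a r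
        hr.le hcont2
    have h2 : (∮ z in C(a, r), (T - a • (1 : X →L[ℂ] X)) * ((z - a)⁻¹ • R z)) =
        ∮ z in C(a, r), (R z - (z - a)⁻¹ • (1 : X →L[ℂ] X)) := by
      refine circleIntegral.integral_congr hr.le fun z hz => ?_
      have h3 := hleft z hz
      have h4 : T - a • (1 : X →L[ℂ] X) = (z - a) • 1 - (z • (1 : X →L[ℂ] X) - T) := by
        rw [sub_smul]; abel
      show (T - a • (1 : X →L[ℂ] X)) * ((z - a)⁻¹ • R z) = _
      rw [h4, sub_mul, mul_smul_comm, mul_smul_comm, h3, smul_mul_assoc, one_mul, smul_smul,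
        inv_mul_cancel₀ (hza z hz), one_smul]
    rw [h1, h2, circleIntegral.integral_sub hi1 hi2, hI, ← hP, hP0, zero_sub]
  have hQ2 : Q * (T - a • (1 : X →L[ℂ] X)) = -((2 * Real.pi * Complex.I : ℂ) • (1 : X →L[ℂ] X)) := by
    have h1 : Q * (T - a • (1 : X →L[ℂ] X)) =
        ∮ z in C(a, r), ((z - a)⁻¹ • R z) * (T - a • (1 : X →L[ℂ] X)) :=
      v1_clm_circle ((ContinuousLinearMap.mul ℂ (X →L[ℂ] X)).flip (T - a • (1 : X →L[ℂ] X))) _ a r
        hr.le hcont2
    have h2 : (∮ z in C(a, r), ((z - a)⁻¹ • R z) * (T - a • (1 : X →L[ℂ] X))) =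
        ∮ z in C(a, r), (R z - (z - a)⁻¹ • (1 : X →L[ℂ] X)) := by
      refine circleIntegral.integral_congr hr.le fun z hz => ?_
      have h3 := hright z hz
      have h4 : T - a • (1 : X →L[ℂ] X) = (z - a) • 1 - (z • (1 : X →L[ℂ] X) - T) := by
        rw [sub_smul]; abel
      show ((z - a)⁻¹ • R z) * (T - a • (1 : X →L[ℂ] X)) = _
      rw [h4, mul_sub, smul_mul_assoc, smul_mul_assoc, h3, mul_smul_comm, mul_one, smul_smul,
        inv_mul_cancel₀ (hza z hz), one_smul]
    rw [h1, h2, circleIntegral.integral_sub hi1 hi2, hI, ← hP, hP0, zero_sub]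
  have hpi : (2 * Real.pi * Complex.I : ℂ) ≠ 0 := Complex.two_pi_I_ne_zero
  set κ : ℂ := (2 * Real.pi * Complex.I : ℂ)⁻¹ with hκ
  apply ha
  rw [spectrum.mem_resolventSet_iff, Algebra.algebraMap_eq_smul_one]
  have e1 : (a • (1 : X →L[ℂ] X) - T) * (κ • Q) = 1 := by
    have : (a • (1 : X →L[ℂ] X) - T) = -(T - a • (1 : X →L[ℂ] X)) := by abel
    rw [this, neg_mul, mul_smul_comm, hQ1, smul_neg, neg_neg, smul_smul, hκ, inv_mul_cancel₀ hpi,
      one_smul]
  have e2 : (κ • Q) * (a • (1 : X →L[ℂ] X) - T) = 1 := by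
    have : (a • (1 : X →L[ℂ] X) - T) = -(T - a • (1 : X →L[ℂ] X)) := by abel
    rw [this, mul_neg, smul_mul_assoc, hQ2, smul_neg, neg_neg, smul_smul, hκ, inv_mul_cancel₀ hpi,
      one_smul]
  exact ⟨⟨_, _, e1, e2⟩, rfl⟩

end Pool.Agent.Lib.MP_bb8441_an
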