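import Pool.Agent.Lib.MP_bb8441_an.Cayley
import Pool.Agent.Lib.MP_bb8441_an.DenseRemove

/-! An operator with a dense span of unimodular eigenvectors is close to an operator with a dense
set of periodic points. -/

set_option autoImplicit false

namespace Pool.Agent.Lib.MP_bb8441_an

variable {X : Type*} [NormedAddCommGroup X] [NormedSpace ℂ X]

/-- (V6) Countably many nonzero eigenvectors suffice. -/
theorem exists_eig_seq [TopologicalSpace.SeparableSpace X] [Nontrivial X] (T : X →L[ℂ] X)
    (Λ : Set ℂ) (hd : Dense (Submodule.span ℂ {x : X | ∃ c ∈ Λ, T x = c • x} : Set X)) :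
    ∃ (e : ℕ → X) (c : ℕ → ℂ), (∀ j, c j ∈ Λ ∧ e j ≠ 0 ∧ T (e j) = c j • e j) ∧
      Dense (Submodule.span ℂ (Set.range e) : Set X) := by
  classical
  set E : Set X := {x : X | x ≠ 0 ∧ ∃ c ∈ Λ, T x = c • x} with hE
  have hne : Nonempty E := by
    by_contra hcon
    rw [not_nonempty_iff] at hcon
    have h1 : Submodule.span ℂ {x : X | ∃ c ∈ Λ, T x = c • x} = ⊥ := by
      rw [Submodule.span_eq_bot]
      rintro x ⟨c, hc, hx⟩
      by_contra hx0
      exact hcon.elim ⟨x, hx0, c, hc, hx⟩
    rw [h1, Submodule.bot_coe] at hd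
    have h2 := hd.closure_eq
    rw [closure_singleton] at h2
    obtain ⟨y, hy⟩ := exists_ne (0 : X)
    have h3 : y ∈ (Set.univ : Set X) := Set.mem_univ y
    rw [← h2] at h3
    exact hy h3
  have hsec : SecondCountableTopology X := UniformSpace.secondCountable_of_separable X
  have hsep : TopologicalSpace.SeparableSpace E := inferInstance
  set e : ℕ → X := fun j => (TopologicalSpace.denseSeq E j : X) with he
  have hprop : ∀ j, e j ≠ 0 ∧ ∃ c ∈ Λ, T (e j) = c • e j := fun j =>
    (TopologicalSpace.denseSeq E j).2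
  choose h0 c hc using hprop
  refine ⟨e, c, fun j => ⟨(hc j).1, h0 j, (hc j).2⟩, ?_⟩
  have hcl : ∀ x ∈ E, x ∈ closure (Submodule.span ℂ (Set.range e) : Set X) := by
    intro x hx
    have h1 : (⟨x, hx⟩ : E) ∈ closure (Set.range (TopologicalSpace.denseSeq E)) :=
      TopologicalSpace.denseRange_denseSeq E _
    have h2 : x ∈ closure (((↑) : E → X) '' Set.range (TopologicalSpace.denseSeq E)) :=
      image_closure_subset_closure_image continuous_subtype_val ⟨_, h1, rfl⟩
    rw [← Set.range_comp] at h2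
    exact closure_mono Submodule.subset_span h2
  have hle : Submodule.span ℂ {x : X | ∃ c ∈ Λ, T x = c • x} ≤
      (Submodule.span ℂ (Set.range e)).topologicalClosure := by
    rw [Submodule.span_le]
    rintro x ⟨b, hb, hx⟩
    rcases eq_or_ne x 0 with rfl | hx0
    · exact Submodule.zero_mem _
    · exact hcl x ⟨hx0, b, hb, hx⟩
  have h4 : Dense ((Submodule.span ℂ (Set.range e)).topologicalClosure : Set X) := hd.mono hle
  rw [Submodule.topologicalClosure_coe, dense_closure] at h4
  exact h4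

/-- A proper closed subspace is annihilated by a nonzero functional. -/
private theorem v7_exists_annihilator (M : Submodule ℂ X) (hM : IsClosed (M : Set X)) (y : X)
    (hy : y ∉ M) : ∃ f : X →L[ℂ] ℂ, f y ≠ 0 ∧ ∀ z ∈ M, f z = 0 := by
  obtain ⟨f, s, hs1, hs2⟩ := RCLike.geometric_hahn_banach_point_closed (𝕜 := ℂ)
    (x := y) (t := (M : Set X)) (M.restrictScalars ℝ).convex hM hy
  have hre : ∀ z ∈ M, (f z).re = 0 := by
    intro z hz
    by_contra hne
    have h1 := hs2 ((((s - 1) / (f z).re : ℝ) : ℂ) • z) (M.smul_mem _ hz)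
    rw [map_smul, smul_eq_mul] at h1
    have h2 : (((((s - 1) / (f z).re : ℝ) : ℂ)) * f z).re = s - 1 := by
      rw [Complex.re_ofReal_mul]
      field_simp
    have h3 : s < (((((s - 1) / (f z).re : ℝ) : ℂ)) * f z).re := h1
    rw [h2] at h3
    linarith
  refine ⟨f, ?_, ?_⟩
  · intro h0
    have h1 : s < (f 0).re := hs2 0 M.zero_mem
    have h2 : (f y).re < s := hs1
    rw [map_zero, Complex.zero_re] at h1
    rw [h0, Complex.zero_re] at h2
    linarith
  · intro z hz
    have h1 := hre z hz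
    have h2 := hre (Complex.I • z) (M.smul_mem _ hz)
    rw [map_smul, smul_eq_mul, Complex.I_mul_re] at h2
    exact Complex.ext h1 (by simpa using h2)

/-- A functional vanishing on a set with dense span is zero. -/
private theorem v7_eq_zero (f : X →L[ℂ] ℂ) (s : Set X)
    (hd : Dense (Submodule.span ℂ s : Set X)) (h : ∀ z ∈ s, f z = 0) (y : X) : f y = 0 := by
  have hcl : IsClosed {z : X | f z = 0} := isClosed_eq f.continuous continuous_const
  have hsub : (Submodule.span ℂ s : Set X) ⊆ {z : X | f z = 0} := by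
    intro z hz
    have hz' : z ∈ Submodule.span ℂ s := hz
    have hle : Submodule.span ℂ s ≤ LinearMap.ker (f : X →ₗ[ℂ] ℂ) := by
      rw [Submodule.span_le]
      intro w hw
      simpa using h w hw
    simpa using hle hz'
  have := closure_minimal hsub hcl
  rw [hd.closure_eq] at this
  exact this (Set.mem_univ y)

/-- (V7) Dense ranges for an operator with the same eigenvectors. -/
theorem denseRange_of_inj [CompleteSpace X] (T T' : X →L[ℂ] X) (e : ℕ → X) (c c' : ℕ → ℂ)
    (he : ∀ j, T (e j) = c j • e j) (he' : ∀ j, T' (e j) = c' j • e j)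
    (hinj : ∀ i j, c i ≠ c j → c' i ≠ c' j)
    (hd : Dense (Submodule.span ℂ (Set.range e) : Set X))
    (H1 : ∀ c : ℂ, DenseRange fun x => T x - c • x) (b : ℂ) :
    DenseRange fun x => T' x - b • x := by
  by_contra hcon
  set A : X →ₗ[ℂ] X := (T' : X →ₗ[ℂ] X) - b • LinearMap.id with hA
  have hAx : ∀ y, A y = T' y - b • y := fun y => by simp [hA]
  have hcoe : ((LinearMap.range A).topologicalClosure : Set X) =
      closure (Set.range fun x => T' x - b • x) := by
    rw [Submodule.topologicalClosure_coe]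
    have : ((LinearMap.range A : Submodule ℂ X) : Set X) = Set.range fun x => T' x - b • x := by
      ext z
      simp only [SetLike.mem_coe, LinearMap.mem_range, Set.mem_range, hAx]
    rw [this]
  obtain ⟨y, hy⟩ : ∃ y, y ∉ (LinearMap.range A).topologicalClosure := by
    by_contra hall
    push Not at hall
    apply hcon
    intro y
    have hy := hall y
    rw [← SetLike.mem_coe, hcoe] at hy
    exact hy
  obtain ⟨f, hf1, hf2⟩ :=
    v7_exists_annihilator _ (Submodule.isClosed_topologicalClosure _) y hy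
  have hfe : ∀ j, c' j ≠ b → f (e j) = 0 := by
    intro j hj
    have h1 := hf2 (A (e j)) (Submodule.le_topologicalClosure _ (LinearMap.mem_range_self A _))
    rw [hAx, he', ← sub_smul, map_smul, smul_eq_mul] at h1
    exact (mul_eq_zero.1 h1).resolve_left (sub_ne_zero.2 hj)
  apply hf1
  by_cases hall : ∀ j, c' j ≠ b
  · apply v7_eq_zero f (Set.range e) hd
    rintro _ ⟨j, rfl⟩
    exact hfe j (hall j)
  · push Not at hall
    obtain ⟨j₀, hj₀⟩ := hall
    -- the span of the eigenvectors for other eigenvalues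
    have hN : Dense (Submodule.span ℂ (e '' {j | c j ≠ c j₀}) : Set X) := by
      have h1 : Dense ((fun x => T x - c j₀ • x) '' (Submodule.span ℂ (Set.range e) : Set X)) :=
        (H1 (c j₀)).dense_image (T.continuous.sub (continuous_const_smul _)) hd
      refine h1.mono ?_
      rintro _ ⟨x, hx, rfl⟩
      have hx' : x ∈ Submodule.span ℂ (Set.range e) := hx
      show T x - c j₀ • x ∈ Submodule.span ℂ (e '' {j | c j ≠ c j₀})
      induction hx' using Submodule.span_induction with
      | mem z hz =>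
        obtain ⟨j, rfl⟩ := hz
        rw [he, ← sub_smul]
        by_cases h : c j = c j₀
        · rw [h, sub_self, zero_smul]
          exact Submodule.zero_mem _
        · exact Submodule.smul_mem _ _ (Submodule.subset_span ⟨j, h, rfl⟩)
      | zero => simp
      | add z w hz hw ihz ihw =>
        have h2 : T (z + w) - c j₀ • (z + w) = (T z - c j₀ • z) + (T w - c j₀ • w) := by
          rw [map_add, smul_add]; abel
        rw [h2]
        exact Submodule.add_mem _ (ihz hz) (ihw hw)
      | smul a z hz ihz =>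
        have h2 : T (a • z) - c j₀ • (a • z) = a • (T z - c j₀ • z) := by
          rw [map_smul, smul_sub, smul_comm]
        rw [h2]
        exact Submodule.smul_mem _ _ (ihz hz)
    apply v7_eq_zero f _ hN
    rintro _ ⟨j, hj, rfl⟩
    apply hfe
    rw [← hj₀]
    exact hinj _ _ hj

private lemma v8_ne (t : ℝ) : (t : ℂ) + Complex.I ≠ 0 := by
  intro h
  have := congrArg Complex.im h
  simp at this

private lemma v8_mobius (ζ : ℂ) (hζ : ζ ≠ 0) (s t : ℝ)
    (h : ζ * ((s : ℂ) - Complex.I) / ((s : ℂ) + Complex.I) =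
      ζ * ((t : ℂ) - Complex.I) / ((t : ℂ) + Complex.I)) : s = t := by
  rw [div_eq_div_iff (v8_ne s) (v8_ne t)] at h
  have h1 : ζ * (((s : ℂ) - Complex.I) * ((t : ℂ) + Complex.I)) =
      ζ * (((t : ℂ) - Complex.I) * ((s : ℂ) + Complex.I)) := by
    linear_combination h
  have h2 := mul_left_cancel₀ hζ h1
  have h3 : (2 * Complex.I) * ((s : ℂ) - t) = 0 := by linear_combination h2
  rcases mul_eq_zero.1 h3 with h4 | h4
  · simp at h4
  · exact_mod_cast sub_eq_zero.1 h4

/-- (V8) Rotation of the eigenvalues to roots of unity. -/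
theorem rotate [CompleteSpace X] [TopologicalSpace.SeparableSpace X] (T : X →L[ℂ] X)
    (H1 : ∀ c : ℂ, DenseRange fun x => T x - c • x)
    (H2 : Dense (Submodule.span ℂ {x : X | ∃ c : ℂ, ‖c‖ = 1 ∧ T x = c • x} : Set X))
    (ζ : ℂ) (hζ : ‖ζ‖ = 1) (hσ : ζ ∉ spectrum ℂ T) (ε : ℝ) (hε : 0 < ε) :
    ∃ T' : X →L[ℂ] X, ‖T' - T‖ < ε ∧ (∀ c : ℂ, DenseRange fun x => T' x - c • x) ∧
      Dense (Submodule.span ℂ {x : X | ∃ c : ℂ, (∃ m : ℕ, 1 ≤ m ∧ c ^ m = 1) ∧ T' x = c • x} :
        Set X) := by
  rcases subsingleton_or_nontrivial X with hX | hX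
  · refine ⟨T, by simpa using hε, H1, ?_⟩
    intro x
    apply subset_closure
    rw [Subsingleton.elim x 0]
    exact Submodule.zero_mem _
  have hζ0 : ζ ≠ 0 := by
    intro h
    rw [h, norm_zero] at hζ
    exact zero_ne_one hζ
  obtain ⟨e, c, hec, hd⟩ := exists_eig_seq T {c : ℂ | ‖c‖ = 1} H2
  obtain ⟨H, hH1, hH2⟩ := cayley T ζ hζ hσ
  obtain ⟨δ, hδ, hH3⟩ := hH2 ε hε
  choose h hh using fun j => hH1 (c j) (e j) (hec j).1 (hec j).2.1 (hec j).2.2
  obtain ⟨a, ha, haQ, hainj⟩ := rot_seq h
    (fun k => δ / 2 ^ (k + 2) / (‖Polynomial.aeval H (rotPoly h k)‖ + 1))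
    (fun k => by positivity) _ (roots_real_dense ζ hζ)
  obtain ⟨H', hH'δ, hH'⟩ := series_op H h a δ hδ ha
  obtain ⟨T', hT'ε, hT'⟩ := hH3 H' hH'δ
  have he' : ∀ j, T' (e j) = (ζ * ((rotVal h a j : ℂ) - Complex.I) /
      ((rotVal h a j : ℂ) + Complex.I)) • e j := fun j =>
    hT' (rotVal h a j) (e j) (hH' j (e j) (hh j).1)
  refine ⟨T', hT'ε, ?_, ?_⟩
  · intro b
    refine denseRange_of_inj T T' e c (fun j => ζ * ((rotVal h a j : ℂ) - Complex.I) /
      ((rotVal h a j : ℂ) + Complex.I)) (fun j => (hec j).2.2) he' ?_ hd H1 b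
    intro i j hij hcc
    have h1 : h i ≠ h j := by
      intro hhij
      apply hij
      rw [(hh i).2, (hh j).2, hhij]
    exact hainj i j h1 (v8_mobius ζ hζ0 _ _ hcc)
  · refine hd.mono (Submodule.span_mono ?_)
    rintro _ ⟨j, rfl⟩
    exact ⟨_, haQ j, he' j⟩

end Pool.Agent.Lib.MP_bb8441_an
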