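import Pool.Agent.Lib.MP_bb8441_an.Fhc
import Pool.Agent.Lib.MP_bb8441_an.ApRec

/-! Hypercyclicity from eigenvectors which are limits of other eigenvectors, for eigenvalues of
any modulus. -/

set_option autoImplicit false

namespace Pool.Agent.Lib.MP_bb8441_an

variable {X : Type*} [NormedAddCommGroup X] [NormedSpace ℂ X]

/-- For all large times `m` some point close to `x` is mapped by `S ^ m` close to `y`. -/
def Str (S : X →L[ℂ] X) (x y : X) : Prop :=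
  ∀ ε > 0, ∃ m₀ : ℕ, ∀ m ≥ m₀, ∃ z : X, ‖z - x‖ < ε ∧ ‖(S ^ m) z - y‖ < ε

theorem str_zero (S : X →L[ℂ] X) : Str S 0 0 := by
  intro ε hε
  exact ⟨0, fun m _ => ⟨0, by simpa using hε, by simpa using hε⟩⟩

/-- (V9) -/
theorem str_add (S : X →L[ℂ] X) (x y x' y' : X) (h : Str S x y) (h' : Str S x' y') :
    Str S (x + x') (y + y') := by
  intro ε hε
  obtain ⟨m₁, h₁⟩ := h (ε / 2) (by positivity)
  obtain ⟨m₂, h₂⟩ := h' (ε / 2) (by positivity)
  refine ⟨max m₁ m₂, fun m hm => ?_⟩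
  obtain ⟨z₁, a₁, b₁⟩ := h₁ m ((le_max_left _ _).trans hm)
  obtain ⟨z₂, a₂, b₂⟩ := h₂ m ((le_max_right _ _).trans hm)
  refine ⟨z₁ + z₂, ?_, ?_⟩
  · have e1 : z₁ + z₂ - (x + x') = (z₁ - x) + (z₂ - x') := by abel
    rw [e1]
    have := norm_add_le (z₁ - x) (z₂ - x')
    linarith
  · have e1 : (S ^ m) (z₁ + z₂) - (y + y') = ((S ^ m) z₁ - y) + ((S ^ m) z₂ - y') := by
      rw [map_add]; abel
    rw [e1]
    have := norm_add_le ((S ^ m) z₁ - y) ((S ^ m) z₂ - y')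
    linarith

private theorem v10_pow (S : X →L[ℂ] X) (c : ℂ) (x : X) (h : S x = c • x) (k : ℕ) :
    (S ^ k) x = c ^ k • x := by
  induction k with
  | zero => simp
  | succ k ih =>
    have h1 : (S ^ (k + 1)) x = S ((S ^ k) x) := by rw [pow_succ']; rfl
    rw [h1, ih, map_smul, h, smul_smul, pow_succ]

/-- (V10) A node with children inside the disc. -/
theorem str_inner (S : X →L[ℂ] X) (u : ℂ → X) (C : Set ℂ) (hC : ∀ c ∈ C, S (u c) = c • u c)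
    (a : ℂ) (ha : ‖a‖ = 1) (hS : S (u a) = a • u a)
    (hacc : ∀ δ > 0, ∃ c ∈ C, ‖c‖ < 1 ∧ ‖u c - u a‖ < δ) (α β : ℂ) :
    Str S (α • u a) (β • u a) := by
  intro ε hε
  have hK : 0 < ‖α‖ + ‖β‖ + 1 := by positivity
  obtain ⟨c, hcC, hc1, hc2⟩ := hacc (ε / (‖α‖ + ‖β‖ + 1)) (by positivity)
  have hSc := hC c hcC
  have ha0 : a ≠ 0 := by
    rintro rfl
    simp at ha
  -- decay
  have hlim : Filter.Tendsto (fun m : ℕ => (‖α‖ + ‖β‖) * ‖u c‖ * ‖c‖ ^ m) Filter.atTop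
      (nhds ((‖α‖ + ‖β‖) * ‖u c‖ * 0)) :=
    (tendsto_pow_atTop_nhds_zero_of_lt_one (norm_nonneg _) hc1).const_mul _
  rw [mul_zero] at hlim
  obtain ⟨m₀, hm₀⟩ := Filter.eventually_atTop.1 ((hlim.eventually (gt_mem_nhds hε)))
  refine ⟨m₀, fun m hm => ?_⟩
  have hm1 := hm₀ m hm
  have ham : ‖(a⁻¹) ^ m‖ = 1 := by rw [norm_pow, norm_inv, ha, inv_one, one_pow]
  have hama : (a⁻¹) ^ m * a ^ m = 1 := by rw [← mul_pow, inv_mul_cancel₀ ha0, one_pow]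
  refine ⟨α • u c + (β * (a⁻¹) ^ m) • (u a - u c), ?_, ?_⟩
  · have e1 : α • u c + (β * (a⁻¹) ^ m) • (u a - u c) - α • u a =
        (α - β * (a⁻¹) ^ m) • (u c - u a) := by
      simp only [sub_smul, smul_sub]; abel
    rw [e1, norm_smul]
    have h1 : ‖α - β * (a⁻¹) ^ m‖ ≤ ‖α‖ + ‖β‖ := by
      refine (norm_sub_le _ _).trans ?_
      rw [norm_mul, ham, mul_one]
    calc ‖α - β * (a⁻¹) ^ m‖ * ‖u c - u a‖ ≤ (‖α‖ + ‖β‖) * ‖u c - u a‖ := by gcongr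
      _ ≤ (‖α‖ + ‖β‖ + 1) * ‖u c - u a‖ :=
          mul_le_mul_of_nonneg_right (by linarith) (norm_nonneg _)
      _ < (‖α‖ + ‖β‖ + 1) * (ε / (‖α‖ + ‖β‖ + 1)) := by gcongr
      _ = ε := by field_simp
  · have e1 : (S ^ m) (α • u c + (β * (a⁻¹) ^ m) • (u a - u c)) - β • u a =
        ((α - β * (a⁻¹) ^ m) * c ^ m) • u c := by
      rw [map_add, map_smul, map_smul, map_sub, v10_pow S c _ hSc, v10_pow S a _ hS]
      have e2 : (β * (a⁻¹) ^ m) • (a ^ m • u a) = β • u a := by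
        rw [smul_smul, mul_assoc, hama, mul_one]
      rw [smul_sub, e2, smul_smul, smul_smul, sub_mul, sub_smul]
      abel
    rw [e1, norm_smul, norm_mul, norm_pow]
    have h1 : ‖α - β * (a⁻¹) ^ m‖ ≤ ‖α‖ + ‖β‖ := by
      refine (norm_sub_le _ _).trans ?_
      rw [norm_mul, ham, mul_one]
    calc ‖α - β * (a⁻¹) ^ m‖ * ‖c‖ ^ m * ‖u c‖ ≤ (‖α‖ + ‖β‖) * ‖c‖ ^ m * ‖u c‖ := by gcongr
      _ = (‖α‖ + ‖β‖) * ‖u c‖ * ‖c‖ ^ m := by ring
      _ < ε := hm1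

/-- (V11) A node with children outside the disc. -/
theorem str_outer (S : X →L[ℂ] X) (u : ℂ → X) (C : Set ℂ) (hC : ∀ c ∈ C, S (u c) = c • u c)
    (a : ℂ) (ha : ‖a‖ = 1) (hS : S (u a) = a • u a)
    (hacc : ∀ δ > 0, ∃ c ∈ C, 1 < ‖c‖ ∧ ‖u c - u a‖ < δ) (α β : ℂ) :
    Str S (α • u a) (β • u a) := by
  intro ε hε
  have hK : 0 < ‖α‖ + ‖β‖ + 1 := by positivity
  obtain ⟨c, hcC, hc1, hcu⟩ := hacc (ε / (‖α‖ + ‖β‖ + 1)) (by positivity)
  have hc0 : c ≠ 0 := by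
    intro h
    rw [h, norm_zero] at hc1
    linarith
  have hcn : ‖c⁻¹‖ < 1 := by
    rw [norm_inv]
    exact inv_lt_one_of_one_lt₀ hc1
  have ha0 : a ≠ 0 := by
    intro h
    rw [h, norm_zero] at ha
    norm_num at ha
  have hlim : Filter.Tendsto (fun m : ℕ => (‖α‖ + ‖β‖) * ‖u c‖ * ‖c⁻¹‖ ^ m) Filter.atTop
      (nhds 0) := by
    have := (tendsto_pow_atTop_nhds_zero_of_lt_one (norm_nonneg _) hcn).const_mul
      ((‖α‖ + ‖β‖) * ‖u c‖)
    simpa using this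
  obtain ⟨m₀, hm₀⟩ := Filter.eventually_atTop.mp (hlim.eventually (gt_mem_nhds hε))
  refine ⟨m₀, fun m hm => ?_⟩
  have hcm : c ^ m ≠ 0 := pow_ne_zero m hc0
  refine ⟨α • (u a - ((a * c⁻¹) ^ m) • u c) + (β * (c⁻¹) ^ m) • u c, ?_, ?_⟩
  · have h1 : α • (u a - ((a * c⁻¹) ^ m) • u c) + (β * (c⁻¹) ^ m) • u c - α • u a =
        (β * (c⁻¹) ^ m - α * (a * c⁻¹) ^ m) • u c := by
      module
    rw [h1, norm_smul]
    refine lt_of_le_of_lt ?_ (hm₀ m hm)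
    have h2 : ‖β * (c⁻¹) ^ m - α * (a * c⁻¹) ^ m‖ ≤ (‖α‖ + ‖β‖) * ‖c⁻¹‖ ^ m := by
      refine (norm_sub_le _ _).trans ?_
      rw [norm_mul, norm_mul, norm_pow, norm_pow, norm_mul a, ha, one_mul]
      linarith
    calc ‖β * (c⁻¹) ^ m - α * (a * c⁻¹) ^ m‖ * ‖u c‖
        ≤ ((‖α‖ + ‖β‖) * ‖c⁻¹‖ ^ m) * ‖u c‖ := by gcongr
      _ = _ := by ring
  · have hSm : (S ^ m) (α • (u a - ((a * c⁻¹) ^ m) • u c) + (β * (c⁻¹) ^ m) • u c) - β • u a =
        (α * a ^ m) • (u a - u c) - β • (u a - u c) := by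
      rw [map_add, map_smul, map_sub, map_smul, map_smul, reach_node_pow S a (u a) hS m,
        reach_node_pow S c (u c) (hC c hcC) m]
      have h1 : ((a * c⁻¹) ^ m) • (c ^ m • u c) = a ^ m • u c := by
        rw [smul_smul, mul_pow, inv_pow, mul_assoc, inv_mul_cancel₀ hcm, mul_one]
      have h2 : (β * (c⁻¹) ^ m) • (c ^ m • u c) = β • u c := by
        rw [smul_smul, inv_pow, mul_assoc, inv_mul_cancel₀ hcm, mul_one]
      rw [h1, h2]
      module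
    rw [hSm]
    refine lt_of_le_of_lt (norm_sub_le _ _) ?_
    rw [norm_smul, norm_smul, norm_mul, norm_pow, ha, one_pow, mul_one, norm_sub_rev (u a) (u c)]
    have h3 : (‖α‖ + ‖β‖ + 1) * ‖u c - u a‖ < ε := by
      rw [lt_div_iff₀ hK] at hcu
      linarith
    have h4 : 0 ≤ ‖u c - u a‖ := norm_nonneg _
    nlinarith

/-- (V12) Combination with the unimodular part. -/
theorem trans_combine (S : X →L[ℂ] X) (x y x' y' : X) (hx : x ∈ AP S) (hy : Reach S y)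
    (hxR : ∀ t : ℕ, Reach S ((S ^ t) x)) (h : Str S x' y') (ε : ℝ) (hε : 0 < ε) :
    ∃ (m : ℕ) (z : X), ‖z - (x + x')‖ < ε ∧ ‖(S ^ m) z - (y + y')‖ < ε := by
  have h0 : 0 < ε / 4 := by positivity
  obtain ⟨m₀, hm₀⟩ := h (ε / 4) h0
  obtain ⟨Ω, hΩ, τ, hτ, H⟩ := ap_rec S x hx (ε / 4) h0
  have hp : Reach S (y + (-1 : ℂ) • (S ^ m₀) x) := reach_add S _ _ hy (reach_smul S _ _ (hxR m₀))
  obtain ⟨z1, _, n, a1, a2, _, a4⟩ := hp Ω hΩ m₀ (min (ε / 4) τ) (lt_min h0 hτ)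
  obtain ⟨z2, b1, b2⟩ := hm₀ (m₀ + n) (Nat.le_add_right _ _)
  have e1 := H n (fun c hc => (a1 c hc).trans_le (min_le_right _ _)) m₀
  have e2 := a2.trans_le (min_le_left (ε / 4) τ)
  have e3 := a4.trans_le (min_le_left (ε / 4) τ)
  refine ⟨m₀ + n, x + z1 + z2, ?_, ?_⟩
  · have h1 : x + z1 + z2 - (x + x') = z1 + (z2 - x') := by abel
    rw [h1]
    exact (norm_add_le _ _).trans_lt (by linarith)
  · rw [add_comm n m₀] at e1
    have h2 : (S ^ (m₀ + n)) (x + z1 + z2) - (y + y') =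
        ((S ^ (m₀ + n)) x - (S ^ m₀) x) +
        ((S ^ (m₀ + n)) z1 - (y + (-1 : ℂ) • (S ^ m₀) x)) + ((S ^ (m₀ + n)) z2 - y') := by
      rw [map_add, map_add, neg_one_smul]
      abel
    rw [h2]
    exact norm_add₃_le.trans_lt (by linarith)

/-- (V13) Birkhoff's transitivity theorem. -/
theorem hypercyclic_of_transitive [CompleteSpace X] [TopologicalSpace.SeparableSpace X]
    (S : X →L[ℂ] X)
    (h : ∀ (x y : X) (ε : ℝ), 0 < ε → ∃ (m : ℕ) (z : X), ‖z - x‖ < ε ∧ ‖(S ^ m) z - y‖ < ε) :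
    Hypercyclic S := by
  obtain ⟨d, hd⟩ : ∃ d : ℕ → X, DenseRange d :=
    ⟨TopologicalSpace.denseSeq X, TopologicalSpace.denseRange_denseSeq X⟩
  have hU : Dense (⋂ p : ℕ × ℕ, ⋃ m : ℕ,
      (fun x => (S ^ m) x) ⁻¹' Metric.ball (d p.1) (1 / ((p.2 : ℝ) + 1))) := by
    apply dense_iInter_of_isOpen
    · intro p
      exact isOpen_iUnion fun m => Metric.isOpen_ball.preimage (S ^ m).continuous
    · intro p
      rw [Metric.dense_iff]
      intro x r hr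
      obtain ⟨m, z, hz1, hz2⟩ := h x (d p.1) (min r (1 / ((p.2 : ℝ) + 1)))
        (lt_min hr (by positivity))
      refine ⟨z, ?_, ?_⟩
      · rw [Metric.mem_ball, dist_eq_norm]
        exact lt_of_lt_of_le hz1 (min_le_left _ _)
      · refine Set.mem_iUnion.mpr ⟨m, ?_⟩
        change (S ^ m) z ∈ Metric.ball (d p.1) (1 / ((p.2 : ℝ) + 1))
        rw [Metric.mem_ball, dist_eq_norm]
        exact lt_of_lt_of_le hz2 (min_le_right _ _)
  obtain ⟨x, hx⟩ := hU.nonempty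
  refine ⟨x, ?_⟩
  rw [Metric.dense_iff]
  intro y r hr
  obtain ⟨i, hi⟩ := Metric.denseRange_iff.mp hd y (r / 2) (by positivity)
  obtain ⟨k, hk⟩ := exists_nat_one_div_lt (show (0 : ℝ) < r / 2 by positivity)
  have h1 := Set.mem_iInter.mp hx (i, k)
  obtain ⟨m, hm⟩ := Set.mem_iUnion.mp h1
  change (S ^ m) x ∈ Metric.ball (d i) (1 / ((k : ℝ) + 1)) at hm
  refine ⟨(S ^ m) x, ?_, ⟨m, rfl⟩⟩
  rw [Metric.mem_ball] at hm ⊢
  have h2 : dist ((S ^ m) x) y ≤ dist ((S ^ m) x) (d i) + dist (d i) y := dist_triangle _ _ _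
  have h3 : dist (d i) y < r / 2 := by rw [dist_comm]; exact hi
  linarith

/-- Pairs which split into a unimodular part and a part as in `Str`. -/
def V14Good (S : X →L[ℂ] X) (x y : X) : Prop :=
  ∃ x1 x2 y1 y2 : X, x = x1 + x2 ∧ y = y1 + y2 ∧ x1 ∈ AP S ∧ Reach S y1 ∧
    (∀ t : ℕ, Reach S ((S ^ t) x1)) ∧ Str S x2 y2

theorem v14_zero (S : X →L[ℂ] X) : V14Good S (0 : X) 0 := by
  refine ⟨0, 0, 0, 0, by simp, by simp, Submodule.zero_mem _, reach_zero S, ?_, str_zero S⟩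
  intro t
  rw [map_zero]
  exact reach_zero S

theorem v14_add (S : X →L[ℂ] X) {x y x' y' : X} (h : V14Good S x y) (h' : V14Good S x' y') :
    V14Good S (x + x') (y + y') := by
  obtain ⟨x1, x2, y1, y2, h1, h2, h3, h4, h5, h6⟩ := h
  obtain ⟨x1', x2', y1', y2', h1', h2', h3', h4', h5', h6'⟩ := h'
  refine ⟨x1 + x1', x2 + x2', y1 + y1', y2 + y2', ?_, ?_, Submodule.add_mem _ h3 h3',
    reach_add S _ _ h4 h4', ?_, str_add S _ _ _ _ h6 h6'⟩
  · rw [h1, h1']; abel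
  · rw [h2, h2']; abel
  · intro t
    rw [map_add]
    exact reach_add S _ _ (h5 t) (h5' t)

theorem v14_node (S : X →L[ℂ] X) (u : ℂ → X) (A C : Set ℂ)
    (hA : ∀ a ∈ A, ‖a‖ = 1 ∧ S (u a) = a • u a) (hC : ∀ c ∈ C, S (u c) = c • u c)
    (hacc : ∀ a ∈ A, ∀ δ > 0, ∃ c ∈ C, c ≠ a ∧ ‖u c - u a‖ < δ)
    (a : ℂ) (haA : a ∈ A) (α β : ℂ) : V14Good S (α • u a) (β • u a) := by
  obtain ⟨ha, hSa⟩ := hA a haA
  by_cases hU : ∀ δ > 0, ∃ c ∈ {c ∈ C | ‖c‖ = 1}, c ≠ a ∧ ‖u c - u a‖ < δ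
  · have hR : Reach S (u a) :=
      reach_node S u {c ∈ C | ‖c‖ = 1} (fun c hc => ⟨hc.2, hC c hc.1⟩) a ha hSa hU
    refine ⟨α • u a, 0, β • u a, 0, by simp, by simp, ?_, reach_smul S _ _ hR, ?_, str_zero S⟩
    · exact Submodule.smul_mem _ _ (Submodule.subset_span ⟨a, ha, hSa⟩)
    · intro t
      rw [map_smul, reach_node_pow S a (u a) hSa t, smul_smul]
      exact reach_smul S _ _ hR
  by_cases hI : ∀ δ > 0, ∃ c ∈ C, ‖c‖ < 1 ∧ ‖u c - u a‖ < δ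
  · refine ⟨0, α • u a, 0, β • u a, by simp, by simp, Submodule.zero_mem _, reach_zero S, ?_,
      str_inner S u C hC a ha hSa hI α β⟩
    intro t
    rw [map_zero]
    exact reach_zero S
  by_cases hO : ∀ δ > 0, ∃ c ∈ C, 1 < ‖c‖ ∧ ‖u c - u a‖ < δ
  · refine ⟨0, α • u a, 0, β • u a, by simp, by simp, Submodule.zero_mem _, reach_zero S, ?_,
      str_outer S u C hC a ha hSa hO α β⟩
    intro t
    rw [map_zero]
    exact reach_zero S
  exfalso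
  push Not at hU hI hO
  obtain ⟨δ₁, hδ₁, h1⟩ := hU
  obtain ⟨δ₂, hδ₂, h2⟩ := hI
  obtain ⟨δ₃, hδ₃, h3⟩ := hO
  obtain ⟨c, hcC, hca, hc⟩ := hacc a haA (min δ₁ (min δ₂ δ₃)) (lt_min hδ₁ (lt_min hδ₂ hδ₃))
  have hc1 := lt_of_lt_of_le hc (min_le_left _ _)
  have hc2 := lt_of_lt_of_le hc ((min_le_right _ _).trans (min_le_left _ _))
  have hc3 := lt_of_lt_of_le hc ((min_le_right _ _).trans (min_le_right _ _))
  rcases lt_trichotomy ‖c‖ 1 with hlt | heq | hgt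
  · exact absurd hc2 (not_lt.mpr (h2 c hcC hlt))
  · exact absurd hc1 (not_lt.mpr (h1 c ⟨hcC, heq⟩ hca))
  · exact absurd hc3 (not_lt.mpr (h3 c hcC hgt))

/-- (V14) Hypercyclicity from eigenvectors. -/
theorem hyp_of_eigenvectors [CompleteSpace X] [TopologicalSpace.SeparableSpace X]
    (S : X →L[ℂ] X) (u : ℂ → X) (A C : Set ℂ)
    (hA : ∀ a ∈ A, ‖a‖ = 1 ∧ S (u a) = a • u a) (hC : ∀ c ∈ C, S (u c) = c • u c)
    (hd : Dense (Submodule.span ℂ (u '' A) : Set X))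
    (hacc : ∀ a ∈ A, ∀ δ > 0, ∃ c ∈ C, c ≠ a ∧ ‖u c - u a‖ < δ) :
    Hypercyclic S := by
  have hnode : ∀ a ∈ A, ∀ α β : ℂ, V14Good S (α • u a) (β • u a) :=
    fun a ha α β => v14_node S u A C hA hC hacc a ha α β
  have hx : ∀ x ∈ Submodule.span ℂ (u '' A), V14Good S x 0 := by
    intro x hx
    induction hx using Submodule.closure_induction with
    | zero => exact v14_zero S
    | add x y _ _ h1 h2 =>
      have := v14_add S h1 h2
      rwa [add_zero] at this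
    | smul_mem r x h =>
      obtain ⟨a, ha, rfl⟩ := h
      have := hnode a ha r 0
      rwa [zero_smul] at this
  have hy : ∀ y ∈ Submodule.span ℂ (u '' A), V14Good S 0 y := by
    intro x hx
    induction hx using Submodule.closure_induction with
    | zero => exact v14_zero S
    | add x y _ _ h1 h2 =>
      have := v14_add S h1 h2
      rwa [add_zero] at this
    | smul_mem r x h =>
      obtain ⟨a, ha, rfl⟩ := h
      have := hnode a ha 0 r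
      rwa [zero_smul] at this
  apply hypercyclic_of_transitive S
  intro x y ε hε
  obtain ⟨x', hx', hxx⟩ := Metric.dense_iff.mp hd x (ε / 2) (by positivity)
  obtain ⟨y', hy', hyy⟩ := Metric.dense_iff.mp hd y (ε / 2) (by positivity)
  rw [Metric.mem_ball, dist_eq_norm] at hx' hy'
  have hg := v14_add S (hx x' hxx) (hy y' hyy)
  rw [add_zero, zero_add] at hg
  obtain ⟨x1, x2, y1, y2, h1, h2, h3, h4, h5, h6⟩ := hg
  obtain ⟨m, z, hz1, hz2⟩ := trans_combine S x1 y1 x2 y2 h3 h4 h5 h6 (ε / 2) (by positivity)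
  refine ⟨m, z, ?_, ?_⟩
  · rw [← h1] at hz1
    calc ‖z - x‖ = ‖(z - x') + (x' - x)‖ := by congr 1; abel
      _ ≤ ‖z - x'‖ + ‖x' - x‖ := norm_add_le _ _
      _ < ε := by linarith
  · rw [← h2] at hz2
    calc ‖(S ^ m) z - y‖ = ‖((S ^ m) z - y') + (y' - y)‖ := by congr 1; abel
      _ ≤ ‖(S ^ m) z - y'‖ + ‖y' - y‖ := norm_add_le _ _
      _ < ε := by linarith

end Pool.Agent.Lib.MP_bb8441_an
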