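import Pool.Agent.Lib.MP_bb8441_an.Main
import Pool.Agent.Lib.MP_bb8441_an.NotIsolated
import Pool.Agent.Lib.MP_bb8441_an.Rotate
import Pool.Agent.Lib.MP_bb8441_an.Transitive

/-! Operators with a dense span of unimodular eigenvectors are limits of chaotic operators. -/

set_option autoImplicit false

namespace Pool.Agent.Lib.MP_bb8441_an

variable {X : Type*} [NormedAddCommGroup X] [NormedSpace ℂ X] [CompleteSpace X]

theorem q2_full_circle [TopologicalSpace.SeparableSpace X] (T : X →L[ℂ] X)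
    (hT : ∀ c : ℂ, DenseRange fun x => T x - c • x)
    (hd : Dense (Submodule.span ℂ {x : X | ∃ c : ℂ, ‖c‖ = 1 ∧ T x = c • x} : Set X))
    (hspec : ∀ c : ℂ, ‖c‖ = 1 → c ∈ spectrum ℂ T) (ε : ℝ) (hε : 0 < ε) :
    ∃ S : X →L[ℂ] X, ‖S - T‖ < ε ∧ Chaotic S := by
  obtain ⟨S, u, A, C, hS, hA, hC, heig, hdense, hch⟩ := construct T {c : ℂ | ‖c‖ = 1}
    {b : ℂ | ∃ m : ℕ, 1 ≤ m ∧ b ^ m = 1} hT (fun c hc => hspec c (norm_of_root hc)) hd
    (fun a ha δ hδ => by
      obtain ⟨b, hb, hb2, hb3⟩ := roots_accumulate a ha δ hδ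
      exact ⟨b, hb, hb2, hb3⟩) ε hε
  have hF : FrequentlyHypercyclic S := by
    refine fhc_of_eigenvectors S u A C (fun c hc => ⟨?_, heig c hc⟩) hdense hch
    rcases hc with hc | hc
    · exact hA hc
    · exact norm_of_root (hC hc)
  refine ⟨S, hS, hyp_of_fhc S hF, periodic_dense S ?_⟩
  set W : Submodule ℂ X :=
    Submodule.span ℂ {x : X | ∃ c : ℂ, (∃ m : ℕ, 1 ≤ m ∧ c ^ m = 1) ∧ S x = c • x} with hW
  have hsub : (Submodule.span ℂ (u '' A)) ≤ W.topologicalClosure := by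
    refine Submodule.span_le.mpr ?_
    rintro _ ⟨a, ha, rfl⟩
    change u a ∈ closure (W : Set X)
    rw [Metric.mem_closure_iff]
    intro δ hδ
    obtain ⟨c, hc, -, hcδ⟩ := hch a ha δ hδ
    refine ⟨u c, Submodule.subset_span ⟨c, hC hc, heig c (Or.inr hc)⟩, ?_⟩
    rw [dist_eq_norm, ← norm_neg, neg_sub]
    exact hcδ
  have h1 : Dense (W.topologicalClosure : Set X) := hdense.mono hsub
  have h2 : closure (W.topologicalClosure : Set X) = W.topologicalClosure :=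
    (Submodule.isClosed_topologicalClosure W).closure_eq
  rw [dense_iff_closure_eq]
  rw [dense_iff_closure_eq, h2] at h1
  exact h1

/-- The roots of unity in the spectrum of `T` suffice. -/
theorem q2_roots [TopologicalSpace.SeparableSpace X] (T : X →L[ℂ] X)
    (hT : ∀ c : ℂ, DenseRange fun x => T x - c • x)
    (hd : Dense (Submodule.span ℂ {x : X | ∃ c : ℂ, (∃ m : ℕ, 1 ≤ m ∧ c ^ m = 1) ∧
      T x = c • x} : Set X)) (ε : ℝ) (hε : 0 < ε) :
    ∃ S : X →L[ℂ] X, ‖S - T‖ < ε ∧ Chaotic S := by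
  set Λ : Set ℂ := {c : ℂ | (∃ m : ℕ, 1 ≤ m ∧ c ^ m = 1) ∧ c ∈ spectrum ℂ T} with hΛ
  have hdΛ : Dense (Submodule.span ℂ {x : X | ∃ c ∈ Λ, T x = c • x} : Set X) := by
    refine hd.mono (SetLike.coe_subset_coe.mpr (Submodule.span_le.mpr ?_))
    rintro x ⟨c, hc, hx⟩
    by_cases h0 : x = 0
    · rw [h0]; exact Submodule.zero_mem _
    · exact Submodule.subset_span ⟨c, ⟨hc, mem_spectrum_of_eig T c x h0 hx⟩, hx⟩
  have hdall : Dense (Submodule.span ℂ {x : X | ∃ c : ℂ, T x = c • x} : Set X) := by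
    refine hd.mono (SetLike.coe_subset_coe.mpr (Submodule.span_mono ?_))
    rintro x ⟨c, _, hx⟩
    exact ⟨c, hx⟩
  obtain ⟨S, u, A, C, hS, hA, hC, heig, hdense, hch⟩ := construct T Λ (spectrum ℂ T) hT
    (fun c hc => hc) hdΛ
    (fun a ha δ hδ => by
      obtain ⟨b, hb, hb2, hb3⟩ := not_isolated T hT hdall a ha.2 δ hδ
      exact ⟨b, hb, hb2, hb3⟩) ε hε
  refine ⟨S, hS, ?_, periodic_dense S ?_⟩
  · exact hyp_of_eigenvectors S u A C
      (fun a ha => ⟨norm_of_root (hA ha).1, heig a (Or.inl ha)⟩)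
      (fun c hc => heig c (Or.inr hc)) hdense hch
  · refine hdense.mono (SetLike.coe_subset_coe.mpr (Submodule.span_mono ?_))
    rintro _ ⟨a, ha, rfl⟩
    exact ⟨a, (hA ha).1, heig a (Or.inl ha)⟩

/-- Main theorem: a norm limit of chaotic operators. -/
theorem q2_main (T : X →L[ℂ] X) (hT : Hypercyclic T)
    (hd : Dense (Submodule.span ℂ {x : X | ∃ c : ℂ, ‖c‖ = 1 ∧ T x = c • x} : Set X))
    (ε : ℝ) (hε : 0 < ε) :
    ∃ S : X →L[ℂ] X, ‖S - T‖ < ε ∧ Chaotic S := by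
  have := hyp_separable T hT
  have hT1 := hyp_denseRange T hT
  by_cases hall : ∀ c : ℂ, ‖c‖ = 1 → c ∈ spectrum ℂ T
  · exact q2_full_circle T hT1 hd hall ε hε
  · push Not at hall
    obtain ⟨ζ, hζ, hζσ⟩ := hall
    obtain ⟨T', h1, h2, h3⟩ := rotate T hT1 hd ζ hζ hζσ (ε / 2) (half_pos hε)
    obtain ⟨S, hS, hC⟩ := q2_roots T' h2 h3 (ε / 2) (half_pos hε)
    refine ⟨S, ?_, hC⟩
    have : S - T = (S - T') + (T' - T) := by abel
    rw [this]
    exact (norm_add_le _ _).trans_lt (by linarith)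

end Pool.Agent.Lib.MP_bb8441_an
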