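import Pool.Agent.Lib.MP_bb8441_an.Interior

/-! Rational functions of an operator. -/

set_option autoImplicit false

namespace Pool.Agent.Lib.MP_bb8441_an

open Polynomial

variable {X : Type*} [NormedAddCommGroup X] [NormedSpace ℂ X]

/-- Nonzero polynomials of `T` have dense range. Hint: the polynomial splits
(`IsAlgClosed.splits`), induction over the roots, `denseRange_comp_clm`. -/
theorem denseRange_aeval (T : X →L[ℂ] X) (hT : ∀ c : ℂ, DenseRange fun x => T x - c • x)
    (p : ℂ[X]) (hp : p ≠ 0) : DenseRange (aeval T p : X →L[ℂ] X) := by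
  suffices h : ∀ (n : ℕ) (p : ℂ[X]), p ≠ 0 → p.natDegree ≤ n →
      DenseRange (aeval T p : X →L[ℂ] X) from h p.natDegree p hp le_rfl
  intro n
  induction n with
  | zero =>
    intro p hp hn
    have h0 : p.natDegree = 0 := Nat.le_zero.1 hn
    rw [Polynomial.eq_C_of_natDegree_eq_zero h0] at hp ⊢
    have ha : p.coeff 0 ≠ 0 := fun h => hp (by rw [h, C_0])
    rw [aeval_C, Algebra.algebraMap_eq_smul_one]
    refine denseRange_smul _ ?_ _ ha
    have : (⇑(1 : X →L[ℂ] X)) = id := rfl
    rw [this]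
    exact denseRange_id
  | succ n ih =>
    intro p hp hn
    by_cases h0 : p.natDegree = 0
    · exact ih p hp (by omega)
    · have hdeg : p.degree ≠ 0 := fun h => h0 (natDegree_eq_of_degree_eq_some h)
      obtain ⟨z, hz⟩ := IsAlgClosed.exists_root p hdeg
      obtain ⟨q, hq⟩ := dvd_iff_isRoot.2 hz
      have hq0 : q ≠ 0 := by
        rintro rfl
        exact hp (by rw [hq, mul_zero])
      have hqn : q.natDegree ≤ n := by
        have h1 : p.natDegree = 1 + q.natDegree := by
          rw [hq, natDegree_mul (X_sub_C_ne_zero z) hq0, natDegree_X_sub_C]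
        omega
      rw [hq, map_mul]
      refine denseRange_comp_clm _ _ ?_ (ih q hq0 hqn)
      have h2 : (aeval T (Polynomial.X - C z) : X →L[ℂ] X) = T - z • (1 : X →L[ℂ] X) := by
        rw [map_sub, aeval_X, aeval_C, Algebra.algebraMap_eq_smul_one]
      rw [h2]
      exact denseRange_sub T hT z

theorem r12_aeval_eig (T : X →L[ℂ] X) (p : ℂ[X]) (c : ℂ) (x : X) (hx : T x = c • x) :
    (aeval T p : X →L[ℂ] X) x = p.eval c • x := by
  induction p using Polynomial.induction_on' with
  | add p q hp hq =>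
    rw [map_add, eval_add, add_smul, ← hp, ← hq]
    rfl
  | monomial n a =>
    have hpow : ∀ n : ℕ, (T ^ n) x = c ^ n • x := by
      intro n
      induction n with
      | zero => simp
      | succ n ih =>
        have : (T ^ (n + 1)) x = (T ^ n) (T x) := by
          rw [pow_succ]; rfl
        rw [this, hx, map_smul, ih, smul_smul, pow_succ, mul_comm]
    rw [aeval_monomial, eval_monomial]
    have h1 : ((algebraMap ℂ (X →L[ℂ] X)) a * T ^ n) x = a • (T ^ n) x := by
      rw [Algebra.algebraMap_eq_smul_one, smul_mul_assoc, one_mul]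
      rfl
    rw [h1, hpow, smul_smul]

/-- The quotient `N(T) D(T)⁻¹`, where `D(z) ≠ 0` on the spectrum. -/
theorem exists_ratOp (T : X →L[ℂ] X) (hT : ∀ c : ℂ, DenseRange fun x => T x - c • x)
    (N D : ℂ[X]) (hD : IsUnit (aeval T D : X →L[ℂ] X)) (hND : ∀ c : ℂ, N - C c * D ≠ 0) :
    ∃ V : X →L[ℂ] X, V * aeval T D = aeval T N ∧
      (∀ c : ℂ, DenseRange fun x => V x - c • x) ∧
      (∀ (c : ℂ) (x : X), D.eval c ≠ 0 → T x = c • x → V x = (N.eval c / D.eval c) • x) ∧
      (∀ z ∈ spectrum ℂ T, D.eval z ≠ 0 → N.eval z / D.eval z ∈ spectrum ℂ V) := by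
  obtain ⟨U, hU⟩ := hD
  have h1 : ((U⁻¹ : (X →L[ℂ] X)ˣ) : X →L[ℂ] X) * (aeval T D : X →L[ℂ] X) = 1 := by
    rw [← hU, ← Units.val_mul, inv_mul_cancel, Units.val_one]
  have h1' : (aeval T D : X →L[ℂ] X) * ((U⁻¹ : (X →L[ℂ] X)ˣ) : X →L[ℂ] X) = 1 := by
    rw [← hU, ← Units.val_mul, mul_inv_cancel, Units.val_one]
  set V : X →L[ℂ] X := aeval T N * ((U⁻¹ : (X →L[ℂ] X)ˣ) : X →L[ℂ] X) with hV
  have hVD : V * aeval T D = aeval T N := by rw [hV, mul_assoc, h1, mul_one]
  have haev : ∀ c : ℂ, (aeval T (N - C c * D) : X →L[ℂ] X) =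
      (V - c • (1 : X →L[ℂ] X)) * aeval T D := by
    intro c
    rw [sub_mul, hVD, map_sub, map_mul, aeval_C, Algebra.algebraMap_eq_smul_one]
  have hVc : ∀ c : ℂ, V - c • (1 : X →L[ℂ] X) =
      aeval T (N - C c * D) * ((U⁻¹ : (X →L[ℂ] X)ˣ) : X →L[ℂ] X) := by
    intro c
    rw [haev, mul_assoc, h1', mul_one]
  refine ⟨V, hVD, ?_, ?_, ?_⟩
  · intro c
    have h2 : DenseRange (V - c • (1 : X →L[ℂ] X)) := by
      rw [hVc c]
      apply denseRange_comp_clm _ _ (denseRange_aeval T hT _ (hND c))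
      apply Function.Surjective.denseRange
      intro y
      refine ⟨(aeval T D : X →L[ℂ] X) y, ?_⟩
      exact congrArg (fun f : X →L[ℂ] X => f y) h1
    have h3 : (⇑(V - c • (1 : X →L[ℂ] X))) = fun x => V x - c • x := by
      funext x; simp
    rwa [h3] at h2
  · intro c x hDc hx
    have h2 := r12_aeval_eig T D c x hx
    have h3 := r12_aeval_eig T N c x hx
    have h4 : V ((aeval T D : X →L[ℂ] X) x) = (aeval T N : X →L[ℂ] X) x :=
      congrArg (fun f : X →L[ℂ] X => f x) hVD
    rw [h2, h3, map_smul] at h4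
    calc V x = (D.eval c)⁻¹ • (D.eval c • V x) := by
          rw [smul_smul, inv_mul_cancel₀ hDc, one_smul]
      _ = _ := by rw [h4, smul_smul, div_eq_mul_inv, mul_comm]
  · intro z hz hDz
    by_contra hcon
    have h2 := isUnit_sub V _ hcon
    have h3 : IsUnit (aeval T (N - C (N.eval z / D.eval z) * D) : X →L[ℂ] X) := by
      rw [haev]
      exact h2.mul ⟨U, hU⟩
    have hroot : (N - C (N.eval z / D.eval z) * D).IsRoot z := by
      rw [IsRoot.def, eval_sub, eval_mul, eval_C, div_mul_cancel₀ _ hDz, sub_self]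
    obtain ⟨q, hq⟩ := dvd_iff_isRoot.2 hroot
    rw [hq, map_mul] at h3
    have hcomm : Commute (aeval T (Polynomial.X - C z) : X →L[ℂ] X) (aeval T q) := by
      change _ * _ = _ * _
      rw [← map_mul, ← map_mul, mul_comm]
    have h4 := (hcomm.isUnit_mul_iff.1 h3).1
    apply hz
    have h5 : (aeval T (Polynomial.X - C z) : X →L[ℂ] X) =
        -(algebraMap ℂ (X →L[ℂ] X) z - T) := by
      rw [map_sub, aeval_X, aeval_C]; abel
    rw [h5] at h4
    rw [spectrum.mem_resolventSet_iff]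
    simpa using h4.neg

end Pool.Agent.Lib.MP_bb8441_an
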