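import Pool.Agent.Lib.MP_bb8441_an.Defs
import Pool.Agent.Lib.MP_bb8441_an.ChooseChildren
import Pool.Agent.Lib.MP_bb8441_an.LacunaryCount

/-! An eigenvector which is a limit of other unimodular eigenvectors can be reached. -/

set_option autoImplicit false

namespace Pool.Agent.Lib.MP_bb8441_an

variable {X : Type*} [NormedAddCommGroup X] [NormedSpace ℂ X]

theorem reach_node_pow (S : X →L[ℂ] X) (c : ℂ) (x : X) (h : S x = c • x) (t : ℕ) :
    (S ^ t) x = c ^ t • x := by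
  induction t with
  | zero => simp
  | succ t ih =>
    rw [pow_succ', ContinuousLinearMap.mul_apply, ih, map_smul, h, smul_smul, ← pow_succ]

/-- The norm of an average of `L` vectors. -/
theorem reach_node_avg (L : ℕ) (hL : 1 ≤ L) (f : ℕ → X) (r : ℝ) (h : ∀ l < L, ‖f l‖ ≤ r) :
    ‖((L : ℂ)⁻¹) • ∑ l ∈ Finset.range L, f l‖ ≤ r := by
  have hL' : (0 : ℝ) < L := by exact_mod_cast hL
  rw [norm_smul, norm_inv, Complex.norm_natCast]
  have h1 : ‖∑ l ∈ Finset.range L, f l‖ ≤ L * r := by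
    calc ‖∑ l ∈ Finset.range L, f l‖ ≤ ∑ l ∈ Finset.range L, ‖f l‖ := norm_sum_le _ _
      _ ≤ ∑ l ∈ Finset.range L, r := Finset.sum_le_sum fun l hl => h l (Finset.mem_range.1 hl)
      _ = L * r := by simp
  calc (L : ℝ)⁻¹ * ‖∑ l ∈ Finset.range L, f l‖ ≤ (L : ℝ)⁻¹ * (L * r) := by gcongr
    _ = r := by field_simp

theorem reach_node_avg_const (L : ℕ) (hL : 1 ≤ L) (v : X) :
    ((L : ℂ)⁻¹) • ∑ _l ∈ Finset.range L, v = v := by
  have hL' : (L : ℂ) ≠ 0 := by exact_mod_cast (by lia : L ≠ 0)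
  rw [Finset.sum_const, Finset.card_range, ← Nat.cast_smul_eq_nsmul ℂ, smul_smul,
    inv_mul_cancel₀ hL', one_smul]

theorem reach_node_alt (K : ℕ) (v : X) :
    ∑ l ∈ Finset.range (2 * K), ((-1 : ℂ) ^ l) • v = 0 := by
  induction K with
  | zero => simp
  | succ K ih =>
    rw [show 2 * (K + 1) = 2 * K + 1 + 1 by ring, Finset.sum_range_succ, Finset.sum_range_succ, ih]
    simp [pow_succ, pow_mul]

theorem reach_node (S : X →L[ℂ] X) (u : ℂ → X) (C : Set ℂ)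
    (hC : ∀ c ∈ C, ‖c‖ = 1 ∧ S (u c) = c • u c)
    (a : ℂ) (ha : ‖a‖ = 1) (hS : S (u a) = a • u a)
    (hacc : ∀ δ > 0, ∃ c ∈ C, c ≠ a ∧ ‖u c - u a‖ < δ) :
    Reach S (u a) := by
  intro Ω hΩ t₀ ε hε
  by_cases hv : u a = 0
  · refine ⟨0, Submodule.zero_mem _, 0, ?_, by simpa using hε, ?_, by simpa [hv] using hε⟩
    · intro c hc
      simpa using hε
    · intro N
      have : ((Finset.range N).filter fun t => ε ≤ ‖(S ^ t) (0 : X)‖) = ∅ := by
        rw [Finset.filter_eq_empty_iff]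
        intro t _
        simpa using hε
      rw [this]
      simp only [Finset.card_empty, Nat.cast_zero]
      positivity
  set v : X := u a with hvdef
  have hvpos : 0 < ‖v‖ := norm_pos_iff.2 hv
  set κ : ℝ := ε / (2 * ‖v‖) with hκdef
  have hκ : 0 < κ := by positivity
  -- choice of `L = 2 K`
  obtain ⟨K, hK⟩ : ∃ K : ℕ, max (8 / κ) (16 / (κ ^ 2 * ε)) ≤ K := exists_nat_ge _
  obtain ⟨L, hLdef⟩ : ∃ L : ℕ, L = 2 * (K + 1) := ⟨_, rfl⟩
  have hL1 : 1 ≤ L := by lia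
  have hLpos : (0 : ℝ) < L := by exact_mod_cast hL1
  have hLK : (K : ℝ) ≤ L := by
    have : K ≤ L := by lia
    exact_mod_cast this
  have hL8 : 8 ≤ κ * L := by
    have : 8 / κ ≤ L := ((le_max_left _ _).trans hK).trans hLK
    rw [div_le_iff₀ hκ] at this
    linarith
  have hLε : 16 / (κ ^ 2 * L) ≤ ε := by
    have h1 : 16 / (κ ^ 2 * ε) ≤ L := ((le_max_right _ _).trans hK).trans hLK
    rw [div_le_iff₀ (by positivity)] at h1
    rw [div_le_iff₀ (by positivity)]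
    linarith
  have ha0 : a ≠ 0 := by
    rintro rfl
    simp at ha
  -- the set of admissible children
  have hacc' : ∀ δ > 0, ∃ c ∈ {c | c ∈ C ∧ c ≠ a}, ‖c - a‖ < δ ∧ ‖u c - u a‖ < δ := by
    intro δ hδ
    obtain ⟨c, hcC, hca, hcu⟩ := hacc (min δ (δ * ‖v‖ / (‖S‖ + 2)))
      (lt_min hδ (by positivity))
    refine ⟨c, ⟨hcC, hca⟩, ?_, hcu.trans_le (min_le_left _ _)⟩
    obtain ⟨hc1, hcS⟩ := hC c hcC
    have h1 : (c - a) • v = S (u c - v) - c • (u c - v) := by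
      rw [map_sub, hcS, hS, smul_sub, sub_smul]
      abel
    have h2 : ‖c - a‖ * ‖v‖ ≤ (‖S‖ + 1) * ‖u c - v‖ := by
      rw [← norm_smul, h1]
      calc ‖S (u c - v) - c • (u c - v)‖ ≤ ‖S (u c - v)‖ + ‖c • (u c - v)‖ := norm_sub_le _ _
        _ ≤ ‖S‖ * ‖u c - v‖ + 1 * ‖u c - v‖ := by
          gcongr
          · exact S.le_opNorm _
          · rw [norm_smul, hc1]
        _ = _ := by ring
    have h3 : ‖u c - v‖ < δ * ‖v‖ / (‖S‖ + 2) := hcu.trans_le (min_le_right _ _)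
    have hS0 := norm_nonneg S
    rw [lt_div_iff₀ (by positivity)] at h3
    have h4 : ‖c - a‖ * ‖v‖ < δ * ‖v‖ := by
      have := norm_nonneg (u c - v)
      nlinarith
    exact lt_of_mul_lt_mul_right h4 hvpos.le
  -- the tolerance
  obtain ⟨τ, hτ, hτ1, hτ2⟩ : ∃ τ : ℝ, 0 < τ ∧ τ ≤ ε / 2 ∧ τ * (1 + 2 * ‖v‖) < ε := by
    refine ⟨min (ε / 2) (ε / (2 * (1 + 2 * ‖v‖))), lt_min (by positivity) (by positivity),
      min_le_left _ _, ?_⟩
    calc min (ε / 2) (ε / (2 * (1 + 2 * ‖v‖))) * (1 + 2 * ‖v‖)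
        ≤ (ε / (2 * (1 + 2 * ‖v‖))) * (1 + 2 * ‖v‖) := by
          gcongr
          exact min_le_right _ _
      _ = ε / 2 := by field_simp
      _ < ε := by linarith
  obtain ⟨μ, n, hμ1, hμ2, hμ3, hμ4⟩ := choose_children u a ha {c | c ∈ C ∧ c ≠ a}
    (fun c hc => ⟨(hC c hc.1).1, hc.2⟩) hacc' (insert a Ω)
    (by
      intro c hc
      rcases Finset.mem_insert.1 hc with rfl | hc
      · exact ha
      · exact hΩ c hc) t₀ (fun l => (-1) ^ l * (a ^ t₀)⁻¹)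
    (by
      intro l
      rw [norm_mul, norm_inv, norm_pow, norm_pow, ha]
      simp) (8 * (L : ℝ) ^ 2) (by positivity) L τ hτ
  have hμn : ∀ l < L, ‖μ l‖ = 1 := fun l hl => (hC _ (hμ1 l hl).1.1).1
  have hμS : ∀ l < L, S (u (μ l)) = μ l • u (μ l) := fun l hl => (hC _ (hμ1 l hl).1.1).2
  -- action of powers on `z`
  have hSt : ∀ t : ℕ, (S ^ t) (((L : ℂ)⁻¹) • ∑ l ∈ Finset.range L, ((-1 : ℂ) ^ l) • u (μ l)) =
      ((L : ℂ)⁻¹) • ∑ l ∈ Finset.range L, ((-1 : ℂ) ^ l * μ l ^ t) • u (μ l) := by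
    intro t
    rw [map_smul, map_sum]
    congr 1
    refine Finset.sum_congr rfl fun l hl => ?_
    rw [map_smul, reach_node_pow S (μ l) _ (hμS l (Finset.mem_range.1 hl)), smul_smul]
  refine ⟨((L : ℂ)⁻¹) • ∑ l ∈ Finset.range L, ((-1 : ℂ) ^ l) • u (μ l), ?_, n, ?_, ?_, ?_, ?_⟩
  · refine Submodule.smul_mem _ _ (Submodule.sum_mem _ fun l hl => Submodule.smul_mem _ _ ?_)
    exact Submodule.subset_span ⟨μ l, hμn l (Finset.mem_range.1 hl), hμS l (Finset.mem_range.1 hl)⟩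
  · intro c hc
    exact (hμ3 c (Finset.mem_insert_of_mem hc)).trans_le (by linarith)
  · have h1 : ((L : ℂ)⁻¹) • ∑ l ∈ Finset.range L, ((-1 : ℂ) ^ l) • u (μ l) =
        ((L : ℂ)⁻¹) • ∑ l ∈ Finset.range L, ((-1 : ℂ) ^ l) • (u (μ l) - v) := by
      congr 1
      simp only [smul_sub, Finset.sum_sub_distrib]
      rw [hLdef, reach_node_alt, sub_zero]
    rw [h1]
    refine (reach_node_avg L hL1 _ τ fun l hl => ?_).trans_lt (by linarith)
    rw [norm_smul, norm_pow, norm_neg, norm_one, one_pow, one_mul]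
    exact (hμ1 l hl).2.le
  · intro N
    have h1 := lacunary_count L hL1 κ hκ hL8 (fun l => μ l / a)
      (fun l hl => by rw [norm_div, hμn l hl, ha, div_one])
      (fun l hl => by
        intro h
        rw [div_eq_one_iff_eq ha0] at h
        exact (hμ1 l hl).1.2 h) hμ2 N
    have h2 : (((Finset.range N).filter fun t => ε ≤ ‖(S ^ t) (((L : ℂ)⁻¹) •
        ∑ l ∈ Finset.range L, ((-1 : ℂ) ^ l) • u (μ l))‖).card : ℝ) ≤
        (((Finset.range N).filter fun t : ℕ =>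
      κ * L ≤ ‖∑ l ∈ Finset.range L, (-1 : ℂ) ^ l * (μ l / a) ^ t‖).card : ℝ) := by
      have : ((Finset.range N).filter fun t => ε ≤ ‖(S ^ t) (((L : ℂ)⁻¹) •
        ∑ l ∈ Finset.range L, ((-1 : ℂ) ^ l) • u (μ l))‖) ⊆
        ((Finset.range N).filter fun t : ℕ =>
      κ * L ≤ ‖∑ l ∈ Finset.range L, (-1 : ℂ) ^ l * (μ l / a) ^ t‖) := by
        intro t ht
        rw [Finset.mem_filter] at ht ⊢
        refine ⟨ht.1, ?_⟩
        have h3 := ht.2
        rw [hSt t] at h3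
        have h4 : ((L : ℂ)⁻¹) • ∑ l ∈ Finset.range L, ((-1 : ℂ) ^ l * μ l ^ t) • u (μ l) =
            ((L : ℂ)⁻¹) • ((∑ l ∈ Finset.range L, ((-1 : ℂ) ^ l * μ l ^ t)) • v) +
            ((L : ℂ)⁻¹) • ∑ l ∈ Finset.range L, ((-1 : ℂ) ^ l * μ l ^ t) • (u (μ l) - v) := by
          rw [← smul_add, Finset.sum_smul, ← Finset.sum_add_distrib]
          congr 1
          refine Finset.sum_congr rfl fun l _ => ?_
          rw [← smul_add, add_sub_cancel]
        have h5 : ‖((L : ℂ)⁻¹) • ∑ l ∈ Finset.range L, ((-1 : ℂ) ^ l * μ l ^ t) •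
            (u (μ l) - v)‖ ≤ τ := by
          refine reach_node_avg L hL1 _ τ fun l hl => ?_
          rw [norm_smul, norm_mul, norm_pow, norm_neg, norm_one, one_pow, one_mul, norm_pow,
            hμn l hl, one_pow, one_mul]
          exact (hμ1 l hl).2.le
        have h6 : ‖∑ l ∈ Finset.range L, ((-1 : ℂ) ^ l * μ l ^ t)‖ =
            ‖∑ l ∈ Finset.range L, (-1 : ℂ) ^ l * (μ l / a) ^ t‖ := by
          have : ∑ l ∈ Finset.range L, ((-1 : ℂ) ^ l * μ l ^ t) =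
              a ^ t * ∑ l ∈ Finset.range L, (-1 : ℂ) ^ l * (μ l / a) ^ t := by
            rw [Finset.mul_sum]
            refine Finset.sum_congr rfl fun l _ => ?_
            rw [div_pow]
            field_simp
          rw [this, norm_mul, norm_pow, ha, one_pow, one_mul]
        rw [h4] at h3
        have h7 := h3.trans (norm_add_le _ _)
        rw [norm_smul, norm_inv, Complex.norm_natCast, norm_smul, h6] at h7
        have h8 : ε / 2 ≤ (L : ℝ)⁻¹ *
            (‖∑ l ∈ Finset.range L, (-1 : ℂ) ^ l * (μ l / a) ^ t‖ * ‖v‖) := by linarith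
        rw [hκdef]
        rw [inv_mul_eq_div, le_div_iff₀ hLpos] at h8
        rw [div_mul_eq_mul_div, div_le_iff₀ (by positivity)]
        linarith
      exact_mod_cast Finset.card_le_card this
    calc _ ≤ _ := h2
      _ ≤ 16 / (κ ^ 2 * L) * N := h1
      _ ≤ ε * N := by gcongr
  · rw [hSt]
    have h1 : ((L : ℂ)⁻¹) • ∑ l ∈ Finset.range L, ((-1 : ℂ) ^ l * μ l ^ (t₀ + n)) • u (μ l) - v =
        ((L : ℂ)⁻¹) • ∑ l ∈ Finset.range L,
          (((-1 : ℂ) ^ l * μ l ^ (t₀ + n)) • u (μ l) - v) := by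
      rw [Finset.sum_sub_distrib, smul_sub, reach_node_avg_const L hL1]
    rw [h1]
    refine (reach_node_avg L hL1 _ (τ * (1 + 2 * ‖v‖)) fun l hl => ?_).trans_lt hτ2
    have hsq : ((-1 : ℂ) ^ l) * ((-1 : ℂ) ^ l) = 1 := by
      rw [← mul_pow]; simp
    have h2 : ‖(-1 : ℂ) ^ l * μ l ^ (t₀ + n) - 1‖ ≤ 2 * τ := by
      have e1 : (-1 : ℂ) ^ l * μ l ^ (t₀ + n) - 1 =
          ((-1 : ℂ) ^ l * a ^ (n + t₀)) * ((μ l / a) ^ (n + t₀) - (-1) ^ l * (a ^ t₀)⁻¹) +
          (a ^ n - 1) := by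
        have e2 : a ^ (n + t₀) * (μ l / a) ^ (n + t₀) = μ l ^ (t₀ + n) := by
          rw [← mul_pow, mul_div_cancel₀ _ ha0, add_comm]
        have e3 : a ^ (n + t₀) * (a ^ t₀)⁻¹ = a ^ n := by
          rw [pow_add, mul_assoc, mul_inv_cancel₀ (pow_ne_zero _ ha0), mul_one]
        calc (-1 : ℂ) ^ l * μ l ^ (t₀ + n) - 1
            = (-1 : ℂ) ^ l * (a ^ (n + t₀) * (μ l / a) ^ (n + t₀)) - 1 := by rw [e2]
          _ = ((-1 : ℂ) ^ l * a ^ (n + t₀)) * ((μ l / a) ^ (n + t₀) - (-1) ^ l * (a ^ t₀)⁻¹) +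
            (((-1 : ℂ) ^ l * (-1 : ℂ) ^ l) * (a ^ (n + t₀) * (a ^ t₀)⁻¹) - 1) := by ring
          _ = _ := by rw [hsq, e3, one_mul]
      rw [e1]
      refine (norm_add_le _ _).trans ?_
      rw [norm_mul, norm_mul, norm_pow, norm_neg, norm_one, one_pow, one_mul, norm_pow, ha,
        one_pow, one_mul]
      have := hμ4 l hl
      have := hμ3 a (Finset.mem_insert_self _ _)
      linarith
    have h3 : ((-1 : ℂ) ^ l * μ l ^ (t₀ + n)) • u (μ l) - v =
        ((-1 : ℂ) ^ l * μ l ^ (t₀ + n)) • (u (μ l) - v) +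
        ((-1 : ℂ) ^ l * μ l ^ (t₀ + n) - 1) • v := by
      rw [smul_sub, sub_smul, one_smul]
      abel
    rw [h3]
    refine (norm_add_le _ _).trans ?_
    rw [norm_smul, norm_smul, norm_mul, norm_pow, norm_neg, norm_one, one_pow, one_mul, norm_pow,
      hμn l hl, one_pow, one_mul]
    have h4 := (hμ1 l hl).2
    nlinarith

end Pool.Agent.Lib.MP_bb8441_an
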