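import Mathlib

/-! The powers of a point of the circle close to one are dense up to a small error. -/

set_option autoImplicit false

namespace Pool.Agent.Lib.MP_bb8441_an

private lemma rotd_abs_le (θ : ℝ) (h1 : |θ| ≤ Real.pi) :
    |θ| ≤ 2 * ‖Complex.exp (Complex.I * θ) - 1‖ := by
  rw [Complex.norm_exp_I_mul_ofReal_sub_one, Real.norm_eq_abs, abs_mul, abs_two]
  have h2 : |Real.sin (θ / 2)| = Real.sin (|θ| / 2) := by
    rcases le_or_gt 0 θ with h | h
    · rw [abs_of_nonneg h] at h1 ⊢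
      exact abs_of_nonneg (Real.sin_nonneg_of_nonneg_of_le_pi (by linarith) (by linarith))
    · rw [abs_of_neg h] at h1 ⊢
      rw [neg_div, Real.sin_neg]
      rw [abs_of_nonpos]
      exact Real.sin_nonpos_of_nonpos_of_neg_pi_le (by linarith) (by linarith)
  rw [h2]
  have h3 := Real.mul_le_sin (x := |θ| / 2) (by positivity) (by linarith)
  have h4 : Real.pi < 4 := Real.pi_lt_four
  have h5 : 0 < Real.pi := Real.pi_pos
  have h6 : |θ| / 4 ≤ 2 / Real.pi * (|θ| / 2) := by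
    rw [div_mul_div_comm, div_le_div_iff₀ (by norm_num) (by positivity)]
    nlinarith [abs_nonneg θ]
  linarith

private lemma rotd_unit (z : ℂ) (hz : ‖z‖ = 1) : Complex.exp (Complex.I * z.arg) = z := by
  have := Complex.norm_mul_exp_arg_mul_I z
  rw [hz] at this
  rw [mul_comm]
  simpa using this

theorem rot_dense (ω s : ℂ) (hω : ‖ω‖ = 1) (h1 : ω ≠ 1) (hs : ‖s‖ = 1) (m : ℕ) :
    ∃ k, m ≤ k ∧ ‖ω ^ k - s‖ ≤ 2 * ‖ω - 1‖ := by
  -- the angle and its sign
  set θ : ℝ := ω.arg with hθ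
  have hωe : Complex.exp (Complex.I * θ) = ω := rotd_unit ω hω
  have hse : Complex.exp (Complex.I * s.arg) = s := rotd_unit s hs
  have hθ0 : θ ≠ 0 := by
    intro h
    apply h1
    rw [← hωe, h]
    simp
  have hpos : 0 < |θ| := abs_pos.2 hθ0
  obtain ⟨σ, hσ, hσ'⟩ : ∃ σ : ℤ, (σ = 1 ∨ σ = -1) ∧ θ = σ * |θ| := by
    rcases lt_or_gt_of_ne hθ0 with h | h
    · exact ⟨-1, Or.inr rfl, by rw [abs_of_neg h]; push_cast; ring⟩
    · exact ⟨1, Or.inl rfl, by rw [abs_of_pos h]; push_cast; ring⟩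
  have hσσ : (σ : ℝ) * σ = 1 := by
    rcases hσ with rfl | rfl <;> norm_num
  set φ : ℝ := σ * s.arg with hφ
  obtain ⟨N, hN⟩ := exists_nat_ge ((m * |θ| - φ) / (2 * Real.pi))
  set x : ℝ := φ + N * (2 * Real.pi) with hx
  have hxm : m * |θ| ≤ x := by
    rw [div_le_iff₀ (by positivity)] at hN
    linarith
  have hx0 : 0 ≤ x := le_trans (by positivity) hxm
  refine ⟨⌊x / |θ|⌋₊, ?_, ?_⟩
  · exact Nat.le_floor ((le_div_iff₀ hpos).2 hxm)
  · set k := ⌊x / |θ|⌋₊ with hk
    have hk1 : (k : ℝ) * |θ| ≤ x := by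
      have := Nat.floor_le (div_nonneg hx0 hpos.le)
      exact (le_div_iff₀ hpos).1 this
    have hk2 : x < (k + 1) * |θ| := by
      have := Nat.lt_floor_add_one (x / |θ|)
      exact (div_lt_iff₀ hpos).1 this
    have hs' : s = Complex.exp (Complex.I * ((σ * x : ℝ) : ℂ)) := by
      rw [← hse]
      have e : ((σ * x : ℝ) : ℝ) = s.arg + ((σ * N : ℤ) : ℝ) * (2 * Real.pi) := by
        rw [hx, hφ]
        push_cast
        have : (σ : ℝ) * (σ * s.arg + N * (2 * Real.pi)) =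
          (σ * σ) * s.arg + σ * N * (2 * Real.pi) := by ring
        rw [this, hσσ, one_mul]
      rw [e]
      have : Complex.I * ((s.arg + ((σ * N : ℤ) : ℝ) * (2 * Real.pi) : ℝ) : ℂ) =
          Complex.I * s.arg + ((σ * N : ℤ) : ℂ) * (2 * Real.pi * Complex.I) := by
        push_cast
        ring
      rw [this, Complex.exp_add, Complex.exp_int_mul_two_pi_mul_I, mul_one]
    have hωk : ω ^ k = Complex.exp (Complex.I * ((σ * (k * |θ|) : ℝ) : ℂ)) := by
      rw [← hωe, ← Complex.exp_nat_mul]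
      congr 1
      have : (θ : ℂ) = ((σ * |θ| : ℝ) : ℂ) := by rw [← hσ']
      rw [this]
      push_cast
      ring
    have hdiff : ω ^ k - s = Complex.exp (Complex.I * ((σ * x : ℝ) : ℂ)) *
        (Complex.exp (Complex.I * ((σ * (k * |θ| - x) : ℝ) : ℂ)) - 1) := by
      rw [hωk, mul_sub, ← Complex.exp_add, mul_one, ← hs']
      congr 2
      push_cast
      ring
    have hn1 : ‖Complex.exp (Complex.I * ((σ * x : ℝ) : ℂ))‖ = 1 := by
      rw [mul_comm, Complex.norm_exp_ofReal_mul_I]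
    rw [hdiff, norm_mul, hn1, one_mul]
    have habs : |(σ : ℝ)| = 1 := by
      rcases hσ with rfl | rfl <;> norm_num
    calc ‖Complex.exp (Complex.I * ((σ * (k * |θ| - x) : ℝ) : ℂ)) - 1‖
        ≤ ‖(σ * (k * |θ| - x) : ℝ)‖ := Real.norm_exp_I_mul_ofReal_sub_one_le
      _ = |k * |θ| - x| := by rw [Real.norm_eq_abs, abs_mul, habs, one_mul]
      _ ≤ |θ| := by
          rw [abs_le]
          constructor <;> nlinarith
      _ ≤ 2 * ‖Complex.exp (Complex.I * θ) - 1‖ :=
          rotd_abs_le θ (Complex.abs_arg_le_pi ω)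
      _ = 2 * ‖ω - 1‖ := by rw [hωe]

end Pool.Agent.Lib.MP_bb8441_an
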