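import Pool.Agent.Lib.MP_bb8441_an.RotSyndetic
import Pool.Agent.Lib.MP_bb8441_an.RotDense

/-! Alignment of one further rotation at an almost period of the earlier ones. -/

set_option autoImplicit false

namespace Pool.Agent.Lib.MP_bb8441_an

private theorem align_pow_sub_one (ω : ℂ) (hω : ‖ω‖ = 1) (j : ℕ) :
    ‖ω ^ j - 1‖ ≤ j * ‖ω - 1‖ := by
  induction j with
  | zero => simp
  | succ j ih =>
    have h1 : ω ^ (j + 1) - 1 = ω ^ j * (ω - 1) + (ω ^ j - 1) := by ring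
    rw [h1]
    refine (norm_add_le _ _).trans ?_
    rw [norm_mul, norm_pow, hω, one_pow, one_mul]
    push_cast
    linarith

theorem align (Ω : Finset ℂ) (hΩ : ∀ c ∈ Ω, ‖c‖ = 1) (t : ℕ) (τ : ℝ) (hτ : 0 < τ) :
    ∃ δ > 0, ∀ ω : ℂ, ‖ω‖ = 1 → ω ≠ 1 → ‖ω - 1‖ < δ → ∀ s : ℂ, ‖s‖ = 1 →
      ∃ n : ℕ, (∀ c ∈ Ω, ‖c ^ n - 1‖ < τ) ∧ ‖ω ^ (n + t) - s‖ < τ := by
  obtain ⟨g, hg⟩ := syndetic Ω hΩ τ hτ
  have hg0 : (0 : ℝ) < (g : ℝ) + 3 := by positivity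
  refine ⟨τ / (g + 3), div_pos hτ hg0, ?_⟩
  intro ω hω h1 hδ s hs
  obtain ⟨k, hk, hks⟩ := rot_dense ω s hω h1 hs t
  obtain ⟨n, hn1, hn2, hn⟩ := hg (k - t)
  refine ⟨n, hn, ?_⟩
  obtain ⟨j, hj⟩ : ∃ j, n + t = k + j := ⟨n + t - k, by omega⟩
  have hjg : j ≤ g := by omega
  have h2 : ‖ω ^ (n + t) - ω ^ k‖ ≤ g * ‖ω - 1‖ := by
    have h3 : ω ^ (n + t) - ω ^ k = ω ^ k * (ω ^ j - 1) := by rw [hj, pow_add]; ring
    rw [h3, norm_mul, norm_pow, hω, one_pow, one_mul]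
    refine (align_pow_sub_one ω hω j).trans ?_
    exact mul_le_mul_of_nonneg_right (by exact_mod_cast hjg) (norm_nonneg _)
  have h4 : ‖ω ^ (n + t) - s‖ ≤ ‖ω ^ (n + t) - ω ^ k‖ + ‖ω ^ k - s‖ := norm_sub_le_norm_sub_add_norm_sub _ _ _
  rw [lt_div_iff₀ hg0] at hδ
  have h5 := norm_nonneg (ω - 1)
  nlinarith

end Pool.Agent.Lib.MP_bb8441_an
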