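import Pool.Agent.Lib.MP_bb8441_an.Correct
import Pool.Agent.Lib.MP_bb8441_an.Child

/-! One full stage of the construction. -/

set_option autoImplicit false

namespace Pool.Agent.Lib.MP_bb8441_an

variable {X : Type*} [NormedAddCommGroup X] [NormedSpace ℂ X]

theorem step [CompleteSpace X] (T : X →L[ℂ] X) (Λ R : Set ℂ)
    (H1 : ∀ c : ℂ, DenseRange fun x => T x - c • x)
    (hR : ∀ c ∈ R, c ∈ spectrum ℂ T)
    (H2 : Dense (Submodule.span ℂ {x : X | ∃ c ∈ Λ, T x = c • x} : Set X))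
    (H3 : ∀ a ∈ Λ, ∀ δ > 0, ∃ c ∈ R, c ≠ a ∧ ‖c - a‖ < δ)
    (s : State X) (hs : State.Inv T Λ R s) (ε : ℝ) (hε : 0 < ε)
    (hE : State.Err s (ε ^ 2 / (6 * ((s.P.card : ℝ) + 1)))) (x : X) (ε' : ℝ) (hε' : 0 < ε') :
    ∃ s' : State X, State.Inv T Λ R s' ∧ State.Ext s s' (2 * ε) ∧
      (∃ y ∈ Submodule.span ℂ (s'.u '' (s'.A : Set ℂ)), ‖x - y‖ < ε) ∧
      (∀ a ∈ s.A, ∃ c ∈ s'.B ∪ s'.P, c ≠ a ∧ ‖s'.u c - s'.u a‖ < ε) ∧
      State.Err s' (ε' ^ 2 / (6 * ((s'.P.card : ℝ) + 1))) := by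
  set η' : ℝ := ε' ^ 2 / (6 * ((s.P.card : ℝ) + (s.A.card : ℝ) + 1)) with hη'def
  have hη' : 0 < η' := by positivity
  obtain ⟨s1, hs1, hext1, hB1, hP1, hE1⟩ := correct_all T Λ R H1 hR H2 s hs ε hε hE η' hη'
  obtain ⟨s2, hs2, hnode, y, hy, hxy⟩ :=
    add_nodes T Λ R H1 H2 s1 hs1 x ε hε
  have hE2 : State.Err s2 η' := by
    intro c hc
    have hc1 : c ∈ s1.P := by rw [← hnode.P_eq]; exact hc
    rw [hnode.S_eq, hnode.u_eq c (Finset.mem_union_right _ hc1)]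
    exact hE1 c hc1
  have hA₀ : s.A ⊆ s2.A := fun c hc => hnode.A_sub (hext1.A_sub hc)
  obtain ⟨s3, hs3, hchild, hE3, hcard, hkids⟩ :=
    child_all T Λ R s2 hs2 H3 s.A hA₀ ε hε η' hη' hE2
  have hu32 : ∀ c ∈ s2.A ∪ s2.B ∪ s2.P, s3.u c = s2.u c := hchild.u_eq
  have hu21 : ∀ c ∈ s1.A ∪ s1.B ∪ s1.P, s2.u c = s1.u c := hnode.u_eq
  have hsub : ∀ c ∈ s1.A ∪ s1.B ∪ s1.P, c ∈ s2.A ∪ s2.B ∪ s2.P := by
    intro c hc
    rw [Finset.mem_union, Finset.mem_union] at hc ⊢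
    rcases hc with (hc | hc) | hc
    · exact Or.inl (Or.inl (hnode.A_sub hc))
    · exact Or.inl (Or.inr (by rw [hnode.B_eq]; exact hc))
    · exact Or.inr (by rw [hnode.P_eq]; exact hc)
  have hu31 : ∀ c ∈ s1.A ∪ s1.B ∪ s1.P, s3.u c = s1.u c := fun c hc =>
    (hu32 c (hsub c hc)).trans (hu21 c hc)
  refine ⟨s3, hs3, ?_, ?_, hkids, ?_⟩
  · refine ⟨?_, ?_, ?_, ?_, ?_, ?_⟩
    · rw [hchild.A_eq]
      exact hA₀
    · intro c hc
      refine hchild.B_sub ?_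
      rw [hnode.B_eq, hB1]
      exact hc
    · intro c hc
      refine hchild.P_sub ?_
      rw [hnode.P_eq, hP1]
      exact hc
    · intro c hc
      have hc1 : c ∈ s1.A ∪ s1.B := by
        rw [Finset.mem_union] at hc ⊢
        rcases hc with hc | hc
        · exact Or.inl (hext1.A_sub hc)
        · exact Or.inr (hext1.B_sub hc)
      rw [hu31 c (Finset.mem_union_left _ hc1), hext1.u_eq c hc]
    · intro c hc
      have hc1 : c ∈ s1.P := hext1.P_sub hc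
      rw [hu31 c (Finset.mem_union_right _ hc1)]
      have := hext1.u_near c hc
      linarith
    · have h1 : s3.S - s.S = (s3.S - s2.S) + (s1.S - s.S) := by
        rw [hnode.S_eq]
        abel
      rw [h1]
      have h2 := norm_add_le (s3.S - s2.S) (s1.S - s.S)
      have h3 := hchild.S_near
      have h4 := hext1.S_near
      linarith
  · refine ⟨y, ?_, hxy⟩
    have himg : s3.u '' (s3.A : Set ℂ) = s2.u '' (s2.A : Set ℂ) := by
      rw [hchild.A_eq]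
      refine Set.image_congr fun c hc => ?_
      exact hu32 c (Finset.mem_union_left _ (Finset.mem_union_left _ hc))
    rw [himg]
    exact hy
  · intro c hc
    refine lt_of_lt_of_le (hE3 c hc) ?_
    rw [hη'def]
    have hcard' : ((s3.P.card : ℕ) : ℝ) ≤ (s.P.card : ℝ) + (s.A.card : ℝ) := by
      have h1 : s2.P.card = s.P.card := by rw [hnode.P_eq, hP1]
      rw [h1] at hcard
      exact_mod_cast hcard
    apply div_le_div_of_nonneg_left (by positivity) (by positivity)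
    linarith

end Pool.Agent.Lib.MP_bb8441_an
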